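import Mathlib
import Pool.Agent.W994.AR.FB
import Pool.Agent.NPC.Classes

/-!
# The Bodirsky-Pinsker conjecture: definitions

The notions of relational structures (`Str`), primitive positive formulas (`PPDef`), `K₃`
(`PPConstructsK3`), homogeneous and finitely bounded structures (`Homogeneous`, `FinitelyBounded`),
automorphism groups (`autGroup`) are those of `Pool.Agent.W994.AR`, the class `P` (`InPP`) is that
of `Pool.Agent.NPC` (Mathlib's Turing machines).
-/

namespace Pool.Agent.P8H87

open Pool.Agent.W994.AR Pool.Agent.NPC

/-- Instances, that is finite structures: the domain is `{0, ..., n - 1}` where `n` is the length of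
the first component, and the second component lists the pairs `(i, l)` such that the relation number
`i` holds for the tuple `l`. -/
abbrev Inst : Type := List Unit × List (ℕ × List ℕ)

/-- The instance is a structure with relation symbols `0, ..., n - 1` of the arities `ar`. -/
def IsInst {n : ℕ} (ar : Fin n → ℕ) (I : Inst) : Prop :=
  ∀ p ∈ I.2, ∃ i : Fin n, p.1 = i ∧ p.2.length = ar i ∧ ∀ a ∈ p.2, a < I.1.length

/-- `h` is a homomorphism from the finite structure `I` to `𝔸`. -/
def IsSol {A : Type} {n : ℕ} {ar : Fin n → ℕ} (𝔸 : Str (Fin n) ar A) (I : Inst)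
    (h : Fin I.1.length → A) : Prop :=
  ∀ (i : Fin n) (v : Fin (ar i) → Fin I.1.length),
    ((i : ℕ), List.ofFn (fun j => (v j : ℕ))) ∈ I.2 → (fun j => h (v j)) ∈ 𝔸 i

/-- The constraint satisfaction problem of `𝔸`: is there a homomorphism from the given finite
structure to `𝔸`? -/
def CSP {A : Type} {n : ℕ} {ar : Fin n → ℕ} (𝔸 : Str (Fin n) ar A) (I : Inst) : Prop :=
  IsInst ar I ∧ ∃ h, IsSol 𝔸 I h

end Pool.Agent.P8H87
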