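import Mathlib

/-!
# Gadget families and generic structures

A gadget family consists of finitely many finite `K`-ary hypergraphs (with ordered edges) on the
vertex set `Fin N`, with distinguished blocks of `K` vertices. A structure with a `K`-ary relation
`Q` and a colouring `φ` of the `K`-tuples is valid if the colours of the blocks of each copy of the
gadget `j` satisfy the relation `rel j`. There is a countable valid structure with the extension
property.
-/

namespace Pool.Agent.P8H87

open Function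

/-- A family of gadgets on `N` vertices. -/
structure Gad (K N : ℕ) (B : Type) where
  /-- the index set -/
  J : Type
  /-- the edges -/
  edges : J → Set (Fin K → Fin N)
  /-- the number of blocks -/
  ar : J → ℕ
  /-- the blocks -/
  blk : ∀ j, Fin (ar j) → Fin K → Fin N
  /-- the relation for the colours of the blocks -/
  rel : ∀ j, Set (Fin (ar j) → B)
  /-- the gadgets are irreducible -/
  irr : ∀ j a b, ∃ s ∈ edges j, (∃ i, s i = a) ∧ ∃ i, s i = b
  /-- blocks are injective -/
  binj : ∀ j a, Injective (blk j a)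

variable {K N : ℕ} {B : Type}

/-- valid structures -/
def Gad.Valid (G : Gad K N B) {Y : Type} (Q : Set (Fin K → Y)) (φ : (Fin K → Y) → B) : Prop :=
  (∀ t ∈ Q, Injective t) ∧
  ∀ (j : G.J) (g : Fin N → Y), (∀ s ∈ G.edges j, g ∘ s ∈ Q) →
    (fun a => φ (g ∘ G.blk j a)) ∈ G.rel j

theorem Gad.inj (G : Gad K N B) {Y : Type} {Q : Set (Fin K → Y)} (hQ : ∀ t ∈ Q, Injective t)
    {j : G.J} {g : Fin N → Y} (hg : ∀ s ∈ G.edges j, g ∘ s ∈ Q) : Injective g := by
  intro a b hab
  obtain ⟨s, hs, ⟨i, rfl⟩, ⟨i', rfl⟩⟩ := G.irr j a b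
  rw [hQ _ (hg s hs) hab]

/-- `e` is injective on `F`, and preserves the relation and the colours of injective tuples -/
def Exact {Y Z : Type} (Q : Set (Fin K → Y)) (φ : (Fin K → Y) → B) (Q' : Set (Fin K → Z))
    (φ' : (Fin K → Z) → B) (F : Set Y) (e : Y → Z) : Prop :=
  Set.InjOn e F ∧ ∀ t : Fin K → Y, (∀ i, t i ∈ F) →
    (t ∈ Q ↔ e ∘ t ∈ Q') ∧ (Injective t → φ t = φ' (e ∘ t))

/-- one-point extension property -/
def Gad.Ext (G : Gad K N B) {Ω : Type} (Q : Set (Fin K → Ω)) (φ : (Fin K → Ω) → B) : Prop :=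
  ∀ (Y : Type) [Finite Y] (Q' : Set (Fin K → Y)) (φ' : (Fin K → Y) → B), G.Valid Q' φ' →
    ∀ (y : Y) (e : Y → Ω), Exact Q' φ' Q φ {x | x ≠ y} e →
      ∃ e' : Y → Ω, Exact Q' φ' Q φ Set.univ e' ∧ ∀ x, x ≠ y → e' x = e x

theorem exists_lab (τ B : Type) [Countable τ] [Countable B] [Nonempty B] :
    ∃ lab : ℕ → Set τ × (τ → B), ∀ (T T' : Set τ) (c : τ → B) (m : ℕ), T.Finite → T'.Finite →
      ∃ n ≥ m, (lab n).1 = T ∧ ∀ t ∈ T', (lab n).2 t = c t := by
  classical
  obtain ⟨g, hg⟩ := exists_surjective_nat (Finset τ × (τ →₀ ℕ))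
  obtain ⟨e, he⟩ := exists_surjective_nat B
  refine ⟨fun n => (((g n.unpair.1).1 : Set τ), fun t => e ((g n.unpair.1).2 t)), ?_⟩
  intro T T' c m hT hT'
  choose code hcode using he
  let f : τ →₀ ℕ := Finsupp.onFinset hT'.toFinset
    (fun t => if t ∈ T' then code (c t) else 0) (by
      intro a ha
      rw [Set.Finite.mem_toFinset]
      by_contra h
      exact ha (if_neg h))
  obtain ⟨p, hp⟩ := hg (hT.toFinset, f)
  refine ⟨Nat.pair p m, Nat.right_le_pair p m, ?_, ?_⟩
  · simp [Nat.unpair_pair, hp]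
  · intro t ht
    simp only [Nat.unpair_pair, hp]
    have : f t = code (c t) := by
      simp [f, ht]
    rw [this, hcode]

section

/-- the maximum of a tuple -/
def mx (t : Fin K → ℕ) : ℕ := Finset.univ.sup t

theorem le_mx (t : Fin K → ℕ) (i : Fin K) : t i ≤ mx t := Finset.le_sup (Finset.mem_univ i)

theorem mx_eq {t : Fin K → ℕ} {n : ℕ} (h : ∀ i, t i ≤ n) (h' : ∃ i, t i = n) : mx t = n := by
  apply le_antisymm
  · exact Finset.sup_le fun i _ => h i
  · obtain ⟨i, rfl⟩ := h'
    exact le_mx t i

/-- the tuple with its maximum replaced by a hole -/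
def opt (t : Fin K → ℕ) : Fin K → Option ℕ := fun i => if t i = mx t then none else some (t i)

variable (lab : ℕ → Set (Fin K → Option ℕ) × ((Fin K → Option ℕ) → B))

/-- the relation on all natural numbers -/
def Q0 : Set (Fin K → ℕ) := {t | Injective t ∧ opt t ∈ (lab (mx t)).1}

/-- the colouring on all natural numbers -/
def phi0 (t : Fin K → ℕ) : B := (lab (mx t)).2 (opt t)

/-- the natural numbers which belong to the generic structure -/
def Good (G : Gad K N B) (ω : ℕ) : Prop :=
  ∀ (j : G.J) (g : Fin N → ℕ), (∀ i, g i ≤ ω) → (∃ i, g i = ω) →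
    (∀ i, g i < ω → Good G (g i)) → (∀ s ∈ G.edges j, g ∘ s ∈ Q0 lab) →
      (fun a => phi0 lab (g ∘ G.blk j a)) ∈ G.rel j
termination_by ω

theorem good_iff (G : Gad K N B) (ω : ℕ) : Good lab G ω ↔
  ∀ (j : G.J) (g : Fin N → ℕ), (∀ i, g i ≤ ω) → (∃ i, g i = ω) →
    (∀ i, g i < ω → Good lab G (g i)) → (∀ s ∈ G.edges j, g ∘ s ∈ Q0 lab) →
      (fun a => phi0 lab (g ∘ G.blk j a)) ∈ G.rel j := by
  rw [Good]

/-- **The generic structure exists.** -/
theorem exists_generic (G : Gad K N B) [Countable B] [Nonempty B] (hN : 1 ≤ N) :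
    ∃ (Ω : Type) (_ : Countable Ω) (_ : Nonempty Ω) (Q : Set (Fin K → Ω))
      (φ : (Fin K → Ω) → B), G.Valid Q φ ∧ G.Ext Q φ := by
  classical
  obtain ⟨lab, hlab⟩ := exists_lab (Fin K → Option ℕ) B
  have hne : Nonempty {n // Good lab G n} := by
    obtain ⟨n, -, hn, -⟩ := hlab ∅ ∅ (fun _ => Classical.arbitrary B) 0 Set.finite_empty
      Set.finite_empty
    refine ⟨⟨n, ?_⟩⟩
    rw [good_iff]
    rintro j g hg1 ⟨i0, hi0⟩ - hg3
    exfalso
    obtain ⟨s, hs, ⟨i, hi⟩, -⟩ := G.irr j i0 i0
    have h1 := (hg3 s hs).2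
    have h2 : mx (g ∘ s) = n := mx_eq (fun i => hg1 _) ⟨i, by simp [hi, hi0]⟩
    rw [h2, hn] at h1
    exact h1
  refine ⟨{n // Good lab G n}, inferInstance, hne, {t | (fun i => (t i).1) ∈ Q0 lab},
    fun t => phi0 lab (fun i => (t i).1), ⟨?_, ?_⟩, ?_⟩
  · intro t ht i i' hii
    exact ht.1 (congrArg Subtype.val hii)
  · intro j g hg
    let n : ℕ := Finset.univ.sup (fun i => (g i).1)
    obtain ⟨i0, -, hi0⟩ := Finset.exists_mem_eq_sup (Finset.univ : Finset (Fin N))
      ⟨⟨0, hN⟩, Finset.mem_univ _⟩ (fun i => (g i).1)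
    have hle : ∀ i, (g i).1 ≤ n := fun i =>
      Finset.le_sup (f := fun i => (g i).1) (Finset.mem_univ i)
    have hn : Good lab G n := by
      show Good lab G (Finset.univ.sup (fun i => (g i).1))
      rw [hi0]
      exact (g i0).2
    exact (good_iff lab G n).1 hn j (fun i => (g i).1) hle ⟨i0, hi0.symm⟩
      (fun i _ => (g i).2) hg
  · intro Y _ Q' φ' hV y e he
    have hinj : ∀ x x', x ≠ y → x' ≠ y → (e x).1 = (e x').1 → x = x' := fun x x' hx hx' h =>
      he.1 hx hx' (Subtype.ext h)
    let enc : Y → Option ℕ := fun x => if x = y then none else some (e x).1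
    have henc : Injective enc := by
      intro x x' h
      simp only [enc] at h
      split_ifs at h with h1 h2 h2
      · rw [h1, h2]
      · exact hinj x x' h1 h2 (Option.some.inj h)
    have hency : ∀ x, enc x = none ↔ x = y := by
      intro x
      simp only [enc]
      split_ifs with h1 <;> simp [h1]
    let c : (Fin K → Option ℕ) → B := fun t =>
      if h : ∃ t' : Fin K → Y, enc ∘ t' = t then φ' h.choose else Classical.arbitrary B
    have hc : ∀ t' : Fin K → Y, c (enc ∘ t') = φ' t' := by
      intro t'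
      have h : ∃ t'' : Fin K → Y, enc ∘ t'' = enc ∘ t' := ⟨t', rfl⟩
      simp only [c, dif_pos h]
      congr 1
      funext i
      exact henc (congrFun h.choose_spec i)
    have := Fintype.ofFinite Y
    obtain ⟨n, hn, hn1, hn2⟩ := hlab {t | ∃ t' ∈ Q', (∃ i, t' i = y) ∧ t = enc ∘ t'}
      (Set.range fun t' : Fin K → Y => enc ∘ t') c (Finset.univ.sup (fun x => (e x).1) + 1)
      ((Set.finite_range fun t' : Fin K → Y => enc ∘ t').subset (by
        rintro t ⟨t', _, _, rfl⟩
        exact ⟨t', rfl⟩)) (Set.finite_range _)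
    have hlt : ∀ x, (e x).1 < n := fun x =>
      lt_of_le_of_lt (Finset.le_sup (f := fun x => (e x).1) (Finset.mem_univ x)) hn
    let upd : Y → ℕ := fun x => if x = y then n else (e x).1
    have hupdy : upd y = n := if_pos rfl
    have hupdx : ∀ x, x ≠ y → upd x = (e x).1 := fun x hx => if_neg hx
    have hupdle : ∀ x, upd x ≤ n := by
      intro x
      simp only [upd]
      split_ifs
      · exact le_rfl
      · exact (hlt x).le
    have hupdn : ∀ x, upd x = n ↔ x = y := by
      intro x
      constructor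
      · intro h
        by_contra hx
        rw [hupdx x hx] at h
        exact absurd h (hlt x).ne
      · rintro rfl
        exact hupdy
    have hupdinj : Injective upd := by
      intro x x' h
      by_cases hx : x = y
      · rw [hx, hupdy] at h
        rw [hx]
        exact ((hupdn x').1 h.symm).symm
      · by_cases hx' : x' = y
        · rw [hx', hupdy] at h
          exact absurd ((hupdn x).1 h) hx
        · rw [hupdx x hx, hupdx x' hx'] at h
          exact hinj x x' hx hx' h
    have hmx : ∀ t' : Fin K → Y, (∃ i, t' i = y) → mx (upd ∘ t') = n := by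
      rintro t' ⟨i, hi⟩
      apply mx_eq
      · intro i
        exact hupdle _
      · exact ⟨i, by simp [hi, hupdy]⟩
    have hopt : ∀ t' : Fin K → Y, (∃ i, t' i = y) → opt (upd ∘ t') = enc ∘ t' := by
      intro t' h
      funext i
      simp only [opt, hmx t' h, comp, enc]
      by_cases hi : t' i = y
      · rw [if_pos hi, if_pos ((hupdn _).2 hi)]
      · rw [if_neg hi, if_neg (fun h => hi ((hupdn _).1 h)), hupdx _ hi]
    have hC : ∀ t' : Fin K → Y, (∃ i, t' i = y) → (t' ∈ Q' ↔ upd ∘ t' ∈ Q0 lab) := by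
      intro t' h
      show _ ↔ Injective (upd ∘ t') ∧ opt (upd ∘ t') ∈ (lab (mx (upd ∘ t'))).1
      rw [hmx t' h, hopt t' h, hn1]
      constructor
      · intro ht
        exact ⟨hupdinj.comp (hV.1 t' ht), t', ht, h, rfl⟩
      · rintro ⟨-, t'', ht'', -, h2⟩
        have : t' = t'' := by
          funext i
          exact henc (congrFun h2 i)
        rwa [this]
    have hD : ∀ t' : Fin K → Y, (∃ i, t' i = y) → phi0 lab (upd ∘ t') = φ' t' := by
      intro t' h
      show (lab (mx (upd ∘ t'))).2 (opt (upd ∘ t')) = _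
      rw [hmx t' h, hopt t' h, hn2 _ ⟨t', rfl⟩, hc]
    have hE : ∀ t' : Fin K → Y, (∀ i, t' i ≠ y) → upd ∘ t' = fun i => (e (t' i)).1 := by
      intro t' h
      funext i
      exact hupdx _ (h i)
    have hE1 : ∀ t' : Fin K → Y, (∀ i, t' i ≠ y) → (t' ∈ Q' ↔ upd ∘ t' ∈ Q0 lab) := by
      intro t' h
      rw [hE t' h]
      exact (he.2 t' h).1
    have hE2 : ∀ t' : Fin K → Y, (∀ i, t' i ≠ y) → Injective t' →
        phi0 lab (upd ∘ t') = φ' t' := by
      intro t' h h'
      rw [hE t' h]
      exact ((he.2 t' h).2 h').symm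
    have hQ : ∀ t' : Fin K → Y, (t' ∈ Q' ↔ upd ∘ t' ∈ Q0 lab) := by
      intro t'
      by_cases h : ∃ i, t' i = y
      · exact hC t' h
      · push Not at h
        exact hE1 t' h
    have hφ : ∀ t' : Fin K → Y, Injective t' → phi0 lab (upd ∘ t') = φ' t' := by
      intro t' h'
      by_cases h : ∃ i, t' i = y
      · exact hD t' h
      · push Not at h
        exact hE2 t' h h'
    have hgood : Good lab G n := by
      rw [good_iff]
      rintro j g hg1 ⟨i0, hi0⟩ hg2 hg3
      have hex : ∀ a, ∃ x, upd x = g a := by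
        intro a
        by_cases ha : g a = n
        · exact ⟨y, by rw [ha, hupdy]⟩
        · obtain ⟨s, hs, ⟨i, hi⟩, ⟨i', hi'⟩⟩ := G.irr j a i0
          have h1 := (hg3 s hs).2
          have h2 : mx (g ∘ s) = n := mx_eq (fun i => hg1 _) ⟨i', by simp [hi', hi0]⟩
          rw [h2, hn1] at h1
          obtain ⟨t'', -, -, h3⟩ := h1
          have h4 := congrFun h3 i
          simp only [opt, h2, comp, hi, if_neg ha] at h4
          have h5 : t'' i ≠ y := by
            intro h
            rw [(hency _).2 h] at h4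
            exact absurd h4 (by simp)
          refine ⟨t'' i, ?_⟩
          rw [hupdx _ h5]
          simp only [enc, if_neg h5] at h4
          exact (Option.some.inj h4).symm
      choose g' hg' using hex
      have hgg : ∀ {m : ℕ} (s : Fin m → Fin N), g ∘ s = upd ∘ (g' ∘ s) := by
        intro m s
        funext i
        exact (hg' _).symm
      have h6 : ∀ s ∈ G.edges j, g' ∘ s ∈ Q' := by
        intro s hs
        rw [hQ, ← hgg]
        exact hg3 s hs
      have h7 := hV.2 j g' h6
      have h8 : Injective g' := G.inj hV.1 h6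
      have h9 : (fun a => phi0 lab (g ∘ G.blk j a)) = fun a => φ' (g' ∘ G.blk j a) := by
        funext a
        rw [hgg, hφ _ (h8.comp (G.binj j a))]
      rw [h9]
      exact h7
    have hval : ∀ x, ((if x = y then (⟨n, hgood⟩ : {n // Good lab G n}) else e x)).1 =
        upd x := by
      intro x
      simp only [upd]
      split_ifs <;> rfl
    refine ⟨fun x => if x = y then ⟨n, hgood⟩ else e x, ⟨?_, ?_⟩, fun x hx => if_neg hx⟩
    · intro x _ x' _ h
      apply hupdinj
      have h1 := congrArg Subtype.val h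
      rwa [hval, hval] at h1
    · intro t' _
      have h1 : (fun i => ((fun x => if x = y then (⟨n, hgood⟩ : {n // Good lab G n}) else e x)
          (t' i)).1) = upd ∘ t' := by
        funext i
        exact hval _
      constructor
      · rw [hQ, ← h1]
        exact Iff.rfl
      · intro h
        rw [← hφ t' h, ← h1]
        rfl

end

end Pool.Agent.P8H87
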