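import Mathlib
import Pool.Agent.W994.AR.FB
import Pool.Agent.P8H87.Gad

/-!
# Homogeneity of the generic structure
-/

namespace Pool.Agent.P8H87

open Function Pool.Agent.W994.AR

/-! ### Back and forth -/

section

variable {Ω : Type}

open Classical in
theorem back_forth [Countable Ω] (P : Finset Ω → (Ω → Ω) → Prop)
    (hinj : ∀ F h, P F h → Set.InjOn h F)
    (forth : ∀ F h, P F h → ∀ x, ∃ h', P (insert x F) h' ∧ ∀ a ∈ F, h' a = h a)
    (back : ∀ F h, P F h → ∀ y, ∃ x h', P (insert x F) h' ∧ (∀ a ∈ F, h' a = h a) ∧ h' x = y)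
    (F0 : Finset Ω) (h0 : Ω → Ω) (h : P F0 h0) :
    ∃ g : Equiv.Perm Ω, (∀ x ∈ F0, g x = h0 x) ∧
      ∀ S : Finset Ω, ∃ F h, S ⊆ F ∧ P F h ∧ ∀ x ∈ F, g x = h x := by
  rcases isEmpty_or_nonempty Ω with hΩ | hΩ
  · exact ⟨Equiv.refl _, fun x => isEmptyElim x,
      fun S => ⟨F0, h0, fun x => isEmptyElim x, h, fun x => isEmptyElim x⟩⟩
  obtain ⟨e, he⟩ := exists_surjective_nat Ω
  let St := {p : Finset Ω × (Ω → Ω) // P p.1 p.2}
  have hstep : ∀ (n : ℕ) (s : St), ∃ s' : St, s.1.1 ⊆ s'.1.1 ∧ (∀ a ∈ s.1.1, s'.1.2 a = s.1.2 a) ∧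
      e n ∈ s'.1.1 ∧ ∃ x ∈ s'.1.1, s'.1.2 x = e n := by
    rintro n ⟨⟨F, h⟩, hP⟩
    obtain ⟨h', hP', hh'⟩ := forth F h hP (e n)
    obtain ⟨x, h'', hP'', hh'', hx⟩ := back _ h' hP' (e n)
    refine ⟨⟨(_, h''), hP''⟩, ?_, ?_, ?_, x, ?_, hx⟩
    · exact (Finset.subset_insert _ _).trans (Finset.subset_insert _ _)
    · intro a ha
      show h'' a = h a
      rw [hh'' a (Finset.mem_insert_of_mem ha), hh' a ha]
    · exact Finset.mem_insert_of_mem (Finset.mem_insert_self _ _)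
    · exact Finset.mem_insert_self _ _
  choose nxt hn1 hn2 hn3 hn4 using hstep
  let s : ℕ → St := fun n => Nat.rec (⟨(F0, h0), h⟩ : St) (fun n st => nxt n st) n
  have hs : ∀ n, s (n + 1) = nxt n (s n) := fun n => rfl
  have hmono : ∀ m n, m ≤ n → (s m).1.1 ⊆ (s n).1.1 ∧ ∀ a ∈ (s m).1.1, (s n).1.2 a = (s m).1.2 a := by
    intro m n hmn
    induction n, hmn using Nat.le_induction with
    | base => exact ⟨le_rfl, fun a _ => rfl⟩
    | succ n _ ih =>
      rw [hs]
      refine ⟨ih.1.trans (hn1 n (s n)), fun a ha => ?_⟩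
      rw [hn2 n (s n) a (ih.1 ha), ih.2 a ha]
  have hex : ∀ x : Ω, ∃ n, x ∈ (s n).1.1 := by
    intro x
    obtain ⟨n, rfl⟩ := he x
    exact ⟨n + 1, by rw [hs]; exact hn3 n (s n)⟩
  choose ix hix using hex
  let g0 : Ω → Ω := fun x => (s (ix x)).1.2 x
  have hg0 : ∀ n x, x ∈ (s n).1.1 → g0 x = (s n).1.2 x := by
    intro n x hx
    rcases le_total n (ix x) with h1 | h1
    · exact (hmono _ _ h1).2 x hx
    · exact ((hmono _ _ h1).2 x (hix x)).symm
  have hbij : Function.Bijective g0 := by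
    constructor
    · intro x y hxy
      have hx := (hmono (ix x) (max (ix x) (ix y)) (le_max_left _ _)).1 (hix x)
      have hy := (hmono (ix y) (max (ix x) (ix y)) (le_max_right _ _)).1 (hix y)
      rw [hg0 _ x hx, hg0 _ y hy] at hxy
      exact hinj _ _ (s (max (ix x) (ix y))).2 hx hy hxy
    · intro y
      obtain ⟨n, rfl⟩ := he y
      obtain ⟨x, hx, hxy⟩ := hn4 n (s n)
      refine ⟨x, ?_⟩
      rw [hg0 (n + 1) x (by rw [hs]; exact hx), hs, hxy]
  refine ⟨Equiv.ofBijective g0 hbij, ?_, ?_⟩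
  · intro x hx
    exact hg0 0 x hx
  · intro S
    have h1 : ∃ n, S ⊆ (s n).1.1 := by
      refine ⟨S.sup ix, fun x hx => ?_⟩
      exact (hmono (ix x) _ (Finset.le_sup hx)).1 (hix x)
    obtain ⟨n, hn⟩ := h1
    exact ⟨(s n).1.1, (s n).1.2, hn, (s n).2, fun x hx => hg0 n x hx⟩

end

section

variable {K N : ℕ} {B : Type} {G : Gad K N B}

theorem Gad.Valid.comap {Y Z : Type} {Q : Set (Fin K → Z)} {φ : (Fin K → Z) → B}
    (h : G.Valid Q φ) (f : Y → Z) :
    G.Valid {t : Fin K → Y | f ∘ t ∈ Q} (fun t => φ (f ∘ t)) := by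
  constructor
  · intro t ht i i' hii
    exact h.1 _ ht (congrArg f hii)
  · intro j g hg
    exact h.2 j (f ∘ g) hg

theorem Exact.mono {Y Z : Type} {Q : Set (Fin K → Y)} {φ : (Fin K → Y) → B} {Q' : Set (Fin K → Z)}
    {φ' : (Fin K → Z) → B} {F F' : Set Y} {e : Y → Z} (h : Exact Q φ Q' φ' F e) (hF : F' ⊆ F) :
    Exact Q φ Q' φ' F' e :=
  ⟨h.1.mono hF, fun t ht => h.2 t (fun i => hF (ht i))⟩

theorem Exact.congr {Y Z : Type} {Q : Set (Fin K → Y)} {φ : (Fin K → Y) → B} {Q' : Set (Fin K → Z)}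
    {φ' : (Fin K → Z) → B} {F : Set Y} {e e' : Y → Z} (h : Exact Q φ Q' φ' F e)
    (he : ∀ x ∈ F, e' x = e x) : Exact Q φ Q' φ' F e' := by
  refine ⟨fun x hx y hy hxy => h.1 hx hy (by rw [← he x hx, ← he y hy, hxy]), fun t ht => ?_⟩
  have : e' ∘ t = e ∘ t := by
    funext i
    exact he _ (ht i)
  rw [this]
  exact h.2 t ht

theorem Exact.map {Y Z : Type} {Q : Set (Fin K → Y)} {φ : (Fin K → Y) → B} {Q' : Set (Fin K → Z)}
    {φ' : (Fin K → Z) → B} {F : Set Y} {e : Y → Z} (h : Exact Q φ Q' φ' F e) (α : B → B) :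
    Exact Q (fun t => α (φ t)) Q' (fun t => α (φ' t)) F e :=
  ⟨h.1, fun t ht => ⟨(h.2 t ht).1, fun hi => congrArg α ((h.2 t ht).2 hi)⟩⟩

theorem Exact.symm {Y Z : Type} {Q : Set (Fin K → Y)} {φ : (Fin K → Y) → B} {Q' : Set (Fin K → Z)}
    {φ' : (Fin K → Z) → B} {F : Set Y} {e : Y → Z} (h : Exact Q φ Q' φ' F e) {e' : Z → Y}
    (he : ∀ x ∈ F, e' (e x) = x) : Exact Q' φ' Q φ (e '' F) e' := by
  constructor
  · rintro _ ⟨x, hx, rfl⟩ _ ⟨y, hy, rfl⟩ hxy
    rw [he x hx, he y hy] at hxy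
    rw [hxy]
  · intro t ht
    choose t0 ht0 ht0' using ht
    have e1 : t = e ∘ t0 := funext fun i => (ht0' i).symm
    have e2 : e' ∘ t = t0 := by
      rw [e1]
      funext i
      exact he _ (ht0 i)
    have h1 := h.2 t0 ht0
    rw [e2, e1]
    refine ⟨h1.1.symm, fun hi => ?_⟩
    exact (h1.2 (Injective.of_comp hi)).symm

theorem Exact.comp {X Y Z : Type} {Q : Set (Fin K → X)} {φ : (Fin K → X) → B}
    {Q' : Set (Fin K → Y)} {φ' : (Fin K → Y) → B} {Q'' : Set (Fin K → Z)} {φ'' : (Fin K → Z) → B}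
    {F : Set X} {F' : Set Y} {e : X → Y} {e' : Y → Z} (h : Exact Q φ Q' φ' F e)
    (h' : Exact Q' φ' Q'' φ'' F' e') (hF : ∀ x ∈ F, e x ∈ F') :
    Exact Q φ Q'' φ'' F (e' ∘ e) := by
  refine ⟨fun x hx y hy hxy => h.1 hx hy (h'.1 (hF x hx) (hF y hy) hxy), fun t ht => ?_⟩
  have h1 := h.2 t ht
  have h2 := h'.2 (e ∘ t) (fun i => hF _ (ht i))
  refine ⟨h1.1.trans h2.1, fun hi => (h1.2 hi).trans (h2.2 ?_)⟩
  intro i i' hii
  exact hi (h.1 (ht i) (ht i') hii)

variable {Ω : Type} {Q : Set (Fin K → Ω)} {φ : (Fin K → Ω) → B}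

/-- extension by one point -/
theorem Gad.Ext.step (hE : G.Ext Q φ) {Y : Type} {Q' : Set (Fin K → Y)} {φ' : (Fin K → Y) → B}
    (hV : G.Valid Q' φ') {F : Set Y} (hF : F.Finite) {e : Y → Ω} (he : Exact Q' φ' Q φ F e)
    (y : Y) : ∃ e' : Y → Ω, Exact Q' φ' Q φ (insert y F) e' ∧ ∀ x ∈ F, e' x = e x := by
  classical
  by_cases hy : y ∈ F
  · exact ⟨e, by rwa [Set.insert_eq_of_mem hy], fun x _ => rfl⟩
  have hfin : Finite (insert y F : Set Y) := (hF.insert y).to_subtype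
  obtain ⟨e1, hω, hω2⟩ := hE (insert y F : Set Y) {t | (fun i => (t i).1) ∈ Q'}
    (fun t => φ' (fun i => (t i).1)) (hV.comap Subtype.val)
    ⟨y, Set.mem_insert _ _⟩ (fun x => e x.1) (by
      have hmem : ∀ x : (insert y F : Set Y), x ≠ ⟨y, Set.mem_insert _ _⟩ → x.1 ∈ F := by
        rintro ⟨x, rfl | hx⟩ h
        · exact absurd rfl h
        · exact hx
      constructor
      · intro x hx x' hx' h
        exact Subtype.ext (he.1 (hmem x hx) (hmem x' hx') h)
      · intro t ht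
        have h1 := he.2 (fun i => (t i).1) (fun i => hmem _ (ht i))
        refine ⟨h1.1, fun hi => h1.2 ?_⟩
        intro i i' hii
        exact hi (Subtype.ext hii))
  have hne : ∀ x ∈ F, x ≠ y := fun x hx h => hy (h ▸ hx)
  let e' : Y → Ω := fun x => if hx : x ∈ (insert y F : Set Y) then e1 ⟨x, hx⟩ else e x
  have key : ∀ x : (insert y F : Set Y), e1 x = e' x.1 := by
    intro x
    simp only [e', x.2, dif_pos]
  refine ⟨e', ⟨?_, ?_⟩, ?_⟩
  · intro x hx x' hx' h
    have h1 : e1 ⟨x, hx⟩ = e1 ⟨x', hx'⟩ := by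
      rw [key, key]
      exact h
    exact congrArg Subtype.val (hω.1 (Set.mem_univ _) (Set.mem_univ _) h1)
  · intro t ht
    have h1 := hω.2 (fun i => ⟨t i, ht i⟩) (fun i => Set.mem_univ _)
    have h2 : e1 ∘ (fun i => (⟨t i, ht i⟩ : (insert y F : Set Y))) = e' ∘ t := by
      funext i
      exact key _
    rw [h2] at h1
    refine ⟨h1.1, fun hi => h1.2 ?_⟩
    intro i i' hii
    exact hi (congrArg Subtype.val hii)
  · intro x hx
    have h1 : x ∈ (insert y F : Set Y) := Or.inr hx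
    simp only [e', dif_pos h1]
    exact hω2 ⟨x, h1⟩ (fun h => hne x hx (congrArg Subtype.val h))

/-- extension by finitely many points -/
theorem Gad.Ext.many (hE : G.Ext Q φ) {Y : Type} {Q' : Set (Fin K → Y)} {φ' : (Fin K → Y) → B}
    (hV : G.Valid Q' φ') {F : Set Y} (hF : F.Finite) {e : Y → Ω} (he : Exact Q' φ' Q φ F e)
    {S : Set Y} (hS : S.Finite) :
    ∃ e' : Y → Ω, Exact Q' φ' Q φ (F ∪ S) e' ∧ ∀ x ∈ F, e' x = e x := by
  induction S, hS using Set.Finite.induction_on with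
  | empty => exact ⟨e, by rwa [Set.union_empty], fun x _ => rfl⟩
  | @insert a S _ hS ih =>
    obtain ⟨e', he', hee'⟩ := ih
    obtain ⟨e'', he'', hee''⟩ := hE.step hV (hF.union hS) he' a
    refine ⟨e'', ?_, fun x hx => ?_⟩
    · rwa [Set.union_insert]
    · rw [hee'' x (Or.inl hx), hee' x hx]

/-- every finite valid structure embeds -/
theorem Gad.Ext.embed [Nonempty Ω] (hE : G.Ext Q φ) {Y : Type} [Finite Y] {Q' : Set (Fin K → Y)}
    {φ' : (Fin K → Y) → B} (hV : G.Valid Q' φ') (hK : 1 ≤ K) :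
    ∃ e : Y → Ω, Exact Q' φ' Q φ Set.univ e := by
  obtain ⟨e, he, -⟩ := hE.many hV Set.finite_empty (e := fun _ => Classical.arbitrary Ω)
    ⟨fun x hx => hx.elim, fun t ht => (ht ⟨0, hK⟩).elim⟩ (Set.finite_univ (α := Y))
  exact ⟨e, by simpa using he⟩

/-! ### The homogeneous structure -/

variable {σ : Type} {ar : σ → ℕ}

/-- the blocks of a tuple -/
def blkOf {m : ℕ} (v : Fin (m * K) → Ω) (a : Fin m) : Fin K → Ω := fun i => v (finProdFinEquiv (a, i))

/-- a tuple with given blocks -/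
def ofBlk {m : ℕ} (w : Fin m → Fin K → Ω) : Fin (m * K) → Ω := fun x =>
  w (finProdFinEquiv.symm x).1 (finProdFinEquiv.symm x).2

@[simp] theorem blkOf_ofBlk {m : ℕ} (w : Fin m → Fin K → Ω) : blkOf (ofBlk w) = w := by
  funext a i
  simp [blkOf, ofBlk]

@[simp] theorem ofBlk_blkOf {m : ℕ} (v : Fin (m * K) → Ω) : ofBlk (blkOf v) = v := by
  funext x
  show v (finProdFinEquiv (finProdFinEquiv.symm x)) = v x
  rw [Equiv.apply_symm_apply]

theorem blkOf_comp {Ω' : Type} {m : ℕ} (h : Ω → Ω') (v : Fin (m * K) → Ω) (a : Fin m) :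
    blkOf (h ∘ v) a = h ∘ blkOf v a := rfl

/-- arities of the homogeneous structure -/
def bigAr (K : ℕ) (ar : σ → ℕ) : Option σ → ℕ
  | none => K
  | some s => ar s * K

/-- The homogeneous structure: the relation `Q` and, for each relation of `𝔹`, the relation for
the colours of the blocks. -/
def big (𝔹 : Str σ ar B) (Q : Set (Fin K → Ω)) (φ : (Fin K → Ω) → B) :
    Str (Option σ) (bigAr K ar) Ω
  | none => Q
  | some s => {v | (∀ a, Injective (blkOf v a)) ∧ (fun a => φ (blkOf v a)) ∈ 𝔹 s}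

theorem mem_big_some {𝔹 : Str σ ar B} {s : σ} {v : Fin (ar s * K) → Ω} :
    v ∈ big 𝔹 Q φ (some s) ↔ (∀ a, Injective (blkOf v a)) ∧ (fun a => φ (blkOf v a)) ∈ 𝔹 s :=
  Iff.rfl

theorem mem_big_none {𝔹 : Str σ ar B} {v : Fin K → Ω} :
    v ∈ big 𝔹 Q φ none ↔ v ∈ Q := Iff.rfl

/-- exact maps twisted by an automorphism of `𝔹` extend to automorphisms -/
theorem aut_of_exact [Countable Ω] {𝔹 : Str σ ar B} (hV : G.Valid Q φ) (hE : G.Ext Q φ)
    (hinv : ∀ j, Invar (autGroup 𝔹) (G.rel j)) {α : Equiv.Perm B} (hα : α ∈ autGroup 𝔹)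
    (F : Finset Ω) (h : Ω → Ω) (hh : Exact Q (fun t => α (φ t)) Q φ F h) :
    ∃ g ∈ autGroup (big 𝔹 Q φ), ∀ x ∈ F, g x = h x := by
  classical
  have hval : ∀ β ∈ autGroup 𝔹, G.Valid Q (fun t => β (φ t)) := fun β hβ =>
    ⟨hV.1, fun j g hg => hinv j β hβ _ (hV.2 j g hg)⟩
  obtain ⟨g, hg, hgS⟩ := back_forth
    (fun (F : Finset Ω) (h : Ω → Ω) => Exact Q (fun t => α (φ t)) Q φ F h)
    (fun F h hP => hP.1)
    (fun F h hP x => by
      obtain ⟨h', h1, h2⟩ := hE.step (hval α hα) F.finite_toSet hP x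
      exact ⟨h', by rwa [Finset.coe_insert], h2⟩)
    (fun F h hP y => by
      by_cases hy : ∃ x ∈ F, h x = y
      · obtain ⟨x, hx, rfl⟩ := hy
        exact ⟨x, h, by rwa [Finset.insert_eq_of_mem hx], fun a _ => rfl, rfl⟩
      · -- the inverse map
        have hne : Nonempty Ω := ⟨y⟩
        let h1 : Ω → Ω := Function.invFunOn h F
        have hh1 : ∀ x ∈ F, h1 (h x) = x := fun x hx => hP.1.leftInvOn_invFunOn hx
        have e1 : Exact Q φ Q (fun t => α (φ t)) (h '' F) h1 := hP.symm hh1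
        have e2 : Exact Q (fun t => α⁻¹ (φ t)) Q φ (h '' F) h1 := by
          have := e1.map (fun b => α⁻¹ b)
          simpa using this
        obtain ⟨h2, e3, e4⟩ := hE.step (hval α⁻¹ ((autGroup 𝔹).inv_mem hα))
          (F.finite_toSet.image h) e2 y
        have hyn : y ∉ h '' (F : Set Ω) := by
          rintro ⟨x, hx, hxy⟩
          exact hy ⟨x, hx, hxy⟩
        let h3 : Ω → Ω := fun x => if x = h2 y then y else h x
        have hx0 : ∀ a ∈ F, a ≠ h2 y := by
          intro a ha hay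
          have e5 : h2 (h a) = h2 y := by
            rw [e4 _ ⟨a, ha, rfl⟩, hh1 a ha, hay]
          have := e3.1 (Or.inr ⟨a, ha, rfl⟩) (Or.inl rfl) e5
          exact hyn ⟨a, ha, this⟩
        have h3F : ∀ a ∈ F, h3 a = h a := fun a ha => if_neg (hx0 a ha)
        have h3y : h3 (h2 y) = y := if_pos rfl
        have e6 : ∀ x ∈ insert y (h '' (F : Set Ω)), h3 (h2 x) = x := by
          rintro x (rfl | ⟨a, ha, rfl⟩)
          · exact h3y
          · rw [e4 _ ⟨a, ha, rfl⟩, hh1 a ha, h3F a ha]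
        have e7 : Exact Q φ Q (fun t => α⁻¹ (φ t)) (h2 '' insert y (h '' (F : Set Ω))) h3 :=
          e3.symm e6
        have e8 : Exact Q (fun t => α (φ t)) Q φ (h2 '' insert y (h '' (F : Set Ω))) h3 := by
          have := e7.map (fun b => α b)
          simpa using this
        refine ⟨h2 y, h3, e8.mono ?_, h3F, h3y⟩
        intro a ha
        rw [Finset.coe_insert] at ha
        rcases ha with rfl | ha
        · exact ⟨y, Or.inl rfl, rfl⟩
        · refine ⟨h a, Or.inr ⟨a, ha, rfl⟩, ?_⟩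
          rw [e4 _ ⟨a, ha, rfl⟩, hh1 a ha])
    F h hh
  refine ⟨g, ?_, hg⟩
  -- exactness of `g`
  have hgE : ∀ t : Fin K → Ω, (t ∈ Q ↔ g ∘ t ∈ Q) ∧ (Injective t → α (φ t) = φ (g ∘ t)) := by
    intro t
    obtain ⟨F', h', hF', hP', hgh⟩ := hgS (Finset.univ.image t)
    have h1 := hP'.2 t (fun i => hF' (Finset.mem_image_of_mem _ (Finset.mem_univ i)))
    have h2 : h' ∘ t = g ∘ t := by
      funext i
      exact (hgh _ (hF' (Finset.mem_image_of_mem _ (Finset.mem_univ i)))).symm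
    rwa [h2] at h1
  rintro (_ | s) v
  · exact (hgE v).1
  · show ((∀ a, Injective (blkOf v a)) ∧ (fun a => φ (blkOf v a)) ∈ 𝔹 s) ↔
      ((∀ a, Injective (blkOf (g ∘ v) a)) ∧ (fun a => φ (blkOf (g ∘ v) a)) ∈ 𝔹 s)
    have h1 : (∀ a, Injective (blkOf v a)) ↔ (∀ a, Injective (blkOf (g ∘ v) a)) := by
      constructor
      · intro h a
        exact g.injective.comp (h a)
      · intro h a
        exact Injective.of_comp (h a)
    rw [← h1]
    refine and_congr_right fun hinj => ?_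
    have h2 : (fun a => φ (blkOf (g ∘ v) a)) = fun a => α (φ (blkOf v a)) := by
      funext a
      exact ((hgE (blkOf v a)).2 (hinj a)).symm
    rw [h2]
    exact hα s _

/-- **The generic structure is homogeneous.** -/
theorem homogeneous_big [Countable Ω] {𝔹 : Str σ ar B} (h𝔹 : Homogeneous 𝔹) (hV : G.Valid Q φ)
    (hE : G.Ext Q φ) (hinv : ∀ j, Invar (autGroup 𝔹) (G.rel j))
    (heq : ∃ s : σ, (∃ a b : Fin (ar s), a ≠ b) ∧ ∀ v, v ∈ 𝔹 s ↔ ∀ a b, v a = v b) :
    Homogeneous (big 𝔹 Q φ) := by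
  classical
  intro F h hinj hrel
  have hhinj : ∀ t : Fin K → Ω, (∀ i, t i ∈ F) → (Injective t ↔ Injective (h ∘ t)) := by
    intro t ht
    constructor
    · intro hi i i' hii
      exact hi (hinj _ (ht i) _ (ht i') hii)
    · intro hi
      exact Injective.of_comp hi
  let V := {t : Fin K → F // Injective t}
  have hfin : Finite V := inferInstance
  have hFin : ∀ t : V, Injective (fun i => ((t.1 i : F) : Ω)) := fun t =>
    Subtype.val_injective.comp t.2
  have key : ∀ (s : σ) (u : Fin (ar s) → V),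
      ((fun a => φ (fun i => ((u a).1 i : Ω))) ∈ 𝔹 s ↔
        (fun a => φ (fun i => h ((u a).1 i : Ω))) ∈ 𝔹 s) := by
    intro s u
    have h1 := hrel (some s) (ofBlk fun a i => ((u a).1 i : Ω)) (fun j => by
      show ((u _).1 _ : Ω) ∈ F
      exact ((u _).1 _).2)
    replace h1 : (ofBlk fun a i => ((u a).1 i : Ω)) ∈ big 𝔹 Q φ (some s) ↔
        (ofBlk fun a i => h ((u a).1 i : Ω)) ∈ big 𝔹 Q φ (some s) := h1
    have h3 := mem_big_some (Q := Q) (φ := φ) (𝔹 := 𝔹) (s := s)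
      (v := ofBlk fun a i => ((u a).1 i : Ω))
    have h4 := mem_big_some (Q := Q) (φ := φ) (𝔹 := 𝔹) (s := s)
      (v := ofBlk fun a i => h ((u a).1 i : Ω))
    rw [blkOf_ofBlk] at h3 h4
    have h5 := h3.symm.trans (h1.trans h4)
    have h6 : ∀ a, Injective (fun i => ((u a).1 i : Ω)) := fun a => hFin (u a)
    have h7 : ∀ a, Injective (fun i => h ((u a).1 i : Ω)) := fun a =>
      (hhinj _ (fun i => ((u a).1 i).2)).1 (h6 a)
    exact ⟨fun hm => (h5.1 ⟨h6, hm⟩).2, fun hm => (h5.2 ⟨h7, hm⟩).2⟩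
  obtain ⟨α, hα, hα2⟩ := hom_same h𝔹 (V := V) (fun t => φ (fun i => (t.1 i : Ω)))
    (fun t => φ (fun i => h (t.1 i : Ω))) (by
      intro t t'
      obtain ⟨s, ⟨a, b, hab⟩, hs⟩ := heq
      have h1 := key s (fun c => if c = a then t else t')
      rw [hs, hs] at h1
      constructor
      · intro h2
        have h3 := h1.1 (by
          intro c d
          by_cases hc : c = a <;> by_cases hd : d = a <;> simp [hc, hd, h2]) a b
        simpa [Ne.symm hab] using h3
      · intro h2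
        have h3 := h1.2 (by
          intro c d
          by_cases hc : c = a <;> by_cases hd : d = a <;> simp [hc, hd, h2]) a b
        simpa [Ne.symm hab] using h3) (fun s u => key s u)
  apply aut_of_exact hV hE hinv hα F h
  refine ⟨fun x hx y hy hxy => hinj x hx y hy hxy, fun t ht => ?_⟩
  refine ⟨hrel none t ht, fun hi => ?_⟩
  exact hα2 ⟨fun i => ⟨t i, ht i⟩, fun i i' hii => hi (congrArg Subtype.val hii)⟩

/-- the automorphism group is highly transitive up to `K - 1` -/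
theorem transitive_big [Countable Ω] {𝔹 : Str σ ar B} (hV : G.Valid Q φ)
    (hE : G.Ext Q φ) (hinv : ∀ j, Invar (autGroup 𝔹) (G.rel j)) (F : Finset Ω) (h : Ω → Ω)
    (hF : F.card < K) (hinj : Set.InjOn h F) :
    ∃ g ∈ autGroup (big 𝔹 Q φ), ∀ x ∈ F, g x = h x := by
  classical
  apply aut_of_exact hV hE hinv (autGroup 𝔹).one_mem F h
  have hno : ∀ t : Fin K → Ω, (∀ i, t i ∈ F) → ¬ Injective t := by
    intro t ht hi
    have h1 : (Finset.univ.image t) ⊆ F := by
      intro x hx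
      obtain ⟨i, -, rfl⟩ := Finset.mem_image.1 hx
      exact ht i
    have h2 := Finset.card_le_card h1
    rw [Finset.card_image_of_injective _ hi, Finset.card_univ, Fintype.card_fin] at h2
    omega
  refine ⟨hinj, fun t ht => ⟨⟨fun h1 => (hno t ht (hV.1 t h1)).elim, fun h1 => ?_⟩,
    fun h1 => (hno t ht h1).elim⟩⟩
  exact (hno t ht (Injective.of_comp (hV.1 _ h1))).elim

/-- there is no algebraicity -/
theorem noAlg_big [Countable Ω] {𝔹 : Str σ ar B} (hV : G.Valid Q φ)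
    (hE : G.Ext Q φ) (hinv : ∀ j, Invar (autGroup 𝔹) (G.rel j)) (F : Finset Ω) (x : Ω)
    (hx : x ∉ F) : Set.Infinite {y | ∃ g ∈ autGroup (big 𝔹 Q φ), (∀ a ∈ F, g a = a) ∧ g x = y} := by
  classical
  intro hfin
  -- the structure with a clone of `x` over `F`
  let π : Option Ω → Ω := fun o => o.getD x
  let Q1 : Set (Fin K → Option Ω) := {t | π ∘ t ∈ Q ∧
    ((∃ i, t i = none) → ∀ i, t i ≠ none → ∃ a ∈ F, t i = some a)}
  have hV1 : G.Valid Q1 (fun t => φ (π ∘ t)) := by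
    constructor
    · intro t ht
      exact Injective.of_comp (hV.1 _ ht.1)
    · intro j g hg
      exact hV.2 j (π ∘ g) (fun s hs => (hg s hs).1)
  let S : Set (Option Ω) := some '' ({y | ∃ g ∈ autGroup (big 𝔹 Q φ), (∀ a ∈ F, g a = a) ∧
    g x = y} ∪ F)
  have hS : S.Finite := (hfin.union F.finite_toSet).image _
  have he : Exact Q1 (fun t => φ (π ∘ t)) Q φ S π := by
    constructor
    · rintro _ ⟨a, -, rfl⟩ _ ⟨b, -, rfl⟩ hab
      exact congrArg some hab
    · intro t ht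
      refine ⟨⟨fun h => h.1, fun h => ⟨h, ?_⟩⟩, fun _ => rfl⟩
      rintro ⟨i, hi⟩
      obtain ⟨a, -, ha⟩ := ht i
      rw [hi] at ha
      exact absurd ha (by simp)
  obtain ⟨e, he1, he2⟩ := hE.step hV1 hS he none
  -- the map
  have heF : ∀ a ∈ F, e (some a) = a := fun a ha => he2 _ ⟨a, Or.inr ha, rfl⟩
  have hxF : ∀ a ∈ F, a ≠ x := fun a ha h => hx (h ▸ ha)
  let h : Ω → Ω := fun a => if a = x then e none else a
  let ι : Ω → Option Ω := fun a => if a = x then none else some a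
  have hh : ∀ a ∈ insert x F, h a = e (ι a) := by
    intro a ha
    simp only [h, ι]
    split_ifs with h1
    · rfl
    · rw [Finset.mem_insert] at ha
      rcases ha with ha | ha
      · exact absurd ha h1
      · exact (heF a ha).symm
  have hι : Exact Q φ Q1 (fun t => φ (π ∘ t)) (insert x F : Finset Ω) ι := by
    have hπι : ∀ a, π (ι a) = a := by
      intro a
      simp only [π, ι]
      split_ifs with h1
      · rw [h1]
        rfl
      · rfl
    constructor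
    · intro a _ b _ hab
      rw [← hπι a, ← hπι b, hab]
    · intro t ht
      have e1 : π ∘ (ι ∘ t) = t := by
        funext i
        exact hπι _
      refine ⟨?_, fun _ => by
        show φ t = φ (π ∘ (ι ∘ t))
        rw [e1]⟩
      show _ ↔ (π ∘ (ι ∘ t) ∈ Q ∧ _)
      rw [e1]
      refine ⟨fun h => ⟨h, fun _ i hi => ?_⟩, fun h => h.1⟩
      have h1 := ht i
      rw [Finset.mem_coe, Finset.mem_insert] at h1
      rcases h1 with h1 | h1
      · exact absurd (by simp [ι, h1]) hi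
      · exact ⟨t i, h1, by simp [ι, hxF _ h1]⟩
  have hcomp : Exact Q φ Q φ (insert x F : Finset Ω) (e ∘ ι) := by
    apply hι.comp he1
    intro a ha
    rw [Finset.mem_coe, Finset.mem_insert] at ha
    rcases ha with rfl | ha
    · exact Or.inl (by simp [ι])
    · exact Or.inr ⟨a, Or.inr ha, by simp [ι, hxF _ ha]⟩
  obtain ⟨g, hg, hgF⟩ := aut_of_exact hV hE hinv (autGroup 𝔹).one_mem (insert x F) h
    (hcomp.congr hh)
  have hmem : e none ∈ {y | ∃ g ∈ autGroup (big 𝔹 Q φ), (∀ a ∈ F, g a = a) ∧ g x = y} := by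
    refine ⟨g, hg, fun a ha => ?_, ?_⟩
    · rw [hgF a (Finset.mem_insert_of_mem ha)]
      simp [h, hxF a ha]
    · rw [hgF x (Finset.mem_insert_self _ _)]
      simp [h]
  have h1 : e (some (e none)) = e none := he2 _ ⟨e none, Or.inl hmem, rfl⟩
  have h2 := he1.1 (Or.inr ⟨e none, Or.inl hmem, rfl⟩) (Or.inl rfl) h1
  exact absurd h2 (by simp)

end

end Pool.Agent.P8H87
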