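import Mathlib
import Pool.Agent.P8H87.Gen

/-!
# Finite boundedness of the generic structure
-/

namespace Pool.Agent.P8H87

open Function Pool.Agent.W994.AR

theorem finite_le {σ : Type} [Finite σ] (ar : σ → ℕ) (L : ℕ) :
    {Y : Σ n : ℕ, Str σ ar (Fin n) | Y.1 ≤ L}.Finite := by
  have h1 : {Y : Σ n : ℕ, Str σ ar (Fin n) | Y.1 ≤ L} ⊆
      ⋃ n ∈ Set.Iic L, Set.range (fun Z : Str σ ar (Fin n) =>
        (⟨n, Z⟩ : Σ n : ℕ, Str σ ar (Fin n))) := by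
    rintro ⟨n, Z⟩ hZ
    simp only [Set.mem_iUnion]
    exact ⟨n, hZ, Z, rfl⟩
  refine Set.Finite.subset (Set.Finite.biUnion (Set.finite_Iic L) (fun n _ => ?_)) h1
  have := finite_str ar n
  exact Set.finite_range _

/-- small substructures embed -/
theorem small_embeds {σ : Type} {ar : σ → ℕ} {Ω : Type} [Nonempty Ω] {𝔻 : Str σ ar Ω} {L n : ℕ}
    {𝕏 : Str σ ar (Fin n)}
    (h : ∀ Y : Σ n : ℕ, Str σ ar (Fin n), Y.1 ≤ L → ¬ Embeds Y.2 𝔻 → ¬ Embeds Y.2 𝕏)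
    {ι : Type} [Fintype ι] (hι : Fintype.card ι ≤ L) (f : ι → Fin n) :
    ∃ e : Fin n → Ω, Set.InjOn e (Set.range f) ∧
      ∀ i v, (∀ j, v j ∈ Set.range f) → (v ∈ 𝕏 i ↔ e ∘ v ∈ 𝔻 i) := by
  classical
  let m := Fintype.card (Set.range f)
  have hm : m ≤ L := (Fintype.card_range_le f).trans hι
  let ε : Fin m ≃ Set.range f := (Fintype.equivFin (Set.range f)).symm
  let f' : Fin m → Fin n := fun x => (ε x : Fin n)
  have hf' : Injective f' := Subtype.val_injective.comp ε.injective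
  let Y' : Str σ ar (Fin m) := fun i => {v | (fun j => f' (v j)) ∈ 𝕏 i}
  have hYX : Embeds Y' 𝕏 := ⟨f', hf', fun i v => Iff.rfl⟩
  have hYD : Embeds Y' 𝔻 := by
    by_contra hcon
    exact h ⟨m, Y'⟩ hm hcon hYX
  obtain ⟨e', he', h'⟩ := hYD
  let e : Fin n → Ω := fun x => if hx : x ∈ Set.range f then e' (ε.symm ⟨x, hx⟩) else
    Classical.arbitrary Ω
  have hef : ∀ x, (hx : x ∈ Set.range f) → e x = e' (ε.symm ⟨x, hx⟩) := fun x hx => dif_pos hx
  refine ⟨e, ?_, ?_⟩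
  · intro x hx y hy hxy
    rw [hef x hx, hef y hy] at hxy
    exact congrArg Subtype.val (ε.symm.injective (he' hxy))
  · intro i v hv
    have h1 := h' i (fun j => ε.symm ⟨v j, hv j⟩)
    have h2 : (fun j => f' (ε.symm ⟨v j, hv j⟩)) = v := by
      funext j
      simp [f']
    have h3 : (fun j => e' (ε.symm ⟨v j, hv j⟩)) = e ∘ v := by
      funext j
      exact (hef _ (hv j)).symm
    have h4 : (fun j => ε.symm ⟨v j, hv j⟩) ∈ Y' i ↔
        (fun j => f' (ε.symm ⟨v j, hv j⟩)) ∈ 𝕏 i := Iff.rfl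
    rw [h2] at h4
    rw [h3] at h1
    exact h4.symm.trans h1

variable {K N : ℕ} {B : Type} {G : Gad K N B} {Ω : Type} {Q : Set (Fin K → Ω)}
  {φ : (Fin K → Ω) → B} {σ : Type} {ar : σ → ℕ}

/-- **The generic structure is finitely bounded.** -/
theorem finitelyBounded_big [Nonempty Ω] [Finite σ] {𝔹 : Str σ ar B} (h𝔹 : FinitelyBounded 𝔹)
    (hV : G.Valid Q φ) (hE : G.Ext Q φ) (hK : 1 ≤ K) (sym : G.J → σ)
    (har : ∀ j, ar (sym j) = G.ar j)
    (hrel : ∀ j (w : Fin (G.ar j) → B), w ∈ G.rel j ↔ (w ∘ Fin.cast (har j)) ∈ 𝔹 (sym j))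
    (heq : ∃ s : σ, (∃ a b : Fin (ar s), a ≠ b) ∧ ∀ v, v ∈ 𝔹 s ↔ ∀ a b, v a = v b) :
    FinitelyBounded (big 𝔹 Q φ) := by
  classical
  have hσ := Fintype.ofFinite σ
  obtain ⟨NB, hNB, hNB2⟩ := h𝔹
  obtain ⟨s0, ⟨a0, b0, hab⟩, hs0⟩ := heq
  obtain ⟨MB, hMB⟩ : ∃ M : ℕ, ∀ Y ∈ NB, Y.1 ≤ M := by
    obtain ⟨M, hM⟩ := (hNB.image (fun Y => Y.1)).bddAbove
    exact ⟨M, fun Y hY => hM ⟨Y, hY, rfl⟩⟩
  let A : ℕ := Finset.univ.sup ar
  have hA : ∀ s, ar s ≤ A := fun s => Finset.le_sup (f := ar) (Finset.mem_univ s)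
  let L : ℕ := 3 * K + 2 * (A * K) + N + MB * K
  refine ⟨{Y | Y.1 ≤ L ∧ ¬ Embeds Y.2 (big 𝔹 Q φ)}, (finite_le _ L).subset fun Y hY => hY.1, ?_⟩
  intro n 𝕏
  constructor
  · intro hX Y hY hYX
    exact hY.2 (hYX.trans hX)
  intro hX
  have hX' : ∀ Y : Σ n : ℕ, Str (Option σ) (bigAr K ar) (Fin n), Y.1 ≤ L →
      ¬ Embeds Y.2 (big 𝔹 Q φ) → ¬ Embeds Y.2 𝕏 := fun Y h1 h2 => hX Y ⟨h1, h2⟩
  obtain ⟨XS, hXS⟩ : ∃ XS : ∀ s, Set (Fin (ar s * K) → Fin n),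
      ∀ s v, v ∈ XS s ↔ v ∈ 𝕏 (some s) := ⟨fun s => 𝕏 (some s), fun s v => Iff.rfl⟩
  obtain ⟨XN, hXN⟩ : ∃ XN : Set (Fin K → Fin n), ∀ v, v ∈ XN ↔ v ∈ 𝕏 none :=
    ⟨𝕏 none, fun v => Iff.rfl⟩
  -- the key property of small maps
  have hsmall : ∀ {ι : Type} [Fintype ι] (_ : Fintype.card ι ≤ L) (f : ι → Fin n),
      ∃ e : Fin n → Ω, Set.InjOn e (Set.range f) ∧
        (∀ t : Fin K → Fin n, (∀ i, t i ∈ Set.range f) → (t ∈ XN ↔ e ∘ t ∈ Q)) ∧
        (∀ (s : σ) (v : Fin (ar s * K) → Fin n), (∀ j, v j ∈ Set.range f) →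
          (v ∈ XS s ↔ (∀ a, Injective (blkOf v a)) ∧
            (fun a => φ (e ∘ blkOf v a)) ∈ 𝔹 s)) := by
    intro ι _ hι f
    obtain ⟨e, he1, he2⟩ := small_embeds hX' hι f
    refine ⟨e, he1, fun t ht => (hXN t).trans (he2 none t ht), fun s v hv => ?_⟩
    refine (hXS s v).trans ((he2 (some s) v hv).trans ?_)
    show ((∀ a, Injective (blkOf (e ∘ v) a)) ∧ (fun a => φ (blkOf (e ∘ v) a)) ∈ 𝔹 s) ↔ _
    have h1 : (∀ a, Injective (blkOf (e ∘ v) a)) ↔ (∀ a, Injective (blkOf v a)) := by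
      constructor
      · intro h a
        exact Injective.of_comp (f := e) (h a)
      · intro h a i i' hii
        exact h a (he1 (hv _) (hv _) hii)
    rw [h1]
    rfl
  let T := {t : Fin K → Fin n // Injective t}
  have hKL : ∀ {ι : Type} [Fintype ι] (_ : Fintype.card ι ≤ L) (f : ι → Fin n),
      ∃ e : Fin n → Ω, Set.InjOn e (Set.range f) ∧
        ∀ (s : σ) (u : Fin (ar s) → T), (∀ a i, (u a).1 i ∈ Set.range f) →
          (ofBlk (fun a => (u a).1) ∈ XS s ↔ (fun a => φ (e ∘ (u a).1)) ∈ 𝔹 s) := by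
    intro ι _ hι f
    obtain ⟨e, he1, -, he2⟩ := hsmall hι f
    refine ⟨e, he1, fun s u hu => ?_⟩
    rw [he2 s (ofBlk fun a => (u a).1) (fun j => hu _ _)]
    rw [blkOf_ofBlk]
    exact ⟨fun h => h.2, fun h => ⟨fun a => (u a).2, h⟩⟩
  -- the equivalence relation
  let pr : T → T → Fin (ar s0) → T := fun t t' c => if c = a0 then t else t'
  let E : T → T → Prop := fun t t' => ofBlk (fun a => (pr t t' a).1) ∈ XS s0
  have hEe : ∀ {ι : Type} [Fintype ι] (_ : Fintype.card ι ≤ L) (f : ι → Fin n),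
      ∃ e : Fin n → Ω, Set.InjOn e (Set.range f) ∧
        (∀ (s : σ) (u : Fin (ar s) → T), (∀ a i, (u a).1 i ∈ Set.range f) →
          (ofBlk (fun a => (u a).1) ∈ XS s ↔ (fun a => φ (e ∘ (u a).1)) ∈ 𝔹 s)) ∧
        (∀ t t' : T, (∀ i, t.1 i ∈ Set.range f) → (∀ i, t'.1 i ∈ Set.range f) →
          (E t t' ↔ φ (e ∘ t.1) = φ (e ∘ t'.1))) := by
    intro ι _ hι f
    obtain ⟨e, he1, he2⟩ := hKL hι f
    refine ⟨e, he1, he2, fun t t' ht ht' => ?_⟩
    show ofBlk (fun a => (pr t t' a).1) ∈ XS s0 ↔ _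
    rw [he2 s0 (pr t t') (by
      intro a i
      by_cases ha : a = a0
      · simp only [pr, if_pos ha]
        exact ht i
      · simp only [pr, if_neg ha]
        exact ht' i), hs0]
    constructor
    · intro h
      have := h a0 b0
      simpa [pr, Ne.symm hab] using this
    · intro h c d
      by_cases hc : c = a0 <;> by_cases hd : d = a0 <;> simp [pr, hc, hd, h]
  have hcard3 : Fintype.card (Fin 3 × Fin K) ≤ L := by
    simp only [Fintype.card_prod, Fintype.card_fin, L]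
    omega
  have hEequiv : Equivalence E := by
    have h3 : ∀ t1 t2 t3 : T, ∃ e : Fin n → Ω, (E t1 t2 ↔ φ (e ∘ t1.1) = φ (e ∘ t2.1)) ∧
        (E t2 t1 ↔ φ (e ∘ t2.1) = φ (e ∘ t1.1)) ∧ (E t1 t1 ↔ φ (e ∘ t1.1) = φ (e ∘ t1.1)) ∧
        (E t2 t3 ↔ φ (e ∘ t2.1) = φ (e ∘ t3.1)) ∧ (E t1 t3 ↔ φ (e ∘ t1.1) = φ (e ∘ t3.1)) := by
      intro t1 t2 t3
      obtain ⟨e, -, -, he⟩ := hEe hcard3 (fun p => (![t1, t2, t3] p.1).1 p.2)
      have m1 : ∀ i, t1.1 i ∈ Set.range (fun p : Fin 3 × Fin K => (![t1, t2, t3] p.1).1 p.2) :=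
        fun i => ⟨(0, i), rfl⟩
      have m2 : ∀ i, t2.1 i ∈ Set.range (fun p : Fin 3 × Fin K => (![t1, t2, t3] p.1).1 p.2) :=
        fun i => ⟨(1, i), rfl⟩
      have m3 : ∀ i, t3.1 i ∈ Set.range (fun p : Fin 3 × Fin K => (![t1, t2, t3] p.1).1 p.2) :=
        fun i => ⟨(2, i), rfl⟩
      exact ⟨e, he _ _ m1 m2, he _ _ m2 m1, he _ _ m1 m1, he _ _ m2 m3, he _ _ m1 m3⟩
    refine ⟨fun t => ?_, fun {t t'} h => ?_, fun {t1 t2 t3} h h' => ?_⟩
    · obtain ⟨e, -, -, h, -⟩ := h3 t t t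
      exact h.2 rfl
    · obtain ⟨e, h1, h2, -⟩ := h3 t t' t
      exact h2.2 (h1.1 h).symm
    · obtain ⟨e, h1, -, -, h2, h4⟩ := h3 t1 t2 t3
      exact h4.2 ((h1.1 h).trans (h2.1 h'))
  let S : Setoid T := ⟨E, hEequiv⟩
  let Z := Quotient S
  let 𝒵 : Str σ ar Z := fun s => {w | ofBlk (fun a => ((w a).out : T).1) ∈ XS s}
  have hZ : ∀ (s : σ) (u : Fin (ar s) → T),
      ((fun a => (⟦u a⟧ : Z)) ∈ 𝒵 s ↔ ofBlk (fun a => (u a).1) ∈ XS s) := by
    intro s u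
    show ofBlk (fun a => (((⟦u a⟧ : Z)).out : T).1) ∈ XS s ↔ _
    have hEu : ∀ a, E ((⟦u a⟧ : Z)).out (u a) := fun a => Quotient.mk_out (s := S) (u a)
    obtain ⟨e, -, h1, h2⟩ := hEe (ι := Bool × Fin (ar s) × Fin K) (by
      simp only [Fintype.card_prod, Fintype.card_fin, Fintype.card_bool, L]
      have := Nat.mul_le_mul_right K (hA s)
      omega) (fun p => if p.1 then (((⟦u p.2.1⟧ : Z)).out : T).1 p.2.2 else (u p.2.1).1 p.2.2)
    have m1 : ∀ a i, (((⟦u a⟧ : Z)).out : T).1 i ∈ Set.range (fun p : Bool × Fin (ar s) × Fin K =>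
        if p.1 then (((⟦u p.2.1⟧ : Z)).out : T).1 p.2.2 else (u p.2.1).1 p.2.2) :=
      fun a i => ⟨(true, a, i), by simp⟩
    have m2 : ∀ a i, (u a).1 i ∈ Set.range (fun p : Bool × Fin (ar s) × Fin K =>
        if p.1 then (((⟦u p.2.1⟧ : Z)).out : T).1 p.2.2 else (u p.2.1).1 p.2.2) :=
      fun a i => ⟨(false, a, i), by simp⟩
    rw [h1 s (fun a => ((⟦u a⟧ : Z)).out) m1, h1 s u m2]
    have h3 : (fun a => φ (e ∘ (((⟦u a⟧ : Z)).out : T).1)) = fun a => φ (e ∘ (u a).1) := by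
      funext a
      exact (h2 _ _ (m1 a) (m2 a)).1 (hEu a)
    rw [h3]
  -- the quotient embeds into `𝔹`
  have hZB : ∃ ζ : Z → B, Injective ζ ∧ ∀ s w, w ∈ 𝒵 s ↔ ζ ∘ w ∈ 𝔹 s := by
    have hfZ : Finite Z := inferInstance
    obtain ⟨m, ⟨ε⟩⟩ := Finite.exists_equiv_fin Z
    let 𝕐 : Str σ ar (Fin m) := fun s => {w | (fun a => ε.symm (w a)) ∈ 𝒵 s}
    have hY : Embeds 𝕐 𝔹 := by
      rw [hNB2]
      rintro Y hYN ⟨e0, he0, he0'⟩
      let t : Fin Y.1 → T := fun a => (ε.symm (e0 a)).out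
      obtain ⟨e, -, h1, h2⟩ := hEe (ι := Fin Y.1 × Fin K) (by
        simp only [Fintype.card_prod, Fintype.card_fin, L]
        have := Nat.mul_le_mul_right K (hMB Y hYN)
        omega) (fun p => (t p.1).1 p.2)
      have m1 : ∀ a i, (t a).1 i ∈ Set.range (fun p : Fin Y.1 × Fin K => (t p.1).1 p.2) :=
        fun a i => ⟨(a, i), rfl⟩
      have hemb : Embeds Y.2 𝔹 := by
        refine ⟨fun a => φ (e ∘ (t a).1), ?_, ?_⟩
        · intro a b hab'
          have h3 : E (t a) (t b) := (h2 _ _ (m1 a) (m1 b)).2 hab'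
          have h4 : (⟦t a⟧ : Z) = ⟦t b⟧ := Quotient.sound h3
          simp only [t, Quotient.out_eq] at h4
          exact he0 (ε.symm.injective h4)
        · intro s v
          rw [he0' s v]
          show (fun a => ε.symm (e0 (v a))) ∈ 𝒵 s ↔ _
          have h3 : (fun a => ε.symm (e0 (v a))) = fun a => (⟦t (v a)⟧ : Z) := by
            funext a
            simp [t]
          rw [h3, hZ s (fun a => t (v a)), h1 s (fun a => t (v a)) (fun a i => m1 _ i)]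
      exact (hNB2 _ _).1 hemb Y hYN ⟨id, Function.injective_id, fun i v => Iff.rfl⟩
    obtain ⟨e, he, he'⟩ := hY
    refine ⟨fun z => e (ε z), he.comp ε.injective, fun s w => ?_⟩
    have h1 := he' s (fun a => ε (w a))
    have h2 : (fun a => ε (w a)) ∈ 𝕐 s ↔ w ∈ 𝒵 s := by
      show (fun a => ε.symm (ε (w a))) ∈ 𝒵 s ↔ _
      simp
    exact h2.symm.trans h1
  obtain ⟨ζ, hζ, hζ'⟩ := hZB
  have hBne : Nonempty B := ⟨φ (fun _ => Classical.arbitrary Ω)⟩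
  let φX : (Fin K → Fin n) → B := fun t =>
    if h : Injective t then ζ ⟦⟨t, h⟩⟧ else Classical.arbitrary B
  have hφX : ∀ t : T, φX t.1 = ζ ⟦t⟧ := fun t => dif_pos t.2
  have hmem : ∀ (s : σ) (u : Fin (ar s) → T),
      (ofBlk (fun a => (u a).1) ∈ XS s ↔ (fun a => φX (u a).1) ∈ 𝔹 s) := by
    intro s u
    rw [← hZ, hζ']
    have : (fun a => φX (u a).1) = ζ ∘ fun a => (⟦u a⟧ : Z) := by
      funext a
      exact hφX _
    rw [this]
  have hVX : G.Valid XN φX := by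
    have hinj : ∀ t ∈ XN, Injective t := by
      intro t ht
      obtain ⟨e, -, h1, -⟩ := hsmall (ι := Fin K) (by
        simp only [Fintype.card_fin, L]
        omega) t
      exact Injective.of_comp (f := e) (hV.1 _ ((h1 t (fun i => ⟨i, rfl⟩)).1 ht))
    refine ⟨hinj, fun j g hg => ?_⟩
    have hgi : Injective g := G.inj hinj hg
    obtain ⟨e, -, h1, h2⟩ := hsmall (ι := Fin N) (by
      simp only [Fintype.card_fin, L]
      omega) g
    have h3 := hV.2 j (e ∘ g) (fun s hs => (h1 (g ∘ s) (fun i => ⟨s i, rfl⟩)).1 (hg s hs))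
    rw [hrel] at h3 ⊢
    let u : Fin (ar (sym j)) → T := fun a =>
      ⟨g ∘ G.blk j (Fin.cast (har j) a), hgi.comp (G.binj _ _)⟩
    have h4 : ofBlk (fun a => (u a).1) ∈ XS (sym j) := by
      rw [h2 _ (ofBlk fun a => (u a).1) (fun _ => ⟨_, rfl⟩), blkOf_ofBlk]
      exact ⟨fun a => (u a).2, h3⟩
    exact (hmem _ u).1 h4
  obtain ⟨e, he⟩ := hE.embed hVX hK
  have heinj : Injective e := fun x y h => he.1 (Set.mem_univ _) (Set.mem_univ _) h
  have hlast : ∀ (s : σ) (v : Fin (ar s * K) → Fin n), v ∈ XS s ↔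
      ((∀ a, Injective (blkOf (e ∘ v) a)) ∧ (fun a => φ (blkOf (e ∘ v) a)) ∈ 𝔹 s) := by
    intro s v
    have hblk : v ∈ XS s → ∀ a, Injective (blkOf v a) := by
      intro hv
      obtain ⟨e', -, -, h2⟩ := hsmall (ι := Fin (ar s * K)) (by
        simp only [Fintype.card_fin, L]
        have := Nat.mul_le_mul_right K (hA s)
        omega) v
      exact ((h2 s v (fun j => ⟨j, rfl⟩)).1 hv).1
    have h5 : (∀ a, Injective (blkOf v a)) ↔ (∀ a, Injective (blkOf (e ∘ v) a)) :=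
      ⟨fun h a => heinj.comp (h a), fun h a => Injective.of_comp (f := e) (h a)⟩
    rw [← h5]
    have h6 : (∀ a, Injective (blkOf v a)) → (v ∈ XS s ↔
        (fun a => φ (blkOf (e ∘ v) a)) ∈ 𝔹 s) := by
      intro h
      have h7 := hmem s (fun a => ⟨blkOf v a, h a⟩)
      have h8 : ofBlk (fun a => (⟨blkOf v a, h a⟩ : T).1) = v := ofBlk_blkOf v
      rw [h8] at h7
      rw [h7]
      have h9 : (fun a => φX (⟨blkOf v a, h a⟩ : T).1) = fun a => φ (blkOf (e ∘ v) a) := by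
        funext a
        exact (he.2 (blkOf v a) (fun _ => Set.mem_univ _)).2 (h a)
      rw [h9]
    constructor
    · intro hv
      exact ⟨hblk hv, (h6 (hblk hv)).1 hv⟩
    · rintro ⟨h1, h2⟩
      exact (h6 h1).2 h2
  refine ⟨e, heinj, ?_⟩
  rintro (_ | s) v
  · exact (hXN v).symm.trans (he.2 v (fun _ => Set.mem_univ _)).1
  · exact (hXS s v).symm.trans (hlast s v)

end Pool.Agent.P8H87
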