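import Mathlib
import Pool.Agent.P8H87.K3a

/-!
# pp-constructions of `K₃` descend from the generic structure
-/

namespace Pool.Agent.P8H87

open Function Pool.Agent.W994.AR

/-! ### The shift graph -/

/-- vertices of the shift graph -/
abbrev Sh (M : ℕ) : Type := {p : Fin M × Fin M // p.1 < p.2}

/-- edges of the shift graph -/
def SE {M : ℕ} (p q : Sh M) : Prop := p.1.2 = q.1.1

theorem SE.ne {M : ℕ} {p q : Sh M} (h : SE p q) : p ≠ q := by
  rintro rfl
  have := p.2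
  rw [← h] at this
  exact absurd this (lt_irrefl _)

theorem SE.asymm {M : ℕ} {p q : Sh M} (h : SE p q) (h' : SE q p) : False := by
  have h1 := p.2
  have h2 := q.2
  unfold SE at h h'
  rw [← h] at h2
  rw [h'] at h2
  exact absurd (h1.trans h2) (lt_irrefl _)

theorem SE.triangle {M : ℕ} {p q r : Sh M} (h1 : SE p q ∨ SE q p) (h2 : SE q r ∨ SE r q)
    (h3 : SE p r ∨ SE r p) : False := by
  obtain ⟨⟨p1, p2⟩, hp⟩ := p
  obtain ⟨⟨q1, q2⟩, hq⟩ := q
  obtain ⟨⟨r1, r2⟩, hr⟩ := r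
  have hp' : (p1 : ℕ) < p2 := hp
  have hq' : (q1 : ℕ) < q2 := hq
  have hr' : (r1 : ℕ) < r2 := hr
  simp only [SE, Fin.ext_iff] at h1 h2 h3
  omega

theorem shift_colour {C : Type} [Finite C] :
    ∃ M : ℕ, ∀ c : Sh M → C, ∃ p q : Sh M, SE p q ∧ c p = c q := by
  classical
  refine ⟨Nat.card (Set C) + 1, fun c => ?_⟩
  have hfin : Finite (Set C) := inferInstance
  let S : Fin (Nat.card (Set C) + 1) → Set C := fun j =>
    {x | ∃ (i : Fin (Nat.card (Set C) + 1)) (h : i < j), c ⟨(i, j), h⟩ = x}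
  have hnot : ¬ Injective S := by
    intro hinj
    have := Nat.card_le_card_of_injective S hinj
    simp at this
  rw [Injective] at hnot
  push Not at hnot
  obtain ⟨j, k, hjk, hne⟩ := hnot
  have key : ∀ j k, S j = S k → j < k → ∃ p q : Sh (Nat.card (Set C) + 1), SE p q ∧ c p = c q := by
    intro j k hjk hlt
    have h1 : c ⟨(j, k), hlt⟩ ∈ S k := ⟨j, hlt, rfl⟩
    rw [← hjk] at h1
    obtain ⟨i, hi, h2⟩ := h1
    exact ⟨⟨(i, j), hi⟩, ⟨(j, k), hlt⟩, rfl, h2⟩
  rcases lt_or_gt_of_ne hne with h | h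
  · exact key j k hjk h
  · exact key k j hjk.symm h

/-! ### Compactness -/

theorem colour_compact {V : Type} (H : V → V → Prop)
    (h : ∀ S : Finset V, ∃ χ : V → Fin 3, ∀ b ∈ S, ∀ b' ∈ S, H b b' → χ b ≠ χ b') :
    ∃ χ : V → Fin 3, ∀ b b', H b b' → χ b ≠ χ b' := by
  classical
  let F : V × V → Set (V → Fin 3) := fun p => {χ | H p.1 p.2 → χ p.1 ≠ χ p.2}
  have hF : ∀ p, IsClosed (F p) := by
    intro p
    by_cases hp : H p.1 p.2
    · have h1 : F p = (fun χ : V → Fin 3 => (χ p.1, χ p.2)) ⁻¹' {q | q.1 ≠ q.2} := by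
        ext χ
        simp [F, hp]
      rw [h1]
      exact (isClosed_discrete _).preimage ((continuous_apply p.1).prodMk (continuous_apply p.2))
    · have h1 : F p = Set.univ := by
        ext χ
        simp [F, hp]
      rw [h1]
      exact isClosed_univ
  have h2 := isCompact_univ.inter_iInter_nonempty F hF (by
    intro u
    obtain ⟨χ, hχ⟩ := h (u.image Prod.fst ∪ u.image Prod.snd)
    refine ⟨χ, Set.mem_univ _, ?_⟩
    simp only [Set.mem_iInter]
    intro p hp hH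
    exact hχ _ (Finset.mem_union_left _ (Finset.mem_image_of_mem _ hp)) _
      (Finset.mem_union_right _ (Finset.mem_image_of_mem _ hp)) hH)
  obtain ⟨χ, -, hχ⟩ := h2
  rw [Set.mem_iInter] at hχ
  exact ⟨χ, fun b b' hbb => hχ (b, b') hbb⟩

section

variable {K N : ℕ} {B : Type} {G : Gad K N B} {Ω : Type} {Q : Set (Fin K → Ω)}
  {φ : (Fin K → Ω) → B}

/-- the graph on the colourings of the own tuples -/
def HH (G : Gad K N B) (nf : NF Q) (b b' : (Fin K → nf.A ⊕ nf.D) → B) : Prop :=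
  ∃ m : (Fin K → Vr nf.A nf.D nf.Z) → B, (∀ t, m (role false ∘ t) = b t) ∧
    (∀ t, m (role true ∘ t) = b' t) ∧
    ∀ j (g : Fin N → Vr nf.A nf.D nf.Z), (∀ s ∈ G.edges j, g ∘ s ∈ nf.Φ) →
      (fun a => m (g ∘ G.blk j a)) ∈ G.rel j

theorem pp_HH {ι : Type} {arA : ι → ℕ} {𝔸 : Str ι arA B} [Finite G.J] (nf : NF Q)
    (hpp : ∀ j, PP 𝔸 (G.rel j)) :
    PP 𝔸 {z : (Fin K → nf.A ⊕ nf.D) ⊕ (Fin K → nf.A ⊕ nf.D) → B |
      HH G nf (fun t => z (Sum.inl t)) (fun t => z (Sum.inr t))} := by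
  classical
  have := nf.finA
  have := nf.finD
  have := nf.finZ
  let Tup := Fin K → nf.A ⊕ nf.D
  let MT := Fin K → Vr nf.A nf.D nf.Z
  have h1 : PP 𝔸 {w : (Tup ⊕ Tup) ⊕ MT → B | ∀ t ∈ (Set.univ : Set Tup),
      w ∈ {w : (Tup ⊕ Tup) ⊕ MT → B | w (Sum.inr (role false ∘ t)) = w (Sum.inl (Sum.inl t))}} :=
    PP.iInter _ Set.finite_univ _ (fun t _ => PP.eq _ _)
  have h2 : PP 𝔸 {w : (Tup ⊕ Tup) ⊕ MT → B | ∀ t ∈ (Set.univ : Set Tup),
      w ∈ {w : (Tup ⊕ Tup) ⊕ MT → B | w (Sum.inr (role true ∘ t)) = w (Sum.inl (Sum.inr t))}} :=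
    PP.iInter _ Set.finite_univ _ (fun t _ => PP.eq _ _)
  have h3 : PP 𝔸 {w : (Tup ⊕ Tup) ⊕ MT → B |
      ∀ p ∈ {p : G.J × (Fin N → Vr nf.A nf.D nf.Z) | ∀ s ∈ G.edges p.1, p.2 ∘ s ∈ nf.Φ},
      w ∈ {w : (Tup ⊕ Tup) ⊕ MT → B |
        w ∘ (fun a => Sum.inr (p.2 ∘ G.blk p.1 a)) ∈ G.rel p.1}} :=
    PP.iInter _ (Set.toFinite _) _ (fun p _ => (hpp p.1).subst _)
  have h4 := PP.ex (U := MT) ((h1.inter h2).inter h3)
  convert h4 using 1
  ext z
  constructor
  · rintro ⟨m, e1, e2, e3⟩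
    refine ⟨m, ⟨fun t _ => e1 t, fun t _ => e2 t⟩, ?_⟩
    rintro ⟨j, g⟩ hg
    exact e3 j g hg
  · rintro ⟨m, ⟨e1, e2⟩, e3⟩
    exact ⟨m, fun t => e1 t trivial, fun t => e2 t trivial, fun j g hg => e3 (j, g) hg⟩

/-- the restriction of a colouring to the shared tuples -/
def dres {nf : NF Q} (b : (Fin K → nf.A ⊕ nf.D) → B) : (Fin K → nf.D) → B :=
  fun t => b (fun i => Sum.inr (t i))

/-- the vertices of the glued structure -/
abbrev Gl (B : Type) (nf : NF Q) (M : ℕ) : Type :=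
  ((((Fin K → nf.D) → B) × nf.D) ⊕ ((((Fin K → nf.A ⊕ nf.D) → B) × Sh M) × nf.A)) ⊕
    ((Bool → ((Fin K → nf.A ⊕ nf.D) → B) × Sh M) × nf.Z)

/-- the pieces of the glued structure -/
def name {nf : NF Q} {M : ℕ} (e : Bool → ((Fin K → nf.A ⊕ nf.D) → B) × Sh M) :
    Vr nf.A nf.D nf.Z → Gl B nf M :=
  Sum.elim (fun p => Sum.inl (Sum.inr (e p.1, p.2)))
    (Sum.elim (fun d => Sum.inl (Sum.inl (dres (e false).1, d))) (fun z => Sum.inr (e, z)))

/-- the valid edges -/
def VE (G : Gad K N B) {nf : NF Q} {M : ℕ} (e : Bool → ((Fin K → nf.A ⊕ nf.D) → B) × Sh M) :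
    Prop :=
  HH G nf (e false).1 (e true).1 ∧ SE (e false).2 (e true).2

variable {nf : NF Q} {M : ℕ}

theorem VE.ne {e : Bool → ((Fin K → nf.A ⊕ nf.D) → B) × Sh M} (h : VE G e) : e false ≠ e true :=
  fun h' => h.2.ne (congrArg Prod.snd h')

theorem VE.inj {e : Bool → ((Fin K → nf.A ⊕ nf.D) → B) × Sh M} (h : VE G e) : Injective e := by
  intro r r' hr
  cases r <;> cases r'
  · rfl
  · exact absurd hr h.ne
  · exact absurd hr.symm h.ne
  · rfl

theorem VE.dres {e : Bool → ((Fin K → nf.A ⊕ nf.D) → B) × Sh M} (h : VE G e) (r : Bool) :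
    dres (e r).1 = dres (e false).1 := by
  cases r
  · rfl
  · obtain ⟨⟨m, h1, h2, -⟩, -⟩ := h
    funext t
    show (e true).1 _ = (e false).1 _
    rw [← h1, ← h2]
    rfl

theorem VE.name_inj {e : Bool → ((Fin K → nf.A ⊕ nf.D) → B) × Sh M} (h : VE G e) :
    Injective (name e) := by
  rintro (⟨r, c⟩ | κ | ω) (⟨r', c'⟩ | κ' | ω') h' <;> simp [name] at h' ⊢
  · exact ⟨h.inj h'.1, h'.2⟩
  · exact h'
  · exact h'

/-- coincidences between two pieces -/
theorem coincide {e e' : Bool → ((Fin K → nf.A ⊕ nf.D) → B) × Sh M} (h : VE G e) (h' : VE G e')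
    (hne : e ≠ e') (hK : 1 ≤ K) {t t' : Fin K → Vr nf.A nf.D nf.Z}
    (ht : name e ∘ t = name e' ∘ t') :
    ∃ (r r' : Bool) (t0 : Fin K → nf.A ⊕ nf.D), t = role r ∘ t0 ∧ t' = role r' ∘ t0 ∧
      (e r).1 t0 = (e' r').1 t0 := by
  classical
  -- the common vertex is unique
  have huniq : ∀ r r' s s', e r = e' r' → e s = e' s' → r = s ∧ r' = s' := by
    intro r r' s s' h1 h2
    by_cases hrs : r = s
    · subst hrs
      exact ⟨rfl, h'.inj (h1.symm.trans h2)⟩
    · exfalso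
      have hrs' : r' ≠ s' := by
        rintro rfl
        exact hrs (h.inj (h1.trans h2.symm))
      have hs : s = !r := by cases r <;> cases s <;> simp_all
      have hs' : s' = !r' := by cases r' <;> cases s' <;> simp_all
      subst hs
      subst hs'
      by_cases hrr : r = r'
      · subst hrr
        apply hne
        funext x
        cases r <;> cases x <;> simp_all
      · have hr' : r' = !r := by cases r <;> cases r' <;> simp_all
        subst hr'
        have e1 := h.2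
        have e2 := h'.2
        cases r
        · simp only [Bool.not_false, Bool.not_true] at h1 h2
          rw [h1, h2] at e1
          exact e1.asymm e2
        · simp only [Bool.not_false, Bool.not_true] at h1 h2
          rw [h1, h2] at e1
          exact e1.asymm e2
  have hpt : ∀ i, name e (t i) = name e' (t' i) := fun i => congrFun ht i
  by_cases hex : ∃ r r', e r = e' r'
  · obtain ⟨r, r', hrr⟩ := hex
    have hex2 : ∀ i, ∃ y : nf.A ⊕ nf.D, t i = role r y ∧ t' i = role r' y := by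
      intro i
      have h1 := hpt i
      rcases h2 : t i with ⟨s, c⟩ | κ | ω <;> rcases h3 : t' i with ⟨s', c'⟩ | κ' | ω' <;>
        rw [h2, h3] at h1 <;> simp [name] at h1
      · obtain ⟨h4, h5⟩ := h1
        obtain ⟨rfl, rfl⟩ := huniq _ _ _ _ hrr h4
        exact ⟨Sum.inl c, rfl, by rw [h5]; rfl⟩
      · exact ⟨Sum.inr κ, rfl, by rw [h1.2]; rfl⟩
      · exact absurd h1.1 hne
    choose t0 ht0 ht0' using hex2
    refine ⟨r, r', t0, funext ht0, funext ht0', ?_⟩
    rw [hrr]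
  · push Not at hex
    have hex2 : ∀ i, ∃ κ : nf.D, t i = Sum.inr (Sum.inl κ) ∧ t' i = Sum.inr (Sum.inl κ) ∧
        dres (e false).1 = dres (e' false).1 := by
      intro i
      have h1 := hpt i
      rcases h2 : t i with ⟨s, c⟩ | κ | ω <;> rcases h3 : t' i with ⟨s', c'⟩ | κ' | ω' <;>
        rw [h2, h3] at h1 <;> simp [name] at h1
      · exact absurd h1.1 (hex _ _)
      · exact ⟨κ, rfl, by rw [h1.2], h1.1⟩
      · exact absurd h1.1 hne
    choose t0 ht0 ht0' ht0'' using hex2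
    refine ⟨false, false, fun i => Sum.inr (t0 i), funext ht0, funext ht0', ?_⟩
    have := ht0'' ⟨0, hK⟩
    exact congrFun this t0

/-- the relation of the glued structure -/
def QG (G : Gad K N B) (nf : NF Q) (M : ℕ) : Set (Fin K → Gl B nf M) :=
  {t | ∃ e, VE G e ∧ ∃ t' ∈ nf.Φ, t = name e ∘ t'}

open Classical in
/-- the witnesses -/
noncomputable def mw (G : Gad K N B) (nf : NF Q) (φ : (Fin K → Ω) → B)
    (b b' : (Fin K → nf.A ⊕ nf.D) → B) : (Fin K → Vr nf.A nf.D nf.Z) → B :=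
  if h : HH G nf b b' then h.choose else fun _ => φ (fun _ => asg (fun _ => nf.c 0) nf.δ
    (nf.u 0 0) (role false nf.ne.some))

theorem mw_spec {b b' : (Fin K → nf.A ⊕ nf.D) → B} (h : HH G nf b b') :
    (∀ t, mw G nf φ b b' (role false ∘ t) = b t) ∧ (∀ t, mw G nf φ b b' (role true ∘ t) = b' t) ∧
    ∀ j (g : Fin N → Vr nf.A nf.D nf.Z), (∀ s ∈ G.edges j, g ∘ s ∈ nf.Φ) →
      (fun a => mw G nf φ b b' (g ∘ G.blk j a)) ∈ G.rel j := by
  have h1 : mw G nf φ b b' = h.choose := dif_pos h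
  rw [h1]
  exact h.choose_spec

theorem mw_role {e : Bool → ((Fin K → nf.A ⊕ nf.D) → B) × Sh M} (h : VE G e) (r : Bool)
    (t : Fin K → nf.A ⊕ nf.D) : mw G nf φ (e false).1 (e true).1 (role r ∘ t) = (e r).1 t := by
  obtain ⟨h1, h2, -⟩ := mw_spec (φ := φ) h.1
  cases r
  · exact h1 t
  · exact h2 t

open Classical in
/-- the colouring of the glued structure -/
noncomputable def phiG (G : Gad K N B) (nf : NF Q) (M : ℕ) (φ : (Fin K → Ω) → B)
    (t : Fin K → Gl B nf M) : B :=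
  if h : ∃ (e : Bool → ((Fin K → nf.A ⊕ nf.D) → B) × Sh M) (t' : Fin K → Vr nf.A nf.D nf.Z),
      VE G e ∧ t = name e ∘ t' then
    mw G nf φ (h.choose false).1 (h.choose true).1 h.choose_spec.choose
  else φ (fun _ => asg (fun _ => nf.c 0) nf.δ (nf.u 0 0) (role false nf.ne.some))

theorem phiG_name {e : Bool → ((Fin K → nf.A ⊕ nf.D) → B) × Sh M} (h : VE G e) (hK : 1 ≤ K)
    (t : Fin K → Vr nf.A nf.D nf.Z) :
    phiG G nf M φ (name e ∘ t) = mw G nf φ (e false).1 (e true).1 t := by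
  classical
  have hex : ∃ (e' : Bool → ((Fin K → nf.A ⊕ nf.D) → B) × Sh M) (t' : Fin K → Vr nf.A nf.D nf.Z),
      VE G e' ∧ name e ∘ t = name e' ∘ t' := ⟨e, t, h, rfl⟩
  have h1 : phiG G nf M φ (name e ∘ t) =
      mw G nf φ (hex.choose false).1 (hex.choose true).1 hex.choose_spec.choose := dif_pos hex
  rw [h1]
  obtain ⟨h2, h3⟩ := hex.choose_spec.choose_spec
  by_cases hee : e = hex.choose
  · have h4 : t = hex.choose_spec.choose := by
      funext i
      have h5 := congrFun h3 i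
      apply h.name_inj
      rw [comp_apply] at h5
      rw [h5, comp_apply]
      congr 1
      exact hee.symm
    rw [← h4, ← hee]
  · obtain ⟨r, r', t0, h4, h5, h6⟩ := coincide h h2 hee hK h3
    rw [h5, mw_role h2, ← h6, h4, mw_role h]

theorem mem_QG {e : Bool → ((Fin K → nf.A ⊕ nf.D) → B) × Sh M} (h : VE G e) (hK : 1 ≤ K)
    (t : Fin K → Vr nf.A nf.D nf.Z) : name e ∘ t ∈ QG G nf M ↔ t ∈ nf.Φ := by
  constructor
  · rintro ⟨e', h', t', ht', h1⟩
    by_cases hee : e = e'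
    · subst hee
      have : t = t' := by
        funext i
        exact h.name_inj (congrFun h1 i)
      rwa [this]
    · obtain ⟨r, r', t0, h4, h5, -⟩ := coincide h h' hee hK h1
      rw [h5] at ht'
      rw [h4]
      have hsym := nf.sym t0
      cases r <;> cases r'
      · exact ht'
      · exact hsym.2 ht'
      · exact hsym.1 ht'
      · exact ht'
  · intro ht
    exact ⟨e, h, t, ht, rfl⟩

theorem atoms_injective (hV : G.Valid Q φ) {t : Fin K → Vr nf.A nf.D nf.Z} (ht : t ∈ nf.Φ) :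
    Injective t :=
  Injective.of_comp (hV.1 _ (nf.holds 0 1 (by decide) t ht))

/-- each gadget in the glued structure lies in a piece -/
theorem piece (hV : G.Valid Q φ) (hN : 1 ≤ N) {j : G.J} {g : Fin N → Gl B nf M}
    (hg : ∀ s ∈ G.edges j, g ∘ s ∈ QG G nf M) :
    ∃ e, VE G e ∧ ∃ g' : Fin N → Vr nf.A nf.D nf.Z, g = name e ∘ g' := by
  classical
  have hpair : ∀ a b, ∃ e, VE G e ∧ (∃ x, g a = name e x) ∧ ∃ x, g b = name e x := by
    intro a b
    obtain ⟨s, hs, ⟨i, hi⟩, ⟨i', hi'⟩⟩ := G.irr j a b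
    obtain ⟨e, he, t', -, h1⟩ := hg s hs
    refine ⟨e, he, ⟨t' i, ?_⟩, ⟨t' i', ?_⟩⟩
    · have := congrFun h1 i
      simpa [hi] using this
    · have := congrFun h1 i'
      simpa [hi'] using this
  suffices h : ∃ e, VE G e ∧ ∀ a, ∃ x, g a = name e x by
    obtain ⟨e, he, h⟩ := h
    choose g' hg' using h
    exact ⟨e, he, g', funext hg'⟩
  by_cases hz : ∃ a e z, g a = Sum.inr (e, z)
  · obtain ⟨a, e, z, ha⟩ := hz
    have h1 : ∀ b, VE G e ∧ ∃ x, g b = name e x := by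
      intro b
      obtain ⟨e', he', ⟨x, hx⟩, h2⟩ := hpair a b
      rw [ha] at hx
      have : e = e' := by
        rcases x with ⟨r, c⟩ | κ | ω <;> simp [name] at hx
        exact hx.1
      rw [this]
      exact ⟨he', h2⟩
    exact ⟨e, (h1 a).1, fun b => (h1 b).2⟩
  · push Not at hz
    -- two own vertices
    have hown : ∀ a b v c v' c', g a = Sum.inl (Sum.inr (v, c)) → g b = Sum.inl (Sum.inr (v', c')) →
        ∃ e r r', VE G e ∧ v = e r ∧ v' = e r' := by
      intro a b v c v' c' ha hb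
      obtain ⟨e, he, ⟨x, hx⟩, ⟨y, hy⟩⟩ := hpair a b
      rw [ha] at hx
      rw [hb] at hy
      rcases x with ⟨r, c1⟩ | κ | ω <;> simp [name] at hx
      rcases y with ⟨r', c2⟩ | κ | ω <;> simp [name] at hy
      exact ⟨e, r, r', he, hx.1, hy.1⟩
    have hsh : ∀ a b v c ē d, g a = Sum.inl (Sum.inr (v, c)) → g b = Sum.inl (Sum.inl (ē, d)) →
        ē = dres v.1 := by
      intro a b v c ē d ha hb
      obtain ⟨e, he, ⟨x, hx⟩, ⟨y, hy⟩⟩ := hpair a b
      rw [ha] at hx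
      rw [hb] at hy
      rcases x with ⟨r, c1⟩ | κ | ω <;> simp [name] at hx
      rcases y with ⟨r', c2⟩ | κ | ω <;> simp [name] at hy
      rw [hy.1, hx.1]
      exact (he.dres r).symm
    have hadj : ∀ a b v c v' c', g a = Sum.inl (Sum.inr (v, c)) →
        g b = Sum.inl (Sum.inr (v', c')) → v ≠ v' → SE v.2 v'.2 ∨ SE v'.2 v.2 := by
      intro a b v c v' c' ha hb hvv
      obtain ⟨e, r, r', he, rfl, rfl⟩ := hown _ _ _ _ _ _ ha hb
      cases r <;> cases r'
      · exact absurd rfl hvv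
      · exact Or.inl he.2
      · exact Or.inr he.2
      · exact absurd rfl hvv
    have hcase : ∀ b, (∃ ē d, g b = Sum.inl (Sum.inl (ē, d))) ∨
        ∃ v c, g b = Sum.inl (Sum.inr (v, c)) := by
      intro b
      rcases h : g b with (⟨ē, d⟩ | ⟨v, c⟩) | ⟨e, z⟩
      · exact Or.inl ⟨_, _, rfl⟩
      · exact Or.inr ⟨_, _, rfl⟩
      · exact absurd h (hz b e z)
    by_cases ho : ∃ a v c, g a = Sum.inl (Sum.inr (v, c))
    · obtain ⟨a, v, c, ha⟩ := ho
      -- a piece containing all the copies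
      have hpc : ∃ e, VE G e ∧ (∃ r, v = e r) ∧
          ∀ b v' c', g b = Sum.inl (Sum.inr (v', c')) → ∃ r, v' = e r := by
        by_cases htwo : ∃ b v' c', g b = Sum.inl (Sum.inr (v', c')) ∧ v ≠ v'
        · obtain ⟨b, v', c', hb, hvv⟩ := htwo
          obtain ⟨e, r, r', he, hr, hr'⟩ := hown _ _ _ _ _ _ ha hb
          refine ⟨e, he, ⟨r, hr⟩, ?_⟩
          intro b2 v2 c2 hb2
          by_cases h1 : v = v2
          · exact ⟨r, h1 ▸ hr⟩
          by_cases h2 : v' = v2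
          · exact ⟨r', h2 ▸ hr'⟩
          exfalso
          exact SE.triangle (hadj _ _ _ _ _ _ ha hb hvv) (hadj _ _ _ _ _ _ hb hb2 h2)
            (hadj _ _ _ _ _ _ ha hb2 h1)
        · push Not at htwo
          obtain ⟨e, r, -, he, hr, -⟩ := hown _ _ _ _ _ _ ha ha
          refine ⟨e, he, ⟨r, hr⟩, fun b v' c' hb => ⟨r, ?_⟩⟩
          rw [← htwo b v' c' hb]
          exact hr
      obtain ⟨e, he, ⟨r, hr⟩, h1⟩ := hpc
      refine ⟨e, he, fun b => ?_⟩
      rcases hcase b with ⟨ē, d, hb⟩ | ⟨v', c', hb⟩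
      · refine ⟨Sum.inr (Sum.inl d), ?_⟩
        have h2 := hsh _ _ _ _ _ _ ha hb
        rw [hb, h2, hr]
        simp only [name, Sum.elim_inr, Sum.elim_inl]
        rw [he.dres]
      · obtain ⟨r', hr'⟩ := h1 _ _ _ hb
        refine ⟨Sum.inl (r', c'), ?_⟩
        rw [hb, hr']
        rfl
    · push Not at ho
      obtain ⟨e, he, -, -⟩ := hpair ⟨0, hN⟩ ⟨0, hN⟩
      have h0 : ∀ b, ∃ ē d, g b = Sum.inl (Sum.inl (ē, d)) := by
        intro b
        rcases hcase b with h | ⟨v, c, h⟩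
        · exact h
        · exact absurd h (ho b v c)
      obtain ⟨ē, d, h1⟩ := h0 ⟨0, hN⟩
      obtain ⟨e, he, ⟨x, hx⟩, -⟩ := hpair ⟨0, hN⟩ ⟨0, hN⟩
      refine ⟨e, he, fun b => ?_⟩
      obtain ⟨ē', d', hb⟩ := h0 b
      refine ⟨Sum.inr (Sum.inl d'), ?_⟩
      obtain ⟨e', he', ⟨x', hx'⟩, ⟨y, hy⟩⟩ := hpair ⟨0, hN⟩ b
      rw [h1] at hx hx'
      rw [hb] at hy ⊢
      rcases x with ⟨r, c1⟩ | κ | ω <;> simp [name] at hx
      rcases x' with ⟨r, c1⟩ | κ' | ω <;> simp [name] at hx'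
      rcases y with ⟨r, c1⟩ | κ'' | ω <;> simp [name] at hy
      simp only [name, Sum.elim_inr, Sum.elim_inl]
      rw [hy.1, ← hx'.1, hx.1]

/-- the glued structure is valid -/
theorem valid_QG (hV : G.Valid Q φ) (hK : 1 ≤ K) (hN : 1 ≤ N) :
    G.Valid (QG G nf M) (phiG G nf M φ) := by
  constructor
  · rintro t ⟨e, he, t', ht', rfl⟩
    exact he.name_inj.comp (atoms_injective hV ht')
  · intro j g hg
    obtain ⟨e, he, g', rfl⟩ := piece hV hN hg
    have h1 : ∀ s ∈ G.edges j, g' ∘ s ∈ nf.Φ := fun s hs => (mem_QG he hK _).1 (hg s hs)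
    have h2 := (mw_spec (φ := φ) he.1).2.2 j g' h1
    have h3 : (fun a => phiG G nf M φ ((name e ∘ g') ∘ G.blk j a)) =
        fun a => mw G nf φ (e false).1 (e true).1 (g' ∘ G.blk j a) := by
      funext a
      exact phiG_name he hK _
    rw [h3]
    exact h2

/-- **Finite subgraphs of `HH` are 3-colourable.** -/
theorem colour_finite [Nonempty Ω] (hV : G.Valid Q φ) (hE : G.Ext Q φ) (hK : 1 ≤ K) (hN : 1 ≤ N)
    (nf : NF Q) (S : Finset ((Fin K → nf.A ⊕ nf.D) → B)) :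
    ∃ χ : ((Fin K → nf.A ⊕ nf.D) → B) → Fin 3, ∀ b ∈ S, ∀ b' ∈ S, HH G nf b b' → χ b ≠ χ b' := by
  classical
  have := nf.finA
  have := nf.finD
  have := nf.finZ
  obtain ⟨M, hM⟩ := shift_colour (C := S → Fin 3)
  let F : Set (Gl B nf M) := Set.range (fun p : (Bool → S × Sh M) × Vr nf.A nf.D nf.Z =>
    name (fun r => ((p.1 r).1.1, (p.1 r).2)) p.2)
  have hF : F.Finite := Set.finite_range _
  obtain ⟨ε, hε, -⟩ := hE.many (valid_QG (nf := nf) (M := M) hV hK hN) Set.finite_empty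
    (e := fun _ => Classical.arbitrary Ω)
    ⟨fun x hx => hx.elim, fun t ht => (ht ⟨0, hK⟩).elim⟩ hF
  rw [Set.empty_union] at hε
  choose X hX using nf.col
  let own : ((Fin K → nf.A ⊕ nf.D) → B) → Sh M → nf.A → Ω := fun b κ a =>
    ε (Sum.inl (Sum.inr ((b, κ), a)))
  let shd : ((Fin K → nf.A ⊕ nf.D) → B) → nf.D → Ω := fun b d => ε (Sum.inl (Sum.inl (dres b, d)))
  let χ' : ((Fin K → nf.A ⊕ nf.D) → B) → Sh M → Fin 3 := fun b κ => X (shd b) (own b κ)
  obtain ⟨p, q, hpq, hc⟩ := hM (fun κ b => χ' b.1 κ)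
  refine ⟨fun b => χ' b p, fun b hb b' hb' hbb => ?_⟩
  have h1 : χ' b' p = χ' b' q := congrFun hc ⟨b', hb'⟩
  show χ' b p ≠ χ' b' p
  rw [h1]
  -- the edge
  let e : Bool → ((Fin K → nf.A ⊕ nf.D) → B) × Sh M := fun r => if r then (b', q) else (b, p)
  have he : VE G e := ⟨hbb, hpq⟩
  have hmem : ∀ x, name e x ∈ F := by
    intro x
    refine ⟨(fun r => if r then (⟨b', hb'⟩, q) else (⟨b, hb⟩, p), x), ?_⟩
    simp only
    congr 1
    funext r
    cases r <;> rfl
  have hdr : dres (nf := nf) b' = dres b := he.dres true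
  have hasg : asg (fun r => if r then own b' q else own b p) (shd b)
      (fun z => ε (Sum.inr (e, z))) = ε ∘ name e := by
    funext x
    rcases x with ⟨r, c⟩ | κ | ω
    · cases r <;> rfl
    · rfl
    · rfl
  have h2 := hX (shd b) (fun r => if r then own b' q else own b p) (fun z => ε (Sum.inr (e, z)))
    (by
      rw [hasg]
      intro x y hxy
      exact he.name_inj (hε.1 (hmem x) (hmem y) hxy)) (by
      intro t ht
      rw [hasg]
      exact ((hε.2 (name e ∘ t) (fun i => hmem _)).1).1 ((mem_QG he hK t).2 ht))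
  have h3 : shd b' = shd b := by
    funext d
    show ε _ = ε _
    rw [hdr]
  show X (shd b) (own b p) ≠ X (shd b') (own b' q)
  rw [h3]
  exact h2

/-- **pp-constructions of `K₃` descend.** -/
theorem k3_descend [Nonempty Ω] [Finite G.J] (hV : G.Valid Q φ) (hE : G.Ext Q φ) (hK : 1 ≤ K)
    (hN : 1 ≤ N) {ι : Type} {arA : ι → ℕ} {𝔸 : Str ι arA B} (hpp : ∀ j, PP 𝔸 (G.rel j))
    (nf : NF Q) : PPConstructsK3 𝔸 := by
  classical
  have := nf.finA
  have := nf.finD
  have := nf.finZ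
  obtain ⟨χ, hχ⟩ := colour_compact (HH G nf) (colour_finite hV hE hK hN nf)
  let Tup := Fin K → nf.A ⊕ nf.D
  obtain ⟨n, ⟨ε⟩⟩ := Finite.exists_equiv_fin Tup
  have hn : 1 ≤ n := by
    have : Nonempty Tup := ⟨fun _ => nf.ne.some⟩
    rcases Nat.eq_zero_or_pos n with h | h
    · subst h
      exact (ε this.some).elim0
    · exact h
  have hPP := (pp_HH nf hpp).subst (V' := Fin n ⊕ Fin n) (Sum.map ε ε)
  refine ⟨n, _, hn, hPP.toPPDef, ⟨fun p i => φ (fun a => Sum.elim (nf.c p) nf.δ (ε.symm i a)), ?_⟩,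
    ⟨fun x => χ (fun t => x (ε t)), ?_⟩⟩
  · intro p p' hpp'
    show HH G nf _ _
    refine ⟨fun t => φ (asg (fun r => nf.c (if r then p' else p)) nf.δ (nf.u p p') ∘ t), ?_, ?_, ?_⟩
    · intro t
      simp only [comp_apply, Sum.map_inl, Sum.elim_inl, Equiv.symm_apply_apply]
      congr 1
      funext a
      simp only [comp_apply]
      rcases t a with c | d
      · rfl
      · rfl
    · intro t
      simp only [comp_apply, Sum.map_inr, Sum.elim_inr, Equiv.symm_apply_apply]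
      congr 1
      funext a
      simp only [comp_apply]
      rcases t a with c | d
      · rfl
      · rfl
    · intro j g hg
      exact hV.2 j (asg (fun r => nf.c (if r then p' else p)) nf.δ (nf.u p p') ∘ g)
        (fun s hs => nf.holds p p' hpp' _ (hg s hs))
  · intro x y hxy
    exact hχ _ _ hxy

end

end Pool.Agent.P8H87
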