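import Mathlib
import Pool.Agent.P8H87.Gad

/-!
# A rigid family of gadgets
-/

namespace Pool.Agent.P8H87

open Function

/-- the entries of the extra edge -/
def exN (u i : ℕ) : ℕ := if i = 0 then u + 2 else if i = 1 then u else u + 1 + i

variable {K N : ℕ}

/-- the edges: the strictly increasing tuples and one extra tuple -/
def edg (K N u : ℕ) : Set (Fin K → Fin N) := {s | StrictMono s ∨ ∀ i : Fin K, (s i : ℕ) = exN u i}

theorem exN_inj {u i i' : ℕ} (h : exN u i = exN u i') : i = i' := by
  unfold exN at h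
  split_ifs at h <;> omega

theorem edg_inj {u : ℕ} {s : Fin K → Fin N} (h : s ∈ edg K N u) : Injective s := by
  rcases h with h | h
  · exact h.injective
  · intro i i' hii
    apply Fin.ext
    apply exN_inj (u := u)
    rw [← h, ← h, hii]

theorem edg_irr (hK : 2 ≤ K) (hN : K ≤ N) (a b : Fin N) :
    ∃ s : Fin K → Fin N, StrictMono s ∧ (∃ i, s i = a) ∧ ∃ i, s i = b := by
  classical
  have h1 : ({a, b} : Finset (Fin N)).card ≤ K := Finset.card_le_two.trans hK
  obtain ⟨T, hT1, -, hT2⟩ := Finset.exists_subsuperset_card_eq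
    (Finset.subset_univ ({a, b} : Finset (Fin N))) h1 (by simpa using hN)
  refine ⟨T.orderEmbOfFin hT2, (T.orderEmbOfFin hT2).strictMono, ?_, ?_⟩
  · have : a ∈ Set.range (T.orderEmbOfFin hT2) := by
      rw [Finset.range_orderEmbOfFin]
      exact hT1 (by simp)
    exact this
  · have : b ∈ Set.range (T.orderEmbOfFin hT2) := by
      rw [Finset.range_orderEmbOfFin]
      exact hT1 (by simp)
    exact this

theorem strictMono_fin_id {g : Fin N → Fin N} (hg : StrictMono g) : g = id := by
  have h1 : ∀ x : Fin N, x ≤ g x := hg.id_le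
  have h2 : Function.Bijective g := Finite.injective_iff_bijective.1 hg.injective
  let e : Fin N ≃ Fin N := Equiv.ofBijective g h2
  have h3 : StrictMono e.symm := by
    intro x y hxy
    by_contra hcon
    push Not at hcon
    have h4 := hg.monotone hcon
    have h5 : g (e.symm x) = x := e.apply_symm_apply x
    have h6 : g (e.symm y) = y := e.apply_symm_apply y
    rw [h5, h6] at h4
    exact absurd hxy (not_lt.2 h4)
  funext x
  apply le_antisymm _ (h1 x)
  have h4 := h3.id_le (g x)
  have h5 : e.symm (g x) = x := e.symm_apply_apply x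
  simp only [id] at h4
  rw [h5] at h4
  exact h4

/-- **Rigidity.** -/
theorem rigid (hK : 2 ≤ K) {u u' : ℕ} (hu : u + K + 2 ≤ N) (hu' : u' + K + 2 ≤ N)
    {g : Fin N → Fin N} (hg : ∀ s ∈ edg K N u, g ∘ s ∈ edg K N u') : u = u' ∧ g = id := by
  have hKN : K ≤ N := by omega
  have hmono : ∀ s : Fin K → Fin N, StrictMono s → s ∈ edg K N u := fun s hs => Or.inl hs
  have hginj : Injective g := by
    intro a b hab
    obtain ⟨s, hs, ⟨i, rfl⟩, ⟨i', rfl⟩⟩ := edg_irr hK hKN a b
    have := edg_inj (hg s (hmono s hs)) hab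
    rw [this]
  have hgbij : Function.Bijective g := Finite.injective_iff_bijective.1 hginj
  obtain ⟨c, hc⟩ := hgbij.2 ⟨u' + 1, by omega⟩
  -- monotonicity at c
  have hcx : ∀ x, (x < c → g x < g c) ∧ (c < x → g c < g x) := by
    intro x
    obtain ⟨s, hs, ⟨i, hi⟩, ⟨i', hi'⟩⟩ := edg_irr hK hKN c x
    rcases hg s (hmono s hs) with h | h
    · constructor
      · intro hx
        rw [← hi, ← hi'] at hx ⊢
        exact h (hs.lt_iff_lt.1 hx)
      · intro hx
        rw [← hi, ← hi'] at hx ⊢
        exact h (hs.lt_iff_lt.1 hx)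
    · exfalso
      have h1 := h i
      simp only [comp_apply, hi, hc] at h1
      unfold exN at h1
      split_ifs at h1 <;> omega
  have hstrict : StrictMono g := by
    intro a b hab
    by_contra hcon
    push Not at hcon
    have hgab : g b < g a := lt_of_le_of_ne hcon (fun h => absurd (hginj h) hab.ne')
    obtain ⟨s, hs, ⟨i, hi⟩, ⟨i', hi'⟩⟩ := edg_irr hK hKN a b
    have hii : i < i' := by
      rw [← hi, ← hi'] at hab
      exact hs.lt_iff_lt.1 hab
    rcases hg s (hmono s hs) with h | h
    · have h1 := h hii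
      simp only [comp_apply, hi, hi'] at h1
      exact absurd h1 (not_lt.2 hcon)
    · have h1 := h i
      have h2 := h i'
      simp only [comp_apply, hi, hi'] at h1 h2
      have hii' : (i : ℕ) < i' := hii
      have hgab' : (g b : ℕ) < g a := hgab
      have h3 : (g a : ℕ) = u' + 2 ∧ (g b : ℕ) = u' := by
        unfold exN at h1 h2
        split_ifs at h1 h2 <;> omega
      have hcc : (g c : ℕ) = u' + 1 := by rw [hc]
      obtain ⟨h4, h5⟩ := hcx a
      obtain ⟨h6, h7⟩ := hcx b
      rcases lt_trichotomy a c with h8 | h8 | h8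
      · have : (g a : ℕ) < g c := h4 h8
        omega
      · rw [h8] at h3
        omega
      · have : (g c : ℕ) < g b := h7 (h8.trans hab)
        omega
  have hid := strictMono_fin_id hstrict
  refine ⟨?_, hid⟩
  -- the extra edge
  let s : Fin K → Fin N := fun i => ⟨exN u i, by
    have := i.2
    unfold exN
    split_ifs <;> omega⟩
  have hs : s ∈ edg K N u := Or.inr fun i => rfl
  rcases hg s hs with h | h
  · exfalso
    rw [hid] at h
    have h1 : s ⟨0, by omega⟩ < s ⟨1, by omega⟩ := h (by simp [Fin.lt_def])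
    have h2 : exN u 0 < exN u 1 := h1
    simp [exN] at h2
  · have h1 := h ⟨1, by omega⟩
    rw [hid] at h1
    have h2 : exN u 1 = exN u' 1 := h1
    simpa [exN] using h2

/-- the blocks -/
def bl (K N : ℕ) (l : ℕ) (i : Fin K) (h : 0 < N) : Fin N :=
  ⟨if l * K + i < N then l * K + i else 0, by split_ifs <;> omega⟩

theorem bl_val {l : ℕ} {i : Fin K} {h : 0 < N} (h' : (l + 1) * K ≤ N) :
    (bl K N l i h : ℕ) = l * K + i := by
  have := i.2
  have h1 : l * K + i < N := by
    have : (l + 1) * K = l * K + K := by ring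
    omega
  simp [bl, h1]

/-- the family of gadgets -/
def mkG {B : Type} (K N : ℕ) (hK : 2 ≤ K) (hKN : K ≤ N) (J : Type) (u : J → ℕ) (arJ : J → ℕ)
    (harJ : ∀ j, arJ j * K ≤ N) (rel : ∀ j, Set (Fin (arJ j) → B)) : Gad K N B where
  J := J
  edges := fun j => edg K N (u j)
  ar := arJ
  blk := fun j a i => bl K N a i (by omega)
  rel := rel
  irr := fun j a b => by
    obtain ⟨s, hs, h1, h2⟩ := edg_irr hK hKN a b
    exact ⟨s, Or.inl hs, h1, h2⟩
  binj := fun j a i i' h => by
    have h1 : (a + 1 : ℕ) * K ≤ N := (Nat.mul_le_mul_right K a.2).trans (harJ j)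
    have h2 := congrArg Fin.val h
    rw [bl_val h1, bl_val h1] at h2
    exact Fin.ext (by omega)

end Pool.Agent.P8H87
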