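import Mathlib
import Pool.Agent.P8H87.Gen
import Pool.Agent.P8H87.GadEx

/-!
# The reduction: correctness
-/

namespace Pool.Agent.P8H87

open Function Pool.Agent.W994.AR

section

variable {K N A : ℕ} {B : Type} {ι : Type} {ar0 : ι → ℕ}

/-- arities of the gadget relations -/
abbrev arJ (ar0 : ι → ℕ) : ι ⊕ Unit → ℕ := Sum.elim ar0 (fun _ => 2)

/-- the relations of the gadgets: the relations of the template and the equality -/
def relJ (𝔸 : Str ι ar0 B) : ∀ j : ι ⊕ Unit, Set (Fin (arJ ar0 j) → B)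
  | Sum.inl i => 𝔸 i
  | Sum.inr _ => {v : Fin 2 → B | v 0 = v 1}

/-- the parameters -/
structure Par (K N A : ℕ) (ar0 : ι → ℕ) (u : ι ⊕ Unit → ℕ) : Prop where
  hK : 2 ≤ K
  hA : 2 ≤ A
  har : ∀ i, ar0 i ≤ A
  inj : Injective u
  lo : ∀ j, K * A ≤ u j
  hi : ∀ j, u j + K + 2 ≤ N

theorem Par.hN {u : ι ⊕ Unit → ℕ} (h : Par K N A ar0 u) : K * A + K + 2 ≤ N := by
  have h1 := h.lo (Sum.inr ())
  have h2 := h.hi (Sum.inr ())
  omega

theorem Par.harJ {u : ι ⊕ Unit → ℕ} (h : Par K N A ar0 u) (j : ι ⊕ Unit) :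
    arJ ar0 j * K ≤ K * A := by
  rw [mul_comm]
  apply Nat.mul_le_mul_left
  rcases j with i | _
  · exact h.har i
  · exact h.hA

/-- the gadgets -/
def GG {u : ι ⊕ Unit → ℕ} (h : Par K N A ar0 u) (𝔸 : Str ι ar0 B) : Gad K N B :=
  mkG K N h.hK (by have := h.hN; omega) (ι ⊕ Unit) u (arJ ar0)
    (fun j => by have := h.hN; have := h.harJ j; omega) (relJ 𝔸)

/-- the vertices of the instance -/
abbrev Vx (K N : ℕ) : Type := (ℕ × Fin K) ⊕ ((ℕ × Fin N) ⊕ ((ℕ × ℕ) × Fin N))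

/-- position `k` of the block `l` -/
def blN (K N : ℕ) (h : 0 < N) (l k : ℕ) : Fin N :=
  ⟨if l * K + k < N then l * K + k else 0, by split_ifs <;> omega⟩

/-- the pieces of the instance -/
def pc (K N : ℕ) (h : 0 < N) (xa : ℕ → ℕ → ℕ) : ℕ ⊕ (ℕ × ℕ) → Fin N → Vx K N
  | Sum.inl c => fun w => Sum.inr (Sum.inl (c, w))
  | Sum.inr (c, l) => fun w =>
      if hw : (w : ℕ) < K then Sum.inl (xa c l, ⟨w, hw⟩)
      else if (w : ℕ) < 2 * K then Sum.inr (Sum.inl (c, blN K N h l (w - K)))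
      else Sum.inr (Sum.inr ((c, l), w))

/-- the valid pieces -/
def VP (ar0 : ι → ℕ) (m : ℕ) (ri : ℕ → ι) : ℕ ⊕ (ℕ × ℕ) → Prop
  | Sum.inl c => c < m
  | Sum.inr (c, l) => c < m ∧ l < ar0 (ri c)

/-- the type of a piece -/
def typ (ri : ℕ → ι) : ℕ ⊕ (ℕ × ℕ) → ι ⊕ Unit
  | Sum.inl c => Sum.inl (ri c)
  | Sum.inr _ => Sum.inr ()

/-- the relation of the instance -/
def QV (N : ℕ) (h : 0 < N) (u : ι ⊕ Unit → ℕ) (ar0 : ι → ℕ) (m : ℕ) (ri : ℕ → ι)
    (xa : ℕ → ℕ → ℕ) : Set (Fin K → Vx K N) :=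
  {t | ∃ p, VP ar0 m ri p ∧ ∃ s ∈ edg K N (u (typ ri p)), t = pc K N h xa p ∘ s}

variable {u : ι ⊕ Unit → ℕ} {m : ℕ} {ri : ℕ → ι} {xa : ℕ → ℕ → ℕ} {h0 : 0 < N}

theorem blN_val {l k : ℕ} (hk : k < K) (h' : (l + 1) * K ≤ N) :
    (blN K N h0 l k : ℕ) = l * K + k := by
  have h1 : l * K + k < N := by
    have : (l + 1) * K = l * K + K := by ring
    omega
  simp [blN, h1]

theorem block_unique {l l' k k' : ℕ} (hk : k < K) (hk' : k' < K)
    (h : l * K + k = l' * K + k') : l = l' ∧ k = k' := by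
  have h1 : (l * K + k) / K = l := by
    rw [mul_comm, Nat.mul_add_div (by omega), Nat.div_eq_of_lt hk, add_zero]
  have h2 : (l' * K + k') / K = l' := by
    rw [mul_comm, Nat.mul_add_div (by omega), Nat.div_eq_of_lt hk', add_zero]
  have h3 : l = l' := by rw [← h1, ← h2, h]
  subst h3
  exact ⟨rfl, by omega⟩

theorem Par.blk_le (hp : Par K N A ar0 u) {l : ℕ} {i : ι} (hl : l < ar0 i) :
    (l + 1) * K ≤ K * A := by
  rw [mul_comm]
  exact Nat.mul_le_mul_left K (by have := hp.har i; omega)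

theorem pc_cases (c l : ℕ) (w : Fin N) :
    (∃ hw : (w : ℕ) < K, pc K N h0 xa (Sum.inr (c, l)) w = Sum.inl (xa c l, ⟨w, hw⟩)) ∨
    (K ≤ (w : ℕ) ∧ (w : ℕ) < 2 * K ∧
      pc K N h0 xa (Sum.inr (c, l)) w = Sum.inr (Sum.inl (c, blN K N h0 l (w - K)))) ∨
    (2 * K ≤ (w : ℕ) ∧ pc K N h0 xa (Sum.inr (c, l)) w = Sum.inr (Sum.inr ((c, l), w))) := by
  by_cases h1 : (w : ℕ) < K
  · left
    refine ⟨h1, ?_⟩
    simp only [pc]
    rw [dif_pos h1]
  · by_cases h2 : (w : ℕ) < 2 * K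
    · right
      left
      refine ⟨by omega, h2, ?_⟩
      simp only [pc]
      rw [dif_neg h1, if_pos h2]
    · right
      right
      refine ⟨by omega, ?_⟩
      simp only [pc]
      rw [dif_neg h1, if_neg h2]

theorem pc_inj (hp : Par K N A ar0 u) {p : ℕ ⊕ (ℕ × ℕ)} (hv : VP ar0 m ri p) :
    Injective (pc K N h0 xa p) := by
  have hN := hp.hN
  rcases p with c | ⟨c, l⟩
  · intro w w' h
    simpa [pc] using h
  · have h1 := hp.blk_le hv.2
    intro w w' h
    rcases pc_cases (h0 := h0) (xa := xa) c l w with ⟨hw, e⟩ | ⟨hw, hw2, e⟩ | ⟨hw, e⟩ <;>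
      rcases pc_cases (h0 := h0) (xa := xa) c l w' with ⟨hw', e'⟩ | ⟨hw', hw2', e'⟩ | ⟨hw', e'⟩ <;>
      rw [e, e'] at h <;>
      simp only [Sum.inl.injEq, Sum.inr.injEq, Prod.mk.injEq, Fin.mk.injEq, true_and,
        reduceCtorEq] at h
    · exact Fin.ext h
    · have h9 := congrArg Fin.val h
      rw [blN_val (by omega) (by omega), blN_val (by omega) (by omega)] at h9
      exact Fin.ext (by omega)
    · exact h

theorem overlap (hp : Par K N A ar0 u) {p p' : ℕ ⊕ (ℕ × ℕ)} (hv : VP ar0 m ri p)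
    (hv' : VP ar0 m ri p') (hne : p ≠ p') {s s' : Fin K → Fin N}
    (h : pc K N h0 xa p ∘ s = pc K N h0 xa p' ∘ s') (hs' : s' ∈ edg K N (u (typ ri p'))) :
    s ∈ edg K N (u (typ ri p)) := by
  have hN := hp.hN
  have hK := hp.hK
  have hpt : ∀ i, pc K N h0 xa p (s i) = pc K N h0 xa p' (s' i) := fun i => congrFun h i
  have hKA : 2 * K ≤ K * A := by
    rw [mul_comm]
    exact Nat.mul_le_mul_left K hp.hA
  rcases p with c | ⟨c, l⟩ <;> rcases p' with c' | ⟨c', l'⟩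
  · exfalso
    have := hpt ⟨0, by omega⟩
    simp only [pc, Sum.inr.injEq, Sum.inl.injEq, Prod.mk.injEq] at this
    exact hne (by rw [this.1])
  · -- a constraint gadget and an equality gadget
    have h1 := hp.blk_le hv'.2
    have hval : ∀ i, K ≤ (s' i : ℕ) ∧ (s' i : ℕ) < 2 * K ∧ (s i : ℕ) = l' * K + (s' i - K) := by
      intro i
      have h2 : Sum.inr (Sum.inl (c, s i)) = pc K N h0 xa (Sum.inr (c', l')) (s' i) := hpt i
      rcases pc_cases (h0 := h0) (xa := xa) c' l' (s' i) with ⟨hw, e⟩ | ⟨hw, hw2, e⟩ | ⟨hw, e⟩ <;>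
        rw [e] at h2 <;>
        simp only [Sum.inl.injEq, Sum.inr.injEq, Prod.mk.injEq, reduceCtorEq] at h2
      refine ⟨hw, hw2, ?_⟩
      rw [h2.2, blN_val (by omega) (by omega)]
    rcases hs' with hs' | hs'
    · left
      intro i i' hii
      have h2 := hval i
      have h3 := hval i'
      have h4 : (s' i : ℕ) < s' i' := hs' hii
      show (s i : ℕ) < s i'
      omega
    · exfalso
      have h2 := (hval ⟨1, by omega⟩).2.1
      have h3 := hs' ⟨1, by omega⟩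
      have h4 := hp.lo (Sum.inr ())
      simp only [exN, typ] at h3
      norm_num at h3
      omega
  · have h1 := hp.blk_le hv.2
    have hval : ∀ i, K ≤ (s i : ℕ) ∧ (s i : ℕ) < 2 * K ∧ (s' i : ℕ) = l * K + (s i - K) := by
      intro i
      have h2 : pc K N h0 xa (Sum.inr (c, l)) (s i) = Sum.inr (Sum.inl (c', s' i)) := hpt i
      rcases pc_cases (h0 := h0) (xa := xa) c l (s i) with ⟨hw, e⟩ | ⟨hw, hw2, e⟩ | ⟨hw, e⟩ <;>
        rw [e] at h2 <;>
        simp only [Sum.inl.injEq, Sum.inr.injEq, Prod.mk.injEq, reduceCtorEq] at h2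
      refine ⟨hw, hw2, ?_⟩
      rw [← h2.2, blN_val (by omega) (by omega)]
    rcases hs' with hs' | hs'
    · left
      intro i i' hii
      have h2 := hval i
      have h3 := hval i'
      have h4 : (s' i : ℕ) < s' i' := hs' hii
      show (s i : ℕ) < s i'
      omega
    · exfalso
      have h2 := hval ⟨1, by omega⟩
      have h3 := hs' ⟨1, by omega⟩
      have h4 := hp.lo (Sum.inl (ri c'))
      have h5 : (l + 1) * K = l * K + K := by ring
      simp only [exN, typ] at h3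
      norm_num at h3
      omega
  · have h1 := hp.blk_le hv.2
    have h1' := hp.blk_le hv'.2
    have hss : s = s' := by
      funext i
      have h2 := hpt i
      rcases pc_cases (h0 := h0) (xa := xa) c l (s i) with ⟨hw, e⟩ | ⟨hw, hw2, e⟩ | ⟨hw, e⟩ <;>
        rcases pc_cases (h0 := h0) (xa := xa) c' l' (s' i) with
          ⟨hw', e'⟩ | ⟨hw', hw2', e'⟩ | ⟨hw', e'⟩ <;>
        rw [e, e'] at h2 <;>
        simp only [Sum.inl.injEq, Sum.inr.injEq, Prod.mk.injEq, Fin.mk.injEq,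
          reduceCtorEq] at h2
      · exact Fin.ext h2.2
      · exfalso
        have h12 := congrArg Fin.val h2.2
        rw [blN_val (by omega) (by omega), blN_val (by omega) (by omega)] at h12
        have h13 := (block_unique (by omega) (by omega) h12).1
        exact hne (by rw [h2.1, h13])
      · exfalso
        exact hne (by rw [h2.1.1, h2.1.2])
    rw [hss]
    exact hs'

/-- the colouring of the instance -/
def phiV (hK : 0 < K) (xa : ℕ → ℕ → ℕ) (a : ℕ → B) (t : Fin K → Vx K N) : B :=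
  match t ⟨0, hK⟩ with
  | Sum.inl (x, _) => a x
  | Sum.inr (Sum.inl (c, w)) => a (xa c (w / K))
  | Sum.inr (Sum.inr _) => a 0

theorem clique (hp : Par K N A ar0 u) {g : Fin N → Vx K N} (hg : Injective g)
    (hpair : ∀ a b, ∃ p, VP ar0 m ri p ∧ (∃ w, g a = pc K N h0 xa p w) ∧
      ∃ w, g b = pc K N h0 xa p w) :
    ∃ p, VP ar0 m ri p ∧ ∀ a, ∃ w, g a = pc K N h0 xa p w := by
  have hN := hp.hN
  have hK := hp.hK
  -- private vertices of equality gadgets
  by_cases h1 : ∃ a c l w, g a = Sum.inr (Sum.inr ((c, l), w))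
  · obtain ⟨a, c, l, w, ha⟩ := h1
    have h2 : ∀ b, VP ar0 m ri (Sum.inr (c, l)) ∧ ∃ w, g b = pc K N h0 xa (Sum.inr (c, l)) w := by
      intro b
      obtain ⟨p, hv, ⟨w1, hw1⟩, hb⟩ := hpair a b
      have hpe : p = Sum.inr (c, l) := by
        rw [ha] at hw1
        rcases p with c' | ⟨c', l'⟩
        · simp [pc] at hw1
        · rcases pc_cases (h0 := h0) (xa := xa) c' l' w1 with ⟨hw, e⟩ | ⟨hw, hw2, e⟩ | ⟨hw, e⟩ <;>
            rw [e] at hw1 <;>
            simp only [Sum.inr.injEq, Prod.mk.injEq, reduceCtorEq] at hw1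
          rw [hw1.1.1, hw1.1.2]
      rw [hpe] at hv hb
      exact ⟨hv, hb⟩
    exact ⟨_, (h2 a).1, fun b => (h2 b).2⟩
  by_cases h2 : ∃ a c w, g a = Sum.inr (Sum.inl (c, w)) ∧ ¬ (w : ℕ) < ar0 (ri c) * K
  · obtain ⟨a, c, w, ha, hw⟩ := h2
    have h3 : ∀ b, VP ar0 m ri (Sum.inl c) ∧ ∃ w, g b = pc K N h0 xa (Sum.inl c) w := by
      intro b
      obtain ⟨p, hv, ⟨w1, hw1⟩, hb⟩ := hpair a b
      have hpe : p = Sum.inl c := by
        rw [ha] at hw1
        rcases p with c' | ⟨c', l'⟩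
        · simp only [pc, Sum.inr.injEq, Sum.inl.injEq, Prod.mk.injEq] at hw1
          rw [hw1.1]
        · exfalso
          have h4 := hp.blk_le hv.2
          rcases pc_cases (h0 := h0) (xa := xa) c' l' w1 with
              ⟨hw3, e⟩ | ⟨hw3, hw2, e⟩ | ⟨hw3, e⟩ <;>
            rw [e] at hw1 <;>
            simp only [Sum.inl.injEq, Sum.inr.injEq, Prod.mk.injEq, reduceCtorEq] at hw1
          obtain ⟨hc, hw1⟩ := hw1
          subst hc
          apply hw
          rw [hw1, blN_val (by omega) (by omega)]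
          have hv2 := hv.2
          have h7 : (l' + 1) * K ≤ ar0 (ri c) * K := Nat.mul_le_mul_right K hv.2
          have h8 : (l' + 1) * K = l' * K + K := by ring
          omega
      rw [hpe] at hv hb
      exact ⟨hv, hb⟩
    exact ⟨_, (h3 a).1, fun b => (h3 b).2⟩
  exfalso
  push Not at h1 h2
  let F : Fin N → ℕ := fun a =>
    match g a with
    | Sum.inl (_, i) => i
    | Sum.inr (Sum.inl (_, w)) => K + w
    | Sum.inr (Sum.inr _) => 0
  have hF1 : ∀ a x i, g a = Sum.inl (x, i) → F a = i := by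
    intro a x i h
    simp only [F, h]
  have hF2 : ∀ a c w, g a = Sum.inr (Sum.inl (c, w)) → F a = K + w := by
    intro a c w h
    simp only [F, h]
  have hcase : ∀ a, (∃ x i, g a = Sum.inl (x, i)) ∨ ∃ c w, g a = Sum.inr (Sum.inl (c, w)) := by
    intro a
    rcases h : g a with ⟨x, i⟩ | ⟨c, w⟩ | ⟨⟨c, l⟩, w⟩
    · exact Or.inl ⟨x, i, rfl⟩
    · exact Or.inr ⟨c, w, rfl⟩
    · exact absurd h (h1 a c l w)
  have hlt : ∀ a, F a < K + K * A := by
    intro a
    rcases hcase a with ⟨x, i, h⟩ | ⟨c, w, h⟩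
    · rw [hF1 a x i h]
      have := i.2
      omega
    · rw [hF2 a c w h]
      have h3 := h2 a c w h
      have h4 : ar0 (ri c) * K ≤ K * A := by
        rw [mul_comm]
        exact Nat.mul_le_mul_left K (hp.har _)
      omega
  have hFinj : Injective F := by
    intro a b hab
    apply hg
    obtain ⟨p, hv, ⟨w1, hw1⟩, ⟨w2, hw2⟩⟩ := hpair a b
    rcases hcase a with ⟨x, i, ha⟩ | ⟨c, w, ha⟩ <;> rcases hcase b with ⟨x', i', hb⟩ | ⟨c', w', hb⟩
    · rw [hF1 a x i ha, hF1 b x' i' hb] at hab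
      have hii : i = i' := Fin.ext hab
      have hxx : x = x' := by
        rw [ha] at hw1
        rw [hb] at hw2
        rcases p with c | ⟨c, l⟩
        · simp [pc] at hw1
        · rcases pc_cases (h0 := h0) (xa := xa) c l w1 with ⟨_, e⟩ | ⟨_, _, e⟩ | ⟨_, e⟩ <;>
            rw [e] at hw1 <;>
            simp only [Sum.inl.injEq, Prod.mk.injEq, reduceCtorEq] at hw1
          rcases pc_cases (h0 := h0) (xa := xa) c l w2 with ⟨_, e⟩ | ⟨_, _, e⟩ | ⟨_, e⟩ <;>
            rw [e] at hw2 <;>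
            simp only [Sum.inl.injEq, Prod.mk.injEq, reduceCtorEq] at hw2
          rw [hw1.1, hw2.1]
      rw [ha, hb, hii, hxx]
    · rw [hF1 a x i ha, hF2 b c' w' hb] at hab
      have := i.2
      omega
    · rw [hF2 a c w ha, hF1 b x' i' hb] at hab
      have := i'.2
      omega
    · rw [hF2 a c w ha, hF2 b c' w' hb] at hab
      have hww : w = w' := Fin.ext (by omega)
      have hcc : c = c' := by
        rw [ha] at hw1
        rw [hb] at hw2
        rcases p with d | ⟨d, l⟩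
        · simp only [pc, Sum.inr.injEq, Sum.inl.injEq, Prod.mk.injEq] at hw1 hw2
          rw [hw1.1, hw2.1]
        · rcases pc_cases (h0 := h0) (xa := xa) d l w1 with ⟨_, e⟩ | ⟨_, _, e⟩ | ⟨_, e⟩ <;>
            rw [e] at hw1 <;>
            simp only [Sum.inl.injEq, Sum.inr.injEq, Prod.mk.injEq, reduceCtorEq] at hw1
          rcases pc_cases (h0 := h0) (xa := xa) d l w2 with ⟨_, e⟩ | ⟨_, _, e⟩ | ⟨_, e⟩ <;>
            rw [e] at hw2 <;>
            simp only [Sum.inl.injEq, Sum.inr.injEq, Prod.mk.injEq, reduceCtorEq] at hw2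
          rw [hw1.1, hw2.1]
      rw [ha, hb, hww, hcc]
  have hcard := Fintype.card_le_of_injective (fun a => (⟨F a, hlt a⟩ : Fin (K + K * A)))
    (fun a b hab => hFinj (by simpa using hab))
  simp only [Fintype.card_fin] at hcard
  omega

/-- **The structure of a satisfiable instance is valid.** -/
theorem valid_QV (hp : Par K N A ar0 u) (𝔸 : Str ι ar0 B) (hK0 : 0 < K) (a : ℕ → B)
    (ha : ∀ c < m, (fun l : Fin (ar0 (ri c)) => a (xa c l)) ∈ 𝔸 (ri c)) :
    (GG hp 𝔸).Valid (QV N h0 u ar0 m ri xa) (phiV hK0 xa a) := by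
  have hN := hp.hN
  have hK := hp.hK
  have hinj : ∀ t ∈ QV (K := K) N h0 u ar0 m ri xa, Injective t := by
    rintro t ⟨p, hv, s, hs, rfl⟩
    exact (pc_inj hp hv).comp (edg_inj hs)
  refine ⟨hinj, fun j g hg => ?_⟩
  have hginj : Injective g := (GG hp 𝔸).inj hinj hg
  obtain ⟨p, hv, hpw⟩ := clique (h0 := h0) (m := m) (ri := ri) (xa := xa) hp hginj (by
    intro a b
    obtain ⟨s, hs, ⟨i, hi⟩, ⟨i', hi'⟩⟩ := (GG hp 𝔸).irr j a b
    obtain ⟨p, hv, s', -, h1⟩ := hg s hs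
    refine ⟨p, hv, ⟨s' i, ?_⟩, ⟨s' i', ?_⟩⟩
    · have := congrFun h1 i
      simpa [hi] using this
    · have := congrFun h1 i'
      simpa [hi'] using this)
  choose g' hg' using hpw
  have hgg : g = pc K N h0 xa p ∘ g' := funext hg'
  have hedge : ∀ s ∈ edg K N (u j), g' ∘ s ∈ edg K N (u (typ ri p)) := by
    intro s hs
    obtain ⟨p', hv', s', hs', h1⟩ := hg s hs
    rw [hgg] at h1
    by_cases hpp : p = p'
    · subst hpp
      have h2 : g' ∘ s = s' := by
        funext i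
        exact pc_inj hp hv (congrFun h1 i)
      rw [h2]
      exact hs'
    · exact overlap hp hv hv' hpp (s := g' ∘ s) h1 hs'
  obtain ⟨huu, hid⟩ := rigid hK (hp.hi j) (hp.hi _) hedge
  have hj : j = typ ri p := hp.inj huu
  subst hj
  rw [hid, comp_id] at hgg
  subst hgg
  rcases p with c | ⟨c, l⟩
  · have h1 := ha c hv
    show (fun b => phiV hK0 xa a (pc K N h0 xa (Sum.inl c) ∘ _)) ∈ 𝔸 (ri c)
    convert h1 using 1
    funext b
    have h3 : ((b : ℕ) + 1) * K ≤ N := by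
      have := hp.blk_le b.2
      omega
    show a (xa c ((bl K N b ⟨0, hK0⟩ h0 : ℕ) / K)) = _
    rw [bl_val h3]
    congr 2
    show ((b : ℕ) * K + 0) / K = b
    rw [add_zero, Nat.mul_div_cancel _ hK0]
  · have h1 := hp.blk_le hv.2
    have hKA : 2 * K ≤ K * A := by
      rw [mul_comm]
      exact Nat.mul_le_mul_left K hp.hA
    show phiV hK0 xa a (pc K N h0 xa (Sum.inr (c, l)) ∘ fun i => bl K N ((0 : Fin 2) : ℕ) i h0) =
      phiV hK0 xa a (pc K N h0 xa (Sum.inr (c, l)) ∘ fun i => bl K N ((1 : Fin 2) : ℕ) i h0)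
    have e0 : (bl K N ((0 : Fin 2) : ℕ) ⟨0, hK0⟩ h0 : ℕ) = 0 := by
      rw [bl_val (by simp; omega)]
      simp
    have e1 : (bl K N ((1 : Fin 2) : ℕ) ⟨0, hK0⟩ h0 : ℕ) = K := by
      rw [bl_val (by simp; omega)]
      simp
    have f0 : pc K N h0 xa (Sum.inr (c, l)) (bl K N ((0 : Fin 2) : ℕ) ⟨0, hK0⟩ h0) =
        Sum.inl (xa c l, ⟨0, hK0⟩) := by
      simp only [pc, e0]
      rw [dif_pos hK0]
    have f1 : pc K N h0 xa (Sum.inr (c, l)) (bl K N ((1 : Fin 2) : ℕ) ⟨0, hK0⟩ h0) =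
        Sum.inr (Sum.inl (c, blN K N h0 l 0)) := by
      simp only [pc, e1]
      rw [dif_neg (lt_irrefl _), if_pos (by omega), Nat.sub_self]
    simp only [phiV, comp_apply]
    rw [f0, f1]
    simp only
    rw [blN_val hK0 (by omega), add_zero, Nat.mul_div_cancel _ hK0]

/-- **Correctness of the reduction.** -/
theorem red_iff (hp : Par K N A ar0 u) (𝔸 : Str ι ar0 B) {Ω : Type} [Nonempty Ω]
    {Q : Set (Fin K → Ω)} {φ : (Fin K → Ω) → B} (hV : (GG hp 𝔸).Valid Q φ)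
    (hE : (GG hp 𝔸).Ext Q φ) :
    (∃ a : ℕ → B, ∀ c < m, (fun l : Fin (ar0 (ri c)) => a (xa c l)) ∈ 𝔸 (ri c)) ↔
      ∃ h : Vx K N → Ω, ∀ t ∈ QV (K := K) N h0 u ar0 m ri xa, h ∘ t ∈ Q := by
  have hN := hp.hN
  have hK := hp.hK
  have hK0 : 0 < K := by omega
  constructor
  · rintro ⟨a, ha⟩
    have hval := valid_QV (h0 := h0) hp 𝔸 hK0 a ha
    let F : Set (Vx K N) := ⋃ p ∈ {p | VP ar0 m ri p}, Set.range (pc K N h0 xa p)
    have hF : F.Finite := by
      refine Set.Finite.biUnion ?_ (fun p _ => Set.finite_range _)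
      have h1 : {p : ℕ ⊕ (ℕ × ℕ) | VP ar0 m ri p} ⊆
          (Sum.inl '' Set.Iio m) ∪ (Sum.inr '' (Set.Iio m ×ˢ Set.Iio A)) := by
        rintro (c | ⟨c, l⟩) hv
        · exact Or.inl ⟨c, hv, rfl⟩
        · exact Or.inr ⟨(c, l), ⟨hv.1, lt_of_lt_of_le hv.2 (hp.har _)⟩, rfl⟩
      exact (((Set.finite_Iio m).image _).union
        (((Set.finite_Iio m).prod (Set.finite_Iio A)).image _)).subset h1
    obtain ⟨ε, hε, -⟩ := hE.many hval Set.finite_empty (e := fun _ => Classical.arbitrary Ω)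
      ⟨fun x hx => hx.elim, fun t ht => (ht ⟨0, hK0⟩).elim⟩ hF
    rw [Set.empty_union] at hε
    refine ⟨ε, fun t ht => ?_⟩
    refine (hε.2 t ?_).1.1 ht
    obtain ⟨p, hv, s, -, rfl⟩ := ht
    intro i
    exact Set.mem_biUnion (x := p) hv ⟨s i, rfl⟩
  · rintro ⟨h, hh⟩
    refine ⟨fun x => φ (h ∘ fun i => Sum.inl (x, i)), fun c hc => ?_⟩
    have h1 : (fun b : Fin (ar0 (ri c)) =>
        φ ((h ∘ pc K N h0 xa (Sum.inl c)) ∘ (GG hp 𝔸).blk (Sum.inl (ri c)) b)) ∈ 𝔸 (ri c) :=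
      hV.2 (Sum.inl (ri c)) (h ∘ pc K N h0 xa (Sum.inl c)) (fun s hs =>
        hh (pc K N h0 xa (Sum.inl c) ∘ s) ⟨Sum.inl c, hc, s, hs, rfl⟩)
    suffices h5 : (fun l : Fin (ar0 (ri c)) => φ (h ∘ fun i => Sum.inl (xa c l, i))) =
        (fun b : Fin (ar0 (ri c)) =>
          φ ((h ∘ pc K N h0 xa (Sum.inl c)) ∘ (GG hp 𝔸).blk (Sum.inl (ri c)) b)) by
      show (fun l : Fin (ar0 (ri c)) => φ (h ∘ fun i => Sum.inl (xa c l, i))) ∈ 𝔸 (ri c)
      rw [h5]
      exact h1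
    funext l
    have h2 : φ ((h ∘ pc K N h0 xa (Sum.inr (c, (l : ℕ)))) ∘ (GG hp 𝔸).blk (Sum.inr ()) (0 : Fin 2)) =
        φ ((h ∘ pc K N h0 xa (Sum.inr (c, (l : ℕ)))) ∘ (GG hp 𝔸).blk (Sum.inr ()) (1 : Fin 2)) :=
      hV.2 (Sum.inr ()) (h ∘ pc K N h0 xa (Sum.inr (c, (l : ℕ)))) (fun s hs =>
        hh (pc K N h0 xa (Sum.inr (c, (l : ℕ))) ∘ s) ⟨Sum.inr (c, (l : ℕ)), ⟨hc, l.2⟩, s, hs, rfl⟩)
    have hKA : 2 * K ≤ K * A := by
      rw [mul_comm]
      exact Nat.mul_le_mul_left K hp.hA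
    have h3 := hp.blk_le l.2
    have e1 : (h ∘ pc K N h0 xa (Sum.inr (c, (l : ℕ)))) ∘ (GG hp 𝔸).blk (Sum.inr ()) (0 : Fin 2) =
        h ∘ fun i => Sum.inl (xa c l, i) := by
      funext i
      simp only [comp_apply]
      congr 1
      have e0 : ((GG hp 𝔸).blk (Sum.inr ()) (0 : Fin 2) i : ℕ) = i := by
        show (bl K N ((0 : Fin 2) : ℕ) i h0 : ℕ) = i
        rw [bl_val (by simp; omega)]
        simp
      have hi := i.2
      simp only [pc, e0]
      rw [dif_pos hi]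
    have e2 : (h ∘ pc K N h0 xa (Sum.inr (c, (l : ℕ)))) ∘ (GG hp 𝔸).blk (Sum.inr ()) (1 : Fin 2) =
        (h ∘ pc K N h0 xa (Sum.inl c)) ∘ (GG hp 𝔸).blk (Sum.inl (ri c)) l := by
      funext i
      simp only [comp_apply]
      congr 1
      have hi := i.2
      have e0 : ((GG hp 𝔸).blk (Sum.inr ()) (1 : Fin 2) i : ℕ) = K + i := by
        show (bl K N ((1 : Fin 2) : ℕ) i h0 : ℕ) = _
        rw [bl_val (by simp; omega)]
        simp
      have e3 : ((GG hp 𝔸).blk (Sum.inl (ri c)) l i : ℕ) = l * K + i := by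
        show (bl K N (l : ℕ) i h0 : ℕ) = _
        rw [bl_val (by omega)]
      simp only [pc, e0]
      rw [dif_neg (by omega), if_pos (by omega)]
      congr 3
      apply Fin.ext
      rw [e3, blN_val (by omega) (by omega)]
      omega
    rw [e1, e2] at h2
    exact h2

end

end Pool.Agent.P8H87
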