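import Mathlib
import Pool.Agent.P8H87.Red
import Pool.Agent.P8H87.BPDefs
import Pool.Agent.NPC.Dec
import Pool.Agent.NPC.Num

/-!
# The reduction in polynomial time
-/

namespace Pool.Agent.P8H87

open Function Pool.Agent.W994.AR Pool.Agent.NPC

section

variable {K N A n : ℕ} {B : Type} {ar0 : Fin n → ℕ} {u : Fin n ⊕ Unit → ℕ}

/-- the edges as a list -/
noncomputable def edgL (K N u : ℕ) : List (List ℕ) := by
  classical
  exact (Set.toFinite (edg K N u)).toFinset.toList.map (fun s => List.ofFn (fun i => (s i : ℕ)))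

theorem mem_edgL {u : ℕ} {L : List ℕ} :
    L ∈ edgL K N u ↔ ∃ s ∈ edg K N u, L = List.ofFn (fun i => (s i : ℕ)) := by
  classical
  unfold edgL
  simp only [List.mem_map, Finset.mem_toList, Set.Finite.mem_toFinset]
  constructor
  · rintro ⟨s, hs, rfl⟩
    exact ⟨s, hs, rfl⟩
  · rintro ⟨s, hs, rfl⟩
    exact ⟨s, hs, rfl⟩

/-- numbering of the vertices of an equality gadget -/
def num2 (K N A nv m x c l w : ℕ) : ℕ :=
  if w < K then x * K + w
  else if w < 2 * K then nv * K + c * N + (l * K + (w - K))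
  else nv * K + m * N + (c * A + l) * N + w

/-- the list of constraints -/
noncomputable def outL (K N A : ℕ) (tbl : List (List (List ℕ))) (eqL : List (List ℕ)) (nv : ℕ)
    (I : List (ℕ × List ℕ)) : List (ℕ × List ℕ) :=
  I.zipIdx.flatMap (fun p =>
    ((tbl[p.1.1]?).getD []).map (fun s => (0, s.map (fun w => nv * K + p.2 * N + w))) ++
    p.1.2.zipIdx.flatMap (fun x => eqL.map (fun s =>
      (0, s.map (fun w => num2 K N A nv I.length x.1 p.2 x.2 w)))))

/-- the validity test -/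
def okB (arL : List ℕ) (I : Inst) : Bool :=
  I.2.all (fun p => decide (arL[p.1]? = some p.2.length) &&
    p.2.all (fun a => decide (a < I.1.length)))

/-- the reduction -/
noncomputable def redF (K N A : ℕ) (arL : List ℕ) (tbl : List (List (List ℕ)))
    (eqL : List (List ℕ)) (I : Inst) : Inst :=
  bif okB arL I then
    (I.1.flatMap (fun _ => List.replicate K ()) ++ I.2.flatMap (fun _ => List.replicate N ()) ++
      I.2.flatMap (fun _ => List.replicate (A * N) ()), outL K N A tbl eqL I.1.length I.2)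
  else ([], [(0, [])])

theorem poly_num2 (K N A : ℕ) {α : Type} [TEnc α] {nv m x c l w : α → ℕ} (hnv : NPC.Poly nv)
    (hm : NPC.Poly m) (hx : NPC.Poly x) (hc : NPC.Poly c) (hl : NPC.Poly l) (hw : NPC.Poly w) :
    NPC.Poly (fun a => num2 K N A (nv a) (m a) (x a) (c a) (l a) (w a)) := by
  unfold num2
  apply NPC.Poly.ite
  · exact NPC.Poly.decide_lt hw (NPC.Poly.const K)
  · exact NPC.Poly.add (NPC.Poly.mul hx (NPC.Poly.const K)) hw
  · apply NPC.Poly.ite
    · exact NPC.Poly.decide_lt hw (NPC.Poly.const (2 * K))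
    · exact NPC.Poly.add (NPC.Poly.add (NPC.Poly.mul hnv (NPC.Poly.const K)) (NPC.Poly.mul hc (NPC.Poly.const N)))
        (NPC.Poly.add (NPC.Poly.mul hl (NPC.Poly.const K)) (NPC.Poly.sub hw (NPC.Poly.const K)))
    · exact NPC.Poly.add (NPC.Poly.add (NPC.Poly.add (NPC.Poly.mul hnv (NPC.Poly.const K)) (NPC.Poly.mul hm (NPC.Poly.const N)))
        (NPC.Poly.mul (NPC.Poly.add (NPC.Poly.mul hc (NPC.Poly.const A)) hl) (NPC.Poly.const N))) hw

theorem poly_outL (K N A : ℕ) (tbl : List (List (List ℕ))) (eqL : List (List ℕ)) {α : Type}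
    [TEnc α] {nv : α → ℕ} {I : α → List (ℕ × List ℕ)} (hnv : NPC.Poly nv) (hI : NPC.Poly I) :
    NPC.Poly (fun a => outL K N A tbl eqL (nv a) (I a)) := by
  unfold outL
  apply NPC.Poly.flatMap (l := fun a => (I a).zipIdx) (F := fun a p =>
    ((tbl[p.1.1]?).getD []).map (fun s => (0, s.map (fun w => nv a * K + p.2 * N + w))) ++
    p.1.2.zipIdx.flatMap (fun x => eqL.map (fun s =>
      (0, s.map (fun w => num2 K N A (nv a) (I a).length x.1 p.2 x.2 w))))) (NPC.Poly.zipIdx hI)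
  apply NPC.Poly.append
  · apply NPC.Poly.map (l := fun q : α × ((ℕ × List ℕ) × ℕ) => (tbl[q.2.1.1]?).getD [])
      (F := fun q s => (0, s.map (fun w => nv q.1 * K + q.2.2 * N + w)))
    · have h1 : NPC.Poly (fun q : α × ((ℕ × List ℕ) × ℕ) => tbl[q.2.1.1]?) :=
        NPC.Poly.getElem? (NPC.Poly.const tbl) (NPC.Poly.fst (NPC.Poly.fst (NPC.Poly.snd NPC.Poly.id)))
      refine (NPC.Poly.optCases (g := fun _ => ([] : List (List ℕ))) (h := fun _ b => b) h1
        (NPC.Poly.const []) (NPC.Poly.snd NPC.Poly.id)).congr fun q => ?_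
      cases tbl[q.2.1.1]? <;> rfl
    · apply NPC.Poly.pair (NPC.Poly.const 0)
      apply NPC.Poly.map (l := fun r : (α × ((ℕ × List ℕ) × ℕ)) × List ℕ => r.2)
        (F := fun r w => nv r.1.1 * K + r.1.2.2 * N + w) (NPC.Poly.snd NPC.Poly.id)
      exact NPC.Poly.add (NPC.Poly.add
        (NPC.Poly.mul (hnv.comp (NPC.Poly.fst (NPC.Poly.fst (NPC.Poly.fst NPC.Poly.id)))) (NPC.Poly.const K))
        (NPC.Poly.mul (NPC.Poly.snd (NPC.Poly.snd (NPC.Poly.fst (NPC.Poly.fst NPC.Poly.id)))) (NPC.Poly.const N)))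
        (NPC.Poly.snd NPC.Poly.id)
  · apply NPC.Poly.flatMap (l := fun q : α × ((ℕ × List ℕ) × ℕ) => q.2.1.2.zipIdx)
      (F := fun q x => eqL.map (fun s =>
        (0, s.map (fun w => num2 K N A (nv q.1) (I q.1).length x.1 q.2.2 x.2 w))))
    · exact NPC.Poly.zipIdx (NPC.Poly.snd (NPC.Poly.fst (NPC.Poly.snd NPC.Poly.id)))
    · apply NPC.Poly.map (l := fun _ : (α × ((ℕ × List ℕ) × ℕ)) × (ℕ × ℕ) => eqL)
        (F := fun q s => (0, s.map (fun w =>
          num2 K N A (nv q.1.1) (I q.1.1).length q.2.1 q.1.2.2 q.2.2 w))) (NPC.Poly.const eqL)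
      apply NPC.Poly.pair (NPC.Poly.const 0)
      apply NPC.Poly.map (l := fun r : ((α × ((ℕ × List ℕ) × ℕ)) × (ℕ × ℕ)) × List ℕ => r.2)
        (F := fun r w => num2 K N A (nv r.1.1.1) (I r.1.1.1).length r.1.2.1 r.1.1.2.2 r.1.2.2 w)
        (NPC.Poly.snd NPC.Poly.id)
      apply poly_num2
      · exact hnv.comp (NPC.Poly.fst (NPC.Poly.fst (NPC.Poly.fst (NPC.Poly.fst NPC.Poly.id))))
      · exact (NPC.Poly.length hI).comp (NPC.Poly.fst (NPC.Poly.fst (NPC.Poly.fst (NPC.Poly.fst NPC.Poly.id))))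
      · exact NPC.Poly.fst (NPC.Poly.snd (NPC.Poly.fst (NPC.Poly.fst NPC.Poly.id)))
      · exact NPC.Poly.snd (NPC.Poly.snd (NPC.Poly.fst (NPC.Poly.fst (NPC.Poly.fst NPC.Poly.id))))
      · exact NPC.Poly.snd (NPC.Poly.snd (NPC.Poly.fst (NPC.Poly.fst NPC.Poly.id)))
      · exact NPC.Poly.snd NPC.Poly.id

theorem poly_redF (K N A : ℕ) (arL : List ℕ) (tbl : List (List (List ℕ))) (eqL : List (List ℕ)) :
    NPC.Poly (redF K N A arL tbl eqL) := by
  unfold redF
  apply NPC.Poly.cond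
  · apply NPC.Poly.all (l := fun I : Inst => I.2) (p := fun I p =>
      decide (arL[p.1]? = some p.2.length) && p.2.all (fun a => decide (a < I.1.length)))
      (NPC.Poly.snd NPC.Poly.id)
    apply NPC.Poly.and
    · exact NPC.Poly.decide_eq (NPC.Poly.getElem? (NPC.Poly.const arL) (NPC.Poly.fst (NPC.Poly.snd NPC.Poly.id)))
        (NPC.Poly.some (NPC.Poly.length (NPC.Poly.snd (NPC.Poly.snd NPC.Poly.id))))
    · apply NPC.Poly.all (l := fun q : Inst × (ℕ × List ℕ) => q.2.2)
        (p := fun q a => decide (a < q.1.1.length)) (NPC.Poly.snd (NPC.Poly.snd NPC.Poly.id))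
      exact NPC.Poly.decide_lt (NPC.Poly.snd NPC.Poly.id)
        (NPC.Poly.length (NPC.Poly.fst (NPC.Poly.fst (NPC.Poly.fst NPC.Poly.id))))
  · apply NPC.Poly.pair
    · apply NPC.Poly.append
      · apply NPC.Poly.append
        · exact NPC.Poly.flatMap (l := fun I : Inst => I.1) (F := fun _ _ => List.replicate K ())
            (NPC.Poly.fst NPC.Poly.id) (NPC.Poly.const _)
        · exact NPC.Poly.flatMap (l := fun I : Inst => I.2) (F := fun _ _ => List.replicate N ())
            (NPC.Poly.snd NPC.Poly.id) (NPC.Poly.const _)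
      · exact NPC.Poly.flatMap (l := fun I : Inst => I.2) (F := fun _ _ => List.replicate (A * N) ())
          (NPC.Poly.snd NPC.Poly.id) (NPC.Poly.const _)
    · exact poly_outL K N A tbl eqL (NPC.Poly.length (NPC.Poly.fst NPC.Poly.id)) (NPC.Poly.snd NPC.Poly.id)
  · exact NPC.Poly.const _

end

end Pool.Agent.P8H87
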