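import Mathlib
import Pool.Agent.P8H87.RedPoly

/-!
# Correctness of the reduction on instances
-/

namespace Pool.Agent.P8H87

open Function Pool.Agent.W994.AR Pool.Agent.NPC

section

variable {K N A n : ℕ} {B : Type} {ar0 : Fin n → ℕ} {u : Fin n ⊕ Unit → ℕ}

theorem ofFn_getElem? {α : Type} {n : ℕ} (f : Fin n → α) (i : ℕ) (x : α) :
    (List.ofFn f)[i]? = some x ↔ ∃ j : Fin n, i = j ∧ x = f j := by
  rw [List.getElem?_ofFn]
  constructor
  · intro h
    split_ifs at h with hi
    exact ⟨⟨i, hi⟩, rfl, (Option.some.inj h).symm⟩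
  · rintro ⟨j, rfl, rfl⟩
    simp

theorem okB_iff (I : Inst) : okB (List.ofFn ar0) I = true ↔ IsInst ar0 I := by
  unfold okB IsInst
  rw [List.all_eq_true]
  apply forall_congr'
  intro p
  apply imp_congr_right
  intro _
  rw [Bool.and_eq_true, decide_eq_true_eq, List.all_eq_true, ofFn_getElem?]
  simp only [decide_eq_true_eq]
  constructor
  · rintro ⟨⟨i, h1, h2⟩, h3⟩
    exact ⟨i, h1, h2, h3⟩
  · rintro ⟨i, h1, h2, h3⟩
    exact ⟨⟨i, h1, h2⟩, h3⟩

/-- the data of a valid instance -/
theorem valid_data (hn : 0 < n) {I : Inst} (hI : IsInst ar0 I) :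
    ∃ (ri : ℕ → Fin n) (xa : ℕ → ℕ → ℕ),
      (∀ c p, I.2[c]? = some p → p = ((ri c : ℕ), List.ofFn (fun l : Fin (ar0 (ri c)) => xa c l))) ∧
      ∀ c < I.2.length, ∀ l < ar0 (ri c), xa c l < I.1.length := by
  classical
  have h1 : ∀ c, c < I.2.length → ∃ i : Fin n, ∃ p, I.2[c]? = some p ∧ p.1 = i ∧
      p.2.length = ar0 i ∧ ∀ a ∈ p.2, a < I.1.length := by
    intro c hc
    obtain ⟨i, h2, h3, h4⟩ := hI (I.2[c]) (List.getElem_mem hc)
    exact ⟨i, I.2[c], List.getElem?_eq_getElem hc, h2, h3, h4⟩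
  choose f p hp h2 h3 h4 using h1
  let ri : ℕ → Fin n := fun c => if h : c < I.2.length then f c h else ⟨0, hn⟩
  let xa : ℕ → ℕ → ℕ := fun c l => if h : c < I.2.length then ((p c h).2[l]?).getD 0 else 0
  have hri : ∀ c (h : c < I.2.length), ri c = f c h := fun c h => dif_pos h
  have hxa : ∀ c (h : c < I.2.length) l, xa c l = ((p c h).2[l]?).getD 0 := fun c h l => dif_pos h
  refine ⟨ri, xa, ?_, ?_⟩
  · intro c q hq
    have hc : c < I.2.length := by
      rw [List.getElem?_eq_some_iff] at hq
      exact hq.1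
    have hqp : q = p c hc := Option.some.inj (hq.symm.trans (hp c hc))
    rw [hqp]
    apply Prod.ext
    · show (p c hc).1 = (ri c : ℕ)
      rw [hri c hc]
      exact h2 c hc
    · show (p c hc).2 = List.ofFn (fun l : Fin (ar0 (ri c)) => xa c l)
      apply List.ext_getElem
      · rw [List.length_ofFn, hri c hc]
        exact h3 c hc
      · intro l h5 h6
        rw [List.getElem_ofFn]
        show _ = xa c l
        rw [hxa c hc, List.getElem?_eq_getElem h5]
        rfl
  · intro c hc l hl
    rw [hri c hc, ← h3 c hc] at hl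
    rw [hxa c hc, List.getElem?_eq_getElem hl]
    exact h4 c hc _ (List.getElem_mem hl)

theorem csp_iff (hn : 0 < n) [Nonempty B] (𝔸 : Str (Fin n) ar0 B) {I : Inst}
    (hI : IsInst ar0 I) {ri : ℕ → Fin n} {xa : ℕ → ℕ → ℕ}
    (h1 : ∀ c p, I.2[c]? = some p →
      p = ((ri c : ℕ), List.ofFn (fun l : Fin (ar0 (ri c)) => xa c l)))
    (h2 : ∀ c < I.2.length, ∀ l < ar0 (ri c), xa c l < I.1.length) :
    CSP 𝔸 I ↔ ∃ a : ℕ → B, ∀ c < I.2.length, (fun l : Fin (ar0 (ri c)) => a (xa c l)) ∈ 𝔸 (ri c) := by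
  classical
  constructor
  · rintro ⟨-, h, hh⟩
    let a : ℕ → B := fun x => if hx : x < I.1.length then h ⟨x, hx⟩ else Classical.arbitrary B
    refine ⟨a, fun c hc => ?_⟩
    have h3 := h1 c _ (List.getElem?_eq_getElem hc)
    have h4 := hh (ri c) (fun l => ⟨xa c l, h2 c hc l l.2⟩) (by
      show ((ri c : ℕ), List.ofFn (fun l : Fin (ar0 (ri c)) => xa c l)) ∈ I.2
      rw [← h3]
      exact List.getElem_mem hc)
    have h5 : (fun l : Fin (ar0 (ri c)) => a (xa c l)) =
        fun l : Fin (ar0 (ri c)) => h ⟨xa c l, h2 c hc l l.2⟩ := by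
      funext l
      exact dif_pos (h2 c hc l l.2)
    rw [h5]
    exact h4
  · rintro ⟨a, ha⟩
    refine ⟨hI, fun x => a x, ?_⟩
    intro i v hv
    obtain ⟨c, hc, hcv⟩ := List.getElem_of_mem hv
    have h3 := h1 c _ (List.getElem?_eq_getElem hc)
    rw [hcv] at h3
    have h4 := congrArg Prod.fst h3
    have h5 := congrArg Prod.snd h3
    have h6 : i = ri c := Fin.ext h4
    subst h6
    have h7 := List.ofFn_injective h5
    have h8 := ha c hc
    have h9 : (fun j => a ((v j : Fin I.1.length) : ℕ)) = fun l : Fin (ar0 (ri c)) => a (xa c l) := by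
      funext j
      have := congrFun h7 j
      rw [this]
    rw [h9]
    exact h8

/-- numbering of the vertices -/
def num (K N A nv m : ℕ) : Vx K N → ℕ
  | Sum.inl (x, i) => x * K + i
  | Sum.inr (Sum.inl (c, w)) => nv * K + c * N + w
  | Sum.inr (Sum.inr ((c, l), w)) => nv * K + m * N + (c * A + l) * N + w

/-- the vertex with a given number -/
def decV (K N A nv m : ℕ) (hK : 0 < K) (hN : 0 < N) (y : ℕ) : Vx K N :=
  if y < nv * K then Sum.inl (y / K, ⟨y % K, Nat.mod_lt _ hK⟩)
  else if y < nv * K + m * N then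
    Sum.inr (Sum.inl ((y - nv * K) / N, ⟨(y - nv * K) % N, Nat.mod_lt _ hN⟩))
  else Sum.inr (Sum.inr (((y - (nv * K + m * N)) / N / A, (y - (nv * K + m * N)) / N % A),
    ⟨(y - (nv * K + m * N)) % N, Nat.mod_lt _ hN⟩))

theorem lt_of_block {a b k c : ℕ} (h : a < b) (hk : k < c) : a * c + k < b * c := by
  have h1 : (a + 1) * c ≤ b * c := Nat.mul_le_mul_right c h
  have h2 : (a + 1) * c = a * c + c := by ring
  omega

theorem decV_num {nv m : ℕ} (hK : 0 < K) (hN : 0 < N) (hA : 0 < A) (v : Vx K N)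
    (hv : match v with
      | Sum.inl (x, _) => x < nv
      | Sum.inr (Sum.inl (c, _)) => c < m
      | Sum.inr (Sum.inr ((c, l), _)) => c < m ∧ l < A) :
    decV K N A nv m hK hN (num K N A nv m v) = v := by
  rcases v with ⟨x, i⟩ | ⟨c, w⟩ | ⟨⟨c, l⟩, w⟩
  · have h1 : x * K + i < nv * K := lt_of_block hv i.2
    simp only [num, decV]
    rw [if_pos h1]
    have h2 : (x * K + (i : ℕ)) / K = x := by
      rw [mul_comm, Nat.mul_add_div hK, Nat.div_eq_of_lt i.2, add_zero]
    have h3 : (x * K + (i : ℕ)) % K = i := by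
      rw [mul_comm, Nat.mul_add_mod, Nat.mod_eq_of_lt i.2]
    congr 1
    exact Prod.ext h2 (Fin.ext h3)
  · have h1 : c * N + w < m * N := lt_of_block hv w.2
    simp only [num, decV]
    rw [if_neg (by omega), if_pos (by omega)]
    have h0 : nv * K + c * N + (w : ℕ) - nv * K = c * N + w := by omega
    have h2 : (nv * K + c * N + (w : ℕ) - nv * K) / N = c := by
      rw [h0, mul_comm, Nat.mul_add_div hN, Nat.div_eq_of_lt w.2, add_zero]
    have h3 : (nv * K + c * N + (w : ℕ) - nv * K) % N = w := by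
      rw [h0, mul_comm, Nat.mul_add_mod, Nat.mod_eq_of_lt w.2]
    exact congrArg (fun q => Sum.inr (Sum.inl q)) (Prod.ext h2 (Fin.ext h3))
  · simp only [num, decV]
    rw [if_neg (by omega), if_neg (by omega)]
    have h0 : nv * K + m * N + (c * A + l) * N + (w : ℕ) - (nv * K + m * N) =
        (c * A + l) * N + w := by omega
    have h2 : (nv * K + m * N + (c * A + l) * N + (w : ℕ) - (nv * K + m * N)) / N =
        c * A + l := by
      rw [h0, mul_comm, Nat.mul_add_div hN, Nat.div_eq_of_lt w.2, add_zero]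
    have h3 : (nv * K + m * N + (c * A + l) * N + (w : ℕ) - (nv * K + m * N)) % N = w := by
      rw [h0, mul_comm, Nat.mul_add_mod, Nat.mod_eq_of_lt w.2]
    have h4 : (nv * K + m * N + (c * A + l) * N + (w : ℕ) - (nv * K + m * N)) / N / A = c := by
      rw [h2, mul_comm, Nat.mul_add_div hA, Nat.div_eq_of_lt hv.2, add_zero]
    have h5 : (nv * K + m * N + (c * A + l) * N + (w : ℕ) - (nv * K + m * N)) / N % A = l := by
      rw [h2, mul_comm, Nat.mul_add_mod, Nat.mod_eq_of_lt hv.2]
    exact congrArg (fun q => Sum.inr (Sum.inr q))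
      (Prod.ext (Prod.ext h4 h5) (Fin.ext h3))

variable {ri : ℕ → Fin n} {xa : ℕ → ℕ → ℕ} {h0 : 0 < N}

theorem num2_eq (hp : Par K N A ar0 u) {nv m c l : ℕ} (hl : l < ar0 (ri c)) (w : Fin N) :
    num2 K N A nv m (xa c l) c l w = num K N A nv m (pc K N h0 xa (Sum.inr (c, l)) w) := by
  have hN := hp.hN
  have h1 := hp.blk_le hl
  unfold num2
  rcases pc_cases (h0 := h0) (xa := xa) c l w with ⟨hw, e⟩ | ⟨hw, hw2, e⟩ | ⟨hw, e⟩
  · rw [e, if_pos hw]
    rfl
  · rw [e, if_neg (by omega), if_pos hw2]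
    show _ = nv * K + c * N + (blN K N h0 l (w - K) : ℕ)
    rw [blN_val (by omega) (by omega)]
  · rw [e, if_neg (by omega), if_neg (by omega)]
    rfl

/-- the relevant vertices -/
theorem pc_rel (hp : Par K N A ar0 u) {nv m : ℕ}
    (h2 : ∀ c < m, ∀ l < ar0 (ri c), xa c l < nv) {p : ℕ ⊕ (ℕ × ℕ)} (hv : VP ar0 m ri p)
    (w : Fin N) : match pc K N h0 xa p w with
      | Sum.inl (x, _) => x < nv
      | Sum.inr (Sum.inl (c, _)) => c < m
      | Sum.inr (Sum.inr ((c, l), _)) => c < m ∧ l < A := by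
  rcases p with c | ⟨c, l⟩
  · exact hv
  · rcases pc_cases (h0 := h0) (xa := xa) c l w with ⟨hw, e⟩ | ⟨hw, hw2, e⟩ | ⟨hw, e⟩
    · rw [e]
      exact h2 c hv.1 l hv.2
    · rw [e]
      exact hv.1
    · rw [e]
      exact ⟨hv.1, lt_of_lt_of_le hv.2 (hp.har _)⟩

theorem num_lt (hK : 0 < K) (hN : 0 < N) {nv m : ℕ} (v : Vx K N)
    (hv : match v with
      | Sum.inl (x, _) => x < nv
      | Sum.inr (Sum.inl (c, _)) => c < m
      | Sum.inr (Sum.inr ((c, l), _)) => c < m ∧ l < A) :
    num K N A nv m v < nv * K + m * N + m * (A * N) := by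
  rcases v with ⟨x, i⟩ | ⟨c, w⟩ | ⟨⟨c, l⟩, w⟩
  · have h1 : x * K + i < nv * K := lt_of_block hv i.2
    simp only [num]
    omega
  · have h1 : c * N + w < m * N := lt_of_block hv w.2
    simp only [num]
    omega
  · have h1 : c * A + l < m * A := lt_of_block hv.1 hv.2
    have h2 : (c * A + l) * N + w < m * A * N := lt_of_block h1 w.2
    have h3 : m * A * N = m * (A * N) := by ring
    simp only [num]
    omega

theorem mem_outL (hp : Par K N A ar0 u) {nv : ℕ} {I : List (ℕ × List ℕ)}
    (h1 : ∀ c p, I[c]? = some p →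
      p = ((ri c : ℕ), List.ofFn (fun l : Fin (ar0 (ri c)) => xa c l))) {i : ℕ} {L : List ℕ} :
    (i, L) ∈ outL K N A (List.ofFn fun i => edgL K N (u (Sum.inl i))) (edgL K N (u (Sum.inr ())))
      nv I ↔ i = 0 ∧ ∃ p, VP ar0 I.length ri p ∧ ∃ s ∈ edg K N (u (typ ri p)),
        L = List.ofFn (fun i => num K N A nv I.length (pc K N h0 xa p (s i))) := by
  unfold outL
  rw [List.mem_flatMap]
  constructor
  · rintro ⟨⟨p, c⟩, hp1, hp2⟩
    rw [List.mem_zipIdx_iff_getElem?] at hp1
    simp only at hp1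
    have hc : c < I.length := by
      rw [List.getElem?_eq_some_iff] at hp1
      exact hp1.1
    have hpe := h1 c p hp1
    rw [List.mem_append] at hp2
    rcases hp2 with hp2 | hp2
    · have h3 : ((List.ofFn fun i => edgL K N (u (Sum.inl i)))[p.1]?).getD [] =
          edgL K N (u (Sum.inl (ri c))) := by
        rw [hpe]
        simp
      simp only [h3] at hp2
      rw [List.mem_map] at hp2
      obtain ⟨L0, hL0, hL⟩ := hp2
      obtain ⟨s, hs, rfl⟩ := mem_edgL.1 hL0
      simp only [Prod.mk.injEq] at hL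
      refine ⟨hL.1.symm, Sum.inl c, hc, s, hs, ?_⟩
      rw [← hL.2, List.map_ofFn]
      rfl
    · simp only [hpe, List.mem_flatMap] at hp2
      obtain ⟨⟨x, l⟩, hx, hp2⟩ := hp2
      rw [List.mem_zipIdx_iff_getElem?] at hx
      simp only at hx
      rw [ofFn_getElem?] at hx
      obtain ⟨l', hl', hx'⟩ := hx
      rw [List.mem_map] at hp2
      obtain ⟨L0, hL0, hL⟩ := hp2
      obtain ⟨s, hs, rfl⟩ := mem_edgL.1 hL0
      simp only [Prod.mk.injEq] at hL
      refine ⟨hL.1.symm, Sum.inr (c, l), ⟨hc, by rw [hl']; exact l'.2⟩, s, hs, ?_⟩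
      rw [← hL.2, List.map_ofFn]
      congr 1
      funext i
      simp only [comp_apply]
      rw [hx', ← hl']
      exact num2_eq hp (by rw [hl']; exact l'.2) (s i)
  · rintro ⟨rfl, p, hv, s, hs, rfl⟩
    rcases p with c | ⟨c, l⟩
    · have hc : c < I.length := hv
      have h3 := h1 c _ (List.getElem?_eq_getElem hc)
      refine ⟨(I[c], c), ?_, ?_⟩
      · rw [List.mem_zipIdx_iff_getElem?]
        exact List.getElem?_eq_getElem hc
      · rw [List.mem_append]
        left
        have h4 : ((List.ofFn fun i => edgL K N (u (Sum.inl i)))[(I[c]).1]?).getD [] =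
            edgL K N (u (Sum.inl (ri c))) := by
          rw [h3]
          simp
        simp only [h4]
        rw [List.mem_map]
        refine ⟨_, mem_edgL.2 ⟨s, hs, rfl⟩, ?_⟩
        simp only [Prod.mk.injEq, true_and]
        rw [List.map_ofFn]
        rfl
    · have hc : c < I.length := hv.1
      have h3 := h1 c _ (List.getElem?_eq_getElem hc)
      refine ⟨(I[c], c), ?_, ?_⟩
      · rw [List.mem_zipIdx_iff_getElem?]
        exact List.getElem?_eq_getElem hc
      · rw [List.mem_append]
        right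
        simp only [h3, List.mem_flatMap]
        refine ⟨(xa c l, l), ?_, ?_⟩
        · rw [List.mem_zipIdx_iff_getElem?]
          simp only
          rw [ofFn_getElem?]
          exact ⟨⟨l, hv.2⟩, rfl, rfl⟩
        · rw [List.mem_map]
          refine ⟨_, mem_edgL.2 ⟨s, hs, rfl⟩, ?_⟩
          simp only [Prod.mk.injEq, true_and]
          rw [List.map_ofFn]
          congr 1
          funext i
          simp only [comp_apply]
          exact num2_eq hp hv.2 (s i)

theorem length_flatMap_const {α β : Type} (l : List α) (l' : List β) :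
    (l.flatMap (fun _ => l')).length = l.length * l'.length := by
  induction l with
  | nil => simp
  | cons a l ih =>
    rw [List.flatMap_cons, List.length_append, ih, List.length_cons]
    ring

/-- **Correctness of the reduction.** -/
theorem redF_correct [Nonempty B] (hp : Par K N A ar0 u) (𝔸 : Str (Fin n) ar0 B) {Ω : Type}
    [Nonempty Ω] {Q : Set (Fin K → Ω)} {φ : (Fin K → Ω) → B} (hV : (GG hp 𝔸).Valid Q φ)
    (hE : (GG hp 𝔸).Ext Q φ) {r : ℕ} {arD : Fin (r + 1) → ℕ} (𝔻 : Str (Fin (r + 1)) arD Ω)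
    (hK0 : K = arD 0) (hQ : ∀ v, v ∈ 𝔻 0 ↔ v ∘ Fin.cast hK0 ∈ Q) (I : Inst) :
    CSP 𝔸 I ↔ CSP 𝔻 (redF K N A (List.ofFn ar0) (List.ofFn fun i => edgL K N (u (Sum.inl i)))
      (edgL K N (u (Sum.inr ()))) I) := by
  classical
  have hN := hp.hN
  have hK := hp.hK
  by_cases hI : IsInst ar0 I
  swap
  · -- invalid instances
    have h1 : okB (List.ofFn ar0) I = false := by
      rw [← Bool.not_eq_true, okB_iff]
      exact hI
    constructor
    · intro h
      exact absurd h.1 hI
    · intro h
      exfalso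
      unfold redF at h
      rw [h1] at h
      obtain ⟨i, h2, h3, -⟩ := h.1 (0, []) (by simp)
      have h4 : i = 0 := Fin.ext h2.symm
      subst h4
      simp only [List.length_nil] at h3
      omega
  have h1 : okB (List.ofFn ar0) I = true := (okB_iff I).2 hI
  have hred : redF K N A (List.ofFn ar0) (List.ofFn fun i => edgL K N (u (Sum.inl i)))
      (edgL K N (u (Sum.inr ()))) I = (I.1.flatMap (fun _ => List.replicate K ()) ++
        I.2.flatMap (fun _ => List.replicate N ()) ++
      I.2.flatMap (fun _ => List.replicate (A * N) ()), outL K N A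
        (List.ofFn fun i => edgL K N (u (Sum.inl i))) (edgL K N (u (Sum.inr ()))) I.1.length I.2) := by
    unfold redF
    rw [h1]
    rfl
  rw [hred]
  rcases Nat.eq_zero_or_pos n with hn | hn
  · -- no relations
    subst hn
    have hI2 : I.2 = [] := by
      rw [List.eq_nil_iff_forall_not_mem]
      intro p hp'
      obtain ⟨i, -⟩ := hI p hp'
      exact i.elim0
    constructor
    · intro _
      rw [hI2]
      refine ⟨?_, fun _ => Classical.arbitrary Ω, ?_⟩
      · intro p hp'
        simp [outL] at hp'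
      · intro i v hv
        simp [outL] at hv
    · intro _
      refine ⟨hI, fun _ => Classical.arbitrary B, ?_⟩
      intro i
      exact i.elim0
  obtain ⟨ri, xa, h2, h3⟩ := valid_data hn hI
  rw [csp_iff hn 𝔸 hI h2 h3]
  have hN0 : 0 < N := by omega
  rw [red_iff (h0 := hN0) hp 𝔸 hV hE]
  set nv := I.1.length with hnv
  set m := I.2.length with hm
  have hlen : (I.1.flatMap (fun _ => List.replicate K ()) ++
        I.2.flatMap (fun _ => List.replicate N ()) ++
      I.2.flatMap (fun _ => List.replicate (A * N) ())).length = nv * K + m * N + m * (A * N) := by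
    rw [List.length_append, List.length_append, length_flatMap_const, length_flatMap_const,
      length_flatMap_const, List.length_replicate, List.length_replicate, List.length_replicate]
  have hA0 : 0 < A := by have := hp.hA; omega
  constructor
  · rintro ⟨h, hh⟩
    refine ⟨?_, fun y => h (decV K N A nv m (by omega) hN0 y), ?_⟩
    · rintro ⟨i, L⟩ hiL
      obtain ⟨hi, p, hv, s, hs, rfl⟩ := (mem_outL (h0 := hN0) hp h2).1 hiL
      refine ⟨0, hi, ?_, ?_⟩
      · rw [List.length_ofFn]
        exact hK0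
      · intro a ha
        rw [List.mem_ofFn] at ha
        obtain ⟨j, rfl⟩ := ha
        show _ < (_ : List Unit).length
        rw [hlen]
        exact num_lt (by omega) hN0 _ (pc_rel hp h3 hv _)
    · intro i v hv
      obtain ⟨hi, p, hvp, s, hs, hL⟩ := (mem_outL (h0 := hN0) hp h2).1 hv
      have hi0 : i = 0 := Fin.ext hi
      subst hi0
      rw [hQ]
      have h4 := hh (pc K N hN0 xa p ∘ s) ⟨p, hvp, s, hs, rfl⟩
      convert h4 using 1
      funext j
      simp only [comp_apply]
      congr 1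
      have h5 : ((v (Fin.cast hK0 j) : ℕ)) = num K N A nv m (pc K N hN0 xa p (s j)) := by
        have h6 := congrArg (fun l : List ℕ => l[(j : ℕ)]?) hL
        simp only [List.getElem?_ofFn] at h6
        rw [dif_pos (by have := j.2; omega), dif_pos j.2] at h6
        exact Option.some.inj h6
      rw [h5]
      exact decV_num (by omega) hN0 hA0 _ (pc_rel hp h3 hvp _)
  · rintro ⟨hI', h, hh⟩
    let h' : Vx K N → Ω := fun v =>
      if hv : num K N A nv m v < (I.1.flatMap (fun _ => List.replicate K ()) ++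
        I.2.flatMap (fun _ => List.replicate N ()) ++
        I.2.flatMap (fun _ => List.replicate (A * N) ())).length then h ⟨num K N A nv m v, hv⟩
      else Classical.arbitrary Ω
    refine ⟨h', ?_⟩
    rintro t ⟨p, hvp, s, hs, rfl⟩
    have h4 : ∀ j, num K N A nv m (pc K N hN0 xa p (s j)) <
        (I.1.flatMap (fun _ => List.replicate K ()) ++
        I.2.flatMap (fun _ => List.replicate N ()) ++
        I.2.flatMap (fun _ => List.replicate (A * N) ())).length := by
      intro j
      rw [hlen]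
      exact num_lt (by omega) hN0 _ (pc_rel hp h3 hvp _)
    have h5 := hh 0 (fun j => ⟨_, h4 (Fin.cast hK0.symm j)⟩) (by
      rw [mem_outL (h0 := hN0) hp h2]
      refine ⟨rfl, p, hvp, s, hs, ?_⟩
      apply List.ext_getElem
      · rw [List.length_ofFn, List.length_ofFn]
        exact hK0.symm
      · intro a h6 h7
        rw [List.getElem_ofFn, List.getElem_ofFn]
        rfl)
    rw [hQ] at h5
    convert h5 using 1
    funext j
    simp only [comp_apply, h']
    rw [dif_pos (h4 j)]
    rfl

end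

end Pool.Agent.P8H87
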