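import Mathlib
import Pool.Agent.P8H87.RedCor
import Pool.Agent.P8H87.Fbd
import Pool.Agent.P8H87.K3b

/-!
# The construction
-/

namespace Pool.Agent.P8H87

open Function Pool.Agent.W994.AR Pool.Agent.NPC

/-- the equality relation -/
def eqRel (B : Type) : Str Unit (fun _ => 2) B := fun _ => {v : Fin 2 → B | v 0 = v 1}

theorem eqRel_invar {B σ : Type} {ar : σ → ℕ} (𝔹 : Str σ ar B) (j : Unit) :
    Invar (autGroup 𝔹) (eqRel B j) := by
  intro g _ v hv
  show g (v 0) = g (v 1)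
  have : v 0 = v 1 := hv
  rw [this]

theorem expand_mem_aut {B σ : Type} {ar : σ → ℕ} {𝔹 : Str σ ar B} {g : Equiv.Perm B}
    (hg : g ∈ autGroup (expand 𝔹 (eqRel B))) : g ∈ autGroup 𝔹 := fun i v => hg (Sum.inl i) v

theorem csp_inj {K N : ℕ} {B : Type} {G : Gad K N B} {Ω : Type} [Nonempty Ω] {Q : Set (Fin K → Ω)}
    {φ : (Fin K → Ω) → B} (hV : G.Valid Q φ) (hE : G.Ext Q φ) (hK : 1 ≤ K) {Y : Type} [Finite Y]
    (h : Y → Ω) : ∃ h' : Y → Ω, Injective h' ∧ ∀ t : Fin K → Y, h ∘ t ∈ Q → h' ∘ t ∈ Q := by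
  obtain ⟨e, he⟩ := hE.embed (hV.comap h) hK
  refine ⟨e, fun x y hxy => he.1 (Set.mem_univ _) (Set.mem_univ _) hxy, fun t ht => ?_⟩
  exact (he.2 t (fun _ => Set.mem_univ _)).1.1 ht

/-- **The construction.** -/
theorem construction {B σ : Type} [Countable B] [Nonempty B] [Finite σ] {ar : σ → ℕ}
    (𝔹 : Str σ ar B) (hH : Homogeneous 𝔹) (hF : FinitelyBounded 𝔹) {n : ℕ} (f : Fin n → σ)
    (k : ℕ) (hk : 1 ≤ k) :
    ∃ (Ω : Type) (_ : Countable Ω) (_ : Nonempty Ω) (σ' : Type) (_ : Finite σ') (ar' : σ' → ℕ)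
      (𝔻 : Str σ' ar' Ω) (r : σ'), Homogeneous 𝔻 ∧ FinitelyBounded 𝔻 ∧
      (∀ F : Finset Ω, F.card ≤ k → ∀ h : Ω → Ω, Set.InjOn h F →
        ∃ g ∈ autGroup 𝔻, ∀ x ∈ F, g x = h x) ∧
      (∀ F : Finset Ω, ∀ x, x ∉ F →
        {y | ∃ g ∈ autGroup 𝔻, (∀ a ∈ F, g a = a) ∧ g x = y}.Infinite) ∧
      ar' r = k + 1 ∧
      (∀ I, CSP (fun _ : Fin 1 => 𝔻 r) I → ∃ h, IsSol (fun _ : Fin 1 => 𝔻 r) I h ∧ Injective h) ∧
      (PPConstructsK3 (fun _ : Fin 1 => 𝔻 r) → PPConstructsK3 (fun i => 𝔹 (f i))) ∧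
      (InPP (CSP (fun _ : Fin 1 => 𝔻 r)) → InPP (CSP (fun i => 𝔹 (f i)))) := by
  classical
  have := Fintype.ofFinite σ
  -- parameters
  let K : ℕ := k + 1
  let A : ℕ := max 2 (Finset.univ.sup ar)
  let cd : Fin n ⊕ Unit → ℕ := Sum.elim (fun i => (i : ℕ)) (fun _ => n)
  have hcd : Injective cd := by
    rintro (i | _) (j | _) h
    · simp only [cd, Sum.elim_inl] at h
      rw [Fin.ext h]
    · simp only [cd, Sum.elim_inl, Sum.elim_inr] at h
      have := i.2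
      omega
    · simp only [cd, Sum.elim_inl, Sum.elim_inr] at h
      have := j.2
      omega
    · rfl
  have hcdle : ∀ j, cd j ≤ n := by
    rintro (i | _)
    · exact i.2.le
    · exact le_rfl
  let u : Fin n ⊕ Unit → ℕ := fun j => K * A + cd j
  let N : ℕ := K * A + n + K + 2
  have hp : Par K N A (fun i => ar (f i)) u :=
    { hK := by show 2 ≤ k + 1; omega
      hA := le_max_left _ _
      har := fun i => (Finset.le_sup (f := ar) (Finset.mem_univ (f i))).trans (le_max_right _ _)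
      inj := by
        intro a b h
        apply hcd
        have : K * A + cd a = K * A + cd b := h
        omega
      lo := fun j => Nat.le_add_right _ _
      hi := by
        intro j
        have := hcdle j
        show K * A + cd j + K + 2 ≤ K * A + n + K + 2
        omega }
  let 𝔸 : Str (Fin n) (fun i => ar (f i)) B := fun i => 𝔹 (f i)
  let G : Gad K N B := GG hp 𝔸
  have hN1 : 1 ≤ N := by show 1 ≤ K * A + n + K + 2; omega
  obtain ⟨Ω, hΩ1, hΩ2, Q, φ, hV, hE⟩ := exists_generic G hN1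
  let 𝔹e : Str (σ ⊕ Unit) (Sum.elim ar (fun _ => 2)) B := expand 𝔹 (eqRel B)
  have hHe : Homogeneous 𝔹e := homogeneous_expand hH (eqRel B) (eqRel_invar 𝔹)
  have hFe : FinitelyBounded 𝔹e := finitelyBounded_expand hH hF (eqRel B) (eqRel_invar 𝔹)
  have heq : ∃ s : σ ⊕ Unit, (∃ a b : Fin (Sum.elim ar (fun _ => 2) s), a ≠ b) ∧
      ∀ v, v ∈ 𝔹e s ↔ ∀ a b, v a = v b := by
    refine ⟨Sum.inr (), ⟨(0 : Fin 2), (1 : Fin 2), fun h => ?_⟩, ?_⟩
    · have : (0 : Fin 2) = 1 := h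
      exact absurd this (by decide)
    intro v
    constructor
    · intro (h : v (0 : Fin 2) = v (1 : Fin 2)) (a : Fin 2) (b : Fin 2)
      fin_cases a <;> fin_cases b
      · rfl
      · exact h
      · exact h.symm
      · rfl
    · intro h
      exact h (0 : Fin 2) (1 : Fin 2)
  have hinv : ∀ j : G.J, Invar (autGroup 𝔹e) (G.rel j) := by
    rintro (i | _)
    · intro g hg v hv
      exact (expand_mem_aut hg (f i) v).1 hv
    · intro g hg v hv
      have : v (0 : Fin 2) = v (1 : Fin 2) := hv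
      show g (v (0 : Fin 2)) = g (v (1 : Fin 2))
      rw [this]
  let sym : G.J → σ ⊕ Unit := fun j => Sum.elim (fun i => Sum.inl (f i)) (fun _ => Sum.inr ()) j
  have har : ∀ j, Sum.elim ar (fun _ => 2) (sym j) = G.ar j := by
    rintro (i | _) <;> rfl
  have hrel : ∀ j (w : Fin (G.ar j) → B), w ∈ G.rel j ↔ (w ∘ Fin.cast (har j)) ∈ 𝔹e (sym j) := by
    rintro (i | _) w
    · exact Iff.rfl
    · exact Iff.rfl
  have hK1 : 1 ≤ K := by show 1 ≤ k + 1; omega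
  have hQD : ∀ i : Fin 1, (∃ h : K = (fun _ : Fin 1 => bigAr K (Sum.elim ar (fun _ => 2)) none) i,
      ∀ v, v ∈ (fun _ : Fin 1 => big 𝔹e Q φ none) i ↔ v ∘ Fin.cast h ∈ Q) :=
    fun i => ⟨rfl, fun v => Iff.rfl⟩
  refine ⟨Ω, hΩ1, hΩ2, Option (σ ⊕ Unit), inferInstance, bigAr K (Sum.elim ar (fun _ => 2)),
    big 𝔹e Q φ, none, homogeneous_big hHe hV hE hinv heq,
    finitelyBounded_big hFe hV hE hK1 sym har hrel heq, ?_, ?_, rfl, ?_, ?_, ?_⟩
  · intro F hF h hh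
    exact transitive_big hV hE hinv F h (Nat.lt_succ_of_le hF) hh
  · intro F x hx
    exact noAlg_big hV hE hinv F x hx
  · rintro I ⟨hI, h, hh⟩
    obtain ⟨h', hi, hh'⟩ := csp_inj hV hE hK1 h
    refine ⟨h', ?_, hi⟩
    intro i v hv
    exact hh' v (hh i v hv)
  · intro h
    obtain ⟨nf⟩ := exists_nf (Q := Q) (fun i => Or.inl (hQD i)) h
    have hfin : Finite G.J := inferInstanceAs (Finite (Fin n ⊕ Unit))
    refine k3_descend hV hE hK1 hN1 ?_ nf
    rintro (i | _)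
    · exact PP.rel (𝔸 := 𝔸) i id
    · exact PP.eq (𝔸 := 𝔸) (0 : Fin 2) (1 : Fin 2)
  · intro h
    exact InPP.of_poly h (poly_redF K N A _ _ _) (fun I => redF_correct hp 𝔸 hV hE
      (r := 0) (arD := fun _ : Fin 1 => bigAr K (Sum.elim ar (fun _ => 2)) none)
      (fun _ : Fin 1 => big 𝔹e Q φ none) rfl (fun v => Iff.rfl) I)

end Pool.Agent.P8H87
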