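import Mathlib
import Pool.Agent.P8H87.BPDefs

/-!
# The Bodirsky-Pinsker conjecture and its restriction to transitive templates: statements
-/

namespace Pool.Agent.P8H87

open Pool.Agent.W994.AR Pool.Agent.NPC

/-- The Bodirsky-Pinsker conjecture: if `𝔹` is a countable finitely bounded homogeneous structure
with finitely many relations, and the structure with the relations `𝔹 (f 0), ..., 𝔹 (f (n - 1))`
(any reduct of `𝔹`) does not pp-construct `K₃`, then its constraint satisfaction problem is in
`P`. -/
def BodirskyPinsker : Prop :=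
  ∀ (B σ : Type) [Countable B] [Nonempty B] [Finite σ] (ar : σ → ℕ) (𝔹 : Str σ ar B),
    Homogeneous 𝔹 → FinitelyBounded 𝔹 → ∀ (n : ℕ) (f : Fin n → σ), Function.Injective f →
      ¬ PPConstructsK3 (fun i => 𝔹 (f i)) → InPP (CSP (fun i => 𝔹 (f i)))

/-- The automorphism group is `k`-transitive: every injection from a set of at most `k` points
into the structure extends to an automorphism. -/
def Transitive {B σ : Type} {ar : σ → ℕ} (𝔹 : Str σ ar B) (k : ℕ) : Prop :=
  ∀ F : Finset B, F.card ≤ k → ∀ h : B → B, Set.InjOn h F → ∃ g ∈ autGroup 𝔹, ∀ x ∈ F, g x = h x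

/-- No algebraicity: for every finite set `F` and every point `x` not in `F`, the orbit of `x`
under the pointwise stabilizer of `F` in the automorphism group is infinite. -/
def NoAlgebraicity {B σ : Type} {ar : σ → ℕ} (𝔹 : Str σ ar B) : Prop :=
  ∀ (F : Finset B) (x : B), x ∉ F →
    {y | ∃ g ∈ autGroup 𝔹, (∀ a ∈ F, g a = a) ∧ g x = y}.Infinite

/-- Every satisfiable instance has an injective solution. -/
def InjectiveSolutions {A : Type} {n : ℕ} {ar : Fin n → ℕ} (𝔸 : Str (Fin n) ar A) : Prop :=
  ∀ I, CSP 𝔸 I → ∃ h, IsSol 𝔸 I h ∧ Function.Injective h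

/-- The Bodirsky-Pinsker conjecture restricted to the templates with a single relation `𝔹 r`, of
arity `k + 1`, such that every satisfiable instance has an injective solution, where `𝔹` is
moreover `k`-transitive and without algebraicity. -/
def BodirskyPinskerTransitive (k : ℕ) : Prop :=
  ∀ (B σ : Type) [Countable B] [Nonempty B] [Finite σ] (ar : σ → ℕ) (𝔹 : Str σ ar B),
    Homogeneous 𝔹 → FinitelyBounded 𝔹 → Transitive 𝔹 k → NoAlgebraicity 𝔹 →
      ∀ r : σ, ar r = k + 1 → InjectiveSolutions (fun _ : Fin 1 => 𝔹 r) →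
        ¬ PPConstructsK3 (fun _ : Fin 1 => 𝔹 r) → InPP (CSP (fun _ : Fin 1 => 𝔹 r))

end Pool.Agent.P8H87
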