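import Mathlib
import Pool.Agent.P8H87.K3a

/-!
# Normal forms of pp-constructions of `K₃` in the generic structure: a second version

The relation `Qp` of the template contains the relation `Q` of the generic structure.
-/

namespace Pool.Agent.P8H87.V2

open Function Pool.Agent.W994.AR Pool.Agent.P8H87

/-- normal form of pp-constructions of `K₃` -/
structure NF {Ω : Type} {K : ℕ} (Q Qp : Set (Fin K → Ω)) where
  /-- own variables -/
  A : Type
  /-- shared variables -/
  D : Type
  /-- bound variables -/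
  Z : Type
  finA : Finite A
  finD : Finite D
  finZ : Finite Z
  ne : Nonempty (A ⊕ D)
  /-- the atoms -/
  Φ : Set (Fin K → Vr A D Z)
  /-- the three vertices -/
  c : Fin 3 → A → Ω
  /-- the shared vertices -/
  δ : D → Ω
  /-- the witnesses -/
  u : Fin 3 → Fin 3 → Z → Ω
  holds : ∀ p p', p ≠ p' → ∀ t ∈ Φ, asg (fun r => c (if r then p' else p)) δ (u p p') ∘ t ∈ Qp
  inj : ∀ t ∈ Φ, Injective t
  col : ∀ δ' : D → Ω, ∃ χ : (A → Ω) → Fin 3, ∀ (x : Bool → A → Ω) (u : Z → Ω),
    Injective (asg x δ' u) → (∀ t ∈ Φ, asg x δ' u ∘ t ∈ Q) → χ (x false) ≠ χ (x true)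
  sym : ∀ t : Fin K → A ⊕ D, ((role false ∘ t : Fin K → Vr A D Z) ∈ Φ ↔
    (role true ∘ t : Fin K → Vr A D Z) ∈ Φ)

/-- **Normal form.** -/
theorem exists_nf {Ω : Type} {K : ℕ} {Q Qp : Set (Fin K → Ω)} (hQ : Q ⊆ Qp)
    (hE : ∀ (I : Type) [Nonempty I] (v : I → Fin K → Ω) (w : Fin K → Ω), (∀ l, v l ∈ Qp) →
      (∀ a b, w a = w b ↔ ∀ l, v l a = v l b) → ¬ Injective w → w ∈ Qp)
    {ι : Type} {ar : ι → ℕ}
    {𝔻 : Str ι ar Ω} (hD : ∀ i, (∃ h : K = ar i, ∀ v, v ∈ 𝔻 i ↔ v ∘ Fin.cast h ∈ Qp) ∨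
      EqClosed (𝔻 i)) (h : PPConstructsK3 𝔻) : Nonempty (NF Q Qp) := by
  classical
  obtain ⟨n, E, hn, ⟨q, Φ0, hΦ0⟩, ⟨f, hf⟩, ⟨g, hg⟩⟩ := h
  have h1 : ∀ pp : OP, ∃ u : Fin q → Ω, ∀ ψ ∈ Φ0,
      ψ.Holds 𝔻 (Sum.elim (Sum.elim (f pp.1.1) (f pp.1.2)) u) := fun pp =>
    (hΦ0 _).1 (hf _ _ pp.2)
  choose u hu using h1
  let ev : (Fin n ⊕ Fin n) ⊕ Fin q → (OP → Ω) := fun x pp =>
    Sum.elim (Sum.elim (f pp.1.1) (f pp.1.2)) (u pp) x
  let C : Fin n → (Fin 3 → Ω) := fun i p => f p i
  let X : Fin n → (OP → Ω) := fun i => ev (Sum.inl (Sum.inl i))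
  let Yv : Fin n → (OP → Ω) := fun i => ev (Sum.inl (Sum.inr i))
  let A := {c : Fin 3 → Ω // (∃ i, C i = c) ∧ ¬ ∀ p, c p = c 0}
  let D := {κ : Ω // ∃ i, C i = fun _ => κ}
  let Z := {ω : OP → Ω // (∃ l, ev (Sum.inr l) = ω) ∧ (∀ i, ω ≠ X i) ∧ ∀ i, ω ≠ Yv i}
  have finA : Finite A := by
    apply Finite.of_injective (β := Set.range C) (fun a => ⟨a.1, a.2.1⟩)
    intro a b hab
    simp only [Subtype.mk.injEq] at hab
    exact Subtype.ext hab
  have finD : Finite D := by
    apply Finite.of_injective (β := Set.range C) (fun a => ⟨fun _ => a.1, a.2⟩)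
    intro a b hab
    exact Subtype.ext (congrFun (congrArg Subtype.val hab) 0)
  have finZ : Finite Z := by
    apply Finite.of_injective (β := Set.range (fun l => ev (Sum.inr l))) (fun a => ⟨a.1, a.2.1⟩)
    intro a b hab
    simp only [Subtype.mk.injEq] at hab
    exact Subtype.ext hab
  let inc : Vr A D Z → (OP → Ω) := fun x pp =>
    asg (fun r (c : A) => c.1 (if r then pp.1.2 else pp.1.1)) (fun κ : D => κ.1)
      (fun ω : Z => ω.1 pp) x
  have hconst : ∀ i, (∀ p, C i p = C i 0) → X i = Yv i ∧ X i = fun _ => C i 0 := by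
    intro i hi
    constructor
    · funext pp
      show C i pp.1.1 = C i pp.1.2
      rw [hi, hi pp.1.2]
    · funext pp
      exact hi _
  have hinc : Injective inc := by
    have hAD : ∀ (r : Bool) (c : A) (κ : D), inc (Sum.inl (r, c)) ≠ inc (Sum.inr (Sum.inl κ)) := by
      intro r c κ h
      apply c.2.2
      have h2 : ∀ p, c.1 p = κ.1 := by
        intro p
        cases r
        · obtain ⟨pp, hpp⟩ := exists_op_fst p
          have := congrFun h pp
          simpa [inc, asg, hpp] using this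
        · obtain ⟨pp, hpp⟩ := exists_op_snd p
          have := congrFun h pp
          simpa [inc, asg, hpp] using this
      intro p
      rw [h2, h2 0]
    have hAZ : ∀ (r : Bool) (c : A) (ω : Z), inc (Sum.inl (r, c)) ≠ inc (Sum.inr (Sum.inr ω)) := by
      intro r c ω h
      obtain ⟨i, hi⟩ := c.2.1
      cases r
      · apply ω.2.2.1 i
        funext pp
        have := congrFun h pp
        simp only [inc, asg, Sum.elim_inl, Sum.elim_inr] at this
        rw [← this, ← hi]
        rfl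
      · apply ω.2.2.2 i
        funext pp
        have := congrFun h pp
        simp only [inc, asg, Sum.elim_inl, Sum.elim_inr] at this
        rw [← this, ← hi]
        rfl
    have hDZ : ∀ (κ : D) (ω : Z), inc (Sum.inr (Sum.inl κ)) ≠ inc (Sum.inr (Sum.inr ω)) := by
      intro κ ω h
      obtain ⟨i, hi⟩ := κ.2
      apply ω.2.2.1 i
      funext pp
      have := congrFun h pp
      simp only [inc, asg, Sum.elim_inl, Sum.elim_inr] at this
      rw [← this]
      exact (congrFun hi _).symm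
    have hAA : ∀ (c c' : A), inc (Sum.inl (false, c)) ≠ inc (Sum.inl (true, c')) := by
      intro c c' h
      apply c.2.2
      apply const_of_swap (c' := c'.1)
      intro p p' hpp
      exact congrFun h ⟨(p, p'), hpp⟩
    rintro (⟨r, c⟩ | κ | ω) (⟨r', c'⟩ | κ' | ω') h
    · have hr : r = r' := by
        cases r <;> cases r'
        · rfl
        · exact absurd h (hAA c c')
        · exact absurd h.symm (hAA c' c)
        · rfl
      subst hr
      have : c = c' := by
        apply Subtype.ext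
        funext p
        cases r
        · obtain ⟨pp, hpp⟩ := exists_op_fst p
          have := congrFun h pp
          simpa [inc, asg, hpp] using this
        · obtain ⟨pp, hpp⟩ := exists_op_snd p
          have := congrFun h pp
          simpa [inc, asg, hpp] using this
      rw [this]
    · exact absurd h (hAD _ _ _)
    · exact absurd h (hAZ _ _ _)
    · exact absurd h.symm (hAD _ _ _)
    · have := congrFun h (Classical.arbitrary OP)
      have h2 : κ = κ' := Subtype.ext this
      rw [h2]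
    · exact absurd h (hDZ _ _)
    · exact absurd h.symm (hAZ _ _ _)
    · exact absurd h.symm (hDZ _ _)
    · have h2 : ω = ω' := Subtype.ext h
      rw [h2]
  -- every variable has a normal form
  have hX : ∀ i, (∀ p, C i p = C i 0) → ∃ κ : D, κ.1 = C i 0 ∧
      inc (Sum.inr (Sum.inl κ)) = X i ∧ inc (Sum.inr (Sum.inl κ)) = Yv i := by
    intro i hi
    obtain ⟨h1, h2⟩ := hconst i hi
    refine ⟨⟨C i 0, i, funext hi⟩, rfl, ?_, ?_⟩
    · rw [h2]
      rfl
    · rw [← h1, h2]
      rfl
  have hX2 : ∀ i, (hi : ¬ ∀ p, C i p = C i 0) →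
      inc (Sum.inl (false, ⟨C i, ⟨i, rfl⟩, hi⟩)) = X i ∧
      inc (Sum.inl (true, ⟨C i, ⟨i, rfl⟩, hi⟩)) = Yv i := fun i hi => ⟨rfl, rfl⟩
  have hτ : ∀ x, ∃ x', inc x' = ev x := by
    rintro ((i | i) | l)
    · by_cases hi : ∀ p, C i p = C i 0
      · obtain ⟨κ, -, h, -⟩ := hX i hi
        exact ⟨_, h⟩
      · exact ⟨_, (hX2 i hi).1⟩
    · by_cases hi : ∀ p, C i p = C i 0
      · obtain ⟨κ, -, -, h⟩ := hX i hi
        exact ⟨_, h⟩
      · exact ⟨_, (hX2 i hi).2⟩
    · by_cases h1 : ∃ i, ev (Sum.inr l) = X i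
      · obtain ⟨i, h1⟩ := h1
        by_cases hi : ∀ p, C i p = C i 0
        · obtain ⟨κ, -, h, -⟩ := hX i hi
          exact ⟨_, h.trans h1.symm⟩
        · exact ⟨_, (hX2 i hi).1.trans h1.symm⟩
      · by_cases h2 : ∃ i, ev (Sum.inr l) = Yv i
        · obtain ⟨i, h2⟩ := h2
          by_cases hi : ∀ p, C i p = C i 0
          · obtain ⟨κ, -, -, h⟩ := hX i hi
            exact ⟨_, h.trans h2.symm⟩
          · exact ⟨_, (hX2 i hi).2.trans h2.symm⟩
        · push Not at h1 h2
          exact ⟨Sum.inr (Sum.inr ⟨ev (Sum.inr l), ⟨l, rfl⟩, h1, h2⟩), rfl⟩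
  choose τ hτ using hτ
  let Φ1 : Set (Fin K → Vr A D Z) := {t | ∃ (i : ι) (h : K = ar i)
    (x : Fin (ar i) → (Fin n ⊕ Fin n) ⊕ Fin q), (∀ v, v ∈ 𝔻 i ↔ v ∘ Fin.cast h ∈ Qp) ∧
      Atom.rel i x ∈ Φ0 ∧ t = (fun a => τ (x (Fin.cast h a))) ∧ Injective t}
  have hΦ1 : ∀ t ∈ Φ1, ∀ pp : OP, (fun a => inc (t a) pp) ∈ Qp := by
    rintro t ⟨i, h, x, h1, h2, rfl, -⟩ pp
    have h3 := (h1 _).1 (hu pp _ h2)
    have h4 : (fun a => inc (τ (x (Fin.cast h a))) pp) =
        (fun j => Sum.elim (Sum.elim (f pp.1.1) (f pp.1.2)) (u pp) (x j)) ∘ Fin.cast h := by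
      funext a
      rw [hτ]
      rfl
    rw [h4]
    exact h3
  let Φ2 : Set (Fin K → Vr A D Z) := Φ1 ∪ ({t | ∃ t0 : Fin K → A ⊕ D,
    (role true ∘ t0 : Fin K → Vr A D Z) ∈ Φ1 ∧ t = role false ∘ t0} ∪
    {t | ∃ t0 : Fin K → A ⊕ D,
    (role false ∘ t0 : Fin K → Vr A D Z) ∈ Φ1 ∧ t = role true ∘ t0})
  have hrole : ∀ (y : A ⊕ D) (pp pp' : OP) (r r' : Bool),
      (if r then pp.1.2 else pp.1.1) = (if r' then pp'.1.2 else pp'.1.1) →
      inc (role r y) pp = inc (role r' y) pp' := by
    rintro (c | κ) pp pp' r r' h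
    · show c.1 (if r then pp.1.2 else pp.1.1) = c.1 (if r' then pp'.1.2 else pp'.1.1)
      rw [h]
    · rfl
  have hΦ2 : ∀ t ∈ Φ2, ∀ pp : OP, (fun a => inc (t a) pp) ∈ Qp := by
    rintro t (ht | ⟨t0, ht, rfl⟩ | ⟨t0, ht, rfl⟩) pp
    · exact hΦ1 t ht pp
    · obtain ⟨pp', hpp'⟩ := exists_op_snd pp.1.1
      have h1 := hΦ1 _ ht pp'
      convert h1 using 1
      funext a
      exact hrole _ _ _ _ _ (by simp [hpp'])
    · obtain ⟨pp', hpp'⟩ := exists_op_fst pp.1.2
      have h1 := hΦ1 _ ht pp'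
      convert h1 using 1
      funext a
      exact hrole _ _ _ _ _ (by simp [hpp'])
  refine ⟨{ A := A, D := D, Z := Z, finA := finA, finD := finD, finZ := finZ, ne := ?_,
            Φ := Φ2, c := fun p a => a.1 p, δ := fun κ => κ.1,
            u := fun p p' ω => if h : p ≠ p' then ω.1 ⟨(p, p'), h⟩ else f p ⟨0, hn⟩,
            holds := ?_, inj := ?_, col := ?_, sym := ?_ }⟩
  · by_cases hi : ∀ p, C ⟨0, hn⟩ p = C ⟨0, hn⟩ 0
    · exact ⟨Sum.inr ⟨C ⟨0, hn⟩ 0, ⟨0, hn⟩, funext hi⟩⟩
    · exact ⟨Sum.inl ⟨C ⟨0, hn⟩, ⟨⟨0, hn⟩, rfl⟩, hi⟩⟩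
  · intro p p' hpp t ht
    have h1 := hΦ2 t ht ⟨(p, p'), hpp⟩
    convert h1 using 1
    funext a
    simp only [comp, inc, asg]
    rcases t a with ⟨r, c⟩ | κ | ω
    · simp
    · rfl
    · simp [hpp]
  · rintro t (ht | ⟨t0, ht, rfl⟩ | ⟨t0, ht, rfl⟩)
    · obtain ⟨i, h, x, h1, h2, h3, h4⟩ := ht
      exact h4
    · obtain ⟨i, h, x, h1, h2, h3, h4⟩ := ht
      exact (role_injective false).comp (Injective.of_comp h4)
    · obtain ⟨i, h, x, h1, h2, h3, h4⟩ := ht
      exact (role_injective true).comp (Injective.of_comp h4)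
  · intro δ'
    let ext : (A → Ω) → Fin n → Ω := fun x i =>
      if hi : ∀ p, C i p = C i 0 then δ' ⟨C i 0, i, funext hi⟩ else x ⟨C i, ⟨i, rfl⟩, hi⟩
    refine ⟨fun x => g (ext x), ?_⟩
    intro x u' hinj hat
    apply hg
    rw [hΦ0]
    have hval : ∀ z, Sum.elim (Sum.elim (ext (x false)) (ext (x true)))
        (fun l => asg x δ' u' (τ (Sum.inr l))) z = asg x δ' u' (τ z) := by
      rintro ((i | i) | l)
      · simp only [Sum.elim_inl, ext]
        by_cases hi : ∀ p, C i p = C i 0
        · obtain ⟨κ, hκ, h, -⟩ := hX i hi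
          have : τ (Sum.inl (Sum.inl i)) = Sum.inr (Sum.inl κ) := hinc ((hτ _).trans h.symm)
          rw [this, dif_pos hi]
          show δ' _ = δ' κ
          congr 1
          exact Subtype.ext hκ.symm
        · have : τ (Sum.inl (Sum.inl i)) = Sum.inl (false, ⟨C i, ⟨i, rfl⟩, hi⟩) :=
            hinc ((hτ _).trans (hX2 i hi).1.symm)
          rw [this, dif_neg hi]
          rfl
      · simp only [Sum.elim_inl, Sum.elim_inr, ext]
        by_cases hi : ∀ p, C i p = C i 0
        · obtain ⟨κ, hκ, -, h⟩ := hX i hi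
          have : τ (Sum.inl (Sum.inr i)) = Sum.inr (Sum.inl κ) := hinc ((hτ _).trans h.symm)
          rw [this, dif_pos hi]
          show δ' _ = δ' κ
          congr 1
          exact Subtype.ext hκ.symm
        · have : τ (Sum.inl (Sum.inr i)) = Sum.inl (true, ⟨C i, ⟨i, rfl⟩, hi⟩) :=
            hinc ((hτ _).trans (hX2 i hi).2.symm)
          rw [this, dif_neg hi]
          rfl
      · rfl
    refine ⟨fun l => asg x δ' u' (τ (Sum.inr l)), ?_⟩
    intro ψ hψ
    have heqv : ∀ z z', τ z = τ z' ↔ ∀ pp, ev z pp = ev z' pp := by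
      intro z z'
      constructor
      · intro h pp
        rw [← hτ z, ← hτ z', h]
      · intro h
        apply hinc
        rw [hτ, hτ]
        funext pp
        exact h pp
    cases ψ with
    | eq z z' =>
      show _ = _
      rw [hval, hval]
      congr 1
      rw [heqv]
      intro pp
      exact hu pp _ hψ
    | rel i z =>
      show (fun j => _) ∈ 𝔻 i
      have e1 : (fun j => Sum.elim (Sum.elim (ext (x false)) (ext (x true)))
          (fun l => asg x δ' u' (τ (Sum.inr l))) (z j)) = fun j => asg x δ' u' (τ (z j)) := by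
        funext j
        exact hval _
      rw [e1]
      rcases hD i with ⟨h, hi⟩ | hi
      · rw [hi]
        by_cases hti : Injective (fun a => τ (z (Fin.cast h a)))
        · exact hQ (hat (fun a => τ (z (Fin.cast h a))) (Or.inl ⟨i, h, z, hi, hψ, rfl, hti⟩))
        · apply hE OP (fun pp a => ev (z (Fin.cast h a)) pp)
          · intro pp
            exact (hi _).1 (hu pp _ hψ)
          · intro a b
            rw [← heqv]
            exact hinj.eq_iff
          · intro h9
            exact hti (Injective.of_comp (f := asg x δ' u') h9)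
      · apply hi OP (fun pp j => ev (z j) pp) _ (fun pp => hu pp _ hψ)
        intro a b
        rw [hinj.eq_iff, heqv]
  · intro t
    constructor
    · rintro (ht | ⟨t0, ht, h⟩ | ⟨t0, ht, h⟩)
      · exact Or.inr (Or.inr ⟨t, ht, rfl⟩)
      · have : t = t0 := by
          funext a
          exact role_injective false (congrFun h a)
        rw [this]
        exact Or.inl ht
      · have : t = t0 ∧ role true ∘ t = (role false ∘ t : Fin K → Vr A D Z) := by
          have h2 : ∀ a, t a = t0 a ∧ (role true (t a) : Vr A D Z) = role false (t a) := by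
            intro a
            have h3 := congrFun h a
            simp only [comp] at h3
            rcases h4 : t a with c | κ <;> rcases h5 : t0 a with c' | κ' <;>
              rw [h4, h5] at h3 <;> simp [role] at h3 ⊢
            exact h3
          exact ⟨funext fun a => (h2 a).1, funext fun a => (h2 a).2⟩
        rw [this.2, this.1]
        exact Or.inl ht
    · rintro (ht | ⟨t0, ht, h⟩ | ⟨t0, ht, h⟩)
      · exact Or.inr (Or.inl ⟨t, ht, rfl⟩)
      · have : t = t0 ∧ role false ∘ t = (role true ∘ t : Fin K → Vr A D Z) := by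
          have h2 : ∀ a, t a = t0 a ∧ (role false (t a) : Vr A D Z) = role true (t a) := by
            intro a
            have h3 := congrFun h a
            simp only [comp] at h3
            rcases h4 : t a with c | κ <;> rcases h5 : t0 a with c' | κ' <;>
              rw [h4, h5] at h3 <;> simp [role] at h3 ⊢
            exact h3
          exact ⟨funext fun a => (h2 a).1, funext fun a => (h2 a).2⟩
        rw [this.2, this.1]
        exact Or.inl ht
      · have : t = t0 := by
          funext a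
          exact role_injective true (congrFun h a)
        rw [this]
        exact Or.inl ht

end Pool.Agent.P8H87.V2
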