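import Mathlib
import Pool.Agent.P8H87.RedCor

/-!
# Correctness of the reduction: second version
-/

namespace Pool.Agent.P8H87.V2

open Function Pool.Agent.W994.AR Pool.Agent.NPC Pool.Agent.P8H87

section

variable {K N A : ℕ} {B : Type} {ι : Type} {ar0 : ι → ℕ}
variable {u : ι ⊕ Unit → ℕ} {m : ℕ} {ri : ℕ → ι} {xa : ℕ → ℕ → ℕ} {h0 : 0 < N}

theorem red_back (hp : Par K N A ar0 u) (𝔸 : Str ι ar0 B) {Ω : Type}
    {Qp : Set (Fin K → Ω)} {φ : (Fin K → Ω) → B}
    (hQp : ∀ (j : (GG hp 𝔸).J) (g : Fin N → Ω), (∀ s ∈ (GG hp 𝔸).edges j, g ∘ s ∈ Qp) →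
      (fun a => φ (g ∘ (GG hp 𝔸).blk j a)) ∈ (GG hp 𝔸).rel j) :
    (∃ h : Vx K N → Ω, ∀ t ∈ QV (K := K) N h0 u ar0 m ri xa, h ∘ t ∈ Qp) →
    (∃ a : ℕ → B, ∀ c < m, (fun l : Fin (ar0 (ri c)) => a (xa c l)) ∈ 𝔸 (ri c)) := by
  have hN := hp.hN
  have hK := hp.hK
  have hK0 : 0 < K := by omega
  rintro ⟨h, hh⟩
  refine ⟨fun x => φ (h ∘ fun i => Sum.inl (x, i)), fun c hc => ?_⟩
  have h1 : (fun b : Fin (ar0 (ri c)) =>
      φ ((h ∘ pc K N h0 xa (Sum.inl c)) ∘ (GG hp 𝔸).blk (Sum.inl (ri c)) b)) ∈ 𝔸 (ri c) :=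
    hQp (Sum.inl (ri c)) (h ∘ pc K N h0 xa (Sum.inl c)) (fun s hs =>
      hh (pc K N h0 xa (Sum.inl c) ∘ s) ⟨Sum.inl c, hc, s, hs, rfl⟩)
  suffices h5 : (fun l : Fin (ar0 (ri c)) => φ (h ∘ fun i => Sum.inl (xa c l, i))) =
      (fun b : Fin (ar0 (ri c)) =>
        φ ((h ∘ pc K N h0 xa (Sum.inl c)) ∘ (GG hp 𝔸).blk (Sum.inl (ri c)) b)) by
    show (fun l : Fin (ar0 (ri c)) => φ (h ∘ fun i => Sum.inl (xa c l, i))) ∈ 𝔸 (ri c)
    rw [h5]
    exact h1
  funext l
  have h2 : φ ((h ∘ pc K N h0 xa (Sum.inr (c, (l : ℕ)))) ∘ (GG hp 𝔸).blk (Sum.inr ()) (0 : Fin 2)) =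
      φ ((h ∘ pc K N h0 xa (Sum.inr (c, (l : ℕ)))) ∘ (GG hp 𝔸).blk (Sum.inr ()) (1 : Fin 2)) :=
    hQp (Sum.inr ()) (h ∘ pc K N h0 xa (Sum.inr (c, (l : ℕ)))) (fun s hs =>
      hh (pc K N h0 xa (Sum.inr (c, (l : ℕ))) ∘ s) ⟨Sum.inr (c, (l : ℕ)), ⟨hc, l.2⟩, s, hs, rfl⟩)
  have hKA : 2 * K ≤ K * A := by
    rw [mul_comm]
    exact Nat.mul_le_mul_left K hp.hA
  have h3 := hp.blk_le l.2
  have e1 : (h ∘ pc K N h0 xa (Sum.inr (c, (l : ℕ)))) ∘ (GG hp 𝔸).blk (Sum.inr ()) (0 : Fin 2) =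
      h ∘ fun i => Sum.inl (xa c l, i) := by
    funext i
    simp only [comp_apply]
    congr 1
    have e0 : ((GG hp 𝔸).blk (Sum.inr ()) (0 : Fin 2) i : ℕ) = i := by
      show (bl K N ((0 : Fin 2) : ℕ) i h0 : ℕ) = i
      rw [bl_val (by simp; omega)]
      simp
    have hi := i.2
    simp only [pc, e0]
    rw [dif_pos hi]
  have e2 : (h ∘ pc K N h0 xa (Sum.inr (c, (l : ℕ)))) ∘ (GG hp 𝔸).blk (Sum.inr ()) (1 : Fin 2) =
      (h ∘ pc K N h0 xa (Sum.inl c)) ∘ (GG hp 𝔸).blk (Sum.inl (ri c)) l := by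
    funext i
    simp only [comp_apply]
    congr 1
    have hi := i.2
    have e0 : ((GG hp 𝔸).blk (Sum.inr ()) (1 : Fin 2) i : ℕ) = K + i := by
      show (bl K N ((1 : Fin 2) : ℕ) i h0 : ℕ) = _
      rw [bl_val (by simp; omega)]
      simp
    have e3 : ((GG hp 𝔸).blk (Sum.inl (ri c)) l i : ℕ) = l * K + i := by
      show (bl K N (l : ℕ) i h0 : ℕ) = _
      rw [bl_val (by omega)]
    simp only [pc, e0]
    rw [dif_neg (by omega), if_pos (by omega)]
    congr 3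
    apply Fin.ext
    rw [e3, blN_val (by omega) (by omega)]
    omega
  rw [e1, e2] at h2
  exact h2


theorem red_iff (hp : Par K N A ar0 u) (𝔸 : Str ι ar0 B) {Ω : Type} [Nonempty Ω]
    {Q Qp : Set (Fin K → Ω)} {φ : (Fin K → Ω) → B} (hV : (GG hp 𝔸).Valid Q φ)
    (hE : (GG hp 𝔸).Ext Q φ) (hQ : Q ⊆ Qp)
    (hQp : ∀ (j : (GG hp 𝔸).J) (g : Fin N → Ω), (∀ s ∈ (GG hp 𝔸).edges j, g ∘ s ∈ Qp) →
      (fun a => φ (g ∘ (GG hp 𝔸).blk j a)) ∈ (GG hp 𝔸).rel j) :
    (∃ a : ℕ → B, ∀ c < m, (fun l : Fin (ar0 (ri c)) => a (xa c l)) ∈ 𝔸 (ri c)) ↔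
      ∃ h : Vx K N → Ω, ∀ t ∈ QV (K := K) N h0 u ar0 m ri xa, h ∘ t ∈ Qp := by
  constructor
  · intro h
    obtain ⟨h, hh⟩ := (P8H87.red_iff (h0 := h0) hp 𝔸 hV hE).1 h
    exact ⟨h, fun t ht => hQ (hh t ht)⟩
  · exact red_back hp 𝔸 hQp

end

section

variable {K N A n : ℕ} {B : Type} {ar0 : Fin n → ℕ} {u : Fin n ⊕ Unit → ℕ}

/-- **Correctness of the reduction.** -/
theorem redF_correct [Nonempty B] (hp : Par K N A ar0 u) (𝔸 : Str (Fin n) ar0 B) {Ω : Type}
    [Nonempty Ω] {Q Qp : Set (Fin K → Ω)} {φ : (Fin K → Ω) → B} (hV : (GG hp 𝔸).Valid Q φ)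
    (hE : (GG hp 𝔸).Ext Q φ) (hQQ : Q ⊆ Qp)
    (hQp : ∀ (j : (GG hp 𝔸).J) (g : Fin N → Ω), (∀ s ∈ (GG hp 𝔸).edges j, g ∘ s ∈ Qp) →
      (fun a => φ (g ∘ (GG hp 𝔸).blk j a)) ∈ (GG hp 𝔸).rel j) {r : ℕ} {arD : Fin (r + 1) → ℕ} (𝔻 : Str (Fin (r + 1)) arD Ω)
    (hK0 : K = arD 0) (hQ : ∀ v, v ∈ 𝔻 0 ↔ v ∘ Fin.cast hK0 ∈ Qp) (I : Inst) :
    CSP 𝔸 I ↔ CSP 𝔻 (redF K N A (List.ofFn ar0) (List.ofFn fun i => edgL K N (u (Sum.inl i)))
      (edgL K N (u (Sum.inr ()))) I) := by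
  classical
  have hN := hp.hN
  have hK := hp.hK
  by_cases hI : IsInst ar0 I
  swap
  · -- invalid instances
    have h1 : okB (List.ofFn ar0) I = false := by
      rw [← Bool.not_eq_true, okB_iff]
      exact hI
    constructor
    · intro h
      exact absurd h.1 hI
    · intro h
      exfalso
      unfold redF at h
      rw [h1] at h
      obtain ⟨i, h2, h3, -⟩ := h.1 (0, []) (by simp)
      have h4 : i = 0 := Fin.ext h2.symm
      subst h4
      simp only [List.length_nil] at h3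
      omega
  have h1 : okB (List.ofFn ar0) I = true := (okB_iff I).2 hI
  have hred : redF K N A (List.ofFn ar0) (List.ofFn fun i => edgL K N (u (Sum.inl i)))
      (edgL K N (u (Sum.inr ()))) I = (I.1.flatMap (fun _ => List.replicate K ()) ++
        I.2.flatMap (fun _ => List.replicate N ()) ++
      I.2.flatMap (fun _ => List.replicate (A * N) ()), outL K N A
        (List.ofFn fun i => edgL K N (u (Sum.inl i))) (edgL K N (u (Sum.inr ()))) I.1.length I.2) := by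
    unfold redF
    rw [h1]
    rfl
  rw [hred]
  rcases Nat.eq_zero_or_pos n with hn | hn
  · -- no relations
    subst hn
    have hI2 : I.2 = [] := by
      rw [List.eq_nil_iff_forall_not_mem]
      intro p hp'
      obtain ⟨i, -⟩ := hI p hp'
      exact i.elim0
    constructor
    · intro _
      rw [hI2]
      refine ⟨?_, fun _ => Classical.arbitrary Ω, ?_⟩
      · intro p hp'
        simp [outL] at hp'
      · intro i v hv
        simp [outL] at hv
    · intro _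
      refine ⟨hI, fun _ => Classical.arbitrary B, ?_⟩
      intro i
      exact i.elim0
  obtain ⟨ri, xa, h2, h3⟩ := valid_data hn hI
  rw [csp_iff hn 𝔸 hI h2 h3]
  have hN0 : 0 < N := by omega
  rw [red_iff (h0 := hN0) hp 𝔸 hV hE hQQ hQp]
  set nv := I.1.length with hnv
  set m := I.2.length with hm
  have hlen : (I.1.flatMap (fun _ => List.replicate K ()) ++
        I.2.flatMap (fun _ => List.replicate N ()) ++
      I.2.flatMap (fun _ => List.replicate (A * N) ())).length = nv * K + m * N + m * (A * N) := by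
    rw [List.length_append, List.length_append, length_flatMap_const, length_flatMap_const,
      length_flatMap_const, List.length_replicate, List.length_replicate, List.length_replicate]
  have hA0 : 0 < A := by have := hp.hA; omega
  constructor
  · rintro ⟨h, hh⟩
    refine ⟨?_, fun y => h (decV K N A nv m (by omega) hN0 y), ?_⟩
    · rintro ⟨i, L⟩ hiL
      obtain ⟨hi, p, hv, s, hs, rfl⟩ := (mem_outL (h0 := hN0) hp h2).1 hiL
      refine ⟨0, hi, ?_, ?_⟩
      · rw [List.length_ofFn]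
        exact hK0
      · intro a ha
        rw [List.mem_ofFn] at ha
        obtain ⟨j, rfl⟩ := ha
        show _ < (_ : List Unit).length
        rw [hlen]
        exact num_lt (by omega) hN0 _ (pc_rel hp h3 hv _)
    · intro i v hv
      obtain ⟨hi, p, hvp, s, hs, hL⟩ := (mem_outL (h0 := hN0) hp h2).1 hv
      have hi0 : i = 0 := Fin.ext hi
      subst hi0
      rw [hQ]
      have h4 := hh (pc K N hN0 xa p ∘ s) ⟨p, hvp, s, hs, rfl⟩
      convert h4 using 1
      funext j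
      simp only [comp_apply]
      congr 1
      have h5 : ((v (Fin.cast hK0 j) : ℕ)) = num K N A nv m (pc K N hN0 xa p (s j)) := by
        have h6 := congrArg (fun l : List ℕ => l[(j : ℕ)]?) hL
        simp only [List.getElem?_ofFn] at h6
        rw [dif_pos (by have := j.2; omega), dif_pos j.2] at h6
        exact Option.some.inj h6
      rw [h5]
      exact decV_num (by omega) hN0 hA0 _ (pc_rel hp h3 hvp _)
  · rintro ⟨hI', h, hh⟩
    let h' : Vx K N → Ω := fun v =>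
      if hv : num K N A nv m v < (I.1.flatMap (fun _ => List.replicate K ()) ++
        I.2.flatMap (fun _ => List.replicate N ()) ++
        I.2.flatMap (fun _ => List.replicate (A * N) ())).length then h ⟨num K N A nv m v, hv⟩
      else Classical.arbitrary Ω
    refine ⟨h', ?_⟩
    rintro t ⟨p, hvp, s, hs, rfl⟩
    have h4 : ∀ j, num K N A nv m (pc K N hN0 xa p (s j)) <
        (I.1.flatMap (fun _ => List.replicate K ()) ++
        I.2.flatMap (fun _ => List.replicate N ()) ++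
        I.2.flatMap (fun _ => List.replicate (A * N) ())).length := by
      intro j
      rw [hlen]
      exact num_lt (by omega) hN0 _ (pc_rel hp h3 hvp _)
    have h5 := hh 0 (fun j => ⟨_, h4 (Fin.cast hK0.symm j)⟩) (by
      rw [mem_outL (h0 := hN0) hp h2]
      refine ⟨rfl, p, hvp, s, hs, ?_⟩
      apply List.ext_getElem
      · rw [List.length_ofFn, List.length_ofFn]
        exact hK0.symm
      · intro a h6 h7
        rw [List.getElem_ofFn, List.getElem_ofFn]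
        rfl)
    rw [hQ] at h5
    convert h5 using 1
    funext j
    simp only [comp_apply, h']
    rw [dif_pos (h4 j)]
    rfl

end

end Pool.Agent.P8H87.V2
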