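import Mathlib
import Pool.Agent.P8H87.BPStmt

/-!
# Templates with essentially injective polymorphisms: statements
-/

namespace Pool.Agent.P8H87.V2

open Pool.Agent.W994.AR Pool.Agent.NPC Pool.Agent.P8H87

/-- Essentially injective: if two tuples with the same value differ in the coordinate `i`, then
the operation does not depend on the coordinate `i`. In other words, the operation becomes
injective when the coordinates on which it does not depend are omitted. -/
def EssInj {A : Type} {m : ℕ} (p : (Fin m → A) → A) : Prop :=
  ∀ x y : Fin m → A, p x = p y → ∀ i, x i ≠ y i →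
    ∀ z w : Fin m → A, (∀ j, j ≠ i → z j = w j) → p z = p w

/-- The Bodirsky-Pinsker conjecture restricted to the templates with a single relation `𝔹 r`, of
arity `k + 1`, all whose polymorphisms are essentially injective, where `𝔹` is moreover
`k`-transitive and without algebraicity. -/
def BodirskyPinskerEssInj (k : ℕ) : Prop :=
  ∀ (B σ : Type) [Countable B] [Nonempty B] [Finite σ] (ar : σ → ℕ) (𝔹 : Str σ ar B),
    Homogeneous 𝔹 → FinitelyBounded 𝔹 → Transitive 𝔹 k → NoAlgebraicity 𝔹 →
      ∀ r : σ, ar r = k + 1 →
        (∀ (m : ℕ) (p : (Fin m → B) → B), IsPol (fun _ : Fin 1 => 𝔹 r) p → EssInj p) →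
        ¬ PPConstructsK3 (fun _ : Fin 1 => 𝔹 r) → InPP (CSP (fun _ : Fin 1 => 𝔹 r))

end Pool.Agent.P8H87.V2
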