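import Mathlib
import Pool.Agent.P8H87.V2Red
import Pool.Agent.P8H87.V2K3b
import Pool.Agent.P8H87.BPMain
import Pool.Agent.P8H87.V2Stmt

/-!
# One relation with essentially injective polymorphisms
-/

namespace Pool.Agent.P8H87.V2

open Function Pool.Agent.W994.AR Pool.Agent.NPC Pool.Agent.P8H87

section

variable {K N : ℕ} {Ω : Type}

/-- the tuples `(a, a, b, ..., b)` with `a ≠ b` -/
def EE (K : ℕ) (Ω : Type) : Set (Fin K → Ω) :=
  {t | (∀ i j : Fin K, (i : ℕ) < 2 → (j : ℕ) < 2 → t i = t j) ∧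
    (∀ i j : Fin K, 2 ≤ (i : ℕ) → 2 ≤ (j : ℕ) → t i = t j) ∧
    ∀ i j : Fin K, (i : ℕ) < 2 → 2 ≤ (j : ℕ) → t i ≠ t j}

theorem not_inj_EE (hK : 2 ≤ K) {t : Fin K → Ω} (ht : t ∈ EE K Ω) : ¬ Injective t := by
  intro h
  have h1 := h (ht.1 ⟨0, by omega⟩ ⟨1, by omega⟩ (by simp) (by simp))
  simp only [Fin.mk.injEq] at h1
  omega

/-- the edge with the last elements -/
def te (K N : ℕ) (hKN : K ≤ N) (a b : Fin N) : Fin K → Fin N := fun i =>
  if (i : ℕ) = 0 then a else if (i : ℕ) = 1 then b else ⟨N - K + i, by omega⟩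

theorem te_mono (hKN : K ≤ N) {a b : Fin N} (hab : a < b) (hb : (b : ℕ) < N - K + 2) :
    StrictMono (te K N hKN a b) := by
  intro i j hij
  have hij' : (i : ℕ) < j := hij
  have hab' : (a : ℕ) < b := hab
  show (te K N hKN a b i : ℕ) < te K N hKN a b j
  unfold te
  split_ifs <;> first | omega | (show N - K + (i : ℕ) < N - K + (j : ℕ); omega) |
    (show _ < N - K + (j : ℕ); omega)

/-- maps which send the edges of a gadget to the relation or to the special tuples -/
theorem edges_all {u : ℕ} {Q : Set (Fin K → Ω)} (hK : 4 ≤ K) (hN : 2 * K ≤ N)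
    (hQ : ∀ t ∈ Q, Injective t) {g : Fin N → Ω}
    (hg : ∀ s ∈ edg K N u, g ∘ s ∈ Q ∪ EE K Ω) : ∀ s ∈ edg K N u, g ∘ s ∈ Q := by
  have hKN : K ≤ N := by omega
  have hmem : ∀ a b : Fin N, a < b → (b : ℕ) < N - K + 2 → te K N hKN a b ∈ edg K N u :=
    fun a b hab hb => Or.inl (te_mono hKN hab hb)
  by_cases htail : ∀ x y : Fin N, N - K + 2 ≤ (x : ℕ) → N - K + 2 ≤ (y : ℕ) → g x = g y
  · exfalso
    have h1 : ∀ a b : Fin N, a < b → (b : ℕ) < N - K + 2 → g a = g b := by
      intro a b hab hb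
      rcases hg _ (hmem a b hab hb) with h | h
      · exfalso
        have h2 := hQ _ h (a₁ := ⟨2, by omega⟩) (a₂ := ⟨3, by omega⟩) (by
          apply htail <;> simp [te] <;> omega)
        simp only [Fin.mk.injEq] at h2
        omega
      · have h2 := h.1 ⟨0, by omega⟩ ⟨1, by omega⟩ (by simp) (by simp)
        simpa [te] using h2
    let s : Fin K → Fin N := fun i => ⟨i, by omega⟩
    have hs : s ∈ edg K N u := Or.inl (fun i j hij => hij)
    have h3 : ∀ i j : Fin K, g (s i) = g (s j) := by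
      intro i j
      rcases lt_trichotomy i j with h | h | h
      · exact h1 _ _ h (by simp [s]; omega)
      · rw [h]
      · exact (h1 _ _ h (by simp [s]; omega)).symm
    rcases hg s hs with h | h
    · have h4 := hQ _ h (h3 ⟨0, by omega⟩ ⟨1, by omega⟩)
      simp only [Fin.mk.injEq] at h4
      omega
    · exact h.2.2 ⟨0, by omega⟩ ⟨2, by omega⟩ (by simp) (by simp) (h3 _ _)
  · push Not at htail
    obtain ⟨x, y, hx, hy, hxy⟩ := htail
    have h1 : ∀ a b : Fin N, a < b → (b : ℕ) < N - K + 2 → Injective (g ∘ te K N hKN a b) := by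
      intro a b hab hb
      rcases hg _ (hmem a b hab hb) with h | h
      · exact hQ _ h
      · exfalso
        apply hxy
        have h2 := h.2.1 ⟨x - (N - K), by omega⟩ ⟨y - (N - K), by omega⟩ (by simp; omega)
          (by simp; omega)
        have e1 : te K N hKN a b ⟨x - (N - K), by omega⟩ = x := by
          apply Fin.ext
          unfold te
          rw [if_neg (by simp; omega), if_neg (by simp; omega)]
          show N - K + (x - (N - K)) = x
          omega
        have e2 : te K N hKN a b ⟨y - (N - K), by omega⟩ = y := by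
          apply Fin.ext
          unfold te
          rw [if_neg (by simp; omega), if_neg (by simp; omega)]
          show N - K + (y - (N - K)) = y
          omega
        rwa [comp_apply, comp_apply, e1, e2] at h2
    have hcov : ∀ a b : Fin N, a < b → g a ≠ g b := by
      intro a b hab heq
      have hab' : (a : ℕ) < b := hab
      have key : ∀ (c d : Fin N) (hcd : c < d) (hd : (d : ℕ) < N - K + 2) (i j : Fin K),
          te K N hKN c d i = a → te K N hKN c d j = b → False := by
        intro c d hcd hd i j hi hj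
        have h2 := h1 c d hcd hd (a₁ := i) (a₂ := j) (by
          rw [comp_apply, comp_apply, hi, hj, heq])
        rw [← hi, ← hj, h2] at hab
        exact absurd hab (lt_irrefl _)
      have hte : ∀ (c d z : Fin N) (hz : N - K + 2 ≤ (z : ℕ)),
          te K N hKN c d ⟨z - (N - K), by omega⟩ = z := by
        intro c d z hz
        apply Fin.ext
        unfold te
        rw [if_neg (by simp; omega), if_neg (by simp; omega)]
        show N - K + (z - (N - K)) = z
        omega
      by_cases hb : (b : ℕ) < N - K + 2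
      · exact key a b hab hb ⟨0, by omega⟩ ⟨1, by omega⟩ (by simp [te]) (by simp [te])
      · by_cases ha : (a : ℕ) < N - K + 2
        · by_cases ha0 : (a : ℕ) = 0
          · refine key a ⟨1, by omega⟩ ?_ (by simp) ⟨0, by omega⟩ ⟨b - (N - K), by omega⟩
              (by simp [te]) (hte _ _ _ (by omega))
            show (a : ℕ) < 1
            omega
          · refine key ⟨0, by omega⟩ a ?_ ha ⟨1, by omega⟩ ⟨b - (N - K), by omega⟩
              (by simp [te]) (hte _ _ _ (by omega))
            show 0 < (a : ℕ)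
            omega
        · refine key ⟨0, by omega⟩ ⟨1, by omega⟩ ?_ (by simp) ⟨a - (N - K), by omega⟩
            ⟨b - (N - K), by omega⟩ (hte _ _ _ (by omega)) (hte _ _ _ (by omega))
          show 0 < 1
          omega
    have hginj : Injective g := by
      intro a b hab
      rcases lt_trichotomy a b with h | h | h
      · exact absurd hab (hcov a b h)
      · exact h
      · exact absurd hab.symm (hcov b a h)
    intro s hs
    rcases hg s hs with h | h
    · exact h
    · exact absurd (hginj.comp (edg_inj hs)) (not_inj_EE (by omega) h)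

theorem kernel_EE (hK : 2 ≤ K) {Q : Set (Fin K → Ω)} (hQ : ∀ t ∈ Q, Injective t) (I : Type)
    [Nonempty I] (v : I → Fin K → Ω) (w : Fin K → Ω) (hv : ∀ l, v l ∈ Q ∪ EE K Ω)
    (hw : ∀ a b, w a = w b ↔ ∀ l, v l a = v l b) (hinj : ¬ Injective w) : w ∈ Q ∪ EE K Ω := by
  right
  have h1 : ∀ l, v l ∈ EE K Ω := by
    intro l
    rcases hv l with h | h
    · exfalso
      apply hinj
      intro a b hab
      exact hQ _ h ((hw a b).1 hab l)
    · exact h
  refine ⟨?_, ?_, ?_⟩
  · intro i j hi hj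
    rw [hw]
    exact fun l => (h1 l).1 i j hi hj
  · intro i j hi hj
    rw [hw]
    exact fun l => (h1 l).2.1 i j hi hj
  · intro i j hi hj h
    rw [hw] at h
    exact (h1 (Classical.arbitrary I)).2.2 i j hi hj (h _)

end

section

variable {K N : ℕ} {B : Type} {G : Gad K N B} {Ω : Type} {Q : Set (Fin K → Ω)}
  {φ : (Fin K → Ω) → B}

/-- extension by a small set of new points -/
theorem small_ext (hV : G.Valid Q φ) (hE : G.Ext Q φ) [Nonempty Ω] (F : Finset Ω) (New : Type)
    [Finite New] (R : Set (Fin K → F ⊕ New)) (hR : ∀ t ∈ R, Injective t)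
    (hRnew : ∀ t ∈ R, ∃ i n, t i = Sum.inr n) (hcard : Nat.card (F ⊕ New) < N) :
    ∃ e : F ⊕ New → Ω, Injective e ∧ (∀ x : F, e (Sum.inl x) = x) ∧ ∀ t ∈ R, e ∘ t ∈ Q := by
  classical
  let Q' : Set (Fin K → F ⊕ New) :=
    {t | ∃ t' : Fin K → F, t = Sum.inl ∘ t' ∧ (fun i => (t' i : Ω)) ∈ Q} ∪ R
  let φ' : (Fin K → F ⊕ New) → B := fun t =>
    φ (fun i => Sum.elim (fun x : F => (x : Ω)) (fun _ => Classical.arbitrary Ω) (t i))
  have hinj : ∀ t ∈ Q', Injective t := by
    rintro t (⟨t', rfl, ht'⟩ | ht)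
    · apply Sum.inl_injective.comp
      intro i j hij
      exact hV.1 _ ht' (congrArg Subtype.val hij)
    · exact hR t ht
  have hval : G.Valid Q' φ' := by
    refine ⟨hinj, fun j g hg => ?_⟩
    exfalso
    have h1 := G.inj hinj hg
    have h2 := Nat.card_le_card_of_injective g h1
    rw [Nat.card_eq_fintype_card, Fintype.card_fin] at h2
    omega
  let e0 : F ⊕ New → Ω := Sum.elim (fun x : F => (x : Ω)) (fun _ => Classical.arbitrary Ω)
  have hex : Exact Q' φ' Q φ (Set.range (Sum.inl : F → F ⊕ New)) e0 := by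
    constructor
    · rintro _ ⟨x, rfl⟩ _ ⟨y, rfl⟩ hxy
      exact congrArg Sum.inl (Subtype.ext hxy)
    · intro t ht
      choose t' ht' using ht
      have h1 : t = Sum.inl ∘ t' := funext fun i => (ht' i).symm
      refine ⟨⟨?_, ?_⟩, fun _ => rfl⟩
      · rintro (⟨t'', h2, h3⟩ | h2)
        · rw [h2]
          exact h3
        · obtain ⟨i, n, h3⟩ := hRnew t h2
          rw [← ht' i] at h3
          exact absurd h3 (by simp)
      · intro h2
        left
        refine ⟨t', h1, ?_⟩
        rw [h1] at h2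
        exact h2
  obtain ⟨e, he, hee⟩ := hE.many hval (Set.finite_range _) hex (Set.finite_univ (α := F ⊕ New))
  rw [Set.union_univ] at he
  refine ⟨e, fun x y hxy => he.1 (Set.mem_univ _) (Set.mem_univ _) hxy, fun x => ?_, ?_⟩
  · exact hee _ ⟨x, rfl⟩
  · intro t ht
    exact ((he.2 t (fun _ => Set.mem_univ _)).1).1 (Or.inr ht)

/-- witnesses -/
theorem exists_wit (hV : G.Valid Q φ) (hE : G.Ext Q φ) [Infinite Ω] (hK : 4 ≤ K)
    (hN : 4 + 3 * K < N) (x y z w : Ω) (h : x = y → z = w) :
    ∃ t : Fin 3 → Fin K → Ω, (∀ l, t l ∈ Q ∪ EE K Ω) ∧ t 0 ⟨0, by omega⟩ = x ∧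
      t 0 ⟨1, by omega⟩ = y ∧ t 1 ⟨0, by omega⟩ = t 0 ⟨2, by omega⟩ ∧
      t 1 ⟨1, by omega⟩ = t 0 ⟨3, by omega⟩ ∧ t 1 ⟨2, by omega⟩ = z ∧
      t 2 ⟨0, by omega⟩ = t 0 ⟨2, by omega⟩ ∧ t 2 ⟨1, by omega⟩ = t 0 ⟨3, by omega⟩ ∧
      t 2 ⟨2, by omega⟩ = t 1 ⟨3, by omega⟩ ∧ t 2 ⟨3, by omega⟩ = w := by
  classical
  have hne : Nonempty Ω := ⟨x⟩
  by_cases hxy : x = y
  · subst hxy
    have hzw := h rfl
    subst hzw
    obtain ⟨a, ha⟩ := Infinite.exists_notMem_finset ({x, z} : Finset Ω)
    simp only [Finset.mem_insert, Finset.mem_singleton, not_or] at ha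
    have hmem : ∀ p q : Ω, p ≠ q → (fun i : Fin K => if (i : ℕ) < 2 then p else q) ∈ EE K Ω := by
      intro p q hpq
      refine ⟨?_, ?_, ?_⟩
      · intro i j hi hj
        simp only [if_pos hi, if_pos hj]
      · intro i j hi hj
        simp only [if_neg (not_lt.2 hi), if_neg (not_lt.2 hj)]
      · intro i j hi hj
        simp only [if_pos hi, if_neg (not_lt.2 hj)]
        exact hpq
    refine ⟨![fun i : Fin K => if (i : ℕ) < 2 then x else a,
      fun i : Fin K => if (i : ℕ) < 2 then a else z,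
      fun i : Fin K => if (i : ℕ) < 2 then a else z], ?_, ?_⟩
    · intro l
      right
      fin_cases l
      · exact hmem x a (fun h => ha.1 h.symm)
      · exact hmem a z ha.2
      · exact hmem a z ha.2
    · simp
  · let F : Finset Ω := {x, y, z, w}
    have hx : x ∈ F := by simp [F]
    have hy : y ∈ F := by simp [F]
    have hz : z ∈ F := by simp [F]
    have hw : w ∈ F := by simp [F]
    let a : F ⊕ (Fin 3 × Fin K) := Sum.inr (0, ⟨2, by omega⟩)
    let b : F ⊕ (Fin 3 × Fin K) := Sum.inr (0, ⟨3, by omega⟩)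
    let c : F ⊕ (Fin 3 × Fin K) := Sum.inr (1, ⟨3, by omega⟩)
    let τ1 : Fin K → F ⊕ (Fin 3 × Fin K) := fun i =>
      if (i : ℕ) = 0 then Sum.inl ⟨x, hx⟩ else if (i : ℕ) = 1 then Sum.inl ⟨y, hy⟩
      else Sum.inr (0, i)
    let τ2 : Fin K → F ⊕ (Fin 3 × Fin K) := fun i =>
      if (i : ℕ) = 0 then a else if (i : ℕ) = 1 then b
      else if (i : ℕ) = 2 then Sum.inl ⟨z, hz⟩ else Sum.inr (1, i)
    let τ3 : Fin K → F ⊕ (Fin 3 × Fin K) := fun i =>
      if (i : ℕ) = 0 then a else if (i : ℕ) = 1 then b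
      else if (i : ℕ) = 2 then c else if (i : ℕ) = 3 then Sum.inl ⟨w, hw⟩ else Sum.inr (2, i)
    have h1 : Injective τ1 := by
      intro i j hij
      simp only [τ1] at hij
      split_ifs at hij <;>
        simp only [Sum.inl.injEq, Sum.inr.injEq, Subtype.mk.injEq, Prod.mk.injEq,
          reduceCtorEq] at hij <;>
        first
        | exact Fin.ext (by omega)
        | exact absurd hij hxy
        | exact absurd hij.symm hxy
        | exact hij.2
    have h2 : Injective τ2 := by
      intro i j hij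
      simp only [τ2, a, b] at hij
      split_ifs at hij <;>
        simp only [Sum.inl.injEq, Sum.inr.injEq, Subtype.mk.injEq, Prod.mk.injEq, Fin.mk.injEq,
          reduceCtorEq, Fin.isValue, zero_ne_one, one_ne_zero, false_and, true_and, and_false,
          Fin.zero_eq_one_iff, Fin.one_eq_zero_iff] at hij <;>
        first
        | exact Fin.ext (by omega)
        | omega
        | exact hij
    have h3 : Injective τ3 := by
      intro i j hij
      simp only [τ3, a, b, c] at hij
      split_ifs at hij <;>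
        simp only [Sum.inl.injEq, Sum.inr.injEq, Subtype.mk.injEq, Prod.mk.injEq, Fin.mk.injEq,
          reduceCtorEq, Fin.isValue, zero_ne_one, one_ne_zero, false_and, true_and, and_false,
          Fin.zero_eq_one_iff, Fin.one_eq_zero_iff] at hij <;>
        first
        | exact Fin.ext (by omega)
        | omega
        | exact hij
        | (exfalso; revert hij; decide)
        | (exact absurd hij.1 (by decide))
    obtain ⟨e, he1, he2, he3⟩ := small_ext hV hE F (Fin 3 × Fin K) {t | t = τ1 ∨ t = τ2 ∨ t = τ3}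
      (by
        rintro t (rfl | rfl | rfl)
        · exact h1
        · exact h2
        · exact h3)
      (by
        rintro t (rfl | rfl | rfl)
        · exact ⟨⟨2, by omega⟩, _, by simp only [τ1]; rw [if_neg (by simp), if_neg (by simp)]⟩
        · exact ⟨⟨0, by omega⟩, _, by simp only [τ2, a]; rw [if_pos (by simp)]⟩
        · exact ⟨⟨0, by omega⟩, _, by simp only [τ3, a]; rw [if_pos (by simp)]⟩)
      (by
        rw [Nat.card_sum, Nat.card_prod]
        simp only [Nat.card_eq_fintype_card, Fintype.card_fin, Fintype.card_coe]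
        have : F.card ≤ 4 := Finset.card_le_four
        omega)
    refine ⟨![e ∘ τ1, e ∘ τ2, e ∘ τ3], ?_, ?_⟩
    · intro l
      left
      fin_cases l
      · exact he3 _ (Or.inl rfl)
      · exact he3 _ (Or.inr (Or.inl rfl))
      · exact he3 _ (Or.inr (Or.inr rfl))
    · refine ⟨?_, ?_, ?_, ?_, ?_, ?_, ?_, ?_, ?_⟩
      · show e (τ1 _) = x
        simp [τ1, he2]
      · show e (τ1 _) = y
        simp [τ1, he2]
      · show e (τ2 _) = e (τ1 _)
        simp [τ1, τ2, a]
      · show e (τ2 _) = e (τ1 _)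
        simp [τ1, τ2, b]
      · show e (τ2 _) = z
        simp [τ2, he2]
      · show e (τ3 _) = e (τ1 _)
        simp [τ1, τ3, a]
      · show e (τ3 _) = e (τ1 _)
        simp [τ1, τ3, b]
      · show e (τ3 _) = e (τ2 _)
        simp [τ2, τ3, c]
      · show e (τ3 _) = w
        simp [τ3, he2]

theorem essInj_of_pol (hV : G.Valid Q φ) (hE : G.Ext Q φ) [Infinite Ω] (hK : 4 ≤ K)
    (hN : 4 + 3 * K < N) {m : ℕ} {p : (Fin m → Ω) → Ω}
    (hp : IsPol (ι := Fin 1) (ar := fun _ => K) (fun _ => Q ∪ EE K Ω) p) : EssInj p := by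
  intro x y hxy i hi z w hzw
  have hH : ∀ t ∈ Q ∪ EE K Ω, t ⟨0, by omega⟩ = t ⟨1, by omega⟩ →
      t ⟨2, by omega⟩ = t ⟨3, by omega⟩ := by
    rintro t (ht | ht) h
    · have := hV.1 t ht h
      simp only [Fin.mk.injEq] at this
      omega
    · exact ht.2.1 _ _ (by simp) (by simp)
  have h1 : ∀ l : Fin m, x l = y l → z l = w l := by
    intro l hl
    apply hzw
    rintro rfl
    exact hi hl
  choose t ht1 ht2 ht3 ht4 ht5 ht6 ht7 ht8 ht9 ht10 using fun l : Fin m =>
    exists_wit hV hE hK hN (x l) (y l) (z l) (w l) (h1 l)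
  let T : Fin 3 → Fin K → Ω := fun r a => p (fun l => t l r a)
  have hT : ∀ r, T r ∈ Q ∪ EE K Ω := fun r => hp 0 (fun l => t l r) (fun l => ht1 l r)
  have e1 : T 0 ⟨0, by omega⟩ = T 0 ⟨1, by omega⟩ := by
    show p _ = p _
    rw [funext ht2, funext ht3]
    exact hxy
  have e2 := hH _ (hT 0) e1
  have e3 : T 1 ⟨0, by omega⟩ = T 1 ⟨1, by omega⟩ := by
    show p _ = p _
    rw [funext ht4, funext ht5]
    exact e2
  have e4 := hH _ (hT 1) e3
  have e5 : T 2 ⟨0, by omega⟩ = T 2 ⟨1, by omega⟩ := by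
    show p _ = p _
    rw [funext ht7, funext ht8]
    exact e2
  have e6 := hH _ (hT 2) e5
  have e7 : T 1 ⟨2, by omega⟩ = p z := by
    show p _ = p _
    rw [funext ht6]
  have e8 : T 2 ⟨3, by omega⟩ = p w := by
    show p _ = p _
    rw [funext ht10]
  have e9 : T 2 ⟨2, by omega⟩ = T 1 ⟨3, by omega⟩ := by
    show p _ = p _
    rw [funext ht9]
  rw [← e7, ← e8, e4, ← e9, e6]

end

end Pool.Agent.P8H87.V2
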