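import Mathlib
import Pool.Agent.P8H87.V2Ess

/-!
# The construction: second version
-/

namespace Pool.Agent.P8H87.V2

open Function Pool.Agent.W994.AR Pool.Agent.NPC Pool.Agent.P8H87

theorem mem_aut_expand {B σ τ : Type} {ar : σ → ℕ} {k : τ → ℕ} {𝔹 : Str σ ar B} {R : Str τ k B}
    (hR : ∀ j, Invar (autGroup 𝔹) (R j)) {g : Equiv.Perm B} (hg : g ∈ autGroup 𝔹) :
    g ∈ autGroup (expand 𝔹 R) := by
  rintro (i | j) v
  · exact hg i v
  · constructor
    · intro hv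
      exact hR j g hg v hv
    · intro hv
      have h1 := hR j g⁻¹ ((autGroup 𝔹).inv_mem hg) _ hv
      have h2 : (fun i => g⁻¹ (g (v i))) = v := by funext i; simp
      have h3 : (fun i => g⁻¹ (g (v i))) ∈ R j := h1
      rw [h2] at h3
      exact h3

/-- **The construction.** -/
theorem construction {B σ : Type} [Countable B] [Nonempty B] [Finite σ] {ar : σ → ℕ}
    (𝔹 : Str σ ar B) (hH : Homogeneous 𝔹) (hF : FinitelyBounded 𝔹) {n : ℕ} (f : Fin n → σ)
    (k : ℕ) (hk : 3 ≤ k) :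
    ∃ (Ω : Type) (_ : Countable Ω) (_ : Nonempty Ω) (σ' : Type) (_ : Finite σ') (ar' : σ' → ℕ)
      (𝔻 : Str σ' ar' Ω) (r : σ'), Homogeneous 𝔻 ∧ FinitelyBounded 𝔻 ∧
      (∀ F : Finset Ω, F.card ≤ k → ∀ h : Ω → Ω, Set.InjOn h F →
        ∃ g ∈ autGroup 𝔻, ∀ x ∈ F, g x = h x) ∧
      (∀ F : Finset Ω, ∀ x, x ∉ F →
        {y | ∃ g ∈ autGroup 𝔻, (∀ a ∈ F, g a = a) ∧ g x = y}.Infinite) ∧
      ar' r = k + 1 ∧
      (∀ (m : ℕ) (p : (Fin m → Ω) → Ω), IsPol (fun _ : Fin 1 => 𝔻 r) p → EssInj p) ∧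
      (PPConstructsK3 (fun _ : Fin 1 => 𝔻 r) → PPConstructsK3 (fun i => 𝔹 (f i))) ∧
      (InPP (CSP (fun _ : Fin 1 => 𝔻 r)) → InPP (CSP (fun i => 𝔹 (f i)))) := by
  classical
  have := Fintype.ofFinite σ
  -- parameters
  let K : ℕ := k + 1
  let A : ℕ := max 4 (Finset.univ.sup ar)
  let cd : Fin n ⊕ Unit → ℕ := Sum.elim (fun i => (i : ℕ)) (fun _ => n)
  have hcd : Injective cd := by
    rintro (i | _) (j | _) h
    · simp only [cd, Sum.elim_inl] at h
      rw [Fin.ext h]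
    · simp only [cd, Sum.elim_inl, Sum.elim_inr] at h
      have := i.2
      omega
    · simp only [cd, Sum.elim_inl, Sum.elim_inr] at h
      have := j.2
      omega
    · rfl
  have hcdle : ∀ j, cd j ≤ n := by
    rintro (i | _)
    · exact i.2.le
    · exact le_rfl
  let u : Fin n ⊕ Unit → ℕ := fun j => K * A + cd j
  let N : ℕ := K * A + n + K + 2
  have hp : Par K N A (fun i => ar (f i)) u :=
    { hK := by show 2 ≤ k + 1; omega
      hA := le_trans (by omega) (le_max_left 4 (Finset.univ.sup ar))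
      har := fun i => (Finset.le_sup (f := ar) (Finset.mem_univ (f i))).trans (le_max_right _ _)
      inj := by
        intro a b h
        apply hcd
        have : K * A + cd a = K * A + cd b := h
        omega
      lo := fun j => Nat.le_add_right _ _
      hi := by
        intro j
        have := hcdle j
        show K * A + cd j + K + 2 ≤ K * A + n + K + 2
        omega }
  let 𝔸 : Str (Fin n) (fun i => ar (f i)) B := fun i => 𝔹 (f i)
  let G : Gad K N B := GG hp 𝔸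
  have hN1 : 1 ≤ N := by show 1 ≤ K * A + n + K + 2; omega
  obtain ⟨Ω, hΩ1, hΩ2, Q, φ, hV, hE⟩ := exists_generic G hN1
  let 𝔹e : Str (σ ⊕ Unit) (Sum.elim ar (fun _ => 2)) B := expand 𝔹 (eqRel B)
  have hHe : Homogeneous 𝔹e := homogeneous_expand hH (eqRel B) (eqRel_invar 𝔹)
  have hFe : FinitelyBounded 𝔹e := finitelyBounded_expand hH hF (eqRel B) (eqRel_invar 𝔹)
  have heq : ∃ s : σ ⊕ Unit, (∃ a b : Fin (Sum.elim ar (fun _ => 2) s), a ≠ b) ∧
      ∀ v, v ∈ 𝔹e s ↔ ∀ a b, v a = v b := by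
    refine ⟨Sum.inr (), ⟨(0 : Fin 2), (1 : Fin 2), fun h => ?_⟩, ?_⟩
    · have : (0 : Fin 2) = 1 := h
      exact absurd this (by decide)
    intro v
    constructor
    · intro (h : v (0 : Fin 2) = v (1 : Fin 2)) (a : Fin 2) (b : Fin 2)
      fin_cases a <;> fin_cases b
      · rfl
      · exact h
      · exact h.symm
      · rfl
    · intro h
      exact h (0 : Fin 2) (1 : Fin 2)
  have hinv : ∀ j : G.J, Invar (autGroup 𝔹e) (G.rel j) := by
    rintro (i | _)
    · intro g hg v hv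
      exact (expand_mem_aut hg (f i) v).1 hv
    · intro g hg v hv
      have : v (0 : Fin 2) = v (1 : Fin 2) := hv
      show g (v (0 : Fin 2)) = g (v (1 : Fin 2))
      rw [this]
  let sym : G.J → σ ⊕ Unit := fun j => Sum.elim (fun i => Sum.inl (f i)) (fun _ => Sum.inr ()) j
  have har : ∀ j, Sum.elim ar (fun _ => 2) (sym j) = G.ar j := by
    rintro (i | _) <;> rfl
  have hrel : ∀ j (w : Fin (G.ar j) → B), w ∈ G.rel j ↔ (w ∘ Fin.cast (har j)) ∈ 𝔹e (sym j) := by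
    rintro (i | _) w
    · exact Iff.rfl
    · exact Iff.rfl
  have hK1 : 1 ≤ K := by show 1 ≤ k + 1; omega
  have hK4 : 4 ≤ K := by show 4 ≤ k + 1; omega
  have hKA : K * 4 ≤ K * A := Nat.mul_le_mul_left K (le_max_left _ _)
  have hN2 : 2 * K ≤ N := by show 2 * K ≤ K * A + n + K + 2; omega
  have hN3 : 4 + 3 * K < N := by show 4 + 3 * K < K * A + n + K + 2; omega
  let Qp : Set (Fin K → Ω) := Q ∪ EE K Ω
  have hQQ : Q ⊆ Qp := Set.subset_union_left
  have hQp : ∀ (j : G.J) (g : Fin N → Ω), (∀ s ∈ G.edges j, g ∘ s ∈ Qp) →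
      (fun a => φ (g ∘ G.blk j a)) ∈ G.rel j := fun j g hg =>
    hV.2 j g (edges_all (u := u j) hK4 hN2 hV.1 hg)
  let 𝔻0 : Str (Option (σ ⊕ Unit)) (bigAr K (Sum.elim ar (fun _ => 2))) Ω := big 𝔹e Q φ
  have hinvQ : ∀ j : Unit, Invar (autGroup 𝔻0) ((fun _ : Unit => Qp) j) := by
    intro _ g hg v hv
    rcases hv with hv | hv
    · exact Or.inl ((hg none v).1 hv)
    · right
      refine ⟨fun i j hi hj => congrArg g (hv.1 i j hi hj),
        fun i j hi hj => congrArg g (hv.2.1 i j hi hj), fun i j hi hj h => ?_⟩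
      exact hv.2.2 i j hi hj (g.injective h)
  have hH0 : Homogeneous 𝔻0 := homogeneous_big hHe hV hE hinv heq
  have hF0 : FinitelyBounded 𝔻0 := finitelyBounded_big hFe hV hE hK1 sym har hrel heq
  have hautE : ∀ g ∈ autGroup 𝔻0, g ∈ autGroup (expand (k := fun _ : Unit => K) 𝔻0
      (fun _ : Unit => Qp)) := fun g hg => mem_aut_expand hinvQ hg
  have hinf : Infinite Ω := by
    have h1 := noAlg_big hV hE hinv ∅ (Classical.arbitrary Ω) (by simp)
    exact Set.infinite_univ_iff.1 (h1.mono (Set.subset_univ _))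
  refine ⟨Ω, hΩ1, hΩ2, Option (σ ⊕ Unit) ⊕ Unit, inferInstance,
    Sum.elim (bigAr K (Sum.elim ar (fun _ => 2))) (fun _ => K),
    expand (k := fun _ : Unit => K) 𝔻0 (fun _ : Unit => Qp), Sum.inr (),
    homogeneous_expand hH0 _ hinvQ, finitelyBounded_expand hH0 hF0 _ hinvQ, ?_, ?_, rfl, ?_, ?_, ?_⟩
  · intro F hF h hh
    obtain ⟨g, hg, hg2⟩ := transitive_big hV hE hinv F h (Nat.lt_succ_of_le hF) hh
    exact ⟨g, hautE g hg, hg2⟩
  · intro F x hx
    refine (noAlg_big hV hE hinv F x hx).mono ?_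
    rintro y ⟨g, hg, hg2⟩
    exact ⟨g, hautE g hg, hg2⟩
  · intro m p hp'
    exact essInj_of_pol hV hE hK4 hN3 hp'
  · intro h
    obtain ⟨nf⟩ := V2.exists_nf (Q := Q) (Qp := Qp) hQQ (fun I _ v w h1 h2 h3 =>
      kernel_EE (by omega) hV.1 I v w h1 h2 h3) (fun i => Or.inl ⟨rfl, fun v => Iff.rfl⟩) h
    have hfin : Finite G.J := inferInstanceAs (Finite (Fin n ⊕ Unit))
    refine V2.k3_descend hE hQp hK1 hN1 ?_ nf
    rintro (i | _)
    · exact PP.rel (𝔸 := 𝔸) i id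
    · exact PP.eq (𝔸 := 𝔸) (0 : Fin 2) (1 : Fin 2)
  · intro h
    exact InPP.of_poly h (poly_redF K N A _ _ _) (fun I => V2.redF_correct hp 𝔸 hV hE hQQ hQp
      (r := 0) (arD := fun _ : Fin 1 => K)
      (fun _ : Fin 1 => Qp) rfl (fun v => Iff.rfl) I)

end Pool.Agent.P8H87.V2
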