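import Mathlib
import Pool.Agent.P8H87.GadEx

/-!
# Gadgets for uniform hypergraphs

The non-edges of the gadgets are stars: each of the first `T + 2` vertices `x` belongs to `dg x`
non-edges, whose other vertices are private.
-/

namespace Pool.Agent.P8H87.V3

open Function Pool.Agent.P8H87

/-- the number of non-edges through the vertex `x` -/
def dg (T M c x : ℕ) : ℕ :=
  if x < T then x + 2 else if x = T then T + 2 + c else T + 2 + (2 * M + 1 - c)

/-- a bound for the number of non-edges -/
def DD (T M : ℕ) : ℕ := T + 2 * M + 4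

theorem dg_lt (T M c x : ℕ) (hc : c ≤ M) : dg T M c x < DD T M := by
  unfold dg DD
  split_ifs <;> omega

/-- the non-edge number `r` through `x` -/
def st (K N T M x r : ℕ) : Finset (Fin N) :=
  Finset.univ.filter (fun v : Fin N =>
    (v : ℕ) = x ∨ (T + 2 ≤ (v : ℕ) ∧ ((v : ℕ) - (T + 2)) / (K - 1) = x * DD T M + r))

/-- the indices of the non-edges -/
def PR (T M c : ℕ) : Finset ((_ : ℕ) × ℕ) := (Finset.range (T + 2)).sigma (fun x => Finset.range (dg T M c x))

/-- the non-edges -/
def NE (K N T M c : ℕ) : Finset (Finset (Fin N)) := (PR T M c).image (fun p => st K N T M p.1 p.2)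

variable {K N T M : ℕ}

/-- the assumptions -/
structure Big (K N T M : ℕ) : Prop where
  hK : 3 ≤ K
  hN : T + 2 + (T + 2) * DD T M * (K - 1) ≤ N

theorem Big.star_lt (h : Big K N T M) {x r q : ℕ} (hx : x < T + 2) (hr : r < DD T M)
    (hq : q < K - 1) : T + 2 + ((x * DD T M + r) * (K - 1) + q) < N := by
  have h1 : (x + 1) * DD T M ≤ (T + 2) * DD T M := Nat.mul_le_mul_right _ hx
  have h2 : (x * DD T M + r + 1) * (K - 1) ≤ (T + 2) * DD T M * (K - 1) := by
    apply Nat.mul_le_mul_right
    have : (x + 1) * DD T M = x * DD T M + DD T M := by ring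
    omega
  have h3 : (x * DD T M + r + 1) * (K - 1) = (x * DD T M + r) * (K - 1) + (K - 1) := by ring
  have := h.hN
  omega

theorem card_st (h : Big K N T M) {x r : ℕ} (hx : x < T + 2) (hr : r < DD T M) :
    (st K N T M x r).card = K := by
  classical
  have hK := h.hK
  have h1 : st K N T M x r = insert (⟨x, by
      have := h.star_lt hx hr (q := 0) (by omega)
      omega⟩ : Fin N)
      ((Finset.univ : Finset (Fin (K - 1))).image (fun q : Fin (K - 1) =>
        (⟨T + 2 + ((x * DD T M + r) * (K - 1) + q), h.star_lt hx hr q.2⟩ : Fin N))) := by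
    ext v
    simp only [st, Finset.mem_filter, Finset.mem_univ, true_and, Finset.mem_insert,
      Finset.mem_image, Fin.ext_iff]
    constructor
    · rintro (h1 | ⟨h1, h2⟩)
      · exact Or.inl h1
      · right
        have h3 := Nat.div_add_mod ((v : ℕ) - (T + 2)) (K - 1)
        have h4 : ((v : ℕ) - (T + 2)) % (K - 1) < K - 1 := Nat.mod_lt _ (by omega)
        refine ⟨⟨_, h4⟩, ?_⟩
        simp only
        rw [h2] at h3
        have h5 : (K - 1) * (x * DD T M + r) = (x * DD T M + r) * (K - 1) := by ring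
        omega
    · rintro (h1 | ⟨q, h1⟩)
      · exact Or.inl h1
      · right
        refine ⟨by omega, ?_⟩
        have h2 : (v : ℕ) - (T + 2) = (K - 1) * (x * DD T M + r) + q := by
          have h5 : (K - 1) * (x * DD T M + r) = (x * DD T M + r) * (K - 1) := by ring
          omega
        rw [h2, Nat.mul_add_div (by omega), Nat.div_eq_of_lt q.2, add_zero]
  rw [h1, Finset.card_insert_of_notMem, Finset.card_image_of_injective]
  · simp
    omega
  · intro q q' hq
    simp only [Fin.mk.injEq] at hq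
    exact Fin.ext (by omega)
  · simp only [Finset.mem_image, Finset.mem_univ, true_and, not_exists, Fin.ext_iff]
    intro q
    omega

theorem mem_st_low {x r : ℕ} {v : Fin N} (hv : (v : ℕ) < T + 2) :
    v ∈ st K N T M x r ↔ (v : ℕ) = x := by
  simp only [st, Finset.mem_filter, Finset.mem_univ, true_and]
  constructor
  · rintro (h | h)
    · exact h
    · omega
  · exact Or.inl

theorem mem_st_high {x r : ℕ} {v : Fin N} (hx : x < T + 2) (hv : T + 2 ≤ (v : ℕ)) :
    v ∈ st K N T M x r ↔ ((v : ℕ) - (T + 2)) / (K - 1) = x * DD T M + r := by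
  simp only [st, Finset.mem_filter, Finset.mem_univ, true_and]
  constructor
  · rintro (h | h)
    · omega
    · exact h.2
  · exact fun h => Or.inr ⟨hv, h⟩

theorem code_inj {D x r x' r' : ℕ} (hr : r < D) (hr' : r' < D) (h : x * D + r = x' * D + r') :
    x = x' ∧ r = r' := by
  have h1 : (x * D + r) / D = x := by
    rw [mul_comm, Nat.mul_add_div (by omega), Nat.div_eq_of_lt hr, add_zero]
  have h2 : (x' * D + r') / D = x' := by
    rw [mul_comm, Nat.mul_add_div (by omega), Nat.div_eq_of_lt hr', add_zero]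
  have h3 : x = x' := by rw [← h1, ← h2, h]
  subst h3
  exact ⟨rfl, by omega⟩

theorem st_inj (h : Big K N T M) {x r x' r' : ℕ} (hx : x < T + 2) (hr : r < DD T M)
    (hx' : x' < T + 2) (hr' : r' < DD T M) (he : st K N T M x r = st K N T M x' r') :
    x = x' ∧ r = r' := by
  have hK := h.hK
  have h0 := h.star_lt hx hr (q := 0) (by omega)
  let v : Fin N := ⟨T + 2 + ((x * DD T M + r) * (K - 1) + 0), h0⟩
  have hv : T + 2 ≤ (v : ℕ) := by
    show T + 2 ≤ T + 2 + _
    omega
  have hv1 : ((v : ℕ) - (T + 2)) / (K - 1) = x * DD T M + r := by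
    show (T + 2 + ((x * DD T M + r) * (K - 1) + 0) - (T + 2)) / (K - 1) = _
    rw [Nat.add_sub_cancel_left, add_zero, Nat.mul_div_cancel _ (by omega)]
  have h1 : v ∈ st K N T M x r := (mem_st_high hx hv).2 hv1
  rw [he, mem_st_high hx' hv, hv1] at h1
  exact code_inj hr hr' h1

theorem mem_NE {c : ℕ} {S : Finset (Fin N)} :
    S ∈ NE K N T M c ↔ ∃ x < T + 2, ∃ r < dg T M c x, S = st K N T M x r := by
  simp only [NE, PR, Finset.mem_image, Finset.mem_sigma, Finset.mem_range]
  constructor
  · rintro ⟨⟨x, r⟩, ⟨h1, h2⟩, h3⟩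
    exact ⟨x, h1, r, h2, h3.symm⟩
  · rintro ⟨x, h1, r, h2, h3⟩
    exact ⟨⟨x, r⟩, ⟨h1, h2⟩, h3.symm⟩

theorem card_NE (h : Big K N T M) {c : ℕ} (hc : c ≤ M) : (NE K N T M c).card =
    ∑ x ∈ Finset.range T, (x + 2) + (T + 2 + (T + 2 + (2 * M + 1))) := by
  classical
  unfold NE
  rw [Finset.card_image_of_injOn]
  · unfold PR
    rw [Finset.card_sigma]
    simp only [Finset.card_range]
    rw [Finset.sum_range_succ, Finset.sum_range_succ]
    have h1 : ∑ x ∈ Finset.range T, dg T M c x = ∑ x ∈ Finset.range T, (x + 2) := by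
      apply Finset.sum_congr rfl
      intro x hx
      rw [Finset.mem_range] at hx
      simp [dg, hx]
    have h2 : dg T M c T = T + 2 + c := by simp [dg]
    have h3 : dg T M c (T + 1) = T + 2 + (2 * M + 1 - c) := by simp [dg]
    rw [h1, h2, h3]
    omega
  · rintro ⟨x, r⟩ h1 ⟨x', r'⟩ h2 h3
    simp only [PR, Finset.coe_sigma, Finset.coe_range, Set.mem_sigma_iff, Set.mem_Iio] at h1 h2
    have h4 := st_inj h h1.1 (h1.2.trans (dg_lt _ _ _ _ hc)) h2.1
      (h2.2.trans (dg_lt _ _ _ _ hc)) h3
    rw [h4.1, h4.2]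

/-- the degree -/
def deg (K N T M c : ℕ) (v : Fin N) : ℕ := ((NE K N T M c).filter (fun S => v ∈ S)).card

theorem deg_low (h : Big K N T M) {c : ℕ} (hc : c ≤ M) {v : Fin N} (hv : (v : ℕ) < T + 2) :
    deg K N T M c v = dg T M c v := by
  classical
  have h1 : (NE K N T M c).filter (fun S => v ∈ S) =
      (Finset.range (dg T M c v)).image (fun r => st K N T M v r) := by
    ext S
    simp only [Finset.mem_filter, mem_NE, Finset.mem_image, Finset.mem_range]
    constructor
    · rintro ⟨⟨x, h1, r, h2, rfl⟩, h3⟩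
      rw [mem_st_low hv] at h3
      subst h3
      exact ⟨r, h2, rfl⟩
    · rintro ⟨r, h1, rfl⟩
      exact ⟨⟨v, hv, r, h1, rfl⟩, (mem_st_low hv).2 rfl⟩
  unfold deg
  rw [h1, Finset.card_image_of_injOn, Finset.card_range]
  intro r hr r' hr' h2
  simp only [Finset.coe_range, Set.mem_Iio] at hr hr'
  exact (st_inj h hv (hr.trans (dg_lt _ _ _ _ hc)) hv (hr'.trans (dg_lt _ _ _ _ hc)) h2).2

theorem deg_high (h : Big K N T M) {c : ℕ} (hc : c ≤ M) {v : Fin N} (hv : T + 2 ≤ (v : ℕ)) :
    deg K N T M c v ≤ 1 := by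
  classical
  unfold deg
  rw [Finset.card_le_one]
  intro S hS S' hS'
  simp only [Finset.mem_filter, mem_NE] at hS hS'
  obtain ⟨⟨x, h1, r, h2, rfl⟩, h3⟩ := hS
  obtain ⟨⟨x', h1', r', h2', rfl⟩, h3'⟩ := hS'
  rw [mem_st_high h1 hv] at h3
  rw [mem_st_high h1' hv] at h3'
  have h4 := code_inj (h2.trans (dg_lt _ _ _ _ hc)) (h2'.trans (dg_lt _ _ _ _ hc))
    (h3.symm.trans h3')
  rw [h4.1, h4.2]

/-- **Rigidity.** -/
theorem rigid (h : Big K N T M) {c c' : ℕ} (hc : c ≤ M) (hc' : c' ≤ M) {g : Fin N → Fin N}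
    (hginj : Injective g)
    (hg : ∀ S : Finset (Fin N), S.card = K → S ∉ NE K N T M c → S.image g ∉ NE K N T M c') :
    c = c' ∧ ∀ v : Fin N, (v : ℕ) < T → g v = v := by
  classical
  have hgbij : Function.Bijective g := Finite.injective_iff_bijective.1 hginj
  let e : Fin N ≃ Fin N := Equiv.ofBijective g hgbij
  have he : ∀ v, e v = g v := fun v => rfl
  have hcardNE : ∀ S ∈ NE K N T M c', S.card = K := by
    intro S hS
    obtain ⟨x, h1, r, h2, rfl⟩ := mem_NE.1 hS
    exact card_st h h1 (h2.trans (dg_lt _ _ _ _ hc'))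
  have himg : ∀ S : Finset (Fin N), (S.image e.symm).image g = S := by
    intro S
    ext v
    simp only [Finset.mem_image]
    constructor
    · rintro ⟨w, ⟨x, hx, rfl⟩, rfl⟩
      have : g (e.symm x) = x := e.apply_symm_apply x
      rwa [this]
    · intro hv
      exact ⟨e.symm v, ⟨v, hv, rfl⟩, e.apply_symm_apply v⟩
  have hsub : (NE K N T M c').image (fun S => S.image e.symm) ⊆ NE K N T M c := by
    intro S hS
    obtain ⟨S', hS', rfl⟩ := Finset.mem_image.1 hS
    by_contra hcon
    have h1 := hg (S'.image e.symm) (by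
      rw [Finset.card_image_of_injective _ e.symm.injective]
      exact hcardNE S' hS') hcon
    rw [himg] at h1
    exact h1 hS'
  have himginj : Injective (fun S : Finset (Fin N) => S.image e.symm) := by
    intro S S' hSS
    have := congrArg (fun S : Finset (Fin N) => S.image g) hSS
    simp only [himg] at this
    exact this
  have heq : (NE K N T M c').image (fun S => S.image e.symm) = NE K N T M c := by
    apply Finset.eq_of_subset_of_card_le hsub
    rw [Finset.card_image_of_injective _ himginj, card_NE h hc, card_NE h hc']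
  have hdeg : ∀ v, deg K N T M c v = deg K N T M c' (g v) := by
    intro v
    unfold deg
    rw [← heq]
    symm
    apply Finset.card_bij (fun S _ => S.image e.symm)
    · intro S hS
      simp only [Finset.mem_filter] at hS ⊢
      refine ⟨Finset.mem_image_of_mem _ hS.1, ?_⟩
      rw [Finset.mem_image]
      exact ⟨g v, hS.2, e.symm_apply_apply v⟩
    · intro S _ S' _ hSS
      exact himginj hSS
    · intro S hS
      simp only [Finset.mem_filter, Finset.mem_image] at hS
      obtain ⟨⟨S', hS', rfl⟩, h2⟩ := hS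
      refine ⟨S', ?_, rfl⟩
      rw [Finset.mem_filter]
      refine ⟨hS', ?_⟩
      rw [Finset.mem_image] at h2
      obtain ⟨w, hw, hwv⟩ := h2
      have : g v = w := by
        rw [← hwv]
        exact e.apply_symm_apply w
      rwa [this]
  -- vertices of degree at least two
  have hlow : ∀ v : Fin N, 2 ≤ deg K N T M c v → (g v : ℕ) < T + 2 ∧
      dg T M c' (g v) = deg K N T M c v := by
    intro v hv
    have h1 : (g v : ℕ) < T + 2 := by
      by_contra hcon
      have h2 := deg_high h hc' (v := g v) (by omega)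
      rw [← hdeg] at h2
      omega
    refine ⟨h1, ?_⟩
    rw [hdeg, deg_low h hc' h1]
  have hNT : T + 2 ≤ N := by
    have := h.hN
    omega
  constructor
  · let z : Fin N := ⟨T, by omega⟩
    have h1 : deg K N T M c z = T + 2 + c := by
      rw [deg_low h hc (by show T < T + 2; omega)]
      simp [dg, z]
    obtain ⟨h2, h3⟩ := hlow z (by omega)
    rw [h1] at h3
    unfold dg at h3
    split_ifs at h3 <;> omega
  · intro v hv
    have h1 : deg K N T M c v = v + 2 := by
      rw [deg_low h hc (by omega)]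
      simp [dg, hv]
    obtain ⟨h2, h3⟩ := hlow v (by omega)
    rw [h1] at h3
    unfold dg at h3
    apply Fin.ext
    split_ifs at h3 <;> omega

/-- each pair is contained in an edge -/
theorem exists_edge (h : Big K N T M) {c : ℕ} (hc : c ≤ M) (a b : Fin N) :
    ∃ S : Finset (Fin N), a ∈ S ∧ b ∈ S ∧ S.card = K ∧ S ∉ NE K N T M c := by
  classical
  have hK := h.hK
  have hNT : T + 2 ≤ N := by
    have := h.hN
    omega
  have hKN : K ≤ N := by
    have h1 := h.star_lt (x := 0) (r := 0) (q := K - 2) (by omega) (by unfold DD; omega) (by omega)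
    omega
  -- a third vertex
  have key : ∀ d : Fin N, (∀ S : Finset (Fin N), a ∈ S → b ∈ S → d ∈ S → S ∉ NE K N T M c) →
      ∃ S : Finset (Fin N), a ∈ S ∧ b ∈ S ∧ S.card = K ∧ S ∉ NE K N T M c := by
    intro d hd
    have h1 : ({a, b, d} : Finset (Fin N)).card ≤ K := Finset.card_le_three.trans hK
    obtain ⟨S, hS1, -, hS2⟩ := Finset.exists_subsuperset_card_eq
      (Finset.subset_univ ({a, b, d} : Finset (Fin N))) h1 (by simpa using hKN)
    have ha : a ∈ S := hS1 (by simp)
    have hb : b ∈ S := hS1 (by simp)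
    have hd' : d ∈ S := hS1 (by simp)
    exact ⟨S, ha, hb, hS2, hd S ha hb hd'⟩
  -- sets with two low vertices
  have hlow : ∀ (v w : Fin N), (v : ℕ) < T + 2 → (w : ℕ) < T + 2 → (v : ℕ) ≠ w →
      ∀ S : Finset (Fin N), v ∈ S → w ∈ S → S ∉ NE K N T M c := by
    intro v w hv hw hvw S h1 h2 hS
    obtain ⟨x, h3, r, h4, rfl⟩ := mem_NE.1 hS
    rw [mem_st_low hv] at h1
    rw [mem_st_low hw] at h2
    omega
  by_cases ha : (a : ℕ) < T + 2
  · refine key ⟨if (a : ℕ) = 0 then 1 else 0, by split_ifs <;> omega⟩ fun S h1 h2 h3 =>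
      hlow a _ ha (by simp only; split_ifs <;> omega) (by simp only; split_ifs <;> omega) S h1 h3
  · by_cases hb : (b : ℕ) < T + 2
    · refine key ⟨if (b : ℕ) = 0 then 1 else 0, by split_ifs <;> omega⟩ fun S h1 h2 h3 =>
        hlow b _ hb (by simp only; split_ifs <;> omega) (by simp only; split_ifs <;> omega) S h2 h3
    · refine key ⟨if ((a : ℕ) - (T + 2)) / (K - 1) / DD T M = 0 then 1 else 0,
        by split_ifs <;> omega⟩ fun S h1 h2 h3 hS => ?_
      obtain ⟨x, h4, r, h5, rfl⟩ := mem_NE.1 hS
      rw [mem_st_high h4 (by omega)] at h1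
      rw [mem_st_low (by simp only; split_ifs <;> omega)] at h3
      have h6 : (x * DD T M + r) / DD T M = x := by
        rw [mul_comm, Nat.mul_add_div (by unfold DD; omega),
          Nat.div_eq_of_lt (h5.trans (dg_lt _ _ _ _ hc)), add_zero]
      rw [← h1] at h6
      simp only [h6] at h3
      split_ifs at h3 <;> omega

end Pool.Agent.P8H87.V3
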