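import Mathlib
import Pool.Agent.P8H87.V3Gad
import Pool.Agent.P8H87.V2Red

/-!
# The reduction for uniform hypergraphs: correctness
-/

namespace Pool.Agent.P8H87.V3

open Function Pool.Agent.W994.AR Pool.Agent.NPC Pool.Agent.P8H87

/-- the symmetric closure of a relation -/
def sy {K : ℕ} {Ω : Type} (Q : Set (Fin K → Ω)) : Set (Fin K → Ω) :=
  {t | ∃ π : Equiv.Perm (Fin K), t ∘ π ∈ Q}

theorem sub_sy {K : ℕ} {Ω : Type} (Q : Set (Fin K → Ω)) : Q ⊆ sy Q := fun _ ht => ⟨1, ht⟩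

theorem sy_perm {K : ℕ} {Ω : Type} {Q : Set (Fin K → Ω)} {t : Fin K → Ω} (ht : t ∈ sy Q)
    (π : Equiv.Perm (Fin K)) : t ∘ π ∈ sy Q := by
  obtain ⟨ρ, hρ⟩ := ht
  refine ⟨π⁻¹ * ρ, ?_⟩
  have : (t ∘ π) ∘ (π⁻¹ * ρ : Equiv.Perm (Fin K)) = t ∘ ρ := by
    funext i
    simp
  rw [this]
  exact hρ

theorem sy_inj {K : ℕ} {Ω : Type} {Q : Set (Fin K → Ω)} (hQ : ∀ t ∈ Q, Injective t)
    {t : Fin K → Ω} (ht : t ∈ sy Q) : Injective t := by
  obtain ⟨π, hπ⟩ := ht
  have h1 := (hQ _ hπ).comp π⁻¹.injective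
  have h2 : (t ∘ π) ∘ (π⁻¹ : Equiv.Perm (Fin K)) = t := by
    funext i
    simp
  rwa [h2] at h1

/-- the edges of the gadgets -/
def hedg (K N T M c : ℕ) : Set (Fin K → Fin N) :=
  {s | StrictMono s ∧ Finset.univ.image s ∉ NE K N T M c}

section

variable {K N A M : ℕ} {B : Type} {ι : Type} {ar0 : ι → ℕ}

/-- the parameters -/
structure Par3 (K N A M : ℕ) (ar0 : ι → ℕ) (u : ι ⊕ Unit → ℕ) : Prop where
  par : Par K N A ar0 u
  big : Big K N (K * A) M
  hM : ∀ j, u j ≤ K * A + M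

/-- the code of a gadget -/
def cj (K A : ℕ) (u : ι ⊕ Unit → ℕ) (j : ι ⊕ Unit) : ℕ := u j - K * A

theorem Par3.cj_le {u : ι ⊕ Unit → ℕ} (h : Par3 K N A M ar0 u) (j : ι ⊕ Unit) :
    cj K A u j ≤ M := by
  have := h.hM j
  unfold cj
  omega

theorem Par3.cj_inj {u : ι ⊕ Unit → ℕ} (h : Par3 K N A M ar0 u) : Injective (cj K A u) := by
  intro i j hij
  apply h.par.inj
  have h1 := h.par.lo i
  have h2 := h.par.lo j
  unfold cj at hij
  omega

/-- an edge through two given vertices -/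
theorem exists_hedg {T : ℕ} (hb : Big K N T M) {c : ℕ} (hc : c ≤ M) (a b : Fin N) :
    ∃ s ∈ hedg K N T M c, (∃ i, s i = a) ∧ ∃ i, s i = b := by
  classical
  obtain ⟨S, ha, hb', hS, hSN⟩ := exists_edge hb hc a b
  have himg : Finset.univ.image (S.orderEmbOfFin hS) = S := by
    ext v
    have h1 : v ∈ Set.range (S.orderEmbOfFin hS) ↔ v ∈ S := by
      rw [Finset.range_orderEmbOfFin]
      exact Iff.rfl
    rw [← h1]
    simp
  refine ⟨S.orderEmbOfFin hS, ⟨(S.orderEmbOfFin hS).strictMono, by rw [himg]; exact hSN⟩, ?_, ?_⟩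
  · have : a ∈ Set.range (S.orderEmbOfFin hS) := by
      rw [Finset.range_orderEmbOfFin]
      exact ha
    exact this
  · have : b ∈ Set.range (S.orderEmbOfFin hS) := by
      rw [Finset.range_orderEmbOfFin]
      exact hb'
    exact this

/-- the gadgets: all orderings of the edges -/
def GS {u : ι ⊕ Unit → ℕ} (h : Par3 K N A M ar0 u) (𝔸 : Str ι ar0 B) : Gad K N B where
  J := (ι ⊕ Unit) × ((Fin K → Fin N) → Equiv.Perm (Fin K))
  edges := fun p => {t | ∃ s ∈ hedg K N (K * A) M (cj K A u p.1), t = s ∘ p.2 s}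
  ar := fun p => arJ ar0 p.1
  blk := fun p a i => bl K N a i (by have := h.par.hN; omega)
  rel := fun p => relJ 𝔸 p.1
  irr := fun p a b => by
    obtain ⟨s, hs, ⟨i, h1⟩, ⟨i', h2⟩⟩ := exists_hedg h.big (h.cj_le p.1) a b
    refine ⟨s ∘ p.2 s, ⟨s, hs, rfl⟩, ⟨(p.2 s)⁻¹ i, ?_⟩, ⟨(p.2 s)⁻¹ i', ?_⟩⟩
    · simp [h1]
    · simp [h2]
  binj := fun p a i i' hii => by
    have h0 := h.par.harJ p.1
    have h3 := h.par.hN
    have h9 : ((a : ℕ) + 1) * K ≤ arJ ar0 p.1 * K := Nat.mul_le_mul_right K a.2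
    have h1 : ((a : ℕ) + 1) * K ≤ N := by omega
    have h2 := congrArg Fin.val hii
    rw [bl_val h1, bl_val h1] at h2
    exact Fin.ext (by omega)

variable {u : ι ⊕ Unit → ℕ} {m : ℕ} {ri : ℕ → ι} {xa : ℕ → ℕ → ℕ} {h0 : 0 < N}

/-- structures with the symmetric relation satisfy the constraints -/
theorem sy_valid (hp : Par3 K N A M ar0 u) (𝔸 : Str ι ar0 B) {Ω : Type} {Q : Set (Fin K → Ω)}
    {φ : (Fin K → Ω) → B} (hV : (GS hp 𝔸).Valid Q φ) (p : (GS hp 𝔸).J) (g : Fin N → Ω)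
    (hg : ∀ s ∈ (GS hp 𝔸).edges p, g ∘ s ∈ sy Q) :
    (fun a => φ (g ∘ (GS hp 𝔸).blk p a)) ∈ (GS hp 𝔸).rel p := by
  classical
  obtain ⟨j, ch⟩ := p
  have h1 : ∀ s ∈ hedg K N (K * A) M (cj K A u j), ∃ π : Equiv.Perm (Fin K),
      (g ∘ (s ∘ ch s)) ∘ π ∈ Q := fun s hs => hg (s ∘ ch s) ⟨s, hs, rfl⟩
  choose π hπ using h1
  exact hV.2 (j, fun s => if hs : s ∈ hedg K N (K * A) M (cj K A u j) then ch s * π s hs else 1)
    g (by
      rintro t ⟨s, hs, rfl⟩
      have h2 := hπ s hs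
      simp only [dif_pos hs]
      exact h2)

/-- the relation of the instance -/
def QV (N A M : ℕ) (h : 0 < N) (u : ι ⊕ Unit → ℕ) (ar0 : ι → ℕ) (m : ℕ) (ri : ℕ → ι)
    (xa : ℕ → ℕ → ℕ) : Set (Fin K → Vx K N) :=
  {t | ∃ p, VP ar0 m ri p ∧ ∃ s ∈ hedg K N (K * A) M (cj K A u (typ ri p)),
    t = pc K N h xa p ∘ s}

theorem low_not_NE {T c : ℕ} (hK : 3 ≤ K) {s : Fin K → Fin N} (hs : Injective s)
    (hlow : ∀ i, (s i : ℕ) < T) : Finset.univ.image s ∉ NE K N T M c := by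
  classical
  intro hS
  obtain ⟨x, h1, r, h2, h3⟩ := mem_NE.1 hS
  have h4 : ∀ i, (s i : ℕ) = x := by
    intro i
    have h5 : s i ∈ Finset.univ.image s := Finset.mem_image_of_mem _ (Finset.mem_univ i)
    rw [h3, mem_st_low (by have := hlow i; omega)] at h5
    exact h5
  have h5 := hs (Fin.ext ((h4 ⟨0, by omega⟩).trans (h4 ⟨1, by omega⟩).symm))
  simp at h5

theorem overlap_low (hp : Par K N A ar0 u) {p p' : ℕ ⊕ (ℕ × ℕ)} (hv : VP ar0 m ri p)
    (hv' : VP ar0 m ri p') (hne : p ≠ p') {s s' : Fin K → Fin N}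
    (h : pc K N h0 xa p ∘ s = pc K N h0 xa p' ∘ s') : ∀ i, (s i : ℕ) < K * A := by
  have hN := hp.hN
  have hK := hp.hK
  have hpt : ∀ i, pc K N h0 xa p (s i) = pc K N h0 xa p' (s' i) := fun i => congrFun h i
  have hKA : 2 * K ≤ K * A := by
    rw [mul_comm]
    exact Nat.mul_le_mul_left K hp.hA
  intro i
  rcases p with c | ⟨c, l⟩ <;> rcases p' with c' | ⟨c', l'⟩
  · exfalso
    have := hpt i
    simp only [pc, Sum.inr.injEq, Sum.inl.injEq, Prod.mk.injEq] at this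
    exact hne (by rw [this.1])
  · have h1 := hp.blk_le hv'.2
    have h2 : Sum.inr (Sum.inl (c, s i)) = pc K N h0 xa (Sum.inr (c', l')) (s' i) := hpt i
    rcases pc_cases (h0 := h0) (xa := xa) c' l' (s' i) with ⟨hw, e⟩ | ⟨hw, hw2, e⟩ | ⟨hw, e⟩ <;>
      rw [e] at h2 <;>
      simp only [Sum.inl.injEq, Sum.inr.injEq, Prod.mk.injEq, reduceCtorEq] at h2
    rw [h2.2, blN_val (by omega) (by omega)]
    have h8 : (l' + 1) * K = l' * K + K := by ring
    omega
  · have h2 : pc K N h0 xa (Sum.inr (c, l)) (s i) = Sum.inr (Sum.inl (c', s' i)) := hpt i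
    rcases pc_cases (h0 := h0) (xa := xa) c l (s i) with ⟨hw, e⟩ | ⟨hw, hw2, e⟩ | ⟨hw, e⟩ <;>
      rw [e] at h2 <;>
      simp only [Sum.inl.injEq, Sum.inr.injEq, Prod.mk.injEq, reduceCtorEq] at h2
    omega
  · have h1 := hp.blk_le hv.2
    have h1' := hp.blk_le hv'.2
    have h2 := hpt i
    rcases pc_cases (h0 := h0) (xa := xa) c l (s i) with ⟨hw, e⟩ | ⟨hw, hw2, e⟩ | ⟨hw, e⟩ <;>
      rcases pc_cases (h0 := h0) (xa := xa) c' l' (s' i) with
        ⟨hw', e'⟩ | ⟨hw', hw2', e'⟩ | ⟨hw', e'⟩ <;>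
      rw [e, e'] at h2 <;>
      simp only [Sum.inl.injEq, Sum.inr.injEq, Prod.mk.injEq, Fin.mk.injEq,
        reduceCtorEq] at h2
    · omega
    · omega
    · exfalso
      exact hne (by rw [h2.1.1, h2.1.2])

/-- **The structure of a satisfiable instance is valid.** -/
theorem valid_QV (hp : Par3 K N A M ar0 u) (𝔸 : Str ι ar0 B) (hK0 : 0 < K) (a : ℕ → B)
    (ha : ∀ c < m, (fun l : Fin (ar0 (ri c)) => a (xa c l)) ∈ 𝔸 (ri c)) :
    (GS hp 𝔸).Valid (QV N A M h0 u ar0 m ri xa) (phiV hK0 xa a) := by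
  classical
  have hN := hp.par.hN
  have hK := hp.big.hK
  have hinj : ∀ t ∈ QV (K := K) N A M h0 u ar0 m ri xa, Injective t := by
    rintro t ⟨p, hv, s, hs, rfl⟩
    exact (pc_inj hp.par hv).comp hs.1.injective
  refine ⟨hinj, fun j g hg => ?_⟩
  have hginj : Injective g := (GS hp 𝔸).inj hinj hg
  obtain ⟨p, hv, hpw⟩ := clique (h0 := h0) (m := m) (ri := ri) (xa := xa) hp.par hginj (by
    intro a b
    obtain ⟨s, hs, ⟨i, hi⟩, ⟨i', hi'⟩⟩ := (GS hp 𝔸).irr j a b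
    obtain ⟨p, hv, s', -, h1⟩ := hg s hs
    refine ⟨p, hv, ⟨s' i, ?_⟩, ⟨s' i', ?_⟩⟩
    · have := congrFun h1 i
      simpa [hi] using this
    · have := congrFun h1 i'
      simpa [hi'] using this)
  choose g' hg' using hpw
  have hgg : g = pc K N h0 xa p ∘ g' := funext hg'
  obtain ⟨j, ch⟩ := j
  have hg'inj : Injective g' := by
    rw [hgg] at hginj
    exact Injective.of_comp hginj
  have himg : ∀ (s : Fin K → Fin N) (π : Equiv.Perm (Fin K)),
      Finset.univ.image (s ∘ π) = Finset.univ.image s := by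
    intro s π
    ext v
    simp only [Finset.mem_image, Finset.mem_univ, true_and, comp_apply]
    constructor
    · rintro ⟨i, hi⟩
      exact ⟨π i, hi⟩
    · rintro ⟨i, hi⟩
      exact ⟨π⁻¹ i, by simpa using hi⟩
  have hedge : ∀ S : Finset (Fin N), S.card = K → S ∉ NE K N (K * A) M (cj K A u j) →
      S.image g' ∉ NE K N (K * A) M (cj K A u (typ ri p)) := by
    intro S hS hSN
    have himgS : Finset.univ.image (S.orderEmbOfFin hS) = S := by
      ext v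
      have h1 : v ∈ Set.range (S.orderEmbOfFin hS) ↔ v ∈ S := by
        rw [Finset.range_orderEmbOfFin]
        exact Iff.rfl
      rw [← h1]
      simp
    let s : Fin K → Fin N := S.orderEmbOfFin hS
    have hs : s ∈ hedg K N (K * A) M (cj K A u j) :=
      ⟨(S.orderEmbOfFin hS).strictMono, by
        show Finset.univ.image (S.orderEmbOfFin hS) ∉ _
        rw [himgS]
        exact hSN⟩
    obtain ⟨p', hv', s', hs', h1⟩ := hg (s ∘ ch s) ⟨s, hs, rfl⟩
    rw [hgg] at h1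
    have h3 : S.image g' = Finset.univ.image ((g' ∘ s) ∘ ch s) := by
      rw [himg]
      show S.image g' = Finset.univ.image (g' ∘ (S.orderEmbOfFin hS))
      rw [← Finset.image_image, himgS]
    rw [h3]
    by_cases hpp : p = p'
    · subst hpp
      have h2 : (g' ∘ s) ∘ ch s = s' := by
        funext i
        exact pc_inj hp.par hv (congrFun h1 i)
      rw [h2]
      exact hs'.2
    · have h4 : Injective ((g' ∘ s) ∘ ch s) :=
        (hg'inj.comp hs.1.injective).comp (ch s).injective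
      exact low_not_NE hK h4 (overlap_low hp.par hv hv' hpp h1)
  obtain ⟨huu, hid⟩ := rigid hp.big (hp.cj_le j) (hp.cj_le _) hg'inj hedge
  have hj : j = typ ri p := hp.cj_inj huu
  subst hj
  have hblk : ∀ (b : ℕ) (i : Fin K), (b + 1) * K ≤ K * A → g (bl K N b i h0) =
      pc K N h0 xa p (bl K N b i h0) := by
    intro b i hb
    rw [hgg, comp_apply, hid]
    rw [bl_val (by omega)]
    have h8 : (b + 1) * K = b * K + K := by ring
    have := i.2
    omega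
  clear hgg
  rcases p with c | ⟨c, l⟩
  · have h1 := ha c hv
    show (fun b : Fin (ar0 (ri c)) => phiV hK0 xa a (g ∘ fun i => bl K N b i h0)) ∈ 𝔸 (ri c)
    convert h1 using 1
    funext b
    have h3 := hp.par.blk_le b.2
    have h4 : g (bl K N b ⟨0, hK0⟩ h0) = Sum.inr (Sum.inl (c, bl K N b ⟨0, hK0⟩ h0)) :=
      hblk b ⟨0, hK0⟩ h3
    simp only [phiV, comp_apply]
    rw [h4]
    simp only
    rw [bl_val (by omega)]
    congr 2
    show ((b : ℕ) * K + 0) / K = b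
    rw [add_zero, Nat.mul_div_cancel _ hK0]
  · have h1 := hp.par.blk_le hv.2
    have hKA : 2 * K ≤ K * A := by
      rw [mul_comm]
      exact Nat.mul_le_mul_left K hp.par.hA
    show phiV hK0 xa a (g ∘ fun i => bl K N ((0 : Fin 2) : ℕ) i h0) =
      phiV hK0 xa a (g ∘ fun i => bl K N ((1 : Fin 2) : ℕ) i h0)
    have e0 : (bl K N ((0 : Fin 2) : ℕ) ⟨0, hK0⟩ h0 : ℕ) = 0 := by
      rw [bl_val (by simp; omega)]
      simp
    have e1 : (bl K N ((1 : Fin 2) : ℕ) ⟨0, hK0⟩ h0 : ℕ) = K := by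
      rw [bl_val (by simp; omega)]
      simp
    have g0 := hblk ((0 : Fin 2) : ℕ) ⟨0, hK0⟩ (by simp; omega)
    have g1 := hblk ((1 : Fin 2) : ℕ) ⟨0, hK0⟩ (by simp; omega)
    have f0 : pc K N h0 xa (Sum.inr (c, l)) (bl K N ((0 : Fin 2) : ℕ) ⟨0, hK0⟩ h0) =
        Sum.inl (xa c l, ⟨0, hK0⟩) := by
      simp only [pc, e0]
      rw [dif_pos hK0]
    have f1 : pc K N h0 xa (Sum.inr (c, l)) (bl K N ((1 : Fin 2) : ℕ) ⟨0, hK0⟩ h0) =
        Sum.inr (Sum.inl (c, blN K N h0 l 0)) := by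
      simp only [pc, e1]
      rw [dif_neg (lt_irrefl _), if_pos (by omega), Nat.sub_self]
    simp only [phiV, comp_apply]
    rw [g0, g1, f0, f1]
    simp only
    rw [blN_val hK0 (by omega), add_zero, Nat.mul_div_cancel _ hK0]

end

end Pool.Agent.P8H87.V3
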