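import Mathlib
import Pool.Agent.P8H87.V3Red

/-!
# Correctness of the reduction on instances, for arbitrary tables
-/

namespace Pool.Agent.P8H87.V3

open Function Pool.Agent.W994.AR Pool.Agent.NPC Pool.Agent.P8H87

section

variable {K N A n : ℕ} {B : Type} {ar0 : Fin n → ℕ} {u : Fin n ⊕ Unit → ℕ}

/-- a set of tuples as a list -/
noncomputable def setL (E : Set (Fin K → Fin N)) : List (List ℕ) := by
  classical
  exact (Set.toFinite E).toFinset.toList.map (fun s => List.ofFn (fun i => (s i : ℕ)))

theorem mem_setL {E : Set (Fin K → Fin N)} {L : List ℕ} :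
    L ∈ setL E ↔ ∃ s ∈ E, L = List.ofFn (fun i => (s i : ℕ)) := by
  classical
  unfold setL
  simp only [List.mem_map, Finset.mem_toList, Set.Finite.mem_toFinset]
  constructor
  · rintro ⟨s, hs, rfl⟩
    exact ⟨s, hs, rfl⟩
  · rintro ⟨s, hs, rfl⟩
    exact ⟨s, hs, rfl⟩

/-- the relation of the instance -/
def QVg (N : ℕ) (h : 0 < N) (E : Fin n ⊕ Unit → Set (Fin K → Fin N)) (ar0 : Fin n → ℕ) (m : ℕ)
    (ri : ℕ → Fin n) (xa : ℕ → ℕ → ℕ) : Set (Fin K → Vx K N) :=
  {t | ∃ p, VP ar0 m ri p ∧ ∃ s ∈ E (typ ri p), t = pc K N h xa p ∘ s}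

variable {ri : ℕ → Fin n} {xa : ℕ → ℕ → ℕ} {h0 : 0 < N}

theorem mem_outL (hp : Par K N A ar0 u) (E : Fin n ⊕ Unit → Set (Fin K → Fin N)) {nv : ℕ} {I : List (ℕ × List ℕ)}
    (h1 : ∀ c p, I[c]? = some p →
      p = ((ri c : ℕ), List.ofFn (fun l : Fin (ar0 (ri c)) => xa c l))) {i : ℕ} {L : List ℕ} :
    (i, L) ∈ outL K N A (List.ofFn fun i => setL (E (Sum.inl i))) (setL (E (Sum.inr ())))
      nv I ↔ i = 0 ∧ ∃ p, VP ar0 I.length ri p ∧ ∃ s ∈ E (typ ri p),
        L = List.ofFn (fun i => num K N A nv I.length (pc K N h0 xa p (s i))) := by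
  unfold outL
  rw [List.mem_flatMap]
  constructor
  · rintro ⟨⟨p, c⟩, hp1, hp2⟩
    rw [List.mem_zipIdx_iff_getElem?] at hp1
    simp only at hp1
    have hc : c < I.length := by
      rw [List.getElem?_eq_some_iff] at hp1
      exact hp1.1
    have hpe := h1 c p hp1
    rw [List.mem_append] at hp2
    rcases hp2 with hp2 | hp2
    · have h3 : ((List.ofFn fun i => setL (E (Sum.inl i)))[p.1]?).getD [] =
          setL (E (Sum.inl (ri c))) := by
        rw [hpe]
        simp
      simp only [h3] at hp2
      rw [List.mem_map] at hp2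
      obtain ⟨L0, hL0, hL⟩ := hp2
      obtain ⟨s, hs, rfl⟩ := mem_setL.1 hL0
      simp only [Prod.mk.injEq] at hL
      refine ⟨hL.1.symm, Sum.inl c, hc, s, hs, ?_⟩
      rw [← hL.2, List.map_ofFn]
      rfl
    · simp only [hpe, List.mem_flatMap] at hp2
      obtain ⟨⟨x, l⟩, hx, hp2⟩ := hp2
      rw [List.mem_zipIdx_iff_getElem?] at hx
      simp only at hx
      rw [ofFn_getElem?] at hx
      obtain ⟨l', hl', hx'⟩ := hx
      rw [List.mem_map] at hp2
      obtain ⟨L0, hL0, hL⟩ := hp2
      obtain ⟨s, hs, rfl⟩ := mem_setL.1 hL0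
      simp only [Prod.mk.injEq] at hL
      refine ⟨hL.1.symm, Sum.inr (c, l), ⟨hc, by rw [hl']; exact l'.2⟩, s, hs, ?_⟩
      rw [← hL.2, List.map_ofFn]
      congr 1
      funext i
      simp only [comp_apply]
      rw [hx', ← hl']
      exact num2_eq hp (by rw [hl']; exact l'.2) (s i)
  · rintro ⟨rfl, p, hv, s, hs, rfl⟩
    rcases p with c | ⟨c, l⟩
    · have hc : c < I.length := hv
      have h3 := h1 c _ (List.getElem?_eq_getElem hc)
      refine ⟨(I[c], c), ?_, ?_⟩
      · rw [List.mem_zipIdx_iff_getElem?]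
        exact List.getElem?_eq_getElem hc
      · rw [List.mem_append]
        left
        have h4 : ((List.ofFn fun i => setL (E (Sum.inl i)))[(I[c]).1]?).getD [] =
            setL (E (Sum.inl (ri c))) := by
          rw [h3]
          simp
        simp only [h4]
        rw [List.mem_map]
        refine ⟨_, mem_setL.2 ⟨s, hs, rfl⟩, ?_⟩
        simp only [Prod.mk.injEq, true_and]
        rw [List.map_ofFn]
        rfl
    · have hc : c < I.length := hv.1
      have h3 := h1 c _ (List.getElem?_eq_getElem hc)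
      refine ⟨(I[c], c), ?_, ?_⟩
      · rw [List.mem_zipIdx_iff_getElem?]
        exact List.getElem?_eq_getElem hc
      · rw [List.mem_append]
        right
        simp only [h3, List.mem_flatMap]
        refine ⟨(xa c l, l), ?_, ?_⟩
        · rw [List.mem_zipIdx_iff_getElem?]
          simp only
          rw [ofFn_getElem?]
          exact ⟨⟨l, hv.2⟩, rfl, rfl⟩
        · rw [List.mem_map]
          refine ⟨_, mem_setL.2 ⟨s, hs, rfl⟩, ?_⟩
          simp only [Prod.mk.injEq, true_and]
          rw [List.map_ofFn]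
          congr 1
          funext i
          simp only [comp_apply]
          exact num2_eq hp hv.2 (s i)

/-- **Correctness of the reduction.** -/
theorem redF_general [Nonempty B] (hp : Par K N A ar0 u) (𝔸 : Str (Fin n) ar0 B) {Ω : Type}
    [Nonempty Ω] {Q : Set (Fin K → Ω)} (E : Fin n ⊕ Unit → Set (Fin K → Fin N))
    (hred0 : ∀ (m : ℕ) (ri : ℕ → Fin n) (xa : ℕ → ℕ → ℕ) (h0 : 0 < N),
      (∃ a : ℕ → B, ∀ c < m, (fun l : Fin (ar0 (ri c)) => a (xa c l)) ∈ 𝔸 (ri c)) ↔
        ∃ h : Vx K N → Ω, ∀ t ∈ QVg N h0 E ar0 m ri xa, h ∘ t ∈ Q) {r : ℕ} {arD : Fin (r + 1) → ℕ} (𝔻 : Str (Fin (r + 1)) arD Ω)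
    (hK0 : K = arD 0) (hQ : ∀ v, v ∈ 𝔻 0 ↔ v ∘ Fin.cast hK0 ∈ Q) (I : Inst) :
    CSP 𝔸 I ↔ CSP 𝔻 (redF K N A (List.ofFn ar0) (List.ofFn fun i => setL (E (Sum.inl i)))
      (setL (E (Sum.inr ()))) I) := by
  classical
  have hN := hp.hN
  have hK := hp.hK
  by_cases hI : IsInst ar0 I
  swap
  · -- invalid instances
    have h1 : okB (List.ofFn ar0) I = false := by
      rw [← Bool.not_eq_true, okB_iff]
      exact hI
    constructor
    · intro h
      exact absurd h.1 hI
    · intro h
      exfalso
      unfold redF at h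
      rw [h1] at h
      obtain ⟨i, h2, h3, -⟩ := h.1 (0, []) (by simp)
      have h4 : i = 0 := Fin.ext h2.symm
      subst h4
      simp only [List.length_nil] at h3
      omega
  have h1 : okB (List.ofFn ar0) I = true := (okB_iff I).2 hI
  have hred : redF K N A (List.ofFn ar0) (List.ofFn fun i => setL (E (Sum.inl i)))
      (setL (E (Sum.inr ()))) I = (I.1.flatMap (fun _ => List.replicate K ()) ++
        I.2.flatMap (fun _ => List.replicate N ()) ++
      I.2.flatMap (fun _ => List.replicate (A * N) ()), outL K N A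
        (List.ofFn fun i => setL (E (Sum.inl i))) (setL (E (Sum.inr ()))) I.1.length I.2) := by
    unfold redF
    rw [h1]
    rfl
  rw [hred]
  rcases Nat.eq_zero_or_pos n with hn | hn
  · -- no relations
    subst hn
    have hI2 : I.2 = [] := by
      rw [List.eq_nil_iff_forall_not_mem]
      intro p hp'
      obtain ⟨i, -⟩ := hI p hp'
      exact i.elim0
    constructor
    · intro _
      rw [hI2]
      refine ⟨?_, fun _ => Classical.arbitrary Ω, ?_⟩
      · intro p hp'
        simp [outL] at hp'
      · intro i v hv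
        simp [outL] at hv
    · intro _
      refine ⟨hI, fun _ => Classical.arbitrary B, ?_⟩
      intro i
      exact i.elim0
  obtain ⟨ri, xa, h2, h3⟩ := valid_data hn hI
  rw [csp_iff hn 𝔸 hI h2 h3]
  have hN0 : 0 < N := by omega
  rw [hred0 _ _ _ hN0]
  set nv := I.1.length with hnv
  set m := I.2.length with hm
  have hlen : (I.1.flatMap (fun _ => List.replicate K ()) ++
        I.2.flatMap (fun _ => List.replicate N ()) ++
      I.2.flatMap (fun _ => List.replicate (A * N) ())).length = nv * K + m * N + m * (A * N) := by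
    rw [List.length_append, List.length_append, length_flatMap_const, length_flatMap_const,
      length_flatMap_const, List.length_replicate, List.length_replicate, List.length_replicate]
  have hA0 : 0 < A := by have := hp.hA; omega
  constructor
  · rintro ⟨h, hh⟩
    refine ⟨?_, fun y => h (decV K N A nv m (by omega) hN0 y), ?_⟩
    · rintro ⟨i, L⟩ hiL
      obtain ⟨hi, p, hv, s, hs, rfl⟩ := (mem_outL (h0 := hN0) hp E h2).1 hiL
      refine ⟨0, hi, ?_, ?_⟩
      · rw [List.length_ofFn]
        exact hK0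
      · intro a ha
        rw [List.mem_ofFn] at ha
        obtain ⟨j, rfl⟩ := ha
        show _ < (_ : List Unit).length
        rw [hlen]
        exact num_lt (by omega) hN0 _ (pc_rel hp h3 hv _)
    · intro i v hv
      obtain ⟨hi, p, hvp, s, hs, hL⟩ := (mem_outL (h0 := hN0) hp E h2).1 hv
      have hi0 : i = 0 := Fin.ext hi
      subst hi0
      rw [hQ]
      have h4 := hh (pc K N hN0 xa p ∘ s) ⟨p, hvp, s, hs, rfl⟩
      convert h4 using 1
      funext j
      simp only [comp_apply]
      congr 1
      have h5 : ((v (Fin.cast hK0 j) : ℕ)) = num K N A nv m (pc K N hN0 xa p (s j)) := by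
        have h6 := congrArg (fun l : List ℕ => l[(j : ℕ)]?) hL
        simp only [List.getElem?_ofFn] at h6
        rw [dif_pos (by have := j.2; omega), dif_pos j.2] at h6
        exact Option.some.inj h6
      rw [h5]
      exact decV_num (by omega) hN0 hA0 _ (pc_rel hp h3 hvp _)
  · rintro ⟨hI', h, hh⟩
    let h' : Vx K N → Ω := fun v =>
      if hv : num K N A nv m v < (I.1.flatMap (fun _ => List.replicate K ()) ++
        I.2.flatMap (fun _ => List.replicate N ()) ++
        I.2.flatMap (fun _ => List.replicate (A * N) ())).length then h ⟨num K N A nv m v, hv⟩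
      else Classical.arbitrary Ω
    refine ⟨h', ?_⟩
    rintro t ⟨p, hvp, s, hs, rfl⟩
    have h4 : ∀ j, num K N A nv m (pc K N hN0 xa p (s j)) <
        (I.1.flatMap (fun _ => List.replicate K ()) ++
        I.2.flatMap (fun _ => List.replicate N ()) ++
        I.2.flatMap (fun _ => List.replicate (A * N) ())).length := by
      intro j
      rw [hlen]
      exact num_lt (by omega) hN0 _ (pc_rel hp h3 hvp _)
    have h5 := hh 0 (fun j => ⟨_, h4 (Fin.cast hK0.symm j)⟩) (by
      rw [mem_outL (h0 := hN0) hp E h2]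
      refine ⟨rfl, p, hvp, s, hs, ?_⟩
      apply List.ext_getElem
      · rw [List.length_ofFn, List.length_ofFn]
        exact hK0.symm
      · intro a h6 h7
        rw [List.getElem_ofFn, List.getElem_ofFn]
        rfl)
    rw [hQ] at h5
    convert h5 using 1
    funext j
    simp only [comp_apply, h']
    rw [dif_pos (h4 j)]
    rfl

end

end Pool.Agent.P8H87.V3
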