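import Mathlib
import Pool.Agent.P8H87.BPStmt

/-!
# Hypergraph templates: statements
-/

namespace Pool.Agent.P8H87.V3

open Pool.Agent.W994.AR Pool.Agent.NPC Pool.Agent.P8H87

/-- The relation `R`, of arity `m`, is (the edge relation of) an `m`-uniform hypergraph: the
entries of each tuple in `R` are pairwise distinct, and `R` is invariant under all permutations of
the coordinates. -/
def Uniform {B : Type} {m : ℕ} (R : Set (Fin m → B)) : Prop :=
  ∀ t ∈ R, Function.Injective t ∧ ∀ π : Equiv.Perm (Fin m), t ∘ π ∈ R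

/-- The Bodirsky-Pinsker conjecture restricted to the templates which are `(k + 1)`-uniform
hypergraphs such that every satisfiable instance has an injective solution, where `𝔹` is moreover
`k`-transitive and without algebraicity. -/
def BodirskyPinskerHypergraph (k : ℕ) : Prop :=
  ∀ (B σ : Type) [Countable B] [Nonempty B] [Finite σ] (ar : σ → ℕ) (𝔹 : Str σ ar B),
    Homogeneous 𝔹 → FinitelyBounded 𝔹 → Transitive 𝔹 k → NoAlgebraicity 𝔹 →
      ∀ r : σ, ar r = k + 1 → Uniform (𝔹 r) → InjectiveSolutions (fun _ : Fin 1 => 𝔹 r) →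
        ¬ PPConstructsK3 (fun _ : Fin 1 => 𝔹 r) → InPP (CSP (fun _ : Fin 1 => 𝔹 r))

end Pool.Agent.P8H87.V3
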