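import Mathlib
import Pool.Agent.P8H87.V3Cor
import Pool.Agent.P8H87.V3Stmt
import Pool.Agent.P8H87.V2Main

/-!
# The construction for uniform hypergraphs
-/

namespace Pool.Agent.P8H87.V3

open Function Pool.Agent.W994.AR Pool.Agent.NPC Pool.Agent.P8H87

section

variable {K N A M : ℕ} {B : Type} {ι : Type} {ar0 : ι → ℕ}
variable {u : ι ⊕ Unit → ℕ} {m : ℕ} {ri : ℕ → ι} {xa : ℕ → ℕ → ℕ} {h0 : 0 < N}

theorem red_back (hp : Par3 K N A M ar0 u) (𝔸 : Str ι ar0 B) {Ω : Type}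
    {Qp : Set (Fin K → Ω)} {φ : (Fin K → Ω) → B}
    (hQp : ∀ (j : (GS hp 𝔸).J) (g : Fin N → Ω), (∀ s ∈ (GS hp 𝔸).edges j, g ∘ s ∈ Qp) →
      (fun a => φ (g ∘ (GS hp 𝔸).blk j a)) ∈ (GS hp 𝔸).rel j) :
    (∃ h : Vx K N → Ω, ∀ t ∈ QV (K := K) N A M h0 u ar0 m ri xa, h ∘ t ∈ Qp) →
    (∃ a : ℕ → B, ∀ c < m, (fun l : Fin (ar0 (ri c)) => a (xa c l)) ∈ 𝔸 (ri c)) := by
  have hN := hp.par.hN
  have hK := hp.big.hK
  have hK0 : 0 < K := by omega
  rintro ⟨h, hh⟩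
  refine ⟨fun x => φ (h ∘ fun i => Sum.inl (x, i)), fun c hc => ?_⟩
  have h1 : (fun b : Fin (ar0 (ri c)) =>
      φ ((h ∘ pc K N h0 xa (Sum.inl c)) ∘ (GS hp 𝔸).blk (Sum.inl (ri c), 1) b)) ∈ 𝔸 (ri c) :=
    hQp (Sum.inl (ri c), 1) (h ∘ pc K N h0 xa (Sum.inl c)) (by
      rintro _ ⟨s, hs, rfl⟩
      exact hh (pc K N h0 xa (Sum.inl c) ∘ s) ⟨Sum.inl c, hc, s, hs, rfl⟩)
  suffices h5 : (fun l : Fin (ar0 (ri c)) => φ (h ∘ fun i => Sum.inl (xa c l, i))) =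
      (fun b : Fin (ar0 (ri c)) =>
        φ ((h ∘ pc K N h0 xa (Sum.inl c)) ∘ (GS hp 𝔸).blk (Sum.inl (ri c), 1) b)) by
    show (fun l : Fin (ar0 (ri c)) => φ (h ∘ fun i => Sum.inl (xa c l, i))) ∈ 𝔸 (ri c)
    rw [h5]
    exact h1
  funext l
  have h2 : φ ((h ∘ pc K N h0 xa (Sum.inr (c, (l : ℕ)))) ∘ (GS hp 𝔸).blk (Sum.inr (), 1) (0 : Fin 2)) =
      φ ((h ∘ pc K N h0 xa (Sum.inr (c, (l : ℕ)))) ∘ (GS hp 𝔸).blk (Sum.inr (), 1) (1 : Fin 2)) :=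
    hQp (Sum.inr (), 1) (h ∘ pc K N h0 xa (Sum.inr (c, (l : ℕ)))) (by
      rintro _ ⟨s, hs, rfl⟩
      exact hh (pc K N h0 xa (Sum.inr (c, (l : ℕ))) ∘ s)
        ⟨Sum.inr (c, (l : ℕ)), ⟨hc, l.2⟩, s, hs, rfl⟩)
  have hKA : 2 * K ≤ K * A := by
    rw [mul_comm]
    exact Nat.mul_le_mul_left K hp.par.hA
  have h3 := hp.par.blk_le l.2
  have e1 : (h ∘ pc K N h0 xa (Sum.inr (c, (l : ℕ)))) ∘ (GS hp 𝔸).blk (Sum.inr (), 1) (0 : Fin 2) =
      h ∘ fun i => Sum.inl (xa c l, i) := by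
    funext i
    simp only [comp_apply]
    congr 1
    have e0 : ((GS hp 𝔸).blk (Sum.inr (), 1) (0 : Fin 2) i : ℕ) = i := by
      show (bl K N ((0 : Fin 2) : ℕ) i h0 : ℕ) = i
      rw [bl_val (by simp; omega)]
      simp
    have hi := i.2
    simp only [pc, e0]
    rw [dif_pos hi]
  have e2 : (h ∘ pc K N h0 xa (Sum.inr (c, (l : ℕ)))) ∘ (GS hp 𝔸).blk (Sum.inr (), 1) (1 : Fin 2) =
      (h ∘ pc K N h0 xa (Sum.inl c)) ∘ (GS hp 𝔸).blk (Sum.inl (ri c), 1) l := by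
    funext i
    simp only [comp_apply]
    congr 1
    have hi := i.2
    have e0 : ((GS hp 𝔸).blk (Sum.inr (), 1) (1 : Fin 2) i : ℕ) = K + i := by
      show (bl K N ((1 : Fin 2) : ℕ) i h0 : ℕ) = _
      rw [bl_val (by simp; omega)]
      simp
    have e3 : ((GS hp 𝔸).blk (Sum.inl (ri c), 1) l i : ℕ) = l * K + i := by
      show (bl K N (l : ℕ) i h0 : ℕ) = _
      rw [bl_val (by omega)]
    simp only [pc, e0]
    rw [dif_neg (by omega), if_pos (by omega)]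
    congr 3
    apply Fin.ext
    rw [e3, blN_val (by omega) (by omega)]
    omega
  rw [e1, e2] at h2
  exact h2

theorem red_iff (hp : Par3 K N A M ar0 u) (𝔸 : Str ι ar0 B) {Ω : Type} [Nonempty Ω]
    {Q Qp : Set (Fin K → Ω)} {φ : (Fin K → Ω) → B}
    (hE : (GS hp 𝔸).Ext Q φ) (hQQ : Q ⊆ Qp)
    (hQp : ∀ (j : (GS hp 𝔸).J) (g : Fin N → Ω), (∀ s ∈ (GS hp 𝔸).edges j, g ∘ s ∈ Qp) →
      (fun a => φ (g ∘ (GS hp 𝔸).blk j a)) ∈ (GS hp 𝔸).rel j) :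
    (∃ a : ℕ → B, ∀ c < m, (fun l : Fin (ar0 (ri c)) => a (xa c l)) ∈ 𝔸 (ri c)) ↔
      ∃ h : Vx K N → Ω, ∀ t ∈ QV (K := K) N A M h0 u ar0 m ri xa, h ∘ t ∈ Qp := by
  have hN := hp.par.hN
  have hK := hp.big.hK
  have hK0 : 0 < K := by omega
  constructor
  · rintro ⟨a, ha⟩
    have hval := valid_QV (h0 := h0) hp 𝔸 hK0 a ha
    let F : Set (Vx K N) := ⋃ p ∈ {p | VP ar0 m ri p}, Set.range (pc K N h0 xa p)
    have hF : F.Finite := by
      refine Set.Finite.biUnion ?_ (fun p _ => Set.finite_range _)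
      have h1 : {p : ℕ ⊕ (ℕ × ℕ) | VP ar0 m ri p} ⊆
          (Sum.inl '' Set.Iio m) ∪ (Sum.inr '' (Set.Iio m ×ˢ Set.Iio A)) := by
        rintro (c | ⟨c, l⟩) hv
        · exact Or.inl ⟨c, hv, rfl⟩
        · exact Or.inr ⟨(c, l), ⟨hv.1, lt_of_lt_of_le hv.2 (hp.par.har _)⟩, rfl⟩
      exact (((Set.finite_Iio m).image _).union
        (((Set.finite_Iio m).prod (Set.finite_Iio A)).image _)).subset h1
    obtain ⟨ε, hε, -⟩ := hE.many hval Set.finite_empty (e := fun _ => Classical.arbitrary Ω)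
      ⟨fun x hx => hx.elim, fun t ht => (ht ⟨0, hK0⟩).elim⟩ hF
    rw [Set.empty_union] at hε
    refine ⟨ε, fun t ht => hQQ ?_⟩
    refine (hε.2 t ?_).1.1 ht
    obtain ⟨p, hv, s, -, rfl⟩ := ht
    intro i
    exact Set.mem_biUnion (x := p) hv ⟨s i, rfl⟩
  · exact red_back hp 𝔸 hQp

end

/-- **The construction.** -/
theorem construction {B σ : Type} [Countable B] [Nonempty B] [Finite σ] {ar : σ → ℕ}
    (𝔹 : Str σ ar B) (hH : Homogeneous 𝔹) (hF : FinitelyBounded 𝔹) {n : ℕ} (f : Fin n → σ)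
    (k : ℕ) (hk : 2 ≤ k) :
    ∃ (Ω : Type) (_ : Countable Ω) (_ : Nonempty Ω) (σ' : Type) (_ : Finite σ') (ar' : σ' → ℕ)
      (𝔻 : Str σ' ar' Ω) (r : σ'), Homogeneous 𝔻 ∧ FinitelyBounded 𝔻 ∧
      (∀ F : Finset Ω, F.card ≤ k → ∀ h : Ω → Ω, Set.InjOn h F →
        ∃ g ∈ autGroup 𝔻, ∀ x ∈ F, g x = h x) ∧
      (∀ F : Finset Ω, ∀ x, x ∉ F →
        {y | ∃ g ∈ autGroup 𝔻, (∀ a ∈ F, g a = a) ∧ g x = y}.Infinite) ∧
      ar' r = k + 1 ∧
      Uniform (𝔻 r) ∧ InjectiveSolutions (fun _ : Fin 1 => 𝔻 r) ∧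
      (PPConstructsK3 (fun _ : Fin 1 => 𝔻 r) → PPConstructsK3 (fun i => 𝔹 (f i))) ∧
      (InPP (CSP (fun _ : Fin 1 => 𝔻 r)) → InPP (CSP (fun i => 𝔹 (f i)))) := by
  classical
  have := Fintype.ofFinite σ
  -- parameters
  let K : ℕ := k + 1
  let A : ℕ := max 2 (Finset.univ.sup ar)
  let cd : Fin n ⊕ Unit → ℕ := Sum.elim (fun i => (i : ℕ)) (fun _ => n)
  have hcd : Injective cd := by
    rintro (i | _) (j | _) h
    · simp only [cd, Sum.elim_inl] at h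
      rw [Fin.ext h]
    · simp only [cd, Sum.elim_inl, Sum.elim_inr] at h
      have := i.2
      omega
    · simp only [cd, Sum.elim_inl, Sum.elim_inr] at h
      have := j.2
      omega
    · rfl
  have hcdle : ∀ j, cd j ≤ n := by
    rintro (i | _)
    · exact i.2.le
    · exact le_rfl
  let u : Fin n ⊕ Unit → ℕ := fun j => K * A + cd j
  let N : ℕ := K * A + n + K + 2 + (K * A + 2 + (K * A + 2) * DD (K * A) n * (K - 1))
  have hp0 : Par K N A (fun i => ar (f i)) u :=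
    { hK := by show 2 ≤ k + 1; omega
      hA := le_max_left _ _
      har := fun i => (Finset.le_sup (f := ar) (Finset.mem_univ (f i))).trans (le_max_right _ _)
      inj := by
        intro a b h
        apply hcd
        have : K * A + cd a = K * A + cd b := h
        omega
      lo := fun j => Nat.le_add_right _ _
      hi := by
        intro j
        have := hcdle j
        show K * A + cd j + K + 2 ≤ K * A + n + K + 2 + _
        omega }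
  have hp : Par3 K N A n (fun i => ar (f i)) u :=
    { par := hp0
      big := { hK := by show 3 ≤ k + 1; omega
               hN := Nat.le_add_left _ _ }
      hM := fun j => Nat.add_le_add_left (hcdle j) _ }
  let 𝔸 : Str (Fin n) (fun i => ar (f i)) B := fun i => 𝔹 (f i)
  let G : Gad K N B := GS hp 𝔸
  have hN1 : 1 ≤ N := by show 1 ≤ K * A + n + K + 2 + _; omega
  obtain ⟨Ω, hΩ1, hΩ2, Q, φ, hV, hE⟩ := exists_generic G hN1
  let 𝔹e : Str (σ ⊕ Unit) (Sum.elim ar (fun _ => 2)) B := expand 𝔹 (eqRel B)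
  have hHe : Homogeneous 𝔹e := homogeneous_expand hH (eqRel B) (eqRel_invar 𝔹)
  have hFe : FinitelyBounded 𝔹e := finitelyBounded_expand hH hF (eqRel B) (eqRel_invar 𝔹)
  have heq : ∃ s : σ ⊕ Unit, (∃ a b : Fin (Sum.elim ar (fun _ => 2) s), a ≠ b) ∧
      ∀ v, v ∈ 𝔹e s ↔ ∀ a b, v a = v b := by
    refine ⟨Sum.inr (), ⟨(0 : Fin 2), (1 : Fin 2), fun h => ?_⟩, ?_⟩
    · have : (0 : Fin 2) = 1 := h
      exact absurd this (by decide)
    intro v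
    constructor
    · intro (h : v (0 : Fin 2) = v (1 : Fin 2)) (a : Fin 2) (b : Fin 2)
      fin_cases a <;> fin_cases b
      · rfl
      · exact h
      · exact h.symm
      · rfl
    · intro h
      exact h (0 : Fin 2) (1 : Fin 2)
  have hinv : ∀ j : G.J, Invar (autGroup 𝔹e) (G.rel j) := by
    rintro ⟨i | _, ch⟩
    · intro g hg v hv
      exact (expand_mem_aut hg (f i) v).1 hv
    · intro g hg v hv
      have : v (0 : Fin 2) = v (1 : Fin 2) := hv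
      show g (v (0 : Fin 2)) = g (v (1 : Fin 2))
      rw [this]
  let sym : G.J → σ ⊕ Unit := fun j => Sum.elim (fun i => Sum.inl (f i)) (fun _ => Sum.inr ()) j.1
  have har : ∀ j, Sum.elim ar (fun _ => 2) (sym j) = G.ar j := by
    rintro ⟨i | _, ch⟩ <;> rfl
  have hrel : ∀ j (w : Fin (G.ar j) → B), w ∈ G.rel j ↔ (w ∘ Fin.cast (har j)) ∈ 𝔹e (sym j) := by
    rintro ⟨i | _, ch⟩ w
    · exact Iff.rfl
    · exact Iff.rfl
  have hK1 : 1 ≤ K := by show 1 ≤ k + 1; omega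
  let Qp : Set (Fin K → Ω) := sy Q
  have hQQ : Q ⊆ Qp := sub_sy Q
  have hQp : ∀ (j : G.J) (g : Fin N → Ω), (∀ s ∈ G.edges j, g ∘ s ∈ Qp) →
      (fun a => φ (g ∘ G.blk j a)) ∈ G.rel j := fun j g hg => sy_valid hp 𝔸 hV j g hg
  let 𝔻0 : Str (Option (σ ⊕ Unit)) (bigAr K (Sum.elim ar (fun _ => 2))) Ω := big 𝔹e Q φ
  have hinvQ : ∀ j : Unit, Invar (autGroup 𝔻0) ((fun _ : Unit => Qp) j) := by
    intro _ g hg v hv
    obtain ⟨π, hπ⟩ := hv
    exact ⟨π, (hg none _).1 hπ⟩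
  have hH0 : Homogeneous 𝔻0 := homogeneous_big hHe hV hE hinv heq
  have hF0 : FinitelyBounded 𝔻0 := finitelyBounded_big hFe hV hE hK1 sym har hrel heq
  have hautE : ∀ g ∈ autGroup 𝔻0, g ∈ autGroup (expand (k := fun _ : Unit => K) 𝔻0
      (fun _ : Unit => Qp)) := fun g hg => V2.mem_aut_expand hinvQ hg
  refine ⟨Ω, hΩ1, hΩ2, Option (σ ⊕ Unit) ⊕ Unit, inferInstance,
    Sum.elim (bigAr K (Sum.elim ar (fun _ => 2))) (fun _ => K),
    expand (k := fun _ : Unit => K) 𝔻0 (fun _ : Unit => Qp), Sum.inr (),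
    homogeneous_expand hH0 _ hinvQ, finitelyBounded_expand hH0 hF0 _ hinvQ, ?_, ?_, rfl, ?_, ?_, ?_, ?_⟩
  · intro F hF h hh
    obtain ⟨g, hg, hg2⟩ := transitive_big hV hE hinv F h (Nat.lt_succ_of_le hF) hh
    exact ⟨g, hautE g hg, hg2⟩
  · intro F x hx
    refine (noAlg_big hV hE hinv F x hx).mono ?_
    rintro y ⟨g, hg, hg2⟩
    exact ⟨g, hautE g hg, hg2⟩
  · intro t ht
    exact ⟨sy_inj hV.1 ht, fun π => sy_perm ht π⟩
  · rintro I ⟨hI, h, hh⟩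
    obtain ⟨h', hi, hh'⟩ := csp_inj hV hE hK1 h
    refine ⟨h', ?_, hi⟩
    intro i v hv
    obtain ⟨π, hπ⟩ := hh i v hv
    exact ⟨π, hh' (v ∘ π) hπ⟩
  · intro h
    obtain ⟨nf⟩ := V2.exists_nf (Q := Q) (Qp := Qp) hQQ (fun I _ v w h1 h2 h3 => by
      exfalso
      apply h3
      intro a b hab
      exact sy_inj hV.1 (h1 (Classical.arbitrary I)) ((h2 a b).1 hab _)) (fun i => Or.inl ⟨rfl, fun v => Iff.rfl⟩) h
    have hfin : Finite G.J :=
      inferInstanceAs (Finite ((Fin n ⊕ Unit) × ((Fin K → Fin N) → Equiv.Perm (Fin K))))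
    refine V2.k3_descend hE hQp hK1 hN1 ?_ nf
    rintro ⟨i | _, ch⟩
    · exact PP.rel (𝔸 := 𝔸) i id
    · exact PP.eq (𝔸 := 𝔸) (0 : Fin 2) (1 : Fin 2)
  · intro h
    exact InPP.of_poly h (poly_redF K N A _ _ _) (fun I => redF_general hp0 𝔸
      (fun j => hedg K N (K * A) n (cj K A u j))
      (fun m ri xa h0 => red_iff (h0 := h0) (ri := ri) hp 𝔸 hE hQQ hQp)
      (r := 0) (arD := fun _ : Fin 1 => K)
      (fun _ : Fin 1 => Qp) rfl (fun v => Iff.rfl) I)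

end Pool.Agent.P8H87.V3
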