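import Pool.Agent.P8H87.PerLoc

/-!
# From local periods to global periods
-/

namespace Pool.Agent.P8H87

/-- the scaling factor: a multiple of all numbers up to `C` -/
def NN (C : ℕ) : ℕ := C.factorial

/-- a multiple of all determinants of vectors of size at most `C` -/
def MM (C : ℕ) : ℕ := (2 * C * C).factorial

/-- the small radius -/
def rr (C : ℕ) : ℕ := 4 * MM C * (NN C * C) * C * C

/-- the large radius -/
def RR (C : ℕ) : ℕ := rr C + C + 2 * (NN C * C) + MM C * (NN C * C)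

/-- the bound for the global period -/
def BB (C : ℕ) : ℕ := MM C * (NN C * C)

/-- the points at which all bounded local periods are parallel to `v` -/
def AA {α : Type*} (T : ℤ × ℤ → α) (C : ℕ) (v : ℤ × ℤ) : Set (ℤ × ℤ) :=
  {x | ∀ v', v' ≠ 0 → nm v' ≤ C → Loc T v' x (rr C) → dt v v' = 0}

theorem NN_pos (C : ℕ) : 1 ≤ NN C := Nat.factorial_pos C

theorem MM_pos (C : ℕ) : 1 ≤ MM C := Nat.factorial_pos _

section

variable {α : Type*} {T : ℤ × ℤ → α} {C : ℕ}

theorem nm_NN {v : ℤ × ℤ} (hv : nm v ≤ C) : nm ((NN C : ℤ) • v) ≤ NN C * C := by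
  rw [nm_smul, Nat.abs_cast]
  exact mul_le_mul_of_nonneg_left hv (Nat.cast_nonneg _)

theorem AA_loc (h : ∀ x, ∃ v : ℤ × ℤ, v ≠ 0 ∧ nm v ≤ C ∧ Loc T v x (RR C)) {v x : ℤ × ℤ}
    (hv : nm v ≤ C) (hx : x ∈ AA T C v) :
    Loc T ((NN C : ℤ) • v) x ((RR C : ℤ) - NN C * C) := by
  obtain ⟨v', h0, hC, hloc⟩ := h x
  have h1 : Loc T v' x (rr C) := by
    apply hloc.mono
    rw [sub_self]
    have : nm 0 = 0 := by simp [nm]
    rw [this]
    unfold RR
    push_cast
    have : (0 : ℤ) ≤ (MM C : ℤ) * (NN C * C) := by positivity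
    have : (0 : ℤ) ≤ (NN C : ℤ) * C := by positivity
    linarith
  have hp := hx v' h0 hC h1
  obtain ⟨k, hk⟩ := factorial_multiple h0 hC hp
  have h2 := hloc.zsmul k
  have h3 : (NN C : ℤ) • v = k • v' := hk
  rw [h3]
  apply h2.mono
  rw [sub_self]
  have : nm 0 = 0 := by simp [nm]
  rw [this]
  have h4 : |k| * nm v' ≤ NN C * C := by
    rw [← nm_smul, ← h3]
    exact nm_NN hv
  linarith

theorem AA_shift {u v x : ℤ × ℤ} (hx : x ∈ AA T C v) (hu : Loc T u x ((rr C : ℤ) + C)) :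
    x + u ∈ AA T C v := by
  intro v' h0 hC hloc
  apply hx v' h0 hC
  intro z hz
  have h1 : T (z + v' + u) = T (z + v') := by
    apply hu
    have : z + v' - x = (z - x) + v' := by abel
    rw [this]
    exact (nm_add _ _).trans (add_le_add hz hC)
  have h2 : T (z + u + v') = T (z + u) := by
    apply hloc
    have : z + u - (x + u) = z - x := by abel
    rw [this]
    exact hz
  have h3 : T (z + u) = T z := by
    apply hu
    have : (0 : ℤ) ≤ C := Nat.cast_nonneg _
    linarith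
  have h4 : z + v' + u = z + u + v' := by abel
  rw [← h1, h4, h2, h3]

theorem AA_line (h : ∀ x, ∃ v : ℤ × ℤ, v ≠ 0 ∧ nm v ≤ C ∧ Loc T v x (RR C)) {v x : ℤ × ℤ}
    (hv : nm v ≤ C) (hx : x ∈ AA T C v) (k : ℤ) : x + k • ((NN C : ℤ) • v) ∈ AA T C v := by
  have hN : (0 : ℤ) ≤ (NN C : ℤ) * C := by positivity
  have hM : (0 : ℤ) ≤ (MM C : ℤ) * (NN C * C) := by positivity
  have hup : ∀ y ∈ AA T C v, y + (NN C : ℤ) • v ∈ AA T C v := by
    intro y hy
    apply AA_shift hy
    apply (AA_loc h hv hy).mono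
    rw [sub_self]
    have : nm 0 = 0 := by simp [nm]
    rw [this]
    unfold RR
    push_cast
    linarith
  have hdown : ∀ y ∈ AA T C v, y + -((NN C : ℤ) • v) ∈ AA T C v := by
    intro y hy
    apply AA_shift hy
    apply (AA_loc h hv hy).neg.mono
    rw [sub_self]
    have : nm 0 = 0 := by simp [nm]
    rw [this]
    unfold RR
    push_cast
    have := nm_NN hv
    linarith
  induction k using Int.induction_on with
  | zero => simpa using hx
  | succ k ih =>
    have := hup _ ih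
    have e : x + ((k : ℤ) + 1) • ((NN C : ℤ) • v) = x + (k : ℤ) • ((NN C : ℤ) • v) + (NN C : ℤ) • v := by
      rw [add_smul, one_smul]; abel
    rw [e]
    exact this
  | pred k ih =>
    have := hdown _ ih
    have e : x + (-(k : ℤ) - 1) • ((NN C : ℤ) • v) =
        x + (-(k : ℤ)) • ((NN C : ℤ) • v) + -((NN C : ℤ) • v) := by
      rw [sub_smul, one_smul]; abel
    rw [e]
    exact this

theorem AA_parallel (h : ∀ x, ∃ v : ℤ × ℤ, v ≠ 0 ∧ nm v ≤ C ∧ Loc T v x (RR C))
    {v v' x x' : ℤ × ℤ} (hv : nm v ≤ C) (hv' : nm v' ≤ C) (hx : x ∈ AA T C v)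
    (hx' : x' ∈ AA T C v') : dt v v' = 0 := by
  by_contra hd
  have hN : (NN C : ℤ) ≠ 0 := by
    have := NN_pos C
    positivity
  have hd' : dt ((NN C : ℤ) • v) ((NN C : ℤ) • v') ≠ 0 := by
    rw [dt_smul_left, dt_smul_right]
    exact mul_ne_zero hN (mul_ne_zero hN hd)
  obtain ⟨k, l, hkl⟩ := lines_meet hd' (x' - x)
  have hy := AA_line h hv hx k
  have hy' := AA_line h hv' hx' (-l)
  obtain ⟨v1, h0, hC, hloc⟩ := h (x + k • ((NN C : ℤ) • v))
  have hN' : (0 : ℤ) ≤ (NN C : ℤ) * C := by positivity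
  have hM : (0 : ℤ) ≤ (MM C : ℤ) * (NN C * C) := by positivity
  have h1 : Loc T v1 (x + k • ((NN C : ℤ) • v)) (rr C) := by
    apply hloc.mono
    rw [sub_self]
    have : nm 0 = 0 := by simp [nm]
    rw [this]
    unfold RR
    push_cast
    linarith
  have h2 : Loc T v1 (x' + (-l) • ((NN C : ℤ) • v')) (rr C) := by
    apply hloc.mono
    have e : x' + (-l) • ((NN C : ℤ) • v') - (x + k • ((NN C : ℤ) • v)) =
        x' - x - k • ((NN C : ℤ) • v) - l • ((NN C : ℤ) • v') := by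
      rw [neg_smul]; abel
    rw [e]
    have := nm_NN hv
    have := nm_NN hv'
    unfold RR
    push_cast
    linarith
  have h3 := hy v1 h0 hC h1
  have h4 := hy' v1 h0 hC h2
  apply hd
  apply dt_trans h0 h3
  rw [dt_comm, h4, neg_zero]

theorem dt_dvd_MM {v v' : ℤ × ℤ} (hv : nm v ≤ C) (hv' : nm v' ≤ C) (hd : dt v v' ≠ 0) :
    dt v v' ∣ (MM C : ℤ) := by
  rw [← abs_dvd]
  obtain ⟨n, hn⟩ := Int.eq_ofNat_of_zero_le (abs_nonneg (dt v v'))
  have h1 : |dt v v'| ≤ 2 * C * C := by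
    refine (abs_dt_le v v').trans ?_
    have h2 : nm v * nm v' ≤ C * C := mul_le_mul hv hv' (nm_nonneg _) (Nat.cast_nonneg _)
    linarith
  rw [hn] at h1 ⊢
  have hn0 : 0 < n := by
    rcases Nat.eq_zero_or_pos n with h | h
    · subst h
      simp at hn
      exact absurd hn hd
    · exact h
  have : n ≤ 2 * C * C := by exact_mod_cast h1
  exact_mod_cast Nat.dvd_factorial hn0 this

/-- **From local to global periods.** -/
theorem loc_glob (hC1 : 1 ≤ C)
    (h : ∀ x, ∃ v : ℤ × ℤ, v ≠ 0 ∧ nm v ≤ C ∧ Loc T v x (RR C)) :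
    ∃ E : ℤ × ℤ, E ≠ 0 ∧ nm E ≤ BB C ∧ Per T E := by
  have hN' : (0 : ℤ) ≤ (NN C : ℤ) * C := by positivity
  have hM : (0 : ℤ) ≤ (MM C : ℤ) * (NN C * C) := by positivity
  have hN1 : (1 : ℤ) ≤ NN C := by exact_mod_cast NN_pos C
  have hM1 : (1 : ℤ) ≤ MM C := by exact_mod_cast MM_pos C
  have hC1' : (1 : ℤ) ≤ C := by exact_mod_cast hC1
  have hrR : ∀ {v x : ℤ × ℤ}, Loc T v x (RR C) → Loc T v x (rr C) := by
    intro v x hloc
    apply hloc.mono
    rw [sub_self]
    have : nm 0 = 0 := by simp [nm]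
    rw [this]
    unfold RR
    push_cast
    linarith
  by_cases hex : ∃ v x : ℤ × ℤ, v ≠ 0 ∧ nm v ≤ C ∧ x ∈ AA T C v
  · obtain ⟨v, x, hv0, hvC, hx⟩ := hex
    refine ⟨(MM C : ℤ) • ((NN C : ℤ) • v), ?_, ?_, ?_⟩
    · rw [smul_smul]
      apply smul_ne_zero _ hv0
      positivity
    · rw [nm_smul, Nat.abs_cast]
      unfold BB
      push_cast
      exact mul_le_mul_of_nonneg_left (nm_NN hvC) (by positivity)
    · intro x0
      by_cases hx0 : x0 ∈ AA T C v
      · have h1 := (AA_loc h hvC hx0).zsmul (MM C : ℤ)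
        apply h1
        rw [sub_self]
        have : nm 0 = 0 := by simp [nm]
        rw [this, Nat.abs_cast]
        have h2 := mul_le_mul_of_nonneg_left (nm_NN hvC) (show (0 : ℤ) ≤ MM C by positivity)
        unfold RR
        push_cast
        have : (0 : ℤ) ≤ rr C := by positivity
        linarith
      · have h1 : ∃ v', v' ≠ 0 ∧ nm v' ≤ C ∧ Loc T v' x0 (rr C) ∧ dt v v' ≠ 0 := by
          by_contra hcon
          apply hx0
          intro v' h0 hC hloc
          by_contra hd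
          exact hcon ⟨v', h0, hC, hloc, hd⟩
        obtain ⟨v', hv'0, hv'C, hv'loc, hv'd⟩ := h1
        have h2 : ∃ v'', v'' ≠ 0 ∧ nm v'' ≤ C ∧ Loc T v'' x0 (rr C) ∧ dt v' v'' ≠ 0 := by
          by_contra hcon
          apply hv'd
          apply AA_parallel h hvC hv'C hx (x' := x0)
          intro v'' h0 hC hloc
          by_contra hd
          exact hcon ⟨v'', h0, hC, hloc, hd⟩
        obtain ⟨v'', hv''0, hv''C, hv''loc, hv''d⟩ := h2
        apply Loc.lattice hv'loc hv''loc hv'C hv''C (dt_dvd_MM hv'C hv''C hv''d) _ hv''d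
        rw [Nat.abs_cast]
        unfold rr
        push_cast
        have h3 := nm_NN hvC
        have h4 : (4 : ℤ) * MM C * nm ((NN C : ℤ) • v) ≤ 4 * MM C * (NN C * C) :=
          mul_le_mul_of_nonneg_left h3 (by positivity)
        exact mul_le_mul_of_nonneg_right (mul_le_mul_of_nonneg_right h4 (by positivity))
          (by positivity)
  · refine ⟨(MM C : ℤ) • ((1 : ℤ), (0 : ℤ)), ?_, ?_, ?_⟩
    · intro h0
      have := congrArg Prod.fst h0
      simp at this
      omega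
    · rw [nm_smul, Nat.abs_cast]
      have h1 : nm ((1 : ℤ), (0 : ℤ)) = 1 := by simp [nm]
      rw [h1]
      unfold BB
      push_cast
      have h2 : (1 : ℤ) ≤ NN C * C := by nlinarith
      exact mul_le_mul_of_nonneg_left h2 (by positivity)
    · intro x0
      obtain ⟨v, hv0, hvC, hvloc⟩ := h x0
      have h1 : ∃ v', v' ≠ 0 ∧ nm v' ≤ C ∧ Loc T v' x0 (rr C) ∧ dt v v' ≠ 0 := by
        by_contra hcon
        apply hex
        refine ⟨v, x0, hv0, hvC, ?_⟩
        intro v' h0 hC hloc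
        by_contra hd
        exact hcon ⟨v', h0, hC, hloc, hd⟩
      obtain ⟨v', hv'0, hv'C, hv'loc, hv'd⟩ := h1
      apply Loc.lattice (hrR hvloc) hv'loc hvC hv'C (dt_dvd_MM hvC hv'C hv'd) _ hv'd
      rw [Nat.abs_cast]
      have h1 : nm ((1 : ℤ), (0 : ℤ)) = 1 := by simp [nm]
      rw [h1]
      unfold rr
      push_cast
      have h2 : (1 : ℤ) ≤ NN C * C := by nlinarith
      have h4 : (4 : ℤ) * MM C * 1 ≤ 4 * MM C * (NN C * C) :=
        mul_le_mul_of_nonneg_left h2 (by positivity)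
      exact mul_le_mul_of_nonneg_right (mul_le_mul_of_nonneg_right h4 (by positivity))
        (by positivity)

end

end Pool.Agent.P8H87
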