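import Mathlib

/-!
# Local periods of configurations on the square lattice

If at every point of `ℤ²` some nonzero vector of size at most `C` is a period of the configuration `T`
in a ball of a radius `R` depending only on `C`, then `T` has a global nonzero period of bounded size.
-/

namespace Pool.Agent.P8H87

/-- `v` is a period of `T`. -/
def Per {α : Type*} (T : ℤ × ℤ → α) (v : ℤ × ℤ) : Prop := ∀ z, T (z + v) = T z

/-- sup norm -/
def nm (v : ℤ × ℤ) : ℤ := max |v.1| |v.2|

theorem nm_nonneg (v : ℤ × ℤ) : 0 ≤ nm v := le_max_of_le_left (abs_nonneg _)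

theorem nm_add (v w : ℤ × ℤ) : nm (v + w) ≤ nm v + nm w := by
  unfold nm
  apply max_le
  · exact (abs_add_le _ _).trans (add_le_add (le_max_left _ _) (le_max_left _ _))
  · exact (abs_add_le _ _).trans (add_le_add (le_max_right _ _) (le_max_right _ _))

theorem nm_neg (v : ℤ × ℤ) : nm (-v) = nm v := by
  simp [nm]

theorem nm_smul (k : ℤ) (v : ℤ × ℤ) : nm (k • v) = |k| * nm v := by
  unfold nm
  simp only [Prod.smul_fst, Prod.smul_snd, smul_eq_mul, abs_mul]
  rw [mul_max_of_nonneg _ _ (abs_nonneg k)]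

theorem nm_sub_comm (v w : ℤ × ℤ) : nm (v - w) = nm (w - v) := by
  rw [← nm_neg, neg_sub]

/-- `v` is a period of `T` at all points of the ball with centre `x` and radius `R`. -/
def Loc {α : Type*} (T : ℤ × ℤ → α) (v x : ℤ × ℤ) (R : ℤ) : Prop :=
  ∀ z, nm (z - x) ≤ R → T (z + v) = T z

theorem Loc.mono {α : Type*} {T : ℤ × ℤ → α} {v x y : ℤ × ℤ} {R R' : ℤ} (h : Loc T v x R)
    (hR : R' + nm (y - x) ≤ R) : Loc T v y R' := by
  intro z hz
  apply h
  have : z - x = (z - y) + (y - x) := by abel
  rw [this]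
  exact (nm_add _ _).trans (by linarith)

/-- natural multiples of a local period -/
theorem Loc.nsmul {α : Type*} {T : ℤ × ℤ → α} {v x : ℤ × ℤ} {R : ℤ} (h : Loc T v x R) (k : ℕ) :
    Loc T ((k : ℤ) • v) x (R - k * nm v) := by
  induction k with
  | zero =>
    intro z _
    simp
  | succ k ih =>
    intro z hz
    have e : z + ((k + 1 : ℕ) : ℤ) • v = (z + (k : ℤ) • v) + v := by
      push_cast
      rw [add_smul, one_smul]
      abel
    rw [e]
    push_cast at hz
    have hnn := nm_nonneg v
    rw [h, ih]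
    · linarith
    · have : z + (k : ℤ) • v - x = (z - x) + (k : ℤ) • v := by abel
      rw [this]
      refine (nm_add _ _).trans ?_
      rw [nm_smul, Nat.abs_cast]
      linarith

theorem Loc.neg {α : Type*} {T : ℤ × ℤ → α} {v x : ℤ × ℤ} {R : ℤ} (h : Loc T v x R) :
    Loc T (-v) x (R - nm v) := by
  intro z hz
  have h1 := h (z + -v) (by
    have : z + -v - x = (z - x) + (-v) := by abel
    rw [this]
    refine (nm_add _ _).trans ?_
    rw [nm_neg]
    linarith)
  rw [neg_add_cancel_right] at h1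
  exact h1.symm

theorem Loc.neg_nsmul {α : Type*} {T : ℤ × ℤ → α} {v x : ℤ × ℤ} {R : ℤ} (h : Loc T v x R)
    (k : ℕ) : Loc T (-((k : ℤ) • v)) x (R - k * nm v) := by
  induction k with
  | zero =>
    intro z _
    simp
  | succ k ih =>
    intro z hz
    have hnn := nm_nonneg v
    have e : z + -(((k + 1 : ℕ) : ℤ) • v) + v = z + -((k : ℤ) • v) := by
      push_cast
      rw [add_smul, one_smul]
      abel
    have h1 := h (z + -(((k + 1 : ℕ) : ℤ) • v)) (by
      have : z + -(((k + 1 : ℕ) : ℤ) • v) - x = (z - x) + -(((k + 1 : ℕ) : ℤ) • v) := by abel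
      rw [this]
      refine (nm_add _ _).trans ?_
      rw [nm_neg, nm_smul, Nat.abs_cast]
      linarith)
    rw [e] at h1
    rw [← h1]
    apply ih
    push_cast at hz
    linarith

theorem Loc.zsmul {α : Type*} {T : ℤ × ℤ → α} {v x : ℤ × ℤ} {R : ℤ} (h : Loc T v x R) (k : ℤ) :
    Loc T (k • v) x (R - |k| * nm v) := by
  rcases le_total 0 k with hk | hk
  · obtain ⟨n, rfl⟩ := Int.eq_ofNat_of_zero_le hk
    have := h.nsmul n
    simpa using this
  · obtain ⟨n, hn⟩ := Int.eq_ofNat_of_zero_le (neg_nonneg.2 hk)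
    have hk' : k = -(n : ℤ) := by rw [← hn]; simp
    subst hk'
    have := h.neg_nsmul n
    simpa using this

/-- determinant of two vectors -/
def dt (v w : ℤ × ℤ) : ℤ := v.1 * w.2 - v.2 * w.1

theorem abs_dt_le (v w : ℤ × ℤ) : |dt v w| ≤ 2 * (nm v * nm w) := by
  unfold dt
  have h1 : |v.1 * w.2| ≤ nm v * nm w := by
    rw [abs_mul]
    exact mul_le_mul (le_max_left _ _) (le_max_right _ _) (abs_nonneg _) (nm_nonneg _)
  have h2 : |v.2 * w.1| ≤ nm v * nm w := by
    rw [abs_mul]
    exact mul_le_mul (le_max_right _ _) (le_max_left _ _) (abs_nonneg _) (nm_nonneg _)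
  refine (abs_sub _ _).trans ?_
  linarith

/-- Cramer's rule -/
theorem cramer (v w e : ℤ × ℤ) : dt v w • e = dt e w • v + dt v e • w := by
  ext <;> simp [dt] <;> ring

/-- two non-parallel local periods generate all multiples of their determinant -/
theorem Loc.lattice {α : Type*} {T : ℤ × ℤ → α} {v w x e : ℤ × ℤ} {r C : ℤ}
    (hv : Loc T v x r) (hw : Loc T w x r) (hvC : nm v ≤ C) (hwC : nm w ≤ C) {m : ℤ}
    (hm : dt v w ∣ m) (hr : 4 * |m| * nm e * C * C ≤ r) (hd : dt v w ≠ 0) :
    T (x + m • e) = T x := by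
  obtain ⟨q, rfl⟩ := hm
  have hC : 0 ≤ C := (nm_nonneg v).trans hvC
  have he : (dt v w * q) • e = (q * dt e w) • v + (q * dt v e) • w := by
    rw [mul_comm (dt v w) q, mul_smul, cramer, smul_add, smul_smul, smul_smul]
  have hq : |q| ≤ |dt v w * q| := by
    rw [abs_mul]
    have : 1 ≤ |dt v w| := Int.one_le_abs hd
    nlinarith [abs_nonneg q]
  have h1 : |q * dt e w| * nm v ≤ 2 * |dt v w * q| * nm e * C * C := by
    rw [abs_mul]
    have h2 := abs_dt_le e w
    have h3 : |dt e w| ≤ 2 * (nm e * C) := by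
      refine h2.trans ?_
      have := mul_le_mul_of_nonneg_left hwC (nm_nonneg e)
      linarith
    calc |q| * |dt e w| * nm v ≤ |dt v w * q| * (2 * (nm e * C)) * C := by
          apply mul_le_mul _ hvC (nm_nonneg v)
          · have := nm_nonneg e
            positivity
          · exact mul_le_mul hq h3 (abs_nonneg _) (abs_nonneg _)
      _ = 2 * |dt v w * q| * nm e * C * C := by ring
  have h1' : |q * dt v e| * nm w ≤ 2 * |dt v w * q| * nm e * C * C := by
    rw [abs_mul]
    have h2 := abs_dt_le v e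
    have h3 : |dt v e| ≤ 2 * (nm e * C) := by
      refine h2.trans ?_
      have := mul_le_mul_of_nonneg_right hvC (nm_nonneg e)
      linarith
    calc |q| * |dt v e| * nm w ≤ |dt v w * q| * (2 * (nm e * C)) * C := by
          apply mul_le_mul _ hwC (nm_nonneg w)
          · have := nm_nonneg e
            positivity
          · exact mul_le_mul hq h3 (abs_nonneg _) (abs_nonneg _)
      _ = 2 * |dt v w * q| * nm e * C * C := by ring
  rw [he, ← add_assoc]
  have h4 := hv.zsmul (q * dt e w)
  have h5 := hw.zsmul (q * dt v e)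
  have h6 : T (x + (q * dt e w) • v + (q * dt v e) • w) = T (x + (q * dt e w) • v) := by
    apply h5
    have : x + (q * dt e w) • v - x = (q * dt e w) • v := by abel
    rw [this, nm_smul]
    linarith
  rw [h6]
  apply h4
  have : x - x = 0 := sub_self x
  rw [this]
  have h0 : nm 0 = 0 := by simp [nm]
  rw [h0]
  have := nm_nonneg e
  have h7 : 0 ≤ 2 * |dt v w * q| * nm e * C * C := by positivity
  linarith

theorem nm_pos {v : ℤ × ℤ} (h : v ≠ 0) : 1 ≤ nm v := by
  by_contra hcon
  have h0 := nm_nonneg v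
  have h1 : nm v = 0 := by omega
  apply h
  have h2 : |v.1| ≤ 0 := h1 ▸ le_max_left _ _
  have h3 : |v.2| ≤ 0 := h1 ▸ le_max_right _ _
  ext
  · exact abs_nonpos_iff.1 h2
  · exact abs_nonpos_iff.1 h3

/-- a large factorial multiple of a vector is a multiple of all the bounded vectors parallel to it -/
theorem factorial_multiple {C : ℕ} {v v' : ℤ × ℤ} (hv' : v' ≠ 0) (hC' : nm v' ≤ C)
    (hp : dt v v' = 0) : ∃ k : ℤ, (C.factorial : ℤ) • v = k • v' := by
  have key : ∀ a : ℤ, a ≠ 0 → |a| ≤ C → a ∣ (C.factorial : ℤ) := by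
    intro a ha haC
    rw [← abs_dvd]
    obtain ⟨n, hn⟩ := Int.eq_ofNat_of_zero_le (abs_nonneg a)
    rw [hn] at haC ⊢
    have hn0 : 0 < n := by
      rcases Nat.eq_zero_or_pos n with h | h
      · subst h
        simp at hn
        exact absurd hn ha
      · exact h
    have : n ≤ C := by exact_mod_cast haC
    exact_mod_cast Nat.dvd_factorial hn0 this
  have hd : v.1 * v'.2 = v.2 * v'.1 := by
    unfold dt at hp
    linarith
  by_cases h1 : v'.1 = 0
  · have h2 : v'.2 ≠ 0 := fun h => hv' (Prod.ext h1 h)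
    obtain ⟨q, hq⟩ := key v'.2 h2 ((le_max_right _ _).trans hC')
    refine ⟨q * v.2, ?_⟩
    rw [hq]
    ext
    · simp only [Prod.smul_fst, smul_eq_mul]
      linear_combination q * hd
    · simp only [Prod.smul_snd, smul_eq_mul]
      ring
  · obtain ⟨q, hq⟩ := key v'.1 h1 ((le_max_left _ _).trans hC')
    refine ⟨q * v.1, ?_⟩
    rw [hq]
    ext
    · simp only [Prod.smul_fst, smul_eq_mul]
      ring
    · simp only [Prod.smul_snd, smul_eq_mul]
      linear_combination (-q) * hd

theorem dt_smul_left (k : ℤ) (v w : ℤ × ℤ) : dt (k • v) w = k * dt v w := by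
  simp [dt]; ring

theorem dt_smul_right (k : ℤ) (v w : ℤ × ℤ) : dt v (k • w) = k * dt v w := by
  simp [dt]; ring

theorem dt_comm (v w : ℤ × ℤ) : dt v w = - dt w v := by
  simp [dt]; ring

theorem dt_self (v : ℤ × ℤ) : dt v v = 0 := by
  simp [dt]; ring

/-- parallelism is transitive through nonzero vectors -/
theorem dt_trans {u v w : ℤ × ℤ} (hv : v ≠ 0) (h1 : dt u v = 0) (h2 : dt v w = 0) :
    dt u w = 0 := by
  have h3 : v.1 * dt u w = 0 := by
    unfold dt at *
    linear_combination u.1 * h2 + w.1 * h1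
  have h4 : v.2 * dt u w = 0 := by
    unfold dt at *
    linear_combination u.2 * h2 + w.2 * h1
  by_contra hcon
  apply hv
  rcases mul_eq_zero.1 h3 with h | h
  · rcases mul_eq_zero.1 h4 with h' | h'
    · exact Prod.ext h h'
    · exact absurd h' hcon
  · exact absurd h hcon

/-- two non-parallel lattice lines come close to each other -/
theorem lines_meet {w w' : ℤ × ℤ} (hd : dt w w' ≠ 0) (e : ℤ × ℤ) :
    ∃ k l : ℤ, nm (e - k • w - l • w') ≤ nm w + nm w' := by
  set D := dt w w' with hD
  refine ⟨dt e w' / D, dt w e / D, ?_⟩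
  set k := dt e w' / D
  set l := dt w e / D
  have h1 := cramer w w' e
  have h2 : D • (e - k • w - l • w') = (dt e w' % D) • w + (dt w e % D) • w' := by
    rw [smul_sub, smul_sub, ← hD] at *
    rw [h1]
    have ha : dt e w' = D * k + dt e w' % D := (Int.mul_ediv_add_emod _ _).symm
    have hb : dt w e = D * l + dt w e % D := (Int.mul_ediv_add_emod _ _).symm
    have ha' : dt e w' • w = (D * k) • w + (dt e w' % D) • w := by
      rw [← add_smul, ← ha]
    have hb' : dt w e • w' = (D * l) • w' + (dt w e % D) • w' := by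
      rw [← add_smul, ← hb]
    rw [ha', hb', mul_smul, mul_smul]
    abel
  have h3 : |D| * nm (e - k • w - l • w') ≤ |D| * (nm w + nm w') := by
    rw [← nm_smul, h2]
    refine (nm_add _ _).trans ?_
    rw [nm_smul, nm_smul]
    have h4 : |dt e w' % D| ≤ |D| := by
      rw [abs_of_nonneg (Int.emod_nonneg _ hd)]
      exact (Int.emod_lt_abs _ hd).le
    have h5 : |dt w e % D| ≤ |D| := by
      rw [abs_of_nonneg (Int.emod_nonneg _ hd)]
      exact (Int.emod_lt_abs _ hd).le
    have h6 := mul_le_mul_of_nonneg_right h4 (nm_nonneg w)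
    have h7 := mul_le_mul_of_nonneg_right h5 (nm_nonneg w')
    linarith
  exact le_of_mul_le_mul_left h3 (abs_pos.2 hd)

end Pool.Agent.P8H87
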