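import Pool.Agent.P8H87.PerGlob

/-!
# Uniform bounds for the periods

A compact shift-invariant set of configurations on `ℤ²` (over a discrete alphabet) all of whose
elements are periodic has a uniform bound for the periods.
-/

namespace Pool.Agent.P8H87

open Set Topology

variable {α : Type*}

/-- the translate of a configuration -/
def shift (x : ℤ × ℤ) (T : ℤ × ℤ → α) : ℤ × ℤ → α := fun z => T (z + x)

/-- shift-invariance -/
def Inv (X : Set (ℤ × ℤ → α)) : Prop := ∀ T ∈ X, ∀ x, shift x T ∈ X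

/-- uniformly bounded periods -/
def Good (X : Set (ℤ × ℤ → α)) : Prop :=
  ∃ C : ℕ, ∀ T ∈ X, ∃ v : ℤ × ℤ, v ≠ 0 ∧ nm v ≤ C ∧ Per T v

theorem finite_ball (R : ℤ) : {z : ℤ × ℤ | nm z ≤ R}.Finite := by
  apply ((Set.finite_Icc (-R) R).prod (Set.finite_Icc (-R) R)).subset
  intro z hz
  have h1 : |z.1| ≤ R := (le_max_left _ _).trans hz
  have h2 : |z.2| ≤ R := (le_max_right _ _).trans hz
  rw [abs_le] at h1 h2
  exact ⟨h1, h2⟩

theorem Loc_shift {T : ℤ × ℤ → α} {v x : ℤ × ℤ} {R : ℤ} :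
    Loc (shift x T) v 0 R ↔ Loc T v x R := by
  constructor
  · intro h z hz
    have := h (z - x) (by simpa using hz)
    unfold shift at this
    have e1 : z - x + v + x = z + v := by abel
    have e2 : z - x + x = z := by abel
    rwa [e1, e2] at this
  · intro h z hz
    unfold shift
    have := h (z + x) (by simpa using hz)
    have e1 : z + v + x = z + x + v := by abel
    rw [e1]
    exact this

theorem Per_shift {T : ℤ × ℤ → α} {v x : ℤ × ℤ} (h : Per (shift x T) v) : Per T v := by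
  intro z
  have := h (z - x)
  unfold shift at this
  have e1 : z - x + v + x = z + v := by abel
  have e2 : z - x + x = z := by abel
  rwa [e1, e2] at this

variable [TopologicalSpace α] [DiscreteTopology α]

theorem isClopen_eq (a b : ℤ × ℤ) : IsClopen {T : ℤ × ℤ → α | T a = T b} := by
  have h1 : Continuous (fun T : ℤ × ℤ → α => (T a, T b)) :=
    (continuous_apply a).prodMk (continuous_apply b)
  have : {T : ℤ × ℤ → α | T a = T b} = (fun T : ℤ × ℤ → α => (T a, T b)) ⁻¹' {p | p.1 = p.2} := rfl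
  rw [this]
  exact (isClopen_discrete _).preimage h1

theorem isOpen_Loc (v x : ℤ × ℤ) (R : ℤ) : IsOpen {T : ℤ × ℤ → α | Loc T v x R} := by
  have : {T : ℤ × ℤ → α | Loc T v x R} = ⋂ z ∈ {z : ℤ × ℤ | nm (z - x) ≤ R},
      {T : ℤ × ℤ → α | T (z + v) = T z} := by
    ext T
    simp [Loc]
  rw [this]
  apply Set.Finite.isOpen_biInter
  · have h1 : {z : ℤ × ℤ | nm (z - x) ≤ R} = (fun z => z + x) '' {z : ℤ × ℤ | nm z ≤ R} := by
      ext z
      simp only [mem_setOf_eq, mem_image]
      constructor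
      · intro h
        exact ⟨z - x, h, by abel⟩
      · rintro ⟨y, hy, rfl⟩
        simpa using hy
    rw [h1]
    exact (finite_ball R).image _
  · intro z _
    exact (isClopen_eq _ _).2

theorem isClosed_Per (v : ℤ × ℤ) : IsClosed {T : ℤ × ℤ → α | Per T v} := by
  have : {T : ℤ × ℤ → α | Per T v} = ⋂ z : ℤ × ℤ, {T : ℤ × ℤ → α | T (z + v) = T z} := by
    ext T
    simp [Per]
  rw [this]
  exact isClosed_iInter fun z => (isClopen_eq _ _).1

theorem continuous_shift (x : ℤ × ℤ) : Continuous (shift x : (ℤ × ℤ → α) → (ℤ × ℤ → α)) :=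
  continuous_pi fun z => continuous_apply _

/-- the configurations without a local period of size at most `C` at the origin -/
def KK (C : ℕ) : Set (ℤ × ℤ → α) :=
  {T | ∀ v : ℤ × ℤ, v ≠ 0 → nm v ≤ C → ¬ Loc T v 0 (RR C)}

theorem isClosed_KK (C : ℕ) : IsClosed (KK C : Set (ℤ × ℤ → α)) := by
  have : (KK C : Set (ℤ × ℤ → α)) =
      ⋂ (v : ℤ × ℤ) (_ : v ≠ 0) (_ : nm v ≤ C), {T : ℤ × ℤ → α | Loc T v 0 (RR C)}ᶜ := by
    ext T
    simp [KK]
  rw [this]
  refine isClosed_iInter fun v => isClosed_iInter fun _ => isClosed_iInter fun _ => ?_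
  exact (isOpen_Loc v 0 _).isClosed_compl

omit [TopologicalSpace α] [DiscreteTopology α] in
/-- if no element of an invariant set is in `KK C` then the periods are bounded -/
theorem good_of_disjoint {Y : Set (ℤ × ℤ → α)} (hY : Inv Y) {C : ℕ} (hC : 1 ≤ C)
    (h : ∀ T ∈ Y, T ∉ KK C) : ∀ T ∈ Y, ∃ E : ℤ × ℤ, E ≠ 0 ∧ nm E ≤ BB C ∧ Per T E := by
  intro T hT
  apply loc_glob hC
  intro x
  have h1 := h _ (hY T hT x)
  unfold KK at h1
  simp only [mem_setOf_eq, not_forall, not_not] at h1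
  obtain ⟨v, h0, hvC, hloc⟩ := h1
  exact ⟨v, h0, hvC, Loc_shift.1 hloc⟩

omit [TopologicalSpace α] [DiscreteTopology α] in
theorem notMem_KK {T : ℤ × ℤ → α} {C : ℕ} {v : ℤ × ℤ} (h0 : v ≠ 0) (hv : nm v ≤ C)
    (hper : Per T v) : T ∉ KK C := fun h => h v h0 hv (fun z _ => hper z)

/-- **Uniform boundedness of the periods.** -/
theorem good_of_periodic {X : Set (ℤ × ℤ → α)} (hXc : IsCompact X) (hXi : Inv X)
    (hX : ∀ T ∈ X, ∃ v : ℤ × ℤ, v ≠ 0 ∧ Per T v) : Good X := by
  classical
  by_contra hbad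
  let S : Set (Set (ℤ × ℤ → α)) := {Y | Y ⊆ X ∧ IsCompact Y ∧ Inv Y ∧ ¬ Good Y}
  have hz : ∃ m, Minimal (· ∈ S) m := by
    apply zorn_superset
    intro c hc hchain
    rcases c.eq_empty_or_nonempty with rfl | ⟨Y0, hY0⟩
    · exact ⟨X, ⟨subset_rfl, hXc, hXi, hbad⟩, by simp⟩
    · refine ⟨⋂₀ c, ⟨?_, ?_, ?_, ?_⟩, fun s hs => sInter_subset_of_mem hs⟩
      · exact (sInter_subset_of_mem hY0).trans (hc hY0).1
      · apply (hc hY0).2.1.of_isClosed_subset _ (sInter_subset_of_mem hY0)
        exact isClosed_sInter fun Y hY => (hc hY).2.1.isClosed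
      · intro T hT x Y hY
        exact (hc hY).2.2.1 T (hT Y hY) x
      · rintro ⟨C, hC⟩
        -- some member of the chain is disjoint from `KK (C + 1)`
        have h1 : ∃ Y ∈ c, ∀ T ∈ Y, T ∉ KK (C + 1) := by
          by_contra hcon
          push Not at hcon
          have hne : Nonempty c := ⟨⟨Y0, hY0⟩⟩
          have h2 : (⋂ Y : c, ((Y : Set (ℤ × ℤ → α)) ∩ KK (C + 1))).Nonempty := by
            apply IsCompact.nonempty_iInter_of_directed_nonempty_isCompact_isClosed
            · intro Y Z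
              rcases hchain.total Y.2 Z.2 with h | h
              · exact ⟨Y, subset_rfl, inter_subset_inter_left _ h⟩
              · exact ⟨Z, inter_subset_inter_left _ h, subset_rfl⟩
            · intro Y
              obtain ⟨T, hT, hT'⟩ := hcon Y Y.2
              exact ⟨T, hT, hT'⟩
            · intro Y
              exact (hc Y.2).2.1.inter_right (isClosed_KK _)
            · intro Y
              exact (hc Y.2).2.1.isClosed.inter (isClosed_KK _)
          obtain ⟨T, hT⟩ := h2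
          have hT1 : ∀ Y ∈ c, T ∈ Y := fun Y hY => (mem_iInter.1 hT ⟨Y, hY⟩).1
          have hT2 : T ∈ KK (C + 1) := (mem_iInter.1 hT ⟨Y0, hY0⟩).2
          obtain ⟨v, h0, hv, hper⟩ := hC T hT1
          refine notMem_KK h0 (hv.trans ?_) hper hT2
          push_cast
          linarith
        obtain ⟨Y, hY, hYK⟩ := h1
        exact (hc hY).2.2.2 ⟨BB (C + 1), good_of_disjoint (hc hY).2.2.1 (by omega) hYK⟩
  obtain ⟨Y, ⟨hYX, hYc, hYi, hYbad⟩, hmin⟩ := hz
  apply hYbad
  -- `Y` is not empty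
  have hne : Y.Nonempty := by
    by_contra hcon
    rw [not_nonempty_iff_eq_empty] at hcon
    apply hYbad
    refine ⟨0, ?_⟩
    rw [hcon]
    simp
  -- Baire category
  have hcs : CompactSpace Y := isCompact_iff_compactSpace.1 hYc
  have hneY : Nonempty Y := hne.to_subtype
  let f : {v : ℤ × ℤ // v ≠ 0} → Set Y := fun v => {T : Y | Per T.1 v.1}
  have hf1 : ∀ v, IsClosed (f v) := fun v => (isClosed_Per v.1).preimage continuous_subtype_val
  have hf2 : ⋃ v, f v = univ := by
    rw [eq_univ_iff_forall]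
    intro T
    obtain ⟨v, h0, hper⟩ := hX T.1 (hYX T.2)
    exact mem_iUnion.2 ⟨⟨v, h0⟩, hper⟩
  obtain ⟨⟨v, hv0⟩, T0, hT0⟩ := nonempty_interior_of_iUnion_of_closed hf1 hf2
  rw [mem_interior] at hT0
  obtain ⟨O', hO'f, hO'o, hT0O'⟩ := hT0
  obtain ⟨O, hO, rfl⟩ := isOpen_induced_iff.1 hO'o
  let Y' : Set (ℤ × ℤ → α) := Y ∩ ⋂ x : ℤ × ℤ, (shift x ⁻¹' O)ᶜ
  have hY'c : IsCompact Y' := by
    apply hYc.inter_right
    exact isClosed_iInter fun x => ((hO.preimage (continuous_shift x)).isClosed_compl)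
  have hY'i : Inv Y' := by
    rintro T ⟨hT, hT'⟩ x
    refine ⟨hYi T hT x, ?_⟩
    rw [mem_iInter] at hT' ⊢
    intro y hy
    apply hT' (y + x)
    have : shift (y + x) T = shift y (shift x T) := by
      funext z
      unfold shift
      rw [add_assoc]
    show shift (y + x) T ∈ O
    rw [this]
    exact hy
  have hY'good : Good Y' := by
    by_contra hcon
    have h1 : Y' ∈ S := ⟨inter_subset_left.trans hYX, hY'c, hY'i, hcon⟩
    have h2 : Y ⊆ Y' := hmin h1 inter_subset_left
    have h3 := (h2 T0.2).2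
    rw [mem_iInter] at h3
    apply h3 0
    have : shift 0 T0.1 = T0.1 := by
      funext z
      simp [shift]
    show shift 0 T0.1 ∈ O
    rw [this]
    exact hT0O'
  obtain ⟨C', hC'⟩ := hY'good
  refine ⟨max C' (nm v).toNat, ?_⟩
  intro T hT
  by_cases hTY : T ∈ Y'
  · obtain ⟨w, hw0, hw, hper⟩ := hC' T hTY
    refine ⟨w, hw0, hw.trans ?_, hper⟩
    push_cast
    exact le_max_left _ _
  · have : ∃ x, shift x T ∈ O := by
      by_contra hcon
      apply hTY
      refine ⟨hT, ?_⟩
      rw [mem_iInter]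
      intro x hx
      exact hcon ⟨x, hx⟩
    obtain ⟨x, hx⟩ := this
    have h1 : Per (shift x T) v := hO'f (show (⟨shift x T, hYi T hT x⟩ : Y) ∈ _ from hx)
    refine ⟨v, hv0, ?_, Per_shift h1⟩
    push_cast
    exact (Int.self_le_toNat _).trans (le_max_right _ _)

end Pool.Agent.P8H87
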