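import Mathlib
import Pool.Agent.P8H87.V3Cor

/-!
# The reduction in the other direction
-/

namespace Pool.Agent.P8H87.V4

open Function Pool.Agent.W994.AR Pool.Agent.NPC Pool.Agent.P8H87

/-! ### Lists of tuples and their codes -/

/-- all lists of length `m` with entries in `R` -/
def tup (R : List ℕ) : ℕ → List (List ℕ)
  | 0 => [[]]
  | m + 1 => R.flatMap (fun x => (tup R m).map (fun l => x :: l))

theorem mem_tup {R : List ℕ} {m : ℕ} {L : List ℕ} :
    L ∈ tup R m ↔ L.length = m ∧ ∀ x ∈ L, x ∈ R := by
  induction m generalizing L with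
  | zero =>
    simp only [tup, List.mem_singleton, List.length_eq_zero_iff]
    constructor
    · rintro rfl
      simp
    · exact fun h => h.1
  | succ m ih =>
    simp only [tup, List.mem_flatMap, List.mem_map]
    constructor
    · rintro ⟨x, hx, l, hl, rfl⟩
      rw [ih] at hl
      refine ⟨by simp [hl.1], ?_⟩
      intro y hy
      rw [List.mem_cons] at hy
      rcases hy with rfl | hy
      · exact hx
      · exact hl.2 y hy
    · rintro ⟨h1, h2⟩
      cases L with
      | nil => simp at h1
      | cons x l =>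
        refine ⟨x, h2 x (by simp), l, ?_, rfl⟩
        rw [ih]
        exact ⟨by simpa using h1, fun y hy => h2 y (by simp [hy])⟩

theorem length_tup (R : List ℕ) (m : ℕ) : (tup R m).length = R.length ^ m := by
  induction m with
  | zero => simp [tup]
  | succ m ih =>
    rw [tup, length_flatMap_const', ih, pow_succ, mul_comm]
where
  length_flatMap_const' {R : List ℕ} {l : List (List ℕ)} :
      (R.flatMap (fun x => l.map (fun l => x :: l))).length = R.length * l.length := by
    induction R with
    | nil => simp
    | cons a R ih =>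
      rw [List.flatMap_cons, List.length_append, ih, List.length_map, List.length_cons]
      ring

theorem poly_tup {α : Type} [TEnc α] {R : α → List ℕ} (hR : NPC.Poly R) (m : ℕ) :
    NPC.Poly (fun a => tup (R a) m) := by
  induction m with
  | zero => exact NPC.Poly.const _
  | succ m ih =>
    exact NPC.Poly.flatMap (l := R) (F := fun a x => (tup (R a) m).map (fun l => x :: l)) hR
      (NPC.Poly.map (l := fun p : α × ℕ => tup (R p.1) m) (F := fun p l => p.2 :: l)
        (ih.comp (NPC.Poly.fst NPC.Poly.id))
        (NPC.Poly.cons (NPC.Poly.snd (NPC.Poly.fst NPC.Poly.id)) (NPC.Poly.snd NPC.Poly.id)))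

/-- the code of the tuple `f 0, ..., f (m - 1)` in base `r` -/
def code (r : ℕ) (f : ℕ → ℕ) : ℕ → ℕ
  | 0 => 0
  | m + 1 => f m + r * code r f m

theorem code_lt {r : ℕ} {f : ℕ → ℕ} {m : ℕ} (h : ∀ k < m, f k < r) : code r f m < r ^ m := by
  induction m with
  | zero => simp [code]
  | succ m ih =>
    have h1 := ih (fun k hk => h k (by omega))
    have h2 := h m (by omega)
    have h3 : r * (code r f m + 1) ≤ r * r ^ m := Nat.mul_le_mul_left r h1
    have h4 : r * (code r f m + 1) = r * code r f m + r := by ring
    have h5 : r ^ (m + 1) = r * r ^ m := by ring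
    show f m + r * code r f m < r ^ (m + 1)
    omega

theorem code_inj {r : ℕ} {f f' : ℕ → ℕ} {m : ℕ} (h : ∀ k < m, f k < r) (h' : ∀ k < m, f' k < r)
    (he : code r f m = code r f' m) : ∀ k < m, f k = f' k := by
  induction m with
  | zero => intro k hk; omega
  | succ m ih =>
    have h1 : f m + r * code r f m = f' m + r * code r f' m := he
    have h2 := h m (by omega)
    have h3 := h' m (by omega)
    have h4 : f m = f' m := by
      have e1 : (f m + r * code r f m) % r = f m := by
        rw [Nat.add_mul_mod_self_left, Nat.mod_eq_of_lt h2]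
      have e2 : (f' m + r * code r f' m) % r = f' m := by
        rw [Nat.add_mul_mod_self_left, Nat.mod_eq_of_lt h3]
      rw [← e1, ← e2, h1]
    have h5 : code r f m = code r f' m := by
      rw [h4] at h1
      exact Nat.eq_of_mul_eq_mul_left (by omega) (Nat.add_left_cancel h1)
    intro k hk
    rcases Nat.lt_succ_iff_lt_or_eq.1 hk with h6 | h6
    · exact ih (fun k hk => h k (by omega)) (fun k hk => h' k (by omega)) h5 k h6
    · rw [h6, h4]

theorem code_congr {r : ℕ} {f f' : ℕ → ℕ} {m : ℕ} (h : ∀ k < m, f k = f' k) :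
    code r f m = code r f' m := by
  induction m with
  | zero => rfl
  | succ m ih =>
    show f m + r * code r f m = f' m + r * code r f' m
    rw [h m (by omega), ih (fun k hk => h k (by omega))]

theorem poly_code {α : Type} [TEnc α] {r : α → ℕ} {f : α → ℕ → ℕ} (hr : NPC.Poly r)
    (hf : ∀ k, NPC.Poly (fun a => f a k)) (m : ℕ) : NPC.Poly (fun a => code (r a) (f a) m) := by
  induction m with
  | zero => exact NPC.Poly.const 0
  | succ m ih => exact NPC.Poly.add (hf m) (NPC.Poly.mul hr ih)

/-! ### Classes of variables -/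

/-- merge two classes -/
def step (L : List ℕ) (p : ℕ × ℕ) : List ℕ :=
  L.map (fun x => if x = L.getD p.2 0 then L.getD p.1 0 else x)

theorem step_getD {L : List ℕ} {p : ℕ × ℕ} {v : ℕ} (hv : v < L.length) :
    (step L p).getD v 0 = if L.getD v 0 = L.getD p.2 0 then L.getD p.1 0 else L.getD v 0 := by
  unfold step
  rw [List.getD_eq_getElem _ _ (by simpa using hv), List.getElem_map,
    List.getD_eq_getElem _ _ hv]

theorem length_step (L : List ℕ) (p : ℕ × ℕ) : (step L p).length = L.length := by
  simp [step]

/-- the labels -/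
def lab (M : ℕ) (eqs : List (ℕ × ℕ)) : List ℕ := eqs.foldl step (List.range M)

theorem lab_append (M : ℕ) (eqs : List (ℕ × ℕ)) (p : ℕ × ℕ) :
    lab M (eqs ++ [p]) = step (lab M eqs) p := by
  simp [lab]

theorem length_lab (M : ℕ) (eqs : List (ℕ × ℕ)) : (lab M eqs).length = M := by
  induction eqs using List.reverseRecOn with
  | nil => simp [lab]
  | append_singleton l p ih => rw [lab_append, length_step, ih]

theorem lab_lt {M : ℕ} {eqs : List (ℕ × ℕ)} (h : ∀ p ∈ eqs, p.1 < M ∧ p.2 < M) {v : ℕ}
    (hv : v < M) : (lab M eqs).getD v 0 < M := by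
  induction eqs using List.reverseRecOn generalizing v with
  | nil => simp [lab, hv]
  | append_singleton l p ih =>
    have h1 : ∀ {v : ℕ}, v < M → (lab M l).getD v 0 < M :=
      fun {v} hv => ih (fun q hq => h q (by simp [hq])) hv
    rw [lab_append, step_getD (by rwa [length_lab])]
    split_ifs
    · exact h1 (h p (by simp)).1
    · exact h1 hv

theorem lab_eq {M : ℕ} {eqs : List (ℕ × ℕ)} (h : ∀ p ∈ eqs, p.1 < M ∧ p.2 < M) :
    ∀ p ∈ eqs, (lab M eqs).getD p.1 0 = (lab M eqs).getD p.2 0 := by
  induction eqs using List.reverseRecOn with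
  | nil => simp
  | append_singleton l p ih =>
    have h1 := ih (fun q hq => h q (by simp [hq]))
    intro q hq
    rw [lab_append, step_getD (by rw [length_lab]; exact (h q hq).1),
      step_getD (by rw [length_lab]; exact (h q hq).2)]
    rw [List.mem_append, List.mem_singleton] at hq
    rcases hq with hq | rfl
    · rw [h1 q hq]
    · rw [if_pos rfl]
      split_ifs with h2
      · rfl
      · rfl

theorem lab_val {M : ℕ} {eqs : List (ℕ × ℕ)} (h : ∀ p ∈ eqs, p.1 < M ∧ p.2 < M) {B : Type}
    {a : ℕ → B} (ha : ∀ p ∈ eqs, a p.1 = a p.2) {v : ℕ} (hv : v < M) :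
    a ((lab M eqs).getD v 0) = a v := by
  induction eqs using List.reverseRecOn generalizing v with
  | nil => simp [lab, hv]
  | append_singleton l p ih =>
    have h1 := fun {v} (hv : v < M) => ih (fun q hq => h q (by simp [hq]))
      (fun q hq => ha q (by simp [hq])) hv
    rw [lab_append, step_getD (by rwa [length_lab])]
    have h2 := h p (by simp)
    split_ifs with h3
    · rw [h1 h2.1, ha p (by simp), ← h1 h2.2, ← h3, h1 hv]
    · exact h1 hv

theorem poly_step {α : Type} [TEnc α] {L : α → List ℕ} {p : α → ℕ × ℕ} (hL : NPC.Poly L)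
    (hp : NPC.Poly p) : NPC.Poly (fun a => step (L a) (p a)) := by
  unfold step
  apply NPC.Poly.map (l := L) (F := fun a x => if x = (L a).getD (p a).2 0 then
    (L a).getD (p a).1 0 else x) hL
  have hL' : NPC.Poly (fun q : α × ℕ => L q.1) := hL.comp (NPC.Poly.fst NPC.Poly.id)
  have hp' : NPC.Poly (fun q : α × ℕ => p q.1) := hp.comp (NPC.Poly.fst NPC.Poly.id)
  apply NPC.Poly.ite
  · exact NPC.Poly.decide_eq (NPC.Poly.snd NPC.Poly.id)
      (NPC.Poly.getD hL' (NPC.Poly.snd hp') (NPC.Poly.const 0))
  · exact NPC.Poly.getD hL' (NPC.Poly.fst hp') (NPC.Poly.const 0)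
  · exact NPC.Poly.snd NPC.Poly.id

theorem mem_lab_le {M : ℕ} {eqs : List (ℕ × ℕ)} : ∀ x ∈ lab M eqs, x ≤ M := by
  induction eqs using List.reverseRecOn with
  | nil =>
    intro x hx
    simp only [lab, List.foldl_nil, List.mem_range] at hx
    exact hx.le
  | append_singleton l p ih =>
    rw [lab_append]
    intro x hx
    unfold step at hx
    rw [List.mem_map] at hx
    obtain ⟨y, hy, rfl⟩ := hx
    split_ifs
    · by_cases hp : p.1 < (lab M l).length
      · rw [List.getD_eq_getElem _ _ hp]
        exact ih _ (List.getElem_mem hp)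
      · rw [List.getD_eq_default _ _ (by omega)]
        omega
    · exact ih y hy

theorem poly_lab {α β : Type} [TEnc α] [TEnc β] {D : α → List β} {eqs : α → List (ℕ × ℕ)}
    (hD : NPC.Poly D) (heqs : NPC.Poly eqs) :
    NPC.Poly (fun a => lab (D a).length (eqs a)) := by
  obtain ⟨r, hr⟩ := hD.sz_le
  unfold lab
  refine NPC.Poly.foldl (l := eqs) (s := fun a => List.range (D a).length)
    (F := fun _ L p => step L p) heqs (NPC.Poly.range_length hD)
    (poly_step (NPC.Poly.fst (NPC.Poly.snd NPC.Poly.id)) (NPC.Poly.snd (NPC.Poly.snd NPC.Poly.id)))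
    (r * (Polynomial.C 4 * r + Polynomial.C 2) + Polynomial.C 1) ?_
  intro a k _
  have h1 : (((eqs a).take k).foldl (fun L p => step L p) (List.range (D a).length)) =
      lab (D a).length ((eqs a).take k) := rfl
  rw [h1]
  have h2 : ∀ x ∈ lab (D a).length ((eqs a).take k), sz x ≤ 4 * (D a).length + 1 := by
    intro x hx
    have h3 := mem_lab_le x hx
    have h4 := sz_nat_le x
    have h5 := NPC.Poly.size_le_self x
    omega
  have h3 := sz_le_length_mul _ _ h2
  rw [length_lab] at h3
  have h4 := NPC.length_lt_sz (D a)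
  have h5 := hr a
  have h6 : (D a).length ≤ r.eval (sz a) := by omega
  have h7 : (D a).length * (4 * (D a).length + 2) ≤ r.eval (sz a) * (4 * r.eval (sz a) + 2) :=
    Nat.mul_le_mul h6 (by omega)
  simp only [Polynomial.eval_add, Polynomial.eval_mul, Polynomial.eval_C]
  have h8 : (D a).length * (4 * (D a).length + 1 + 1) = (D a).length * (4 * (D a).length + 2) := by
    ring
  omega

end Pool.Agent.P8H87.V4
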