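import Mathlib
import Pool.Agent.P8H87.V4Rev

/-!
# The reduction in the other direction: the function
-/

namespace Pool.Agent.P8H87.V4

open Function Pool.Agent.W994.AR Pool.Agent.NPC Pool.Agent.P8H87

/-- closure of a relation under the permutations in `P` -/
def cl {K : ℕ} (P : Set (Equiv.Perm (Fin K))) {Y : Type} (Q : Set (Fin K → Y)) :
    Set (Fin K → Y) := {t | ∃ π ∈ P, t ∘ π ∈ Q}

/-- the tuple `t`, permuted by one of the permutations of the list, is a constraint -/
def inCl (PL : List (List ℕ)) (I : Inst) (t : List ℕ) : Bool :=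
  PL.any (fun π => decide ((0, π.map (fun k => t.getD k 0)) ∈ I.2))

/-- the tuple `g` is a copy of the gadget with the edges `El` -/
def copyB (PL : List (List ℕ)) (El : List (List ℕ)) (I : Inst) (g : List ℕ) : Bool :=
  El.all (fun s => inCl PL I (s.map (fun w => g.getD w 0)))

/-- the code of the block `b` of the copy `g` -/
def bcode (K : ℕ) (r : ℕ) (g : List ℕ) (b : ℕ) : ℕ := code r (fun k => g.getD (b * K + k) 0) K

/-- the pairs of equal variables -/
def eqP (K N : ℕ) (PL : List (List ℕ)) (eqL : List (List ℕ)) (I : Inst) : List (ℕ × ℕ) :=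
  ((tup (List.range I.1.length) N).filter (copyB PL eqL I)).map
    (fun g => (bcode K I.1.length g 0, bcode K I.1.length g 1))

/-- the constraints -/
def outR (K N : ℕ) (PL : List (List ℕ)) (eqL : List (List ℕ)) (TB : List (ℕ × List ℕ × List (List ℕ)))
    (I : Inst) : List (ℕ × List ℕ) :=
  TB.flatMap (fun q => ((tup (List.range I.1.length) N).filter (copyB PL q.2.2 I)).map
    (fun g => (q.1, q.2.1.map (fun b =>
      (lab (tup (List.range I.1.length) K).length (eqP K N PL eqL I)).getD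
        (bcode K I.1.length g b) 0))))

/-- the entries of each constraint are distinct -/
def nodB (K : ℕ) (I : Inst) : Bool :=
  I.2.all (fun p => (List.range K).all (fun i => (List.range K).all (fun j =>
    decide (i = j) || !decide (p.2.getD i 0 = p.2.getD j 0))))

/-- the reduction -/
def revF (K N n : ℕ) (PL : List (List ℕ)) (eqL : List (List ℕ))
    (TB : List (ℕ × List ℕ × List (List ℕ))) (I : Inst) : Inst :=
  bif okB [K] I && nodB K I then
    ((tup (List.range I.1.length) K).map (fun _ => ()), outR K N PL eqL TB I)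
  else ([], [(n, [])])

theorem poly_inCl (PL : List (List ℕ)) {α : Type} [TEnc α] {I : α → Inst} {t : α → List ℕ}
    (hI : NPC.Poly I) (ht : NPC.Poly t) : NPC.Poly (fun a => inCl PL (I a) (t a)) := by
  unfold inCl
  apply NPC.Poly.any (l := fun _ : α => PL) (p := fun a π =>
    decide ((0, π.map (fun k => (t a).getD k 0)) ∈ (I a).2)) (NPC.Poly.const PL)
  refine (NPC.Poly.decide_mem (f := fun q : α × List ℕ =>
    ((0, q.2.map (fun k => (t q.1).getD k 0)) : ℕ × List ℕ)) (l := fun q => (I q.1).2)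
    ?_ ?_).congr fun q => ?_
  · apply NPC.Poly.pair (NPC.Poly.const 0)
    apply NPC.Poly.map (l := fun q : α × List ℕ => q.2) (F := fun q k => (t q.1).getD k 0)
      (NPC.Poly.snd NPC.Poly.id)
    exact NPC.Poly.getD (ht.comp (NPC.Poly.fst (NPC.Poly.fst NPC.Poly.id)))
      (NPC.Poly.snd NPC.Poly.id) (NPC.Poly.const 0)
  · exact NPC.Poly.snd (hI.comp (NPC.Poly.fst NPC.Poly.id))
  · simp only [decide_eq_decide]

theorem poly_copyB (PL : List (List ℕ)) {α : Type} [TEnc α] {El : α → List (List ℕ)}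
    {I : α → Inst} {g : α → List ℕ} (hEl : NPC.Poly El) (hI : NPC.Poly I) (hg : NPC.Poly g) :
    NPC.Poly (fun a => copyB PL (El a) (I a) (g a)) := by
  unfold copyB
  apply NPC.Poly.all (l := El) (p := fun a s =>
    inCl PL (I a) (s.map (fun w => (g a).getD w 0))) hEl
  apply poly_inCl PL (hI.comp (NPC.Poly.fst NPC.Poly.id))
  apply NPC.Poly.map (l := fun q : α × List ℕ => q.2) (F := fun q w => (g q.1).getD w 0)
    (NPC.Poly.snd NPC.Poly.id)
  exact NPC.Poly.getD (hg.comp (NPC.Poly.fst (NPC.Poly.fst NPC.Poly.id)))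
    (NPC.Poly.snd NPC.Poly.id) (NPC.Poly.const 0)

theorem poly_bcode (K : ℕ) {α : Type} [TEnc α] {r : α → ℕ} {g : α → List ℕ} {b : α → ℕ}
    (hr : NPC.Poly r) (hg : NPC.Poly g) (hb : NPC.Poly b) :
    NPC.Poly (fun a => bcode K (r a) (g a) (b a)) := by
  unfold bcode
  apply poly_code hr
  intro k
  exact NPC.Poly.getD hg (NPC.Poly.add (NPC.Poly.mul hb (NPC.Poly.const K)) (NPC.Poly.const k))
    (NPC.Poly.const 0)

theorem poly_tupI (m : ℕ) {α : Type} [TEnc α] {I : α → Inst} (hI : NPC.Poly I) :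
    NPC.Poly (fun a => tup (List.range (I a).1.length) m) :=
  poly_tup (NPC.Poly.range_length (NPC.Poly.fst hI)) m

theorem poly_eqP (K N : ℕ) (PL : List (List ℕ)) (eqL : List (List ℕ)) {α : Type} [TEnc α]
    {I : α → Inst} (hI : NPC.Poly I) : NPC.Poly (fun a => eqP K N PL eqL (I a)) := by
  unfold eqP
  have h1 : NPC.Poly (fun a => (tup (List.range (I a).1.length) N).filter (copyB PL eqL (I a))) := by
    apply NPC.Poly.filter (p := fun a g => copyB PL eqL (I a) g) (poly_tupI N hI)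
    exact poly_copyB PL (NPC.Poly.const eqL) (hI.comp (NPC.Poly.fst NPC.Poly.id))
      (NPC.Poly.snd NPC.Poly.id)
  apply NPC.Poly.map (F := fun a g =>
    (bcode K (I a).1.length g 0, bcode K (I a).1.length g 1)) h1
  have h2 : NPC.Poly (fun p : α × List ℕ => (I p.1).1.length) :=
    NPC.Poly.length (NPC.Poly.fst (hI.comp (NPC.Poly.fst NPC.Poly.id)))
  exact NPC.Poly.pair (poly_bcode K h2 (NPC.Poly.snd NPC.Poly.id) (NPC.Poly.const 0))
    (poly_bcode K h2 (NPC.Poly.snd NPC.Poly.id) (NPC.Poly.const 1))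

theorem poly_outR (K N : ℕ) (PL : List (List ℕ)) (eqL : List (List ℕ))
    (TB : List (ℕ × List ℕ × List (List ℕ))) : NPC.Poly (fun I : Inst => outR K N PL eqL TB I) := by
  unfold outR
  apply NPC.Poly.flatMap (l := fun _ : Inst => TB) (F := fun I q =>
    ((tup (List.range I.1.length) N).filter (copyB PL q.2.2 I)).map
    (fun g => (q.1, q.2.1.map (fun b =>
      (lab (tup (List.range I.1.length) K).length (eqP K N PL eqL I)).getD
        (bcode K I.1.length g b) 0)))) (NPC.Poly.const TB)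
  have h1 : NPC.Poly (fun p : Inst × (ℕ × List ℕ × List (List ℕ)) =>
      (tup (List.range p.1.1.length) N).filter (copyB PL p.2.2.2 p.1)) := by
    apply NPC.Poly.filter (p := fun (p : Inst × (ℕ × List ℕ × List (List ℕ))) g =>
      copyB PL p.2.2.2 p.1 g) (poly_tupI N (NPC.Poly.fst NPC.Poly.id))
    exact poly_copyB PL (NPC.Poly.snd (NPC.Poly.snd (NPC.Poly.snd (NPC.Poly.fst NPC.Poly.id))))
      (NPC.Poly.fst (NPC.Poly.fst NPC.Poly.id)) (NPC.Poly.snd NPC.Poly.id)
  apply NPC.Poly.map (F := fun (p : Inst × (ℕ × List ℕ × List (List ℕ))) g =>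
    (p.2.1, p.2.2.1.map (fun b =>
      (lab (tup (List.range p.1.1.length) K).length (eqP K N PL eqL p.1)).getD
        (bcode K p.1.1.length g b) 0))) h1
  apply NPC.Poly.pair (NPC.Poly.fst (NPC.Poly.snd (NPC.Poly.fst NPC.Poly.id)))
  apply NPC.Poly.map (l := fun r : (Inst × (ℕ × List ℕ × List (List ℕ))) × List ℕ => r.1.2.2.1)
    (F := fun r b => (lab (tup (List.range r.1.1.1.length) K).length
      (eqP K N PL eqL r.1.1)).getD (bcode K r.1.1.1.length r.2 b) 0)
    (NPC.Poly.fst (NPC.Poly.snd (NPC.Poly.snd (NPC.Poly.fst NPC.Poly.id))))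
  have h2 : NPC.Poly (fun z : ((Inst × (ℕ × List ℕ × List (List ℕ))) × List ℕ) × ℕ => z.1.1.1) :=
    NPC.Poly.fst (NPC.Poly.fst (NPC.Poly.fst NPC.Poly.id))
  apply NPC.Poly.getD
  · exact poly_lab (poly_tupI K h2) (poly_eqP K N PL eqL h2)
  · exact poly_bcode K (NPC.Poly.length (NPC.Poly.fst h2))
      (NPC.Poly.snd (NPC.Poly.fst NPC.Poly.id)) (NPC.Poly.snd NPC.Poly.id)
  · exact NPC.Poly.const 0

theorem poly_nodB (K : ℕ) : NPC.Poly (fun I : Inst => nodB K I) := by
  unfold nodB
  apply NPC.Poly.all (l := fun I : Inst => I.2) (p := fun _ p =>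
    (List.range K).all (fun i => (List.range K).all (fun j =>
    decide (i = j) || !decide (p.2.getD i 0 = p.2.getD j 0)))) (NPC.Poly.snd NPC.Poly.id)
  apply NPC.Poly.all (l := fun _ : Inst × (ℕ × List ℕ) => List.range K) (p := fun q i =>
    (List.range K).all (fun j =>
    decide (i = j) || !decide (q.2.2.getD i 0 = q.2.2.getD j 0))) (NPC.Poly.const _)
  apply NPC.Poly.all (l := fun _ : (Inst × (ℕ × List ℕ)) × ℕ => List.range K) (p := fun r j =>
    decide (r.2 = j) || !decide (r.1.2.2.getD r.2 0 = r.1.2.2.getD j 0)) (NPC.Poly.const _)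
  apply NPC.Poly.or
  · exact NPC.Poly.decide_eq (NPC.Poly.snd (NPC.Poly.fst NPC.Poly.id)) (NPC.Poly.snd NPC.Poly.id)
  · apply NPC.Poly.not
    have h1 : NPC.Poly (fun z : ((Inst × (ℕ × List ℕ)) × ℕ) × ℕ => z.1.1.2.2) :=
      NPC.Poly.snd (NPC.Poly.snd (NPC.Poly.fst (NPC.Poly.fst NPC.Poly.id)))
    exact NPC.Poly.decide_eq
      (NPC.Poly.getD h1 (NPC.Poly.snd (NPC.Poly.fst NPC.Poly.id)) (NPC.Poly.const 0))
      (NPC.Poly.getD h1 (NPC.Poly.snd NPC.Poly.id) (NPC.Poly.const 0))

theorem poly_okB (arL : List ℕ) : NPC.Poly (fun I : Inst => okB arL I) := by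
  apply NPC.Poly.all (l := fun I : Inst => I.2) (p := fun I p =>
    decide (arL[p.1]? = some p.2.length) && p.2.all (fun a => decide (a < I.1.length)))
    (NPC.Poly.snd NPC.Poly.id)
  apply NPC.Poly.and
  · exact NPC.Poly.decide_eq (NPC.Poly.getElem? (NPC.Poly.const arL)
      (NPC.Poly.fst (NPC.Poly.snd NPC.Poly.id)))
      (NPC.Poly.some (NPC.Poly.length (NPC.Poly.snd (NPC.Poly.snd NPC.Poly.id))))
  · apply NPC.Poly.all (l := fun q : Inst × (ℕ × List ℕ) => q.2.2)
      (p := fun q a => decide (a < q.1.1.length)) (NPC.Poly.snd (NPC.Poly.snd NPC.Poly.id))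
    exact NPC.Poly.decide_lt (NPC.Poly.snd NPC.Poly.id)
      (NPC.Poly.length (NPC.Poly.fst (NPC.Poly.fst (NPC.Poly.fst NPC.Poly.id))))

theorem poly_revF (K N n : ℕ) (PL : List (List ℕ)) (eqL : List (List ℕ))
    (TB : List (ℕ × List ℕ × List (List ℕ))) : NPC.Poly (revF K N n PL eqL TB) := by
  unfold revF
  apply NPC.Poly.cond
  · exact NPC.Poly.and (poly_okB [K]) (poly_nodB K)
  · apply NPC.Poly.pair
    · exact NPC.Poly.map (F := fun _ _ => ()) (poly_tupI K NPC.Poly.id) (NPC.Poly.const ())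
    · exact poly_outR K N PL eqL TB
  · exact NPC.Poly.const _

end Pool.Agent.P8H87.V4
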