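import Mathlib
import Pool.Agent.P8H87.V4Fun

/-!
# The reduction in the other direction: correctness
-/

namespace Pool.Agent.P8H87.V4

open Function Pool.Agent.W994.AR Pool.Agent.NPC Pool.Agent.P8H87

section

variable {K N n : ℕ} {B : Type} {ar0 : Fin n → ℕ}

/-- the list of the permutations in `P` -/
noncomputable def permL (P : Set (Equiv.Perm (Fin K))) : List (List ℕ) := by
  classical
  exact (Set.toFinite P).toFinset.toList.map (fun π => List.ofFn (fun k => ((π k : Fin K) : ℕ)))

theorem mem_permL {P : Set (Equiv.Perm (Fin K))} {L : List ℕ} :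
    L ∈ permL P ↔ ∃ π ∈ P, L = List.ofFn (fun k => ((π k : Fin K) : ℕ)) := by
  classical
  unfold permL
  simp only [List.mem_map, Finset.mem_toList, Set.Finite.mem_toFinset]
  constructor
  · rintro ⟨s, hs, rfl⟩
    exact ⟨s, hs, rfl⟩
  · rintro ⟨s, hs, rfl⟩
    exact ⟨s, hs, rfl⟩

/-- the relation of the instance -/
def QI (K : ℕ) (I : Inst) : Set (Fin K → Fin I.1.length) :=
  {t | ((0 : ℕ), List.ofFn (fun k => ((t k : Fin I.1.length) : ℕ))) ∈ I.2}

theorem getD_ofFn {m r : ℕ} (g : Fin m → Fin r) (w : Fin m) :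
    (List.ofFn (fun k => ((g k : Fin r) : ℕ))).getD w 0 = g w := by
  rw [List.getD_eq_getElem _ _ (by simp), List.getElem_ofFn]

theorem inCl_iff {P : Set (Equiv.Perm (Fin K))} {I : Inst} (t : Fin K → Fin I.1.length) :
    inCl (permL P) I (List.ofFn (fun k => ((t k : Fin I.1.length) : ℕ))) = true ↔
      t ∈ cl P (QI K I) := by
  unfold inCl
  rw [List.any_eq_true]
  have key : ∀ π : Equiv.Perm (Fin K), (List.ofFn (fun k => ((π k : Fin K) : ℕ))).map
      (fun k => (List.ofFn (fun k => ((t k : Fin I.1.length) : ℕ))).getD k 0) =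
      List.ofFn (fun k => (((t ∘ π) k : Fin I.1.length) : ℕ)) := by
    intro π
    rw [List.map_ofFn]
    congr 1
    funext k
    exact getD_ofFn t (π k)
  constructor
  · rintro ⟨L, hL, h⟩
    obtain ⟨π, hπ, rfl⟩ := mem_permL.1 hL
    rw [decide_eq_true_eq, key] at h
    exact ⟨π, hπ, h⟩
  · rintro ⟨π, hπ, h⟩
    refine ⟨_, mem_permL.2 ⟨π, hπ, rfl⟩, ?_⟩
    rw [decide_eq_true_eq, key]
    exact h

theorem copyB_iff {P : Set (Equiv.Perm (Fin K))} {E : Set (Fin K → Fin N)} {I : Inst}
    (g : Fin N → Fin I.1.length) :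
    copyB (permL P) (V3.setL E) I (List.ofFn (fun k => ((g k : Fin I.1.length) : ℕ))) = true ↔
      ∀ s ∈ E, g ∘ s ∈ cl P (QI K I) := by
  unfold copyB
  rw [List.all_eq_true]
  have key : ∀ s : Fin K → Fin N, (List.ofFn (fun k => ((s k : Fin N) : ℕ))).map
      (fun k => (List.ofFn (fun k => ((g k : Fin I.1.length) : ℕ))).getD k 0) =
      List.ofFn (fun k => (((g ∘ s) k : Fin I.1.length) : ℕ)) := by
    intro s
    rw [List.map_ofFn]
    congr 1
    funext k
    exact getD_ofFn g (s k)
  constructor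
  · intro h s hs
    have h1 := h _ (V3.mem_setL.2 ⟨s, hs, rfl⟩)
    rw [key] at h1
    exact (inCl_iff _).1 h1
  · intro h L hL
    obtain ⟨s, hs, rfl⟩ := V3.mem_setL.1 hL
    rw [key]
    exact (inCl_iff _).2 (h s hs)

theorem mem_tup_range {r m : ℕ} {L : List ℕ} :
    L ∈ tup (List.range r) m ↔ ∃ g : Fin m → Fin r, L = List.ofFn (fun k => ((g k : Fin r) : ℕ)) := by
  rw [mem_tup]
  constructor
  · rintro ⟨h1, h2⟩
    subst h1
    refine ⟨fun k => ⟨L[k], ?_⟩, ?_⟩
    · have := h2 L[k] (List.getElem_mem k.2)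
      simpa using this
    · apply List.ext_getElem
      · simp
      · intro i h3 h4
        simp
  · rintro ⟨g, rfl⟩
    refine ⟨by simp, fun x hx => ?_⟩
    rw [List.mem_ofFn] at hx
    obtain ⟨k, rfl⟩ := hx
    simp

/-- the code of a tuple -/
def tcode {r : ℕ} (t : Fin K → Fin r) : ℕ := code r (fun k => if h : k < K then t ⟨k, h⟩ else 0) K

theorem tcode_lt {r : ℕ} (t : Fin K → Fin r) : tcode t < r ^ K := by
  apply code_lt
  intro k hk
  rw [dif_pos hk]
  exact (t ⟨k, hk⟩).2

theorem tcode_inj {r : ℕ} {t t' : Fin K → Fin r} (h : tcode t = tcode t') : t = t' := by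
  have h1 := code_inj (r := r) (m := K) (by
    intro k hk
    rw [dif_pos hk]
    exact (t ⟨k, hk⟩).2) (by
    intro k hk
    rw [dif_pos hk]
    exact (t' ⟨k, hk⟩).2) h
  funext k
  have h2 := h1 k k.2
  rw [dif_pos k.2, dif_pos k.2] at h2
  exact Fin.ext h2

theorem bcode_eq {r : ℕ} (g : Fin N → Fin r) {b : ℕ} (hb : (b + 1) * K ≤ N) (h0 : 0 < N) :
    bcode K r (List.ofFn (fun k => ((g k : Fin r) : ℕ))) b =
      tcode (fun i : Fin K => g (bl K N b i h0)) := by
  unfold bcode tcode
  apply code_congr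
  intro k hk
  rw [dif_pos hk]
  have h1 := bl_val (K := K) (N := N) (l := b) (i := ⟨k, hk⟩) (h := h0) hb
  rw [← getD_ofFn g (bl K N b ⟨k, hk⟩ h0), h1]

theorem nodB_iff {I : Inst} (hI : IsInst (fun _ : Fin 1 => K) I) :
    nodB K I = true ↔ ∀ t ∈ QI K I, Injective t := by
  unfold nodB
  simp only [List.all_eq_true, List.mem_range, Bool.or_eq_true, decide_eq_true_eq,
    Bool.not_eq_true', decide_eq_false_iff_not]
  constructor
  · intro h t ht i j hij
    rcases h _ ht i i.2 j j.2 with h1 | h1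
    · exact Fin.ext h1
    · exfalso
      apply h1
      simp only
      rw [getD_ofFn, getD_ofFn, hij]
  · intro h p hp i hi j hj
    obtain ⟨i0, h1, h2, h3⟩ := hI p hp
    have hi0 : i0 = 0 := Subsingleton.elim _ _
    subst hi0
    have h2' : p.2.length = K := h2
    let t : Fin K → Fin I.1.length := fun k => ⟨p.2[(k : ℕ)]'(by omega), h3 _ (List.getElem_mem _)⟩
    have hpt : p = ((0 : ℕ), List.ofFn (fun k => ((t k : Fin I.1.length) : ℕ))) := by
      apply Prod.ext
      · exact h1
      · apply List.ext_getElem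
        · simp [h2']
        · intro a h4 h5
          simp [t]
    have ht : t ∈ QI K I := by
      show _ ∈ I.2
      rw [← hpt]
      exact hp
    by_cases hij : i = j
    · exact Or.inl hij
    · right
      rw [hpt]
      simp only
      intro h6
      rw [getD_ofFn t ⟨i, hi⟩, getD_ofFn t ⟨j, hj⟩] at h6
      have h7 := h t ht (Fin.ext h6)
      simp only [Fin.mk.injEq] at h7
      exact hij h7

/-- the table of the reduction -/
noncomputable def tbl (ar0 : Fin n → ℕ) (E : Fin n ⊕ Unit → Set (Fin K → Fin N)) :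
    List (ℕ × List ℕ × List (List ℕ)) :=
  List.ofFn (fun i : Fin n => ((i : ℕ), List.range (ar0 i), V3.setL (E (Sum.inl i))))

/-- **Correctness.** -/
theorem revF_correct (𝔸 : Str (Fin n) ar0 B) [Nonempty B] (P : Set (Equiv.Perm (Fin K)))
    (E : Fin n ⊕ Unit → Set (Fin K → Fin N)) (h0 : 0 < N)
    (hblk : ∀ j (b : ℕ), b < arJ ar0 j → (b + 1) * K ≤ N) (I : Inst) :
    (IsInst (fun _ : Fin 1 => K) I ∧ (∀ t ∈ QI K I, Injective t) ∧
      ∃ a : (Fin K → Fin I.1.length) → B, ∀ j (g : Fin N → Fin I.1.length),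
        (∀ s ∈ E j, g ∘ s ∈ cl P (QI K I)) →
          (fun b : Fin (arJ ar0 j) => a (fun i => g (bl K N b i h0))) ∈ relJ 𝔸 j) ↔
    CSP 𝔸 (revF K N n (permL P) (V3.setL (E (Sum.inr ()))) (tbl ar0 E) I) := by
  classical
  have hok : okB [K] I = true ↔ IsInst (fun _ : Fin 1 => K) I := by
    have h1 := okB_iff (n := 1) (ar0 := fun _ => K) I
    rw [← h1]
    simp
  by_cases hI : IsInst (fun _ : Fin 1 => K) I
  swap
  · constructor
    · exact fun h => absurd h.1 hI
    · intro h
      exfalso
      unfold revF at h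
      have h1 : okB [K] I = false := by
        rw [← Bool.not_eq_true, hok]
        exact hI
      rw [h1] at h
      obtain ⟨i, h2, -⟩ := h.1 (n, []) (by simp)
      have := i.2
      simp only at h2
      omega
  by_cases hQ : ∀ t ∈ QI K I, Injective t
  swap
  · constructor
    · exact fun h => absurd h.2.1 hQ
    · intro h
      exfalso
      unfold revF at h
      have h1 : nodB K I = false := by
        rw [← Bool.not_eq_true, nodB_iff hI]
        exact hQ
      rw [h1, Bool.and_false] at h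
      obtain ⟨i, h2, -⟩ := h.1 (n, []) (by simp)
      have := i.2
      simp only at h2
      omega
  have hF : revF K N n (permL P) (V3.setL (E (Sum.inr ()))) (tbl ar0 E) I =
      ((tup (List.range I.1.length) K).map (fun _ => ()),
        outR K N (permL P) (V3.setL (E (Sum.inr ()))) (tbl ar0 E) I) := by
    unfold revF
    rw [hok.2 hI, (nodB_iff hI).2 hQ]
    rfl
  rw [hF]
  set r := I.1.length with hr
  have hlen : ((tup (List.range r) K).map (fun _ => ())).length = r ^ K := by
    rw [List.length_map, length_tup, List.length_range]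
  set eqs := eqP K N (permL P) (V3.setL (E (Sum.inr ()))) I with heqs
  -- the pairs of equal variables
  have heq : ∀ p, p ∈ eqs ↔ ∃ g : Fin N → Fin r, (∀ s ∈ E (Sum.inr ()), g ∘ s ∈ cl P (QI K I)) ∧
      p = (tcode (fun i : Fin K => g (bl K N 0 i h0)), tcode (fun i : Fin K => g (bl K N 1 i h0))) := by
    intro p
    rw [heqs]
    unfold eqP
    have hb0 : (0 + 1) * K ≤ N := hblk (Sum.inr ()) 0 (by simp)
    have hb1 : (1 + 1) * K ≤ N := hblk (Sum.inr ()) 1 (by simp)
    simp only [List.mem_map, List.mem_filter, mem_tup_range]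
    constructor
    · rintro ⟨L, ⟨⟨g, rfl⟩, h1⟩, rfl⟩
      refine ⟨g, (copyB_iff g).1 h1, ?_⟩
      rw [bcode_eq g hb0 h0, bcode_eq g hb1 h0]
    · rintro ⟨g, h1, rfl⟩
      refine ⟨_, ⟨⟨g, rfl⟩, (copyB_iff g).2 h1⟩, ?_⟩
      rw [bcode_eq g hb0 h0, bcode_eq g hb1 h0]
  have heqlt : ∀ p ∈ eqs, p.1 < r ^ K ∧ p.2 < r ^ K := by
    intro p hp
    obtain ⟨g, -, hpg⟩ := (heq p).1 hp
    rw [hpg]
    exact ⟨tcode_lt (fun i : Fin K => g (bl K N 0 i h0)),
      tcode_lt (fun i : Fin K => g (bl K N 1 i h0))⟩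
  have hlt : (tup (List.range r) K).length = r ^ K := by
    rw [length_tup, List.length_range]
  -- the constraints
  have hout : ∀ q, q ∈ outR K N (permL P) (V3.setL (E (Sum.inr ()))) (tbl ar0 E) I ↔
      ∃ (i : Fin n) (g : Fin N → Fin r), (∀ s ∈ E (Sum.inl i), g ∘ s ∈ cl P (QI K I)) ∧
        q = ((i : ℕ), List.ofFn (fun b : Fin (ar0 i) =>
          (lab (r ^ K) eqs).getD (tcode (fun k : Fin K => g (bl K N b k h0))) 0)) := by
    intro q
    unfold outR tbl
    simp only [List.mem_flatMap, List.mem_map, List.mem_filter, List.mem_ofFn, mem_tup_range]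
    have key : ∀ (i : Fin n) (g : Fin N → Fin r), (List.range (ar0 i)).map (fun b =>
        (lab (tup (List.range I.1.length) K).length
          (eqP K N (permL P) (V3.setL (E (Sum.inr ()))) I)).getD
          (bcode K I.1.length (List.ofFn (fun k => ((g k : Fin r) : ℕ))) b) 0) =
        List.ofFn (fun b : Fin (ar0 i) =>
          (lab (r ^ K) eqs).getD (tcode (fun k : Fin K => g (bl K N b k h0))) 0) := by
      intro i g
      rw [hlt, ← heqs]
      apply List.ext_getElem
      · simp
      · intro b h1 h2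
        have hb : b < ar0 i := by simpa using h1
        rw [List.getElem_map, List.getElem_range, List.getElem_ofFn]
        rw [bcode_eq g (hblk (Sum.inl i) b hb) h0]
    constructor
    · rintro ⟨x, ⟨i, rfl⟩, L, ⟨⟨g, rfl⟩, h1⟩, rfl⟩
      exact ⟨i, g, (copyB_iff g).1 h1, by rw [key]⟩
    · rintro ⟨i, g, h1, rfl⟩
      exact ⟨_, ⟨i, rfl⟩, _, ⟨⟨g, rfl⟩, (copyB_iff g).2 h1⟩, by rw [key]⟩
  constructor
  · rintro ⟨-, -, a, ha⟩
    -- the colouring on codes
    let a' : ℕ → B := fun c => if h : ∃ t : Fin K → Fin r, tcode t = c then a h.choose else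
      Classical.arbitrary B
    have ha' : ∀ t : Fin K → Fin r, a' (tcode t) = a t := by
      intro t
      have h : ∃ t' : Fin K → Fin r, tcode t' = tcode t := ⟨t, rfl⟩
      simp only [a', dif_pos h]
      congr 1
      exact tcode_inj h.choose_spec
    have haeq : ∀ p ∈ eqs, a' p.1 = a' p.2 := by
      intro p hp
      obtain ⟨g, hg, rfl⟩ := (heq p).1 hp
      simp only [ha']
      exact ha (Sum.inr ()) g hg
    refine ⟨?_, fun x => a' x, ?_⟩
    · intro q hq
      obtain ⟨i, g, hg, rfl⟩ := (hout q).1 hq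
      refine ⟨i, rfl, by simp, ?_⟩
      intro x hx
      simp only [List.mem_ofFn] at hx
      obtain ⟨b, rfl⟩ := hx
      show _ < ((tup (List.range r) K).map (fun _ => ())).length
      rw [hlen]
      exact lab_lt heqlt (tcode_lt _)
    · intro i v hv
      obtain ⟨i', g, hg, h1⟩ := (hout _).1 hv
      have h2 := congrArg Prod.fst h1
      have h3 : i' = i := Fin.ext h2.symm
      subst h3
      have h4 := List.ofFn_injective (congrArg Prod.snd h1)
      have h5 := ha (Sum.inl i') g hg
      have h6 : (fun j => a' (v j)) = fun b : Fin (ar0 i') => a (fun k => g (bl K N b k h0)) := by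
        funext b
        rw [congrFun h4 b, lab_val heqlt haeq (tcode_lt _), ha']
      rw [h6]
      exact h5
  · rintro ⟨hI', h, hh⟩
    refine ⟨hI, hQ, ?_⟩
    let h' : ℕ → B := fun x => if hx : x < ((tup (List.range r) K).map (fun _ => ())).length
      then h ⟨x, hx⟩ else Classical.arbitrary B
    refine ⟨fun t => h' ((lab (r ^ K) eqs).getD (tcode t) 0), ?_⟩
    rintro (i | _) g hg
    · have h1 := (hout _).2 ⟨i, g, hg, rfl⟩
      have h2 : ∀ b : Fin (ar0 i), (lab (r ^ K) eqs).getD
          (tcode (fun k : Fin K => g (bl K N b k h0))) 0 <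
          ((tup (List.range r) K).map (fun _ => ())).length := by
        intro b
        rw [hlen]
        exact lab_lt heqlt (tcode_lt _)
      have h3 := hh i (fun b => ⟨_, h2 b⟩) h1
      show (fun b : Fin (ar0 i) => h' ((lab (r ^ K) eqs).getD
        (tcode (fun k : Fin K => g (bl K N b k h0))) 0)) ∈ 𝔸 i
      have h4 : (fun b : Fin (ar0 i) => h' ((lab (r ^ K) eqs).getD
        (tcode (fun k : Fin K => g (bl K N b k h0))) 0)) = fun b => h ⟨_, h2 b⟩ := by
        funext b
        exact dif_pos (h2 b)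
      rw [h4]
      exact h3
    · show h' _ = h' _
      have h1 := lab_eq heqlt _ ((heq _).2 ⟨g, hg, rfl⟩)
      exact congrArg h' h1

end

end Pool.Agent.P8H87.V4
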