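import Mathlib
import Pool.Agent.P8H87.V4Cor
import Pool.Agent.P8H87.V3Main

/-!
# The common setting, and the pp-construction of the template
-/

namespace Pool.Agent.P8H87.V4

open Function Pool.Agent.W994.AR Pool.Agent.NPC Pool.Agent.P8H87

variable {K N A n : ℕ} {B : Type} {ar0 : Fin n → ℕ}

/-- the setting -/
structure Set4 (ar0 : Fin n → ℕ) (𝔸 : Str (Fin n) ar0 B) (P : Set (Equiv.Perm (Fin K)))
    (E : Fin n ⊕ Unit → Set (Fin K → Fin N)) (hK0 : 0 < K) (h0 : 0 < N) (G : Gad K N B) :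
    Prop where
  one : 1 ∈ P
  mul : ∀ π ∈ P, ∀ ρ ∈ P, π * ρ ∈ P
  valid : ∀ (Y : Type) (QY : Set (Fin K → Y)) (φY : (Fin K → Y) → B), (∀ t ∈ QY, Injective t) →
    (∀ j (g : Fin N → Y), (∀ s ∈ E j, g ∘ s ∈ cl P QY) →
      (fun b : Fin (arJ ar0 j) => φY (fun i => g (bl K N b i h0))) ∈ relJ 𝔸 j) → G.Valid QY φY
  copy : ∀ (Y : Type) (QY : Set (Fin K → Y)) (φY : (Fin K → Y) → B), G.Valid QY φY →
    ∀ j (g : Fin N → Y), (∀ s ∈ E j, g ∘ s ∈ cl P QY) →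
      (fun b : Fin (arJ ar0 j) => φY (fun i => g (bl K N b i h0))) ∈ relJ 𝔸 j
  inst : ∀ (m : ℕ) (ri : ℕ → Fin n) (xa : ℕ → ℕ → ℕ) (a : ℕ → B),
    (∀ c < m, (fun l : Fin (ar0 (ri c)) => a (xa c l)) ∈ 𝔸 (ri c)) →
      G.Valid (V3.QVg N h0 E ar0 m ri xa) (phiV hK0 xa a)

variable {𝔸 : Str (Fin n) ar0 B} {P : Set (Equiv.Perm (Fin K))}
  {E : Fin n ⊕ Unit → Set (Fin K → Fin N)} {hK0 : 0 < K} {h0 : 0 < N} {G : Gad K N B}
  {Ω : Type} {Q : Set (Fin K → Ω)} {φ : (Fin K → Ω) → B}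

theorem Set4.cl_cl (S : Set4 ar0 𝔸 P E hK0 h0 G) {Y Z : Type} {QY : Set (Fin K → Y)}
    {QZ : Set (Fin K → Z)} {h : Y → Z} (hh : ∀ t ∈ QY, h ∘ t ∈ cl P QZ) {t : Fin K → Y}
    (ht : t ∈ cl P QY) : h ∘ t ∈ cl P QZ := by
  obtain ⟨π, hπ, h1⟩ := ht
  obtain ⟨ρ, hρ, h2⟩ := hh _ h1
  exact ⟨π * ρ, S.mul π hπ ρ hρ, h2⟩

/-- the instances of the new template -/
theorem Set4.csp (S : Set4 ar0 𝔸 P E hK0 h0 G) [Nonempty Ω] (hV : G.Valid Q φ) (hE : G.Ext Q φ)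
    (I : Inst) : CSP (fun _ : Fin 1 => cl P Q) I ↔
    (IsInst (fun _ : Fin 1 => K) I ∧ (∀ t ∈ QI K I, Injective t) ∧
      ∃ a : (Fin K → Fin I.1.length) → B, ∀ j (g : Fin N → Fin I.1.length),
        (∀ s ∈ E j, g ∘ s ∈ cl P (QI K I)) →
          (fun b : Fin (arJ ar0 j) => a (fun i => g (bl K N b i h0))) ∈ relJ 𝔸 j) := by
  constructor
  · rintro ⟨hI, h, hh⟩
    have h1 : ∀ t ∈ QI K I, h ∘ t ∈ cl P Q := fun t ht => hh 0 t ht
    refine ⟨hI, ?_, fun t => φ (h ∘ t), ?_⟩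
    · intro t ht
      obtain ⟨π, -, h2⟩ := h1 t ht
      have h3 := (hV.1 _ h2).comp π⁻¹.injective
      have h4 : ((h ∘ t) ∘ π) ∘ (π⁻¹ : Equiv.Perm (Fin K)) = h ∘ t := by
        funext i
        simp
      rw [h4] at h3
      exact Injective.of_comp h3
    · intro j g hg
      exact S.copy Ω Q φ hV j (h ∘ g) (fun s hs => S.cl_cl h1 (hg s hs))
  · rintro ⟨hI, hinj, a, ha⟩
    obtain ⟨e, he⟩ := hE.embed (S.valid _ (QI K I) a hinj ha) hK0
    refine ⟨hI, e, ?_⟩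
    intro i v hv
    have hi : i = 0 := Subsingleton.elim _ _
    subst hi
    exact ⟨1, S.one, ((he.2 v (fun _ => Set.mem_univ _)).1).1 hv⟩

/-- **The new CSP reduces to the old one.** -/
theorem Set4.rev (S : Set4 ar0 𝔸 P E hK0 h0 G) [Nonempty B] [Nonempty Ω] (hV : G.Valid Q φ)
    (hE : G.Ext Q φ) (hblk : ∀ j (b : ℕ), b < arJ ar0 j → (b + 1) * K ≤ N) :
    Reduces (lang (CSP (fun _ : Fin 1 => cl P Q))) (lang (CSP 𝔸)) :=
  reduces_lang (poly_revF K N n (permL P) (V3.setL (E (Sum.inr ()))) (tbl ar0 E)) fun I =>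
    (S.csp hV hE I).trans (revF_correct 𝔸 P E h0 hblk I)

/-- pp-definability of the relations given by a finite structure -/
theorem pp_struct [Nonempty Ω] (R : Set (Fin K → Ω)) {X Y : Type} [Finite Y] (m : Y → X)
    (T : Set (Fin K → X)) (hT : T.Finite) (Eq : Set (X × X)) (hEq : Eq.Finite) :
    PP (ι := Fin 1) (ar := fun _ => K) (fun _ => R)
      {z : Y → Ω | ∃ h : X → Ω, (∀ y, h (m y) = z y) ∧ (∀ p ∈ Eq, h p.1 = h p.2) ∧
        ∀ t ∈ T, h ∘ t ∈ R} := by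
  classical
  let F : Set X := Set.range m ∪ ((⋃ t ∈ T, Set.range t) ∪ (Prod.fst '' Eq ∪ Prod.snd '' Eq))
  have hF : F.Finite := (Set.finite_range m).union
    ((Set.Finite.biUnion hT (fun t _ => Set.finite_range t)).union ((hEq.image _).union (hEq.image _)))
  have : Finite F := hF.to_subtype
  let W := F
  let mW : Y → W := fun y => ⟨m y, Or.inl ⟨y, rfl⟩⟩
  have h1 : PP (ι := Fin 1) (ar := fun _ => K) (fun _ => R) {w : Y ⊕ W → Ω |
      ∀ y ∈ (Set.univ : Set Y), w ∈ {w : Y ⊕ W → Ω | w (Sum.inr (mW y)) = w (Sum.inl y)}} :=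
    PP.iInter _ Set.finite_univ _ (fun y _ => PP.eq _ _)
  have h2 : PP (ι := Fin 1) (ar := fun _ => K) (fun _ => R) {w : Y ⊕ W → Ω |
      ∀ p ∈ {p : W × W | (p.1.1, p.2.1) ∈ Eq},
        w ∈ {w : Y ⊕ W → Ω | w (Sum.inr p.1) = w (Sum.inr p.2)}} :=
    PP.iInter _ (Set.toFinite _) _ (fun p _ => PP.eq _ _)
  have h3 : PP (ι := Fin 1) (ar := fun _ => K) (fun _ => R) {w : Y ⊕ W → Ω |
      ∀ t ∈ {t : Fin K → W | (fun i => (t i).1) ∈ T},
        w ∈ {w : Y ⊕ W → Ω | w ∘ (fun i => Sum.inr (t i)) ∈ (fun _ : Fin 1 => R) 0}} :=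
    PP.iInter _ (Set.toFinite _) _ (fun t _ => PP.rel (ar := fun _ : Fin 1 => K) 0 _)
  have h4 := PP.ex (U := W) ((h1.inter h2).inter h3)
  convert h4 using 1
  ext z
  constructor
  · rintro ⟨h, e1, e2, e3⟩
    exact ⟨fun x => h x.1, ⟨fun y _ => e1 y, fun p hp => e2 _ hp⟩, fun t ht => e3 _ ht⟩
  · rintro ⟨v, ⟨e1, e2⟩, e3⟩
    let h : X → Ω := fun x => if hx : x ∈ F then v ⟨x, hx⟩ else Classical.arbitrary Ω
    have hh : ∀ x : W, h x.1 = v x := fun x => dif_pos x.2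
    refine ⟨h, ?_, ?_, ?_⟩
    · intro y
      have h5 : h (m y) = v (mW y) := hh (mW y)
      rw [h5]
      exact e1 y trivial
    · rintro ⟨x, y⟩ hp
      have hx : x ∈ F := Or.inr (Or.inr (Or.inl ⟨_, hp, rfl⟩))
      have hy : y ∈ F := Or.inr (Or.inr (Or.inr ⟨_, hp, rfl⟩))
      show h x = h y
      rw [hh ⟨x, hx⟩, hh ⟨y, hy⟩]
      exact e2 (⟨x, hx⟩, ⟨y, hy⟩) hp
    · intro t ht
      have hx : ∀ i, t i ∈ F := fun i =>
        Or.inr (Or.inl (Set.mem_biUnion (x := t) ht ⟨i, rfl⟩))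
      have h5 : h ∘ t = fun i => v ⟨t i, hx i⟩ := by
        funext i
        exact hh ⟨t i, hx i⟩
      rw [h5]
      exact e3 (fun i => ⟨t i, hx i⟩) ht

/-- the constraints hold for the colours of the variable blocks -/
theorem Set4.back (S : Set4 ar0 𝔸 P E hK0 h0 G) (hV : G.Valid Q φ) {A : ℕ}
    (hA : 2 ≤ A) (hN : K * A ≤ N) (har : ∀ i, ar0 i ≤ A) {m : ℕ} {ri : ℕ → Fin n}
    {xa : ℕ → ℕ → ℕ} {h : Vx K N → Ω} (hh : ∀ t ∈ V3.QVg N h0 E ar0 m ri xa, h ∘ t ∈ cl P Q)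
    {c : ℕ} (hc : c < m) :
    (fun l : Fin (ar0 (ri c)) => φ (fun i => h (Sum.inl (xa c l, i)))) ∈ 𝔸 (ri c) := by
  have hKA : 2 * K ≤ K * A := by
    rw [mul_comm]
    exact Nat.mul_le_mul_left K hA
  have h1 := S.copy Ω Q φ hV (Sum.inl (ri c)) (h ∘ pc K N h0 xa (Sum.inl c)) (fun s hs =>
    hh (pc K N h0 xa (Sum.inl c) ∘ s) ⟨Sum.inl c, hc, s, hs, rfl⟩)
  have h5 : (fun l : Fin (ar0 (ri c)) => φ (fun i => h (Sum.inl (xa c l, i)))) =
      (fun b : Fin (ar0 (ri c)) => φ (fun i => (h ∘ pc K N h0 xa (Sum.inl c)) (bl K N b i h0))) := by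
    funext l
    have h3 : ((l : ℕ) + 1) * K ≤ K * A := by
      rw [mul_comm]
      exact Nat.mul_le_mul_left K (by have := har (ri c); omega)
    have h2 : φ (fun i => (h ∘ pc K N h0 xa (Sum.inr (c, (l : ℕ)))) (bl K N ((0 : Fin 2) : ℕ) i h0)) =
        φ (fun i => (h ∘ pc K N h0 xa (Sum.inr (c, (l : ℕ)))) (bl K N ((1 : Fin 2) : ℕ) i h0)) :=
      S.copy Ω Q φ hV (Sum.inr ()) (h ∘ pc K N h0 xa (Sum.inr (c, (l : ℕ)))) (fun s hs =>
        hh (pc K N h0 xa (Sum.inr (c, (l : ℕ))) ∘ s)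
          ⟨Sum.inr (c, (l : ℕ)), ⟨hc, l.2⟩, s, hs, rfl⟩)
    have e1 : (fun i => (h ∘ pc K N h0 xa (Sum.inr (c, (l : ℕ)))) (bl K N ((0 : Fin 2) : ℕ) i h0)) =
        fun i => h (Sum.inl (xa c l, i)) := by
      funext i
      simp only [comp_apply]
      congr 1
      have e0 : (bl K N ((0 : Fin 2) : ℕ) i h0 : ℕ) = i := by
        rw [bl_val (by simp; omega)]
        simp
      have hi := i.2
      simp only [pc, e0]
      rw [dif_pos hi]
    have e2 : (fun i => (h ∘ pc K N h0 xa (Sum.inr (c, (l : ℕ)))) (bl K N ((1 : Fin 2) : ℕ) i h0)) =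
        fun i => (h ∘ pc K N h0 xa (Sum.inl c)) (bl K N l i h0) := by
      funext i
      simp only [comp_apply]
      congr 1
      have hi := i.2
      have e0 : (bl K N ((1 : Fin 2) : ℕ) i h0 : ℕ) = K + i := by
        rw [bl_val (by simp; omega)]
        simp
      have e3 : (bl K N (l : ℕ) i h0 : ℕ) = l * K + i := bl_val (by omega)
      simp only [pc, e0]
      rw [dif_neg (by omega), if_pos (by omega)]
      congr 3
      apply Fin.ext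
      rw [e3, blN_val (by omega) (by omega)]
      omega
    rw [e1, e2] at h2
    exact h2
  rw [h5]
  exact h1

end Pool.Agent.P8H87.V4
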