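import Mathlib
import Pool.Agent.P8H87.V4Set

/-!
# The new template pp-constructs `K₃` if the old one does
-/

namespace Pool.Agent.P8H87.V4

open Function Pool.Agent.W994.AR Pool.Agent.NPC Pool.Agent.P8H87

variable {K N n : ℕ} {B : Type} {ar0 : Fin n → ℕ}

variable {𝔸 : Str (Fin n) ar0 B} {P : Set (Equiv.Perm (Fin K))}
  {E : Fin n ⊕ Unit → Set (Fin K → Fin N)} {hK0 : 0 < K} {h0 : 0 < N} {G : Gad K N B}
  {Ω : Type} {Q : Set (Fin K → Ω)} {φ : (Fin K → Ω) → B}

theorem finite_VP {A : ℕ} (har : ∀ i, ar0 i ≤ A) (m : ℕ) (ri : ℕ → Fin n) :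
    {p : ℕ ⊕ (ℕ × ℕ) | VP ar0 m ri p}.Finite := by
  have h1 : {p : ℕ ⊕ (ℕ × ℕ) | VP ar0 m ri p} ⊆
      (Sum.inl '' Set.Iio m) ∪ (Sum.inr '' (Set.Iio m ×ˢ Set.Iio A)) := by
    rintro (c | ⟨c, l⟩) hv
    · exact Or.inl ⟨c, hv, rfl⟩
    · exact Or.inr ⟨(c, l), ⟨hv.1, lt_of_lt_of_le hv.2 (har _)⟩, rfl⟩
  exact (((Set.finite_Iio m).image _).union
    (((Set.finite_Iio m).prod (Set.finite_Iio A)).image _)).subset h1

theorem finite_QVg {A : ℕ} (har : ∀ i, ar0 i ≤ A) (m : ℕ) (ri : ℕ → Fin n) (xa : ℕ → ℕ → ℕ) :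
    (V3.QVg N h0 E ar0 m ri xa).Finite := by
  refine (Set.Finite.biUnion (finite_VP har m ri) (t := fun p =>
    (fun s => pc K N h0 xa p ∘ s) '' (E (typ ri p))) (fun p _ => (Set.toFinite _).image _)).subset ?_
  rintro t ⟨p, hp, s, hs, rfl⟩
  exact Set.mem_biUnion (x := p) hp ⟨s, hs, rfl⟩

/-- the structure of a satisfiable instance embeds -/
theorem Set4.emb (S : Set4 ar0 𝔸 P E hK0 h0 G) [Nonempty Ω] (hE : G.Ext Q φ) {A : ℕ}
    (har : ∀ i, ar0 i ≤ A) {m : ℕ} {ri : ℕ → Fin n} {xa : ℕ → ℕ → ℕ} {a : ℕ → B}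
    (ha : ∀ c < m, (fun l : Fin (ar0 (ri c)) => a (xa c l)) ∈ 𝔸 (ri c)) (Xs : Set ℕ)
    (hXs : Xs.Finite) :
    ∃ ε : Vx K N → Ω, (∀ t ∈ V3.QVg N h0 E ar0 m ri xa, ε ∘ t ∈ Q) ∧
      ∀ x ∈ Xs, φ (fun k => ε (Sum.inl (x, k))) = a x := by
  have hval := S.inst m ri xa a ha
  let F : Set (Vx K N) := (⋃ p ∈ {p | VP ar0 m ri p}, Set.range (pc K N h0 xa p)) ∪
    ⋃ x ∈ Xs, Set.range (fun k : Fin K => (Sum.inl (x, k) : Vx K N))
  have hF : F.Finite := (Set.Finite.biUnion (finite_VP har m ri) (fun p _ => Set.finite_range _)).union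
    (Set.Finite.biUnion hXs (fun x _ => Set.finite_range _))
  obtain ⟨ε, hε, -⟩ := hE.many hval Set.finite_empty (e := fun _ => Classical.arbitrary Ω)
    ⟨fun x hx => hx.elim, fun t ht => (ht ⟨0, hK0⟩).elim⟩ hF
  rw [Set.empty_union] at hε
  refine ⟨ε, fun t ht => ?_, fun x hx => ?_⟩
  · refine (hε.2 t ?_).1.1 ht
    obtain ⟨p, hv, s, -, rfl⟩ := ht
    intro i
    exact Or.inl (Set.mem_biUnion (x := p) hv ⟨s i, rfl⟩)
  · have h1 := (hε.2 (fun k : Fin K => (Sum.inl (x, k) : Vx K N))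
      (fun k => Or.inr (Set.mem_biUnion (x := x) hx ⟨k, rfl⟩))).2 (by
        intro k k' hkk
        simpa using hkk)
    exact h1.symm

/-- **The new template pp-constructs `K₃` if the old one does.** -/
theorem Set4.k3 (S : Set4 ar0 𝔸 P E hK0 h0 G) [Countable B] [Nonempty B] [Nonempty Ω]
    (hV : G.Valid Q φ) (hE : G.Ext Q φ) {A : ℕ} (hA : 2 ≤ A) (hN : K * A ≤ N)
    (har : ∀ i, ar0 i ≤ A) (h : PPConstructsK3 𝔸) :
    PPConstructsK3 (ι := Fin 1) (ar := fun _ => K) (fun _ => cl P Q) := by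
  classical
  obtain ⟨n', E0, hn', ⟨q, Φ, hΦ⟩, ⟨f, hf⟩, ⟨g, hg⟩⟩ := h
  let V0 : Type := (Fin n' ⊕ Fin n') ⊕ Fin q
  let RL : List (Σ i : Fin n, (Fin (ar0 i) → V0)) := Φ.filterMap (fun ψ => match ψ with
    | Atom.rel i x => some ⟨i, x⟩
    | Atom.eq _ _ => none)
  have hRL : ∀ (i : Fin n) (x : Fin (ar0 i) → V0), (⟨i, x⟩ : Σ i : Fin n, (Fin (ar0 i) → V0)) ∈ RL ↔
      Atom.rel i x ∈ Φ := by
    intro i x
    simp only [RL, List.mem_filterMap]
    constructor
    · rintro ⟨ψ, hψ, h1⟩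
      cases ψ with
      | eq _ _ => simp at h1
      | rel i' x' =>
        simp only [Option.some.injEq, Sigma.mk.injEq] at h1
        obtain ⟨rfl, h1⟩ := h1
        rw [eq_of_heq h1] at hψ
        exact hψ
    · intro h1
      exact ⟨_, h1, rfl⟩
  rcases Nat.eq_zero_or_pos RL.length with hlen | hlen
  · -- no relational atoms
    exfalso
    have hnil : RL = [] := List.length_eq_zero_iff.1 hlen
    have b : B := Classical.arbitrary B
    have h1 : Sum.elim (fun _ => b) (fun _ => b) ∈ E0 := by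
      rw [hΦ]
      refine ⟨fun _ => b, fun ψ hψ => ?_⟩
      cases ψ with
      | eq x y =>
        show Sum.elim (Sum.elim (fun _ => b) (fun _ => b)) (fun _ => b) x =
          Sum.elim (Sum.elim (fun _ => b) (fun _ => b)) (fun _ => b) y
        rcases x with (x | x) | x <;> rcases y with (y | y) | y <;> rfl
      | rel i x =>
        have h2 := (hRL i x).2 hψ
        rw [hnil] at h2
        simp at h2
    exact hg _ _ h1 rfl
  obtain ⟨vc, hvc⟩ := Countable.exists_injective_nat V0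
  obtain ⟨cB, hcB⟩ := Countable.exists_injective_nat B
  have hV0 : Nonempty V0 := ⟨Sum.inl (Sum.inl ⟨0, hn'⟩)⟩
  let vd : ℕ → V0 := Function.invFun vc
  have hvd : ∀ x, vd (vc x) = x := Function.leftInverse_invFun hvc
  let dB : ℕ → B := Function.invFun cB
  have hdB : ∀ x, dB (cB x) = x := Function.leftInverse_invFun hcB
  -- the instance of the formula
  let RLf : Fin RL.length → Σ i : Fin n, (Fin (ar0 i) → V0) := fun c => RL.get c
  have hRLf : ∀ c, Atom.rel (RLf c).1 (RLf c).2 ∈ Φ := fun c => (hRL _ _).1 (List.get_mem RL c)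
  let decR : ℕ → Fin RL.length := fun c => ⟨c % RL.length, Nat.mod_lt _ hlen⟩
  let XR : Fin RL.length → ℕ → ℕ := fun c l =>
    if h : l < ar0 (RLf c).1 then vc ((RLf c).2 ⟨l, h⟩) else 0
  let ri : ℕ → Fin n := fun c => (RLf (decR c)).1
  let xa : ℕ → ℕ → ℕ := fun c l => XR (decR c) l
  let QF : Set (Fin K → Vx K N) := V3.QVg N h0 E ar0 RL.length ri xa
  -- witnesses
  have h1 : ∀ pp : OP, ∃ u : Fin q → B, ∀ ψ ∈ Φ,
      ψ.Holds 𝔸 (Sum.elim (Sum.elim (f pp.1.1) (f pp.1.2)) u) := fun pp =>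
    (hΦ _).1 (hf _ _ pp.2)
  choose u hu using h1
  let vals : OP → V0 → B := fun pp => Sum.elim (Sum.elim (f pp.1.1) (f pp.1.2)) (u pp)
  -- the instance of all witnesses
  let D : Type := OP × Fin RL.length
  have hDne : Nonempty D := ⟨(Classical.arbitrary OP, ⟨0, hlen⟩)⟩
  obtain ⟨m', ⟨eD⟩⟩ := Finite.exists_equiv_fin D
  let code : D → ℕ := fun d => eD d
  let dec : ℕ → D := fun c => if h : c < m' then eD.symm ⟨c, h⟩ else Classical.arbitrary D
  have hdec : ∀ d, dec (code d) = d := by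
    intro d
    simp only [dec, code]
    rw [dif_pos (eD d).2]
    simp
  let XD : D → ℕ → ℕ := fun d l =>
    if h : l < ar0 (RLf d.2).1 then cB (vals d.1 ((RLf d.2).2 ⟨l, h⟩)) else 0
  let RI : D → Fin n := fun d => (RLf d.2).1
  let ri' : ℕ → Fin n := fun c => RI (dec c)
  let xa' : ℕ → ℕ → ℕ := fun c l => XD (dec c) l
  have hsat : ∀ c < m', (fun l : Fin (ar0 (ri' c)) => dB (xa' c l)) ∈ 𝔸 (ri' c) := by
    intro c _
    have key : ∀ d : D, (fun l : Fin (ar0 (RI d)) => dB (XD d l)) ∈ 𝔸 (RI d) := by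
      intro d
      have h2 := hu d.1 _ (hRLf d.2)
      have h3 : (fun l : Fin (ar0 (RI d)) => dB (XD d l)) = fun l => vals d.1 ((RLf d.2).2 l) := by
        funext l
        simp only [XD]
        rw [dif_pos l.2, hdB]
      rw [h3]
      exact h2
    exact key (dec c)
  let Xs : Set ℕ := Set.range (fun z : Fin 3 × Fin n' => cB (f z.1 z.2))
  obtain ⟨ε, hε, hεx⟩ := S.emb hE har hsat Xs (Set.finite_range _)
  -- the relation
  let fp : Fin (n' * K) → Fin n' × Fin K := finProdFinEquiv.symm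
  let my : Fin (n' * K) ⊕ Fin (n' * K) → Vx K N :=
    Sum.elim (fun z => Sum.inl (vc (Sum.inl (Sum.inl (fp z).1)), (fp z).2))
      (fun z => Sum.inl (vc (Sum.inl (Sum.inr (fp z).1)), (fp z).2))
  let EqF : Atom (Fin n) ar0 V0 → Set (Vx K N × Vx K N) := fun ψ => match ψ with
    | Atom.eq x y => Set.range (fun k : Fin K =>
        ((Sum.inl (vc x, k) : Vx K N), (Sum.inl (vc y, k) : Vx K N)))
    | Atom.rel _ _ => ∅
  let Eqs : Set (Vx K N × Vx K N) := ⋃ ψ ∈ {ψ | ψ ∈ Φ}, EqF ψ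
  have hEqs : Eqs.Finite := by
    refine Set.Finite.biUnion (List.finite_toSet Φ) (t := EqF) ?_
    rintro (⟨x, y⟩ | ⟨i, x⟩) _
    · exact Set.finite_range _
    · exact Set.finite_empty
  have hPP := pp_struct (Ω := Ω) (cl P Q) my QF (finite_QVg har _ _ _) Eqs hEqs
  refine ⟨n' * K, _, Nat.mul_pos hn' hK0, hPP.toPPDef,
    ⟨fun p z => ε (Sum.inl (cB (f p (fp z).1), (fp z).2)), ?_⟩,
    ⟨fun z => g (fun i => φ (fun k => z (finProdFinEquiv (i, k)))), ?_⟩⟩
  · -- the three vertices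
    intro p p' hpp
    let pp : OP := ⟨(p, p'), hpp⟩
    let hp : Vx K N → Ω := fun v => match v with
      | Sum.inl (x, k) => ε (Sum.inl (cB (vals pp (vd x)), k))
      | Sum.inr (Sum.inl (c, w)) => ε (Sum.inr (Sum.inl (code (pp, decR c), w)))
      | Sum.inr (Sum.inr ((c, l), w)) => ε (Sum.inr (Sum.inr ((code (pp, decR c), l), w)))
    refine ⟨hp, ?_, ?_, ?_⟩
    · rintro (z | z)
      · show ε (Sum.inl (cB (vals pp (vd (vc (Sum.inl (Sum.inl (fp z).1))))), (fp z).2)) = _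
        rw [hvd]
        rfl
      · show ε (Sum.inl (cB (vals pp (vd (vc (Sum.inl (Sum.inr (fp z).1))))), (fp z).2)) = _
        rw [hvd]
        rfl
    · rintro ⟨a, b⟩ hab
      simp only [Eqs, Set.mem_iUnion] at hab
      obtain ⟨ψ, hψ, hab⟩ := hab
      cases ψ with
      | rel _ _ =>
        have hab' : (a, b) ∈ (∅ : Set (Vx K N × Vx K N)) := hab
        exact hab'.elim
      | eq x y =>
        obtain ⟨k, hk⟩ := hab
        simp only [Prod.mk.injEq] at hk
        obtain ⟨rfl, rfl⟩ := hk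
        show ε (Sum.inl (cB (vals pp (vd (vc x))), k)) = ε (Sum.inl (cB (vals pp (vd (vc y))), k))
        rw [hvd, hvd]
        have h2 : vals pp x = vals pp y := hu pp _ hψ
        rw [h2]
    · rintro t ⟨pl, hv, s, hs, rfl⟩
      -- pieces go to pieces
      rcases pl with c | ⟨c, l⟩
      · have h2 : hp ∘ (pc K N h0 xa (Sum.inl c) ∘ s) =
            ε ∘ (pc K N h0 xa' (Sum.inl (code (pp, decR c))) ∘ s) := rfl
        rw [h2]
        refine ⟨1, S.one, hε _ ⟨Sum.inl (code (pp, decR c)), (eD (pp, decR c)).2, s, ?_, rfl⟩⟩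
        show s ∈ E (Sum.inl (RI (dec (code (pp, decR c)))))
        rw [hdec]
        exact hs
      · have hl : l < ar0 (RLf (decR c)).1 := hv.2
        have h2 : hp ∘ (pc K N h0 xa (Sum.inr (c, l)) ∘ s) =
            ε ∘ (pc K N h0 xa' (Sum.inr (code (pp, decR c), l)) ∘ s) := by
          funext k
          simp only [comp_apply]
          rcases pc_cases (h0 := h0) (xa := xa) c l (s k) with ⟨hw, e⟩ | ⟨hw, hw2, e⟩ | ⟨hw, e⟩ <;>
            rcases pc_cases (h0 := h0) (xa := xa') (code (pp, decR c)) l (s k) with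
              ⟨hw', e'⟩ | ⟨hw', hw2', e'⟩ | ⟨hw', e'⟩ <;>
            rw [e, e'] <;> try omega
          show ε (Sum.inl (cB (vals pp (vd (XR (decR c) l))), _)) =
            ε (Sum.inl (XD (dec (code (pp, decR c))) l, _))
          rw [hdec]
          simp only [XR, XD]
          rw [dif_pos hl, dif_pos hl, hvd]
        rw [h2]
        refine ⟨1, S.one, hε _ ⟨Sum.inr (code (pp, decR c), l), ⟨(eD (pp, decR c)).2, ?_⟩, s, hs, rfl⟩⟩
        show l < ar0 (RI (dec (code (pp, decR c))))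
        rw [hdec]
        exact hl
  · -- the colouring
    rintro x y ⟨hh, e1, e2, e3⟩
    apply hg
    rw [hΦ]
    have hx : ∀ i, φ (fun k => x (finProdFinEquiv (i, k))) =
        φ (fun k => hh (Sum.inl (vc (Sum.inl (Sum.inl i)), k))) := by
      intro i
      congr 1
      funext k
      have := e1 (Sum.inl (finProdFinEquiv (i, k)))
      simp only [my, fp, Sum.elim_inl, Equiv.symm_apply_apply] at this
      exact this.symm
    have hy : ∀ i, φ (fun k => y (finProdFinEquiv (i, k))) =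
        φ (fun k => hh (Sum.inl (vc (Sum.inl (Sum.inr i)), k))) := by
      intro i
      congr 1
      funext k
      have := e1 (Sum.inr (finProdFinEquiv (i, k)))
      simp only [my, fp, Sum.elim_inr, Equiv.symm_apply_apply] at this
      exact this.symm
    refine ⟨fun z => φ (fun k => hh (Sum.inl (vc (Sum.inr z), k))), ?_⟩
    have hall : ∀ v : V0, Sum.elim (Sum.elim (fun i => φ (fun k => x (finProdFinEquiv (i, k))))
        (fun i => φ (fun k => y (finProdFinEquiv (i, k)))))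
        (fun z => φ (fun k => hh (Sum.inl (vc (Sum.inr z), k)))) v =
        φ (fun k => hh (Sum.inl (vc v, k))) := by
      rintro ((i | i) | z)
      · exact hx i
      · exact hy i
      · rfl
    intro ψ hψ
    cases ψ with
    | eq a b =>
      show _ = _
      rw [hall, hall]
      congr 1
      funext k
      exact e2 (Sum.inl (vc a, k), Sum.inl (vc b, k))
        (Set.mem_biUnion (t := EqF) (x := Atom.eq a b) hψ (Set.mem_range_self k))
    | rel i a =>
      show (fun j => _) ∈ 𝔸 i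
      have h2 : (fun j => Sum.elim (Sum.elim (fun i => φ (fun k => x (finProdFinEquiv (i, k))))
        (fun i => φ (fun k => y (finProdFinEquiv (i, k)))))
        (fun z => φ (fun k => hh (Sum.inl (vc (Sum.inr z), k)))) (a j)) =
          fun j => φ (fun k => hh (Sum.inl (vc (a j), k))) := by
        funext j
        exact hall _
      rw [h2]
      have h3 := (hRL i a).2 hψ
      obtain ⟨c, hc⟩ := List.mem_iff_get.1 h3
      have h4 := S.back hV hA hN har e3 c.2
      have hdc : decR c = c := Fin.ext (Nat.mod_eq_of_lt c.2)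
      have key : ∀ c' : Fin RL.length, c' = c →
          (fun l : Fin (ar0 (RLf c').1) => φ (fun k => hh (Sum.inl (XR c' l, k)))) ∈
            𝔸 (RLf c').1 → (fun j => φ (fun k => hh (Sum.inl (vc (a j), k)))) ∈ 𝔸 i := by
        rintro c' rfl h5
        have h6 : ∀ (z : Σ i : Fin n, (Fin (ar0 i) → V0)), z = ⟨i, a⟩ →
            (fun l : Fin (ar0 z.1) => φ (fun k => hh (Sum.inl
              ((if h : (l : ℕ) < ar0 z.1 then vc (z.2 ⟨l, h⟩) else 0), k)))) ∈ 𝔸 z.1 →
            (fun j => φ (fun k => hh (Sum.inl (vc (a j), k)))) ∈ 𝔸 i := by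
          rintro z rfl h7
          convert h7 using 1
          funext j
          simp
        exact h6 _ hc h5
      exact key (decR c) hdc h4

end Pool.Agent.P8H87.V4
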