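import Mathlib
import Pool.Agent.P8H87.V4K3
import Pool.Agent.P8H87.BPMain

/-!
# The two instances of the common setting
-/

namespace Pool.Agent.P8H87.V4

open Function Pool.Agent.W994.AR Pool.Agent.NPC Pool.Agent.P8H87

theorem cl_one {K : ℕ} {Y : Type} (Q : Set (Fin K → Y)) :
    cl ({1} : Set (Equiv.Perm (Fin K))) Q = Q := by
  ext t
  constructor
  · rintro ⟨π, rfl, h⟩
    exact h
  · intro h
    exact ⟨1, rfl, h⟩

theorem cl_univ {K : ℕ} {Y : Type} (Q : Set (Fin K → Y)) :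
    cl (Set.univ : Set (Equiv.Perm (Fin K))) Q = V3.sy Q := by
  ext t
  constructor
  · rintro ⟨π, -, h⟩
    exact ⟨π, h⟩
  · rintro ⟨π, h⟩
    exact ⟨π, trivial, h⟩

variable {K N A M n : ℕ} {B : Type} {ar0 : Fin n → ℕ} {u : Fin n ⊕ Unit → ℕ}

theorem set_GG (hp : Par K N A ar0 u) (𝔸 : Str (Fin n) ar0 B) (hK0 : 0 < K) (h0 : 0 < N) :
    Set4 ar0 𝔸 ({1} : Set (Equiv.Perm (Fin K))) (fun j => edg K N (u j)) hK0 h0 (GG hp 𝔸) where
  one := rfl
  mul := by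
    rintro π rfl ρ rfl
    simp
  valid := fun Y QY φY hinj h => ⟨hinj, fun j g hg => h j g (fun s hs => ⟨1, rfl, hg s hs⟩)⟩
  copy := fun Y QY φY hV j g hg => hV.2 j g (fun s hs => by
    have h1 := hg s hs
    rw [cl_one] at h1
    exact h1)
  inst := fun m ri xa a ha => valid_QV (h0 := h0) hp 𝔸 hK0 a ha

theorem set_GS (hp : V3.Par3 K N A M ar0 u) (𝔸 : Str (Fin n) ar0 B) (hK0 : 0 < K) (h0 : 0 < N) :
    Set4 ar0 𝔸 (Set.univ : Set (Equiv.Perm (Fin K)))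
      (fun j => V3.hedg K N (K * A) M (V3.cj K A u j)) hK0 h0 (V3.GS hp 𝔸) where
  one := trivial
  mul := fun _ _ _ _ => trivial
  valid := fun Y QY φY hinj h => ⟨hinj, fun p g hg => h p.1 g (fun s hs =>
    ⟨p.2 s, trivial, hg (s ∘ p.2 s) ⟨s, hs, rfl⟩⟩)⟩
  copy := fun Y QY φY hV j g hg => V3.sy_valid hp 𝔸 hV (j, fun _ => 1) g (by
    rintro _ ⟨s, hs, rfl⟩
    have h1 := hg s hs
    rw [cl_univ] at h1
    exact h1)
  inst := fun m ri xa a ha => V3.valid_QV (h0 := h0) hp 𝔸 hK0 a ha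

end Pool.Agent.P8H87.V4
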