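import Mathlib
import Pool.Agent.P8H87.V4Inst

/-!
# The construction, with both reductions
-/

namespace Pool.Agent.P8H87.V4

open Function Pool.Agent.W994.AR Pool.Agent.NPC Pool.Agent.P8H87

section

/-- **The construction**: relations. -/
theorem constructionR {B σ : Type} [Countable B] [Nonempty B] [Finite σ] {ar : σ → ℕ}
    (𝔹 : Str σ ar B) (hH : Homogeneous 𝔹) (hF : FinitelyBounded 𝔹) {n : ℕ} (f : Fin n → σ)
    (k : ℕ) (hk : 1 ≤ k) :
    ∃ (Ω : Type) (_ : Countable Ω) (_ : Nonempty Ω) (σ' : Type) (_ : Finite σ') (ar' : σ' → ℕ)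
      (𝔻 : Str σ' ar' Ω) (r : σ'), Homogeneous 𝔻 ∧ FinitelyBounded 𝔻 ∧
      (∀ F : Finset Ω, F.card ≤ k → ∀ h : Ω → Ω, Set.InjOn h F →
        ∃ g ∈ autGroup 𝔻, ∀ x ∈ F, g x = h x) ∧
      (∀ F : Finset Ω, ∀ x, x ∉ F →
        {y | ∃ g ∈ autGroup 𝔻, (∀ a ∈ F, g a = a) ∧ g x = y}.Infinite) ∧
      ar' r = k + 1 ∧ (∀ t ∈ 𝔻 r, Injective t) ∧
      (∀ I, CSP (fun _ : Fin 1 => 𝔻 r) I → ∃ h, IsSol (fun _ : Fin 1 => 𝔻 r) I h ∧ Injective h) ∧
      (PPConstructsK3 (fun _ : Fin 1 => 𝔻 r) ↔ PPConstructsK3 (fun i => 𝔹 (f i))) ∧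
      Reduces (lang (CSP (fun _ : Fin 1 => 𝔻 r))) (lang (CSP (fun i => 𝔹 (f i)))) ∧
      Reduces (lang (CSP (fun i => 𝔹 (f i)))) (lang (CSP (fun _ : Fin 1 => 𝔻 r))) := by
  classical
  have := Fintype.ofFinite σ
  -- parameters
  let K : ℕ := k + 1
  let A : ℕ := max 2 (Finset.univ.sup ar)
  let cd : Fin n ⊕ Unit → ℕ := Sum.elim (fun i => (i : ℕ)) (fun _ => n)
  have hcd : Injective cd := by
    rintro (i | _) (j | _) h
    · simp only [cd, Sum.elim_inl] at h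
      rw [Fin.ext h]
    · simp only [cd, Sum.elim_inl, Sum.elim_inr] at h
      have := i.2
      omega
    · simp only [cd, Sum.elim_inl, Sum.elim_inr] at h
      have := j.2
      omega
    · rfl
  have hcdle : ∀ j, cd j ≤ n := by
    rintro (i | _)
    · exact i.2.le
    · exact le_rfl
  let u : Fin n ⊕ Unit → ℕ := fun j => K * A + cd j
  let N : ℕ := K * A + n + K + 2
  have hp : Par K N A (fun i => ar (f i)) u :=
    { hK := by show 2 ≤ k + 1; omega
      hA := le_max_left _ _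
      har := fun i => (Finset.le_sup (f := ar) (Finset.mem_univ (f i))).trans (le_max_right _ _)
      inj := by
        intro a b h
        apply hcd
        have : K * A + cd a = K * A + cd b := h
        omega
      lo := fun j => Nat.le_add_right _ _
      hi := by
        intro j
        have := hcdle j
        show K * A + cd j + K + 2 ≤ K * A + n + K + 2
        omega }
  let 𝔸 : Str (Fin n) (fun i => ar (f i)) B := fun i => 𝔹 (f i)
  let G : Gad K N B := GG hp 𝔸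
  have hN1 : 1 ≤ N := by show 1 ≤ K * A + n + K + 2; omega
  obtain ⟨Ω, hΩ1, hΩ2, Q, φ, hV, hE⟩ := exists_generic G hN1
  let 𝔹e : Str (σ ⊕ Unit) (Sum.elim ar (fun _ => 2)) B := expand 𝔹 (eqRel B)
  have hHe : Homogeneous 𝔹e := homogeneous_expand hH (eqRel B) (eqRel_invar 𝔹)
  have hFe : FinitelyBounded 𝔹e := finitelyBounded_expand hH hF (eqRel B) (eqRel_invar 𝔹)
  have heq : ∃ s : σ ⊕ Unit, (∃ a b : Fin (Sum.elim ar (fun _ => 2) s), a ≠ b) ∧
      ∀ v, v ∈ 𝔹e s ↔ ∀ a b, v a = v b := by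
    refine ⟨Sum.inr (), ⟨(0 : Fin 2), (1 : Fin 2), fun h => ?_⟩, ?_⟩
    · have : (0 : Fin 2) = 1 := h
      exact absurd this (by decide)
    intro v
    constructor
    · intro (h : v (0 : Fin 2) = v (1 : Fin 2)) (a : Fin 2) (b : Fin 2)
      fin_cases a <;> fin_cases b
      · rfl
      · exact h
      · exact h.symm
      · rfl
    · intro h
      exact h (0 : Fin 2) (1 : Fin 2)
  have hinv : ∀ j : G.J, Invar (autGroup 𝔹e) (G.rel j) := by
    rintro (i | _)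
    · intro g hg v hv
      exact (expand_mem_aut hg (f i) v).1 hv
    · intro g hg v hv
      have : v (0 : Fin 2) = v (1 : Fin 2) := hv
      show g (v (0 : Fin 2)) = g (v (1 : Fin 2))
      rw [this]
  let sym : G.J → σ ⊕ Unit := fun j => Sum.elim (fun i => Sum.inl (f i)) (fun _ => Sum.inr ()) j
  have har : ∀ j, Sum.elim ar (fun _ => 2) (sym j) = G.ar j := by
    rintro (i | _) <;> rfl
  have hrel : ∀ j (w : Fin (G.ar j) → B), w ∈ G.rel j ↔ (w ∘ Fin.cast (har j)) ∈ 𝔹e (sym j) := by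
    rintro (i | _) w
    · exact Iff.rfl
    · exact Iff.rfl
  have hK1 : 1 ≤ K := by show 1 ≤ k + 1; omega
  have hQD : ∀ i : Fin 1, (∃ h : K = (fun _ : Fin 1 => bigAr K (Sum.elim ar (fun _ => 2)) none) i,
      ∀ v, v ∈ (fun _ : Fin 1 => big 𝔹e Q φ none) i ↔ v ∘ Fin.cast h ∈ Q) :=
    fun i => ⟨rfl, fun v => Iff.rfl⟩
  refine ⟨Ω, hΩ1, hΩ2, Option (σ ⊕ Unit), inferInstance, bigAr K (Sum.elim ar (fun _ => 2)),
    big 𝔹e Q φ, none, homogeneous_big hHe hV hE hinv heq,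
    finitelyBounded_big hFe hV hE hK1 sym har hrel heq, ?_, ?_, rfl, hV.1, ?_, ⟨?_, ?_⟩, ?_, ?_⟩
  · intro F hF h hh
    exact transitive_big hV hE hinv F h (Nat.lt_succ_of_le hF) hh
  · intro F x hx
    exact noAlg_big hV hE hinv F x hx
  · rintro I ⟨hI, h, hh⟩
    obtain ⟨h', hi, hh'⟩ := csp_inj hV hE hK1 h
    refine ⟨h', ?_, hi⟩
    intro i v hv
    exact hh' v (hh i v hv)
  · intro h
    obtain ⟨nf⟩ := exists_nf (Q := Q) (fun i => Or.inl (hQD i)) h
    have hfin : Finite G.J := inferInstanceAs (Finite (Fin n ⊕ Unit))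
    refine k3_descend hV hE hK1 hN1 ?_ nf
    rintro (i | _)
    · exact PP.rel (𝔸 := 𝔸) i id
    · exact PP.eq (𝔸 := 𝔸) (0 : Fin 2) (1 : Fin 2)
  · intro h
    have h1 := (set_GG hp 𝔸 hK1 hN1).k3 hV hE hp.hA (by have := hp.hN; omega) hp.har h
    rw [cl_one] at h1
    exact h1
  · have h1 := (set_GG hp 𝔸 hK1 hN1).rev hV hE (fun j b hb => by
      have h2 := hp.harJ j
      have h3 := hp.hN
      have h4 : (b + 1) * K ≤ arJ (fun i => ar (f i)) j * K := Nat.mul_le_mul_right K hb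
      omega)
    rw [cl_one] at h1
    exact h1
  · exact reduces_lang (poly_redF K N A _ _ _) (fun I => redF_correct hp 𝔸 hV hE
      (r := 0) (arD := fun _ : Fin 1 => bigAr K (Sum.elim ar (fun _ => 2)) none)
      (fun _ : Fin 1 => big 𝔹e Q φ none) rfl (fun v => Iff.rfl) I)

end

section

open Pool.Agent.P8H87.V3

/-- **The construction**: hypergraphs. -/
theorem constructionH {B σ : Type} [Countable B] [Nonempty B] [Finite σ] {ar : σ → ℕ}
    (𝔹 : Str σ ar B) (hH : Homogeneous 𝔹) (hF : FinitelyBounded 𝔹) {n : ℕ} (f : Fin n → σ)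
    (k : ℕ) (hk : 2 ≤ k) :
    ∃ (Ω : Type) (_ : Countable Ω) (_ : Nonempty Ω) (σ' : Type) (_ : Finite σ') (ar' : σ' → ℕ)
      (𝔻 : Str σ' ar' Ω) (r : σ'), Homogeneous 𝔻 ∧ FinitelyBounded 𝔻 ∧
      (∀ F : Finset Ω, F.card ≤ k → ∀ h : Ω → Ω, Set.InjOn h F →
        ∃ g ∈ autGroup 𝔻, ∀ x ∈ F, g x = h x) ∧
      (∀ F : Finset Ω, ∀ x, x ∉ F →
        {y | ∃ g ∈ autGroup 𝔻, (∀ a ∈ F, g a = a) ∧ g x = y}.Infinite) ∧
      ar' r = k + 1 ∧
      Uniform (𝔻 r) ∧ InjectiveSolutions (fun _ : Fin 1 => 𝔻 r) ∧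
      (PPConstructsK3 (fun _ : Fin 1 => 𝔻 r) ↔ PPConstructsK3 (fun i => 𝔹 (f i))) ∧
      Reduces (lang (CSP (fun _ : Fin 1 => 𝔻 r))) (lang (CSP (fun i => 𝔹 (f i)))) ∧
      Reduces (lang (CSP (fun i => 𝔹 (f i)))) (lang (CSP (fun _ : Fin 1 => 𝔻 r))) := by
  classical
  have := Fintype.ofFinite σ
  -- parameters
  let K : ℕ := k + 1
  let A : ℕ := max 2 (Finset.univ.sup ar)
  let cd : Fin n ⊕ Unit → ℕ := Sum.elim (fun i => (i : ℕ)) (fun _ => n)
  have hcd : Injective cd := by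
    rintro (i | _) (j | _) h
    · simp only [cd, Sum.elim_inl] at h
      rw [Fin.ext h]
    · simp only [cd, Sum.elim_inl, Sum.elim_inr] at h
      have := i.2
      omega
    · simp only [cd, Sum.elim_inl, Sum.elim_inr] at h
      have := j.2
      omega
    · rfl
  have hcdle : ∀ j, cd j ≤ n := by
    rintro (i | _)
    · exact i.2.le
    · exact le_rfl
  let u : Fin n ⊕ Unit → ℕ := fun j => K * A + cd j
  let N : ℕ := K * A + n + K + 2 + (K * A + 2 + (K * A + 2) * DD (K * A) n * (K - 1))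
  have hp0 : Par K N A (fun i => ar (f i)) u :=
    { hK := by show 2 ≤ k + 1; omega
      hA := le_max_left _ _
      har := fun i => (Finset.le_sup (f := ar) (Finset.mem_univ (f i))).trans (le_max_right _ _)
      inj := by
        intro a b h
        apply hcd
        have : K * A + cd a = K * A + cd b := h
        omega
      lo := fun j => Nat.le_add_right _ _
      hi := by
        intro j
        have := hcdle j
        show K * A + cd j + K + 2 ≤ K * A + n + K + 2 + _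
        omega }
  have hp : Par3 K N A n (fun i => ar (f i)) u :=
    { par := hp0
      big := { hK := by show 3 ≤ k + 1; omega
               hN := Nat.le_add_left _ _ }
      hM := fun j => Nat.add_le_add_left (hcdle j) _ }
  let 𝔸 : Str (Fin n) (fun i => ar (f i)) B := fun i => 𝔹 (f i)
  let G : Gad K N B := GS hp 𝔸
  have hN1 : 1 ≤ N := by show 1 ≤ K * A + n + K + 2 + _; omega
  obtain ⟨Ω, hΩ1, hΩ2, Q, φ, hV, hE⟩ := exists_generic G hN1
  let 𝔹e : Str (σ ⊕ Unit) (Sum.elim ar (fun _ => 2)) B := expand 𝔹 (eqRel B)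
  have hHe : Homogeneous 𝔹e := homogeneous_expand hH (eqRel B) (eqRel_invar 𝔹)
  have hFe : FinitelyBounded 𝔹e := finitelyBounded_expand hH hF (eqRel B) (eqRel_invar 𝔹)
  have heq : ∃ s : σ ⊕ Unit, (∃ a b : Fin (Sum.elim ar (fun _ => 2) s), a ≠ b) ∧
      ∀ v, v ∈ 𝔹e s ↔ ∀ a b, v a = v b := by
    refine ⟨Sum.inr (), ⟨(0 : Fin 2), (1 : Fin 2), fun h => ?_⟩, ?_⟩
    · have : (0 : Fin 2) = 1 := h
      exact absurd this (by decide)
    intro v
    constructor
    · intro (h : v (0 : Fin 2) = v (1 : Fin 2)) (a : Fin 2) (b : Fin 2)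
      fin_cases a <;> fin_cases b
      · rfl
      · exact h
      · exact h.symm
      · rfl
    · intro h
      exact h (0 : Fin 2) (1 : Fin 2)
  have hinv : ∀ j : G.J, Invar (autGroup 𝔹e) (G.rel j) := by
    rintro ⟨i | _, ch⟩
    · intro g hg v hv
      exact (expand_mem_aut hg (f i) v).1 hv
    · intro g hg v hv
      have : v (0 : Fin 2) = v (1 : Fin 2) := hv
      show g (v (0 : Fin 2)) = g (v (1 : Fin 2))
      rw [this]
  let sym : G.J → σ ⊕ Unit := fun j => Sum.elim (fun i => Sum.inl (f i)) (fun _ => Sum.inr ()) j.1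
  have har : ∀ j, Sum.elim ar (fun _ => 2) (sym j) = G.ar j := by
    rintro ⟨i | _, ch⟩ <;> rfl
  have hrel : ∀ j (w : Fin (G.ar j) → B), w ∈ G.rel j ↔ (w ∘ Fin.cast (har j)) ∈ 𝔹e (sym j) := by
    rintro ⟨i | _, ch⟩ w
    · exact Iff.rfl
    · exact Iff.rfl
  have hK1 : 1 ≤ K := by show 1 ≤ k + 1; omega
  let Qp : Set (Fin K → Ω) := sy Q
  have hQQ : Q ⊆ Qp := sub_sy Q
  have hQp : ∀ (j : G.J) (g : Fin N → Ω), (∀ s ∈ G.edges j, g ∘ s ∈ Qp) →
      (fun a => φ (g ∘ G.blk j a)) ∈ G.rel j := fun j g hg => sy_valid hp 𝔸 hV j g hg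
  let 𝔻0 : Str (Option (σ ⊕ Unit)) (bigAr K (Sum.elim ar (fun _ => 2))) Ω := big 𝔹e Q φ
  have hinvQ : ∀ j : Unit, Invar (autGroup 𝔻0) ((fun _ : Unit => Qp) j) := by
    intro _ g hg v hv
    obtain ⟨π, hπ⟩ := hv
    exact ⟨π, (hg none _).1 hπ⟩
  have hH0 : Homogeneous 𝔻0 := homogeneous_big hHe hV hE hinv heq
  have hF0 : FinitelyBounded 𝔻0 := finitelyBounded_big hFe hV hE hK1 sym har hrel heq
  have hautE : ∀ g ∈ autGroup 𝔻0, g ∈ autGroup (expand (k := fun _ : Unit => K) 𝔻0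
      (fun _ : Unit => Qp)) := fun g hg => V2.mem_aut_expand hinvQ hg
  refine ⟨Ω, hΩ1, hΩ2, Option (σ ⊕ Unit) ⊕ Unit, inferInstance,
    Sum.elim (bigAr K (Sum.elim ar (fun _ => 2))) (fun _ => K),
    expand (k := fun _ : Unit => K) 𝔻0 (fun _ : Unit => Qp), Sum.inr (),
    homogeneous_expand hH0 _ hinvQ, finitelyBounded_expand hH0 hF0 _ hinvQ, ?_, ?_, rfl, ?_, ?_, ⟨?_, ?_⟩, ?_, ?_⟩
  · intro F hF h hh
    obtain ⟨g, hg, hg2⟩ := transitive_big hV hE hinv F h (Nat.lt_succ_of_le hF) hh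
    exact ⟨g, hautE g hg, hg2⟩
  · intro F x hx
    refine (noAlg_big hV hE hinv F x hx).mono ?_
    rintro y ⟨g, hg, hg2⟩
    exact ⟨g, hautE g hg, hg2⟩
  · intro t ht
    exact ⟨sy_inj hV.1 ht, fun π => sy_perm ht π⟩
  · rintro I ⟨hI, h, hh⟩
    obtain ⟨h', hi, hh'⟩ := csp_inj hV hE hK1 h
    refine ⟨h', ?_, hi⟩
    intro i v hv
    obtain ⟨π, hπ⟩ := hh i v hv
    exact ⟨π, hh' (v ∘ π) hπ⟩
  · intro h
    obtain ⟨nf⟩ := V2.exists_nf (Q := Q) (Qp := Qp) hQQ (fun I _ v w h1 h2 h3 => by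
      exfalso
      apply h3
      intro a b hab
      exact sy_inj hV.1 (h1 (Classical.arbitrary I)) ((h2 a b).1 hab _)) (fun i => Or.inl ⟨rfl, fun v => Iff.rfl⟩) h
    have hfin : Finite G.J :=
      inferInstanceAs (Finite ((Fin n ⊕ Unit) × ((Fin K → Fin N) → Equiv.Perm (Fin K))))
    refine V2.k3_descend hE hQp hK1 hN1 ?_ nf
    rintro ⟨i | _, ch⟩
    · exact PP.rel (𝔸 := 𝔸) i id
    · exact PP.eq (𝔸 := 𝔸) (0 : Fin 2) (1 : Fin 2)
  · intro h
    have h1 := (set_GS hp 𝔸 hK1 hN1).k3 hV hE hp0.hA (by have := hp0.hN; omega) hp0.har h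
    rw [cl_univ] at h1
    exact h1
  · have h1 := (set_GS hp 𝔸 hK1 hN1).rev hV hE (fun j b hb => by
      have h2 := hp0.harJ j
      have h3 := hp0.hN
      have h4 : (b + 1) * K ≤ arJ (fun i => ar (f i)) j * K := Nat.mul_le_mul_right K hb
      omega)
    rw [cl_univ] at h1
    exact h1
  · exact reduces_lang (poly_redF K N A _ _ _) (fun I => redF_general hp0 𝔸
      (fun j => hedg K N (K * A) n (cj K A u j))
      (fun m ri xa h0 => V3.red_iff (h0 := h0) (ri := ri) hp 𝔸 hE hQQ hQp)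
      (r := 0) (arD := fun _ : Fin 1 => K)
      (fun _ : Fin 1 => Qp) rfl (fun v => Iff.rfl) I)

end

end Pool.Agent.P8H87.V4
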