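import Pool.Agent.P8H87.WangComp

/-!
# Wang tilings: computability of the finite tests
-/

namespace Pool.Agent.P8H87

open Primrec

section helpers

variable {γ δ : Type*} [Primcodable γ] [Primcodable δ]

theorem pp_imp {p q : γ → Prop} (hp : PrimrecPred p) (hq : PrimrecPred q) :
    PrimrecPred fun g => p g → q g :=
  (hp.not.or hq).of_eq fun g => by tauto

theorem pp_forall_mem {L : γ → List δ} (hL : Primrec L) {R : γ → δ → Prop}
    (hR : PrimrecPred fun q : γ × δ => R q.1 q.2) : PrimrecPred fun g => ∀ x ∈ L g, R g x := by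
  have h1 : PrimrecRel fun (x : δ) (g : γ) => R g x := hR.comp (Primrec.pair Primrec.snd Primrec.fst)
  exact h1.forall_mem_list.comp hL Primrec.id

theorem pp_exists_mem {L : γ → List δ} (hL : Primrec L) {R : γ → δ → Prop}
    (hR : PrimrecPred fun q : γ × δ => R q.1 q.2) : PrimrecPred fun g => ∃ x ∈ L g, R g x := by
  have h1 : PrimrecRel fun (x : δ) (g : γ) => R g x := hR.comp (Primrec.pair Primrec.snd Primrec.fst)
  exact h1.exists_mem_list.comp hL Primrec.id

theorem pp_forall_lt {b : γ → ℕ} (hb : Primrec b) {R : γ → ℕ → Prop}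
    (hR : PrimrecPred fun q : γ × ℕ => R q.1 q.2) : PrimrecPred fun g => ∀ x < b g, R g x :=
  (pp_forall_mem (Primrec.list_range.comp hb) hR).of_eq fun g => by simp

theorem pp_exists_lt {b : γ → ℕ} (hb : Primrec b) {R : γ → ℕ → Prop}
    (hR : PrimrecPred fun q : γ × ℕ => R q.1 q.2) : PrimrecPred fun g => ∃ x < b g, R g x :=
  (pp_exists_mem (Primrec.list_range.comp hb) hR).of_eq fun g => by simp

theorem pp_eq {f g : γ → δ} (hf : Primrec f) (hg : Primrec g) : PrimrecPred fun x => f x = g x :=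
  Primrec.eq.comp hf hg

theorem p_add {f g : γ → ℕ} (hf : Primrec f) (hg : Primrec g) : Primrec fun x => f x + g x :=
  Primrec.nat_add.comp hf hg

theorem p_mul {f g : γ → ℕ} (hf : Primrec f) (hg : Primrec g) : Primrec fun x => f x * g x :=
  Primrec.nat_mul.comp hf hg

end helpers

theorem p_factorial : Primrec Nat.factorial := by
  have h : Primrec fun n : ℕ => (Nat.rec 1 (fun k r => (k + 1) * r) n : ℕ) :=
    Primrec.nat_rec' Primrec.id (Primrec.const 1)
      (p_mul (Primrec.succ.comp (Primrec.fst.comp Primrec.snd)) (Primrec.snd.comp Primrec.snd)).to₂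
  refine h.of_eq fun n => ?_
  induction n with
  | zero => rfl
  | succ n ih =>
    rw [Nat.factorial_succ, ← ih]

theorem p_NN : Primrec NN := p_factorial

theorem p_MM : Primrec MM :=
  p_factorial.comp (p_mul (p_mul (Primrec.const 2) Primrec.id) Primrec.id)

theorem p_rr : Primrec rr :=
  p_mul (p_mul (p_mul (p_mul (Primrec.const 4) p_MM) (p_mul p_NN Primrec.id)) Primrec.id) Primrec.id

theorem p_RR : Primrec RR :=
  p_add (p_add (p_add p_rr Primrec.id) (p_mul (Primrec.const 2) (p_mul p_NN Primrec.id)))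
    (p_mul p_MM (p_mul p_NN Primrec.id))

theorem p_side : Primrec₂ side := by
  have : Primrec fun q : ℕ × ℕ => 2 * (RR q.1 + q.1 + q.2) + 1 :=
    p_add (p_mul (Primrec.const 2) (p_add (p_add (p_RR.comp Primrec.fst) Primrec.fst) Primrec.snd))
      (Primrec.const 1)
  exact this

theorem p_pats : Primrec₂ pats := by
  have h1 : Primrec₂ fun (q : (List Tile × ℕ) × (ℕ × List (List Tile))) (p : List Tile) =>
      q.1.1.map fun t => t :: p := by
    apply Primrec.list_map
    · exact Primrec.fst.comp (Primrec.fst.comp Primrec.fst)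
    · exact (Primrec.list_cons.comp Primrec.snd (Primrec.snd.comp Primrec.fst)).to₂
  have h2 : Primrec fun q : (List Tile × ℕ) × (ℕ × List (List Tile)) =>
      q.2.2.flatMap fun p => q.1.1.map fun t => t :: p :=
    Primrec.list_flatMap (Primrec.snd.comp Primrec.snd) h1
  have h3 : Primrec fun q : List Tile × ℕ =>
      (Nat.rec [[]] (fun _ r => r.flatMap fun p => q.1.map fun t => t :: p) q.2 :
        List (List Tile)) :=
    Primrec.nat_rec' Primrec.snd (Primrec.const [[]]) h2.to₂
  have h4 : Primrec fun q : List Tile × ℕ => pats q.1 q.2 := by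
    refine h3.of_eq ?_
    rintro ⟨S, k⟩
    induction k with
    | zero => rfl
    | succ k ih =>
      show _ = (pats S k).flatMap _
      rw [← ih]
  exact h4

/-- access to the entries -/
theorem p_get {γ : Type*} [Primcodable γ] {l : γ → List Tile} {i : γ → ℕ} (hl : Primrec l)
    (hi : Primrec i) : Primrec fun g => (l g).getD (i g) default :=
  (Primrec.list_getD (default : Tile)).comp hl hi

theorem pp_valid : PrimrecPred fun q : ℕ × List Tile => Valid q.1 q.2 := by
  unfold Valid
  apply pp_forall_lt Primrec.fst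
  apply pp_forall_lt (Primrec.fst.comp Primrec.fst)
  -- the point of the parameter space is `(((n, p), i), j)`
  have hn : Primrec fun q : ((ℕ × List Tile) × ℕ) × ℕ => q.1.1.1 :=
    Primrec.fst.comp (Primrec.fst.comp Primrec.fst)
  have hp : Primrec fun q : ((ℕ × List Tile) × ℕ) × ℕ => q.1.1.2 :=
    Primrec.snd.comp (Primrec.fst.comp Primrec.fst)
  have hi : Primrec fun q : ((ℕ × List Tile) × ℕ) × ℕ => q.1.2 :=
    Primrec.snd.comp Primrec.fst
  have hj : Primrec fun q : ((ℕ × List Tile) × ℕ) × ℕ => q.2 := Primrec.snd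
  have hi1 := p_add hi (Primrec.const 1)
  have hj1 := p_add hj (Primrec.const 1)
  have g0 := p_get hp (p_add (p_mul hi hn) hj)
  have g1 := p_get hp (p_add (p_mul hi1 hn) hj)
  have g2 := p_get hp (p_add (p_mul hi hn) hj1)
  apply PrimrecPred.and
  · apply pp_imp (Primrec.nat_lt.comp hi1 hn)
    exact pp_eq (Primrec.fst.comp g0)
      (Primrec.fst.comp (Primrec.snd.comp (Primrec.snd.comp g1)))
  · apply pp_imp (Primrec.nat_lt.comp hj1 hn)
    exact pp_eq (Primrec.fst.comp (Primrec.snd.comp g0))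
      (Primrec.snd.comp (Primrec.snd.comp (Primrec.snd.comp g2)))

theorem pp_propPer : PrimrecPred fun q : (ℕ × ℕ) × List Tile => PropPer q.1.1 q.1.2 q.2 := by
  unfold PropPer
  have c2 : Primrec fun q : (ℕ × ℕ) × List Tile => 2 * q.1.1 + 1 :=
    p_add (p_mul (Primrec.const 2) (Primrec.fst.comp Primrec.fst)) (Primrec.const 1)
  have r2 : Primrec fun q : (ℕ × ℕ) × List Tile => 2 * RR q.1.1 + 1 :=
    p_add (p_mul (Primrec.const 2) (p_RR.comp (Primrec.fst.comp Primrec.fst))) (Primrec.const 1)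
  apply pp_exists_lt c2
  apply pp_exists_lt (c2.comp Primrec.fst)
  apply PrimrecPred.and
  · apply PrimrecPred.not
    apply PrimrecPred.and
    · exact pp_eq (Primrec.snd.comp Primrec.fst)
        (Primrec.fst.comp (Primrec.fst.comp (Primrec.fst.comp Primrec.fst)))
    · exact pp_eq Primrec.snd
        (Primrec.fst.comp (Primrec.fst.comp (Primrec.fst.comp Primrec.fst)))
  · apply pp_forall_lt (r2.comp (Primrec.fst.comp Primrec.fst))
    apply pp_forall_lt (r2.comp (Primrec.fst.comp (Primrec.fst.comp Primrec.fst)))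
    -- `((((((C, o), p), a), b), i), j)`
    have hj : Primrec fun q : (((((ℕ × ℕ) × List Tile) × ℕ) × ℕ) × ℕ) × ℕ => q.2 := Primrec.snd
    have hi : Primrec fun q : (((((ℕ × ℕ) × List Tile) × ℕ) × ℕ) × ℕ) × ℕ => q.1.2 :=
      Primrec.snd.comp Primrec.fst
    have hb : Primrec fun q : (((((ℕ × ℕ) × List Tile) × ℕ) × ℕ) × ℕ) × ℕ => q.1.1.2 :=
      Primrec.snd.comp (Primrec.fst.comp Primrec.fst)
    have ha : Primrec fun q : (((((ℕ × ℕ) × List Tile) × ℕ) × ℕ) × ℕ) × ℕ => q.1.1.1.2 :=
      Primrec.snd.comp (Primrec.fst.comp (Primrec.fst.comp Primrec.fst))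
    have h0 : Primrec fun q : (((((ℕ × ℕ) × List Tile) × ℕ) × ℕ) × ℕ) × ℕ => q.1.1.1.1 :=
      Primrec.fst.comp (Primrec.fst.comp (Primrec.fst.comp Primrec.fst))
    have hp : Primrec fun q : (((((ℕ × ℕ) × List Tile) × ℕ) × ℕ) × ℕ) × ℕ => q.1.1.1.1.2 :=
      Primrec.snd.comp h0
    have hC : Primrec fun q : (((((ℕ × ℕ) × List Tile) × ℕ) × ℕ) × ℕ) × ℕ => q.1.1.1.1.1.1 :=
      Primrec.fst.comp (Primrec.fst.comp h0)
    have ho : Primrec fun q : (((((ℕ × ℕ) × List Tile) × ℕ) × ℕ) × ℕ) × ℕ => q.1.1.1.1.1.2 :=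
      Primrec.snd.comp (Primrec.fst.comp h0)
    have hs := p_side.comp hC ho
    exact pp_eq
      (p_get hp (p_add (p_mul (p_add (p_add ho hi) ha) hs) (p_add (p_add ho hj) hb)))
      (p_get hp (p_add (p_mul (p_add (p_add ho hi) hC) hs) (p_add (p_add ho hj) hC)))

theorem pp_test : PrimrecPred fun q : List Tile × (ℕ × ℕ) => Test q.1 q.2.1 q.2.2 := by
  unfold Test
  have hs : Primrec fun q : List Tile × (ℕ × ℕ) => side q.2.1 q.2.2 :=
    p_side.comp (Primrec.fst.comp Primrec.snd) (Primrec.snd.comp Primrec.snd)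
  apply pp_forall_mem (p_pats.comp Primrec.fst (p_mul hs hs))
  apply pp_imp
  · exact pp_valid.comp (Primrec.pair (hs.comp Primrec.fst) Primrec.snd)
  · exact pp_propPer.comp (Primrec.pair (Primrec.snd.comp Primrec.fst) Primrec.snd)

theorem pp_exists_valid : PrimrecPred fun q : List Tile × ℕ =>
    ∃ p ∈ pats q.1 ((2 * q.2 + 1) * (2 * q.2 + 1)), Valid (2 * q.2 + 1) p := by
  have hs : Primrec fun q : List Tile × ℕ => 2 * q.2 + 1 :=
    p_add (p_mul (Primrec.const 2) Primrec.snd) (Primrec.const 1)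
  apply pp_exists_mem (p_pats.comp Primrec.fst (p_mul hs hs))
  exact pp_valid.comp (Primrec.pair (hs.comp Primrec.fst) Primrec.snd)

/-- projections of decidable relations are recursively enumerable -/
theorem re_exists {α : Type*} [Primcodable α] {P : α → ℕ → Prop}
    (h : ComputablePred fun q : α × ℕ => P q.1 q.2) : REPred fun a => ∃ n, P a n := by
  obtain ⟨hd, hc⟩ := h
  have h1 : Partrec fun a : α => Nat.rfind fun n => Part.some (@decide (P a n) (hd (a, n))) := by
    apply Partrec.rfind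
    exact (Computable.partrec hc).to₂
  refine h1.dom_re.of_eq fun a => ?_
  rw [Nat.rfind_dom]
  constructor
  · rintro ⟨n, hn, -⟩
    refine ⟨n, ?_⟩
    simpa using hn
  · rintro ⟨n, hn⟩
    exact ⟨n, by simpa using hn, fun _ => trivial⟩

/-- test with a single parameter -/
def TestK (c k : ℕ) : Prop := Test (protoset c) (k.unpair.1 + 1) k.unpair.2

/-- existence of a valid pattern -/
def PatK (c m : ℕ) : Prop :=
  ∃ p ∈ pats (protoset c) ((2 * m + 1) * (2 * m + 1)), Valid (2 * m + 1) p

theorem p_protoset : Primrec protoset :=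
  Primrec.option_getD.comp Primrec.decode (Primrec.const [])

theorem pp_testK : PrimrecPred fun q : ℕ × ℕ => TestK q.1 q.2 := by
  have h2 : Primrec fun q : ℕ × ℕ => q.2.unpair := Primrec.unpair.comp Primrec.snd
  exact pp_test.comp (Primrec.pair (p_protoset.comp Primrec.fst)
    (Primrec.pair (p_add (Primrec.fst.comp h2) (Primrec.const 1)) (Primrec.snd.comp h2)))

theorem pp_patK : PrimrecPred fun q : ℕ × ℕ => PatK q.1 q.2 :=
  pp_exists_valid.comp (Primrec.pair (p_protoset.comp Primrec.fst) Primrec.snd)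

theorem all_periodic_iffK {c : ℕ} :
    (∀ T, IsTiling (protoset c) T → IsPeriodic T) ↔ ∃ k, TestK c k := by
  rw [all_periodic_iff]
  constructor
  · rintro ⟨C, o, h⟩
    refine ⟨Nat.pair C o, ?_⟩
    simpa [TestK] using h
  · rintro ⟨k, h⟩
    exact ⟨_, _, h⟩

theorem exists_tiling_iffK {c : ℕ} : (∃ T, IsTiling (protoset c) T) ↔ ∀ m, PatK c m :=
  exists_tiling_iff

end Pool.Agent.P8H87
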