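import Mathlib

/-!
# Wang tiles: definitions

The definitions used in the statement of the result on `PTile_FIN`.
-/

namespace Pool.Agent.P8H87

/-- A Wang tile: the colours of its east, north, west and south edges. -/
abbrev Tile : Type := ℕ × ℕ × ℕ × ℕ

/-- the colour of the east edge -/
def Tile.east (t : Tile) : ℕ := t.1

/-- the colour of the north edge -/
def Tile.north (t : Tile) : ℕ := t.2.1

/-- the colour of the west edge -/
def Tile.west (t : Tile) : ℕ := t.2.2.1

/-- the colour of the south edge -/
def Tile.south (t : Tile) : ℕ := t.2.2.2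

/-- `T` is a tiling of the whole plane by the finite set of the members of the list `S`: any two
horizontally or vertically adjacent tiles carry the same colour on their common edge. -/
def IsTiling (S : List Tile) (T : ℤ × ℤ → Tile) : Prop :=
  (∀ z, T z ∈ S) ∧
  (∀ x y : ℤ, Tile.east (T (x, y)) = Tile.west (T (x + 1, y))) ∧
  (∀ x y : ℤ, Tile.north (T (x, y)) = Tile.south (T (x, y + 1)))

/-- The tiling `T` is periodic: it has a nonzero period. -/
def IsPeriodic (T : ℤ × ℤ → Tile) : Prop := ∃ v : ℤ × ℤ, v ≠ 0 ∧ ∀ x, T (x + v) = T x

/-- The finite prototile set with the code `c`: natural numbers code the finite lists of quadruples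
of natural numbers, by Mathlib's standard (bijective) coding `Encodable.encode`, whose inverse is
`Encodable.decode`. -/
def protoset (c : ℕ) : List Tile := (Encodable.decode (α := List Tile) c).getD []

/-- every finite list of Wang tiles has a code -/
theorem protoset_encode (S : List Tile) : protoset (Encodable.encode S) = S := by
  simp [protoset]

/-- `PTile_FIN`: the set of (the codes of) the finite prototile sets which admit at least one tiling
and all of whose tilings are periodic. -/
def PTileFin : Set ℕ :=
  {c | (∃ T, IsTiling (protoset c) T) ∧ ∀ T, IsTiling (protoset c) T → IsPeriodic T}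

/-- The arithmetical hierarchy: `A` is `Σ⁰_0` if it is decidable, and `A` is `Σ⁰_{n+1}` if it is the
projection `{x | ∃ y, ⟨x, y⟩ ∈ Bᶜ}` of the complement (a `Π⁰_n` set) of some `Σ⁰_n` set `B`. -/
def IsSigma : ℕ → Set ℕ → Prop
  | 0, A => ComputablePred (fun x => x ∈ A)
  | n + 1, A => ∃ B : Set ℕ, IsSigma n B ∧ ∀ x, x ∈ A ↔ ∃ y, Nat.pair x y ∉ B

/-- `A` is `Π⁰_n`: its complement is `Σ⁰_n`. -/
def IsPi (n : ℕ) (A : Set ℕ) : Prop := IsSigma n Aᶜ

/-- `A` is arithmetical: it is `Σ⁰_n` for some `n`. -/
def IsArithmetical (A : Set ℕ) : Prop := ∃ n, IsSigma n A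

end Pool.Agent.P8H87
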