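import Pool.Agent.P8H87.PerUnif
import Pool.Agent.P8H87.WangDefs

/-!
# Wang tilings: compactness

Both the existence of a tiling and the periodicity of all tilings are expressed by finite patterns.
-/

namespace Pool.Agent.P8H87

open Set Topology

/-- all lists of length `k` with entries in `S` -/
def pats (S : List Tile) : ℕ → List (List Tile)
  | 0 => [[]]
  | k + 1 => (pats S k).flatMap fun p => S.map fun t => t :: p

theorem mem_pats {S : List Tile} {k : ℕ} {p : List Tile} :
    p ∈ pats S k ↔ p.length = k ∧ ∀ t ∈ p, t ∈ S := by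
  induction k generalizing p with
  | zero =>
    simp only [pats, List.mem_singleton]
    constructor
    · rintro rfl
      simp
    · rintro ⟨h, -⟩
      exact List.length_eq_zero_iff.1 h
  | succ k ih =>
    simp only [pats, List.mem_flatMap, List.mem_map]
    constructor
    · rintro ⟨q, hq, t, ht, rfl⟩
      obtain ⟨h1, h2⟩ := ih.1 hq
      refine ⟨by simp [h1], ?_⟩
      intro s hs
      rcases List.mem_cons.1 hs with rfl | hs
      · exact ht
      · exact h2 s hs
    · rintro ⟨h1, h2⟩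
      cases p with
      | nil => simp at h1
      | cons t q =>
        refine ⟨q, ih.2 ⟨by simpa using h1, fun s hs => h2 s (List.mem_cons_of_mem _ hs)⟩, t,
          h2 t List.mem_cons_self, rfl⟩

/-- the pattern `p` on the square with side `n` is valid -/
def Valid (n : ℕ) (p : List Tile) : Prop :=
  ∀ i < n, ∀ j < n,
    (i + 1 < n → (p.getD (i * n + j) default).1 = (p.getD ((i + 1) * n + j) default).2.2.1) ∧
    (j + 1 < n → (p.getD (i * n + j) default).2.1 = (p.getD (i * n + (j + 1)) default).2.2.2)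

/-- the side of the square for the test -/
def side (C o : ℕ) : ℕ := 2 * (RR C + C + o) + 1

/-- the pattern has a local period of size at most `C` in the middle -/
def PropPer (C o : ℕ) (p : List Tile) : Prop :=
  ∃ a < 2 * C + 1, ∃ b < 2 * C + 1, ¬ (a = C ∧ b = C) ∧
    ∀ i < 2 * RR C + 1, ∀ j < 2 * RR C + 1,
      p.getD ((o + i + a) * side C o + (o + j + b)) default =
        p.getD ((o + i + C) * side C o + (o + j + C)) default

/-- `p` is the restriction of `T` to the square with the half-side `m` -/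
def Rep (m : ℕ) (p : List Tile) (T : ℤ × ℤ → Tile) : Prop :=
  ∀ i < 2 * m + 1, ∀ j < 2 * m + 1,
    p.getD (i * (2 * m + 1) + j) default = T ((i : ℤ) - m, (j : ℤ) - m)

/-- `T` is a tiling within the square with the half-side `m` -/
def Match (m : ℕ) (T : ℤ × ℤ → Tile) : Prop :=
  (∀ x y : ℤ, -m ≤ x → x + 1 ≤ m → -m ≤ y → y ≤ m →
    Tile.east (T (x, y)) = Tile.west (T (x + 1, y))) ∧
  (∀ x y : ℤ, -m ≤ x → x ≤ m → -m ≤ y → y + 1 ≤ m →
    Tile.north (T (x, y)) = Tile.south (T (x, y + 1)))

theorem index_lt {n i j : ℕ} (hi : i < n) (hj : j < n) : i * n + j < n * n := by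
  calc i * n + j < i * n + n := by omega
    _ = (i + 1) * n := by ring
    _ ≤ n * n := Nat.mul_le_mul_right _ hi

/-- restriction -/
theorem exists_pat {S : List Tile} {T : ℤ × ℤ → Tile} (hT : ∀ z, T z ∈ S) (m : ℕ) :
    ∃ p ∈ pats S ((2 * m + 1) * (2 * m + 1)), Rep m p T := by
  set n := 2 * m + 1 with hn
  refine ⟨List.ofFn (fun k : Fin (n * n) =>
    T (((k.1 / n : ℕ) : ℤ) - m, ((k.1 % n : ℕ) : ℤ) - m)), ?_, ?_⟩
  · rw [mem_pats]
    refine ⟨List.length_ofFn, ?_⟩
    intro t ht
    rw [List.mem_ofFn] at ht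
    obtain ⟨k, rfl⟩ := ht
    exact hT _
  · intro i hi j hj
    have h1 := index_lt hi hj
    rw [List.getD_eq_getElem _ _ (by rw [List.length_ofFn]; exact h1), List.getElem_ofFn]
    have h2 : (i * n + j) / n = i := by
      rw [mul_comm, Nat.mul_add_div (by omega), Nat.div_eq_of_lt hj, add_zero]
    have h3 : (i * n + j) % n = j := by
      rw [mul_comm, Nat.mul_add_mod, Nat.mod_eq_of_lt hj]
    have h2' : (i * (2 * m + 1) + j) / n = i := h2
    have h3' : (i * (2 * m + 1) + j) % n = j := h3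
    show T (((((i * (2 * m + 1) + j) / n : ℕ)) : ℤ) - m, (((i * (2 * m + 1) + j) % n : ℕ) : ℤ) - m)
      = _
    rw [h2', h3']

/-- extension of a pattern to a configuration -/
theorem exists_conf {S : List Tile} {m : ℕ} {p : List Tile}
    (hp : p ∈ pats S ((2 * m + 1) * (2 * m + 1))) :
    ∃ T : ℤ × ℤ → Tile, (∀ z, T z ∈ S) ∧ Rep m p T := by
  set n := 2 * m + 1 with hn
  obtain ⟨h1, h2⟩ := mem_pats.1 hp
  let cl : ℤ → ℕ := fun x => (max (-(m : ℤ)) (min m x) + m).toNat
  have hcl : ∀ x, cl x < n := by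
    intro x
    simp only [cl]
    omega
  refine ⟨fun z => p.getD (cl z.1 * n + cl z.2) default, ?_, ?_⟩
  · intro z
    have h3 := index_lt (hcl z.1) (hcl z.2)
    show p.getD (cl z.1 * n + cl z.2) default ∈ S
    rw [List.getD_eq_getElem _ _ (by rw [h1]; exact h3)]
    exact h2 _ (List.getElem_mem _)
  · intro i hi j hj
    have h3 : cl ((i : ℤ) - m) = i := by simp only [cl]; omega
    have h4 : cl ((j : ℤ) - m) = j := by simp only [cl]; omega
    show _ = p.getD (cl ((i : ℤ) - m) * n + cl ((j : ℤ) - m)) default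
    rw [h3, h4]

theorem valid_iff {m : ℕ} {p : List Tile} {T : ℤ × ℤ → Tile} (h : Rep m p T) :
    Valid (2 * m + 1) p ↔ Match m T := by
  constructor
  · intro hv
    constructor
    · intro x y h1 h2 h3 h4
      obtain ⟨i, hi⟩ := Int.eq_ofNat_of_zero_le (show 0 ≤ x + m by omega)
      obtain ⟨j, hj⟩ := Int.eq_ofNat_of_zero_le (show 0 ≤ y + m by omega)
      have hi1 : i + 1 < 2 * m + 1 := by omega
      have hj1 : j < 2 * m + 1 := by omega
      have h5 := (hv i (by omega) j hj1).1 hi1
      rw [h i (by omega) j hj1, h (i + 1) hi1 j hj1] at h5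
      have e1 : (i : ℤ) - m = x := by omega
      have e2 : (j : ℤ) - m = y := by omega
      have e3 : ((i + 1 : ℕ) : ℤ) - m = x + 1 := by push_cast; omega
      rw [e1, e2, e3] at h5
      exact h5
    · intro x y h1 h2 h3 h4
      obtain ⟨i, hi⟩ := Int.eq_ofNat_of_zero_le (show 0 ≤ x + m by omega)
      obtain ⟨j, hj⟩ := Int.eq_ofNat_of_zero_le (show 0 ≤ y + m by omega)
      have hi1 : i < 2 * m + 1 := by omega
      have hj1 : j + 1 < 2 * m + 1 := by omega
      have h5 := (hv i hi1 j (by omega)).2 hj1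
      rw [h i hi1 j (by omega), h i hi1 (j + 1) hj1] at h5
      have e1 : (i : ℤ) - m = x := by omega
      have e2 : (j : ℤ) - m = y := by omega
      have e3 : ((j + 1 : ℕ) : ℤ) - m = y + 1 := by push_cast; omega
      rw [e1, e2, e3] at h5
      exact h5
  · rintro ⟨h1, h2⟩ i hi j hj
    constructor
    · intro hi1
      rw [h i hi j hj, h (i + 1) hi1 j hj]
      have := h1 ((i : ℤ) - m) ((j : ℤ) - m) (by omega) (by omega) (by omega) (by omega)
      have e3 : ((i + 1 : ℕ) : ℤ) - m = (i : ℤ) - m + 1 := by push_cast; ring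
      rw [e3]
      exact this
    · intro hj1
      rw [h i hi j hj, h i hi (j + 1) hj1]
      have := h2 ((i : ℤ) - m) ((j : ℤ) - m) (by omega) (by omega) (by omega) (by omega)
      have e3 : ((j + 1 : ℕ) : ℤ) - m = (j : ℤ) - m + 1 := by push_cast; ring
      rw [e3]
      exact this

theorem nm_le_iff {z : ℤ × ℤ} {R : ℤ} : nm z ≤ R ↔ (-R ≤ z.1 ∧ z.1 ≤ R) ∧ -R ≤ z.2 ∧ z.2 ≤ R := by
  unfold nm
  rw [max_le_iff, abs_le, abs_le]

theorem propPer_iff {C o : ℕ} {p : List Tile} {T : ℤ × ℤ → Tile}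
    (h : Rep (RR C + C + o) p T) : PropPer C o p ↔ T ∉ KK C := by
  have hget : ∀ i j : ℕ, i < side C o → j < side C o → p.getD (i * side C o + j) default =
      T ((i : ℤ) - (RR C + C + o), (j : ℤ) - (RR C + C + o)) := by
    intro i j hi hj
    have := h i hi j hj
    push_cast at this
    exact this
  constructor
  · rintro ⟨a, ha, b, hb, hab, hper⟩ hK
    apply hK ((a : ℤ) - C, (b : ℤ) - C)
    · intro h0
      have h1 := congrArg Prod.fst h0
      have h2 := congrArg Prod.snd h0
      simp only [Prod.fst_zero, Prod.snd_zero] at h1 h2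
      apply hab
      constructor <;> omega
    · rw [nm_le_iff]
      constructor <;> constructor <;> simp only <;> omega
    · intro z hz
      rw [sub_zero, nm_le_iff] at hz
      obtain ⟨i, hi⟩ := Int.eq_ofNat_of_zero_le (show 0 ≤ z.1 + RR C by omega)
      obtain ⟨j, hj⟩ := Int.eq_ofNat_of_zero_le (show 0 ≤ z.2 + RR C by omega)
      have h1 := hper i (by omega) j (by omega)
      have hs : side C o = 2 * (RR C + C + o) + 1 := rfl
      rw [hget _ _ (by omega) (by omega), hget _ _ (by omega) (by omega)] at h1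
      have e1 : ((o + i + a : ℕ) : ℤ) - (RR C + C + o) = z.1 + (a - C) := by push_cast; omega
      have e2 : ((o + j + b : ℕ) : ℤ) - (RR C + C + o) = z.2 + (b - C) := by push_cast; omega
      have e3 : ((o + i + C : ℕ) : ℤ) - (RR C + C + o) = z.1 := by push_cast; omega
      have e4 : ((o + j + C : ℕ) : ℤ) - (RR C + C + o) = z.2 := by push_cast; omega
      rw [e1, e2, e3, e4] at h1
      exact h1
  · intro hK
    unfold KK at hK
    simp only [mem_setOf_eq, not_forall, not_not] at hK
    obtain ⟨v, h0, hvC, hloc⟩ := hK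
    rw [nm_le_iff] at hvC
    obtain ⟨a, ha⟩ := Int.eq_ofNat_of_zero_le (show 0 ≤ v.1 + C by omega)
    obtain ⟨b, hb⟩ := Int.eq_ofNat_of_zero_le (show 0 ≤ v.2 + C by omega)
    refine ⟨a, by omega, b, by omega, ?_, ?_⟩
    · rintro ⟨h1, h2⟩
      apply h0
      ext
      · show v.1 = 0
        omega
      · show v.2 = 0
        omega
    · intro i hi j hj
      have hs : side C o = 2 * (RR C + C + o) + 1 := rfl
      rw [hget _ _ (by omega) (by omega), hget _ _ (by omega) (by omega)]
      have h1 := hloc ((i : ℤ) - RR C, (j : ℤ) - RR C) (by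
        rw [sub_zero, nm_le_iff]
        constructor <;> constructor <;> simp only <;> omega)
      have e1 : ((o + i + a : ℕ) : ℤ) - (RR C + C + o) = (i : ℤ) - RR C + v.1 := by
        push_cast; omega
      have e2 : ((o + j + b : ℕ) : ℤ) - (RR C + C + o) = (j : ℤ) - RR C + v.2 := by
        push_cast; omega
      have e3 : ((o + i + C : ℕ) : ℤ) - (RR C + C + o) = (i : ℤ) - RR C := by push_cast; ring
      have e4 : ((o + j + C : ℕ) : ℤ) - (RR C + C + o) = (j : ℤ) - RR C := by push_cast; ring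
      rw [e1, e2, e3, e4]
      exact h1

/-- the configurations with tiles in `S` form a compact set -/
theorem isCompact_confs (S : List Tile) : IsCompact {T : ℤ × ℤ → Tile | ∀ z, T z ∈ S} := by
  have h1 : {T : ℤ × ℤ → Tile | ∀ z, T z ∈ S} = Set.pi univ (fun _ => {t | t ∈ S}) := by
    ext T
    simp
  rw [h1]
  apply isCompact_univ_pi
  intro _
  exact (List.finite_toSet S).isCompact

theorem isClosed_rel (f g : Tile → ℕ) (a b : ℤ × ℤ) :
    IsClosed {T : ℤ × ℤ → Tile | f (T a) = g (T b)} := by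
  have h1 : Continuous (fun T : ℤ × ℤ → Tile => (T a, T b)) :=
    (continuous_apply a).prodMk (continuous_apply b)
  have : {T : ℤ × ℤ → Tile | f (T a) = g (T b)} =
    (fun T : ℤ × ℤ → Tile => (T a, T b)) ⁻¹' {p | f p.1 = g p.2} := rfl
  rw [this]
  exact (isClosed_discrete _).preimage h1

theorem isClosed_Match (m : ℕ) : IsClosed {T | Match m T} := by
  have : {T | Match m T} =
    (⋂ (x : ℤ) (y : ℤ) (_ : -(m : ℤ) ≤ x) (_ : x + 1 ≤ m) (_ : -(m : ℤ) ≤ y) (_ : y ≤ m),
      {T : ℤ × ℤ → Tile | Tile.east (T (x, y)) = Tile.west (T (x + 1, y))}) ∩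
    (⋂ (x : ℤ) (y : ℤ) (_ : -(m : ℤ) ≤ x) (_ : x ≤ m) (_ : -(m : ℤ) ≤ y) (_ : y + 1 ≤ m),
      {T : ℤ × ℤ → Tile | Tile.north (T (x, y)) = Tile.south (T (x, y + 1))}) := by
    ext T
    simp only [mem_inter_iff, mem_iInter]
    rfl
  rw [this]
  apply IsClosed.inter
  · refine isClosed_iInter fun x => isClosed_iInter fun y => isClosed_iInter fun _ =>
      isClosed_iInter fun _ => isClosed_iInter fun _ => isClosed_iInter fun _ => ?_
    exact isClosed_rel _ _ _ _
  · refine isClosed_iInter fun x => isClosed_iInter fun y => isClosed_iInter fun _ =>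
      isClosed_iInter fun _ => isClosed_iInter fun _ => isClosed_iInter fun _ => ?_
    exact isClosed_rel _ _ _ _

theorem Match.mono {m m' : ℕ} (hm : m ≤ m') {T : ℤ × ℤ → Tile} (h : Match m' T) : Match m T := by
  constructor
  · intro x y h1 h2 h3 h4
    exact h.1 x y (by omega) (by omega) (by omega) (by omega)
  · intro x y h1 h2 h3 h4
    exact h.2 x y (by omega) (by omega) (by omega) (by omega)

theorem isTiling_iff {S : List Tile} {T : ℤ × ℤ → Tile} :
    IsTiling S T ↔ (∀ z, T z ∈ S) ∧ ∀ m, Match m T := by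
  constructor
  · rintro ⟨h1, h2, h3⟩
    exact ⟨h1, fun m => ⟨fun x y _ _ _ _ => h2 x y, fun x y _ _ _ _ => h3 x y⟩⟩
  · rintro ⟨h1, h2⟩
    refine ⟨h1, fun x y => ?_, fun x y => ?_⟩
    · exact (h2 (x.natAbs + y.natAbs + 1)).1 x y (by omega) (by omega) (by omega) (by omega)
    · exact (h2 (x.natAbs + y.natAbs + 1)).2 x y (by omega) (by omega) (by omega) (by omega)

/-- compactness -/
theorem exists_tiling_of_all {S : List Tile} {K : Set (ℤ × ℤ → Tile)} (hK : IsClosed K)
    (f : ℕ → ℕ) (hf : ∀ m, m ≤ f m)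
    (h : ∀ m, ∃ T ∈ K, (∀ z, T z ∈ S) ∧ Match (f m) T) : ∃ T ∈ K, IsTiling S T := by
  let t : ℕ → Set (ℤ × ℤ → Tile) := fun m => {T | ∀ z, T z ∈ S} ∩ (K ∩ {T | Match m T})
  have hcl : ∀ m, IsClosed (t m) := fun m =>
    (isCompact_confs S).isClosed.inter (hK.inter (isClosed_Match m))
  have h1 : (⋂ m, t m).Nonempty := by
    apply IsCompact.nonempty_iInter_of_sequence_nonempty_isCompact_isClosed
    · intro m T hT
      exact ⟨hT.1, hT.2.1, hT.2.2.mono (Nat.le_succ m)⟩
    · intro m
      obtain ⟨T, hT1, hT2, hT3⟩ := h m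
      exact ⟨T, hT2, hT1, hT3.mono (hf m)⟩
    · exact (isCompact_confs S).inter_right (hK.inter (isClosed_Match 0))
    · exact hcl
  obtain ⟨T, hT⟩ := h1
  rw [mem_iInter] at hT
  exact ⟨T, (hT 0).2.1, isTiling_iff.2 ⟨(hT 0).1, fun m => (hT m).2.2⟩⟩

/-- existence of a tiling -/
theorem exists_tiling_iff {S : List Tile} :
    (∃ T, IsTiling S T) ↔
      ∀ m, ∃ p ∈ pats S ((2 * m + 1) * (2 * m + 1)), Valid (2 * m + 1) p := by
  constructor
  · rintro ⟨T, hT⟩ m
    obtain ⟨h1, h2⟩ := isTiling_iff.1 hT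
    obtain ⟨p, hp, hrep⟩ := exists_pat h1 m
    exact ⟨p, hp, (valid_iff hrep).2 (h2 m)⟩
  · intro h
    obtain ⟨T, -, hT⟩ := exists_tiling_of_all (S := S) (K := univ) isClosed_univ id
      (fun m => le_rfl) (fun m => by
        obtain ⟨p, hp, hv⟩ := h m
        obtain ⟨T, hT, hrep⟩ := exists_conf hp
        exact ⟨T, mem_univ _, hT, (valid_iff hrep).1 hv⟩)
    exact ⟨T, hT⟩

/-- the finite test -/
def Test (S : List Tile) (C o : ℕ) : Prop :=
  ∀ p ∈ pats S (side C o * side C o), Valid (side C o) p → PropPer C o p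

theorem inv_tilings (S : List Tile) : Inv {T | IsTiling S T} := by
  rintro T ⟨h1, h2, h3⟩ x
  refine ⟨fun z => h1 _, fun a b => ?_, fun a b => ?_⟩
  · have := h2 (a + x.1) (b + x.2)
    have e : a + x.1 + 1 = a + 1 + x.1 := by ring
    rw [e] at this
    exact this
  · have := h3 (a + x.1) (b + x.2)
    have e : b + x.2 + 1 = b + 1 + x.2 := by ring
    rw [e] at this
    exact this

theorem isCompact_tilings (S : List Tile) : IsCompact {T | IsTiling S T} := by
  have : {T | IsTiling S T} = {T | ∀ z, T z ∈ S} ∩ ⋂ m, {T | Match m T} := by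
    ext T
    rw [mem_inter_iff, mem_iInter]
    exact isTiling_iff
  rw [this]
  exact (isCompact_confs S).inter_right (isClosed_iInter fun m => isClosed_Match m)

/-- **periodicity of all tilings is a finite condition** -/
theorem all_periodic_iff {S : List Tile} :
    (∀ T, IsTiling S T → IsPeriodic T) ↔ ∃ C o, Test S (C + 1) o := by
  constructor
  · intro h
    obtain ⟨C, hC⟩ := good_of_periodic (isCompact_tilings S) (inv_tilings S)
      (fun T hT => h T hT)
    refine ⟨C, ?_⟩
    by_contra hcon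
    push Not at hcon
    obtain ⟨T, hTK, hT⟩ := exists_tiling_of_all (S := S) (K := KK (C + 1)) (isClosed_KK _)
      (fun o => RR (C + 1) + (C + 1) + o) (fun m => by omega) (fun o => by
        have h1 := hcon o
        unfold Test at h1
        push Not at h1
        obtain ⟨p, hp, hv, hper⟩ := h1
        obtain ⟨T, hT, hrep⟩ := exists_conf (m := RR (C + 1) + (C + 1) + o) hp
        refine ⟨T, ?_, hT, (valid_iff hrep).1 hv⟩
        by_contra hK
        exact hper ((propPer_iff hrep).2 hK))
    obtain ⟨v, h0, hv, hper⟩ := hC T hT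
    refine notMem_KK h0 (hv.trans ?_) hper hTK
    push_cast
    linarith
  · rintro ⟨C, o, htest⟩ T hT
    have h1 : ∀ T ∈ {T | IsTiling S T}, T ∉ KK (C + 1) := by
      intro T hT
      obtain ⟨h1, h2⟩ := isTiling_iff.1 hT
      obtain ⟨p, hp, hrep⟩ := exists_pat h1 (RR (C + 1) + (C + 1) + o)
      exact (propPer_iff hrep).1 (htest p hp ((valid_iff hrep).2 (h2 _)))
    obtain ⟨E, hE0, -, hE⟩ := good_of_disjoint (inv_tilings S) (by omega) h1 T hT
    exact ⟨E, hE0, hE⟩

end Pool.Agent.P8H87
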