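import Mathlib
import Pool.Agent.P8H87.WangCode

/-!
# The levels of `PTile_FIN` in the arithmetical hierarchy
-/

namespace Pool.Agent.P8H87

theorem p_unpair1 : Primrec fun w : ℕ => w.unpair.1 := Primrec.fst.comp Primrec.unpair
theorem p_unpair2 : Primrec fun w : ℕ => w.unpair.2 := Primrec.snd.comp Primrec.unpair

theorem mem_ptile {x : ℕ} : x ∈ PTileFin ↔ (∀ m, PatK x m) ∧ ∃ k, TestK x k := by
  rw [← all_periodic_iffK, ← exists_tiling_iffK]
  rfl

/-- a decidable set is `Σ⁰_0`; the projection of the complement of a decidable relation -/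
theorem sigma_one {P : ℕ → ℕ → Prop} (h : PrimrecPred fun q : ℕ × ℕ => P q.1 q.2) :
    IsSigma 1 {x | ∃ m, ¬ P x m} := by
  refine ⟨{w | P w.unpair.1 w.unpair.2}, ?_, ?_⟩
  · show ComputablePred fun w : ℕ => w ∈ {w : ℕ | P w.unpair.1 w.unpair.2}
    have h2 : PrimrecPred fun w : ℕ => P w.unpair.1 w.unpair.2 :=
      h.comp (Primrec.pair p_unpair1 p_unpair2)
    exact h2.computablePred
  · intro x
    simp

theorem sigma_two_ptile : IsSigma 2 PTileFin := by
  refine ⟨{z | ∃ m, ¬ (TestK z.unpair.1 z.unpair.2 ∧ PatK z.unpair.1 m)}, ?_, ?_⟩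
  · apply sigma_one (P := fun z m => TestK z.unpair.1 z.unpair.2 ∧ PatK z.unpair.1 m)
    apply PrimrecPred.and
    · exact pp_testK.comp (Primrec.pair (p_unpair1.comp Primrec.fst) (p_unpair2.comp Primrec.fst))
    · exact pp_patK.comp (Primrec.pair (p_unpair1.comp Primrec.fst) Primrec.snd)
  · intro x
    rw [mem_ptile]
    simp only [Set.mem_setOf_eq, Nat.unpair_pair, not_exists, not_not]
    constructor
    · rintro ⟨h1, k, hk⟩
      exact ⟨k, fun m => ⟨hk, h1 m⟩⟩
    · rintro ⟨y, hy⟩
      exact ⟨fun m => (hy m).2, y, (hy 0).1⟩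

theorem pi_two_ptile : IsPi 2 PTileFin := by
  refine ⟨{z | ∃ m, ¬ ((z.unpair.2 = 0 ∧ ¬ TestK z.unpair.1 m) ∨
    (0 < z.unpair.2 ∧ ¬ PatK z.unpair.1 (z.unpair.2 - 1)))}, ?_, ?_⟩
  · apply sigma_one (P := fun z m => (z.unpair.2 = 0 ∧ ¬ TestK z.unpair.1 m) ∨
      (0 < z.unpair.2 ∧ ¬ PatK z.unpair.1 (z.unpair.2 - 1)))
    have h2 : Primrec fun q : ℕ × ℕ => q.1.unpair.2 := p_unpair2.comp Primrec.fst
    have h1 : Primrec fun q : ℕ × ℕ => q.1.unpair.1 := p_unpair1.comp Primrec.fst
    apply PrimrecPred.or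
    · apply PrimrecPred.and
      · exact Primrec.eq.comp h2 (Primrec.const 0)
      · exact (pp_testK.comp (Primrec.pair h1 Primrec.snd)).not
    · apply PrimrecPred.and
      · exact Primrec.nat_lt.comp (Primrec.const 0) h2
      · exact (pp_patK.comp (Primrec.pair h1
          (Primrec.nat_sub.comp h2 (Primrec.const 1)))).not
  · intro x
    rw [Set.mem_compl_iff, mem_ptile]
    simp only [Set.mem_setOf_eq, Nat.unpair_pair, not_exists, not_not, not_and_or, not_forall]
    constructor
    · rintro (⟨m, hm⟩ | h)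
      · refine ⟨m + 1, fun k => Or.inr ⟨Nat.succ_pos m, ?_⟩⟩
        simpa using hm
      · exact ⟨0, fun k => Or.inl ⟨rfl, h k⟩⟩
    · rintro ⟨y, hy⟩
      rcases Nat.eq_zero_or_pos y with h0 | h0
      · right
        intro k
        rcases hy k with h | h
        · exact h.2
        · exact absurd h.1 (by omega)
      · left
        rcases hy 0 with h | h
        · exact absurd h.1 (by omega)
        · exact ⟨_, h.2⟩

theorem re_all_periodic : REPred fun c => ∀ T, IsTiling (protoset c) T → IsPeriodic T := by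
  have h : REPred fun c : ℕ => ∃ k, TestK c k := re_exists pp_testK.computablePred
  exact h.of_eq fun c => all_periodic_iffK.symm

theorem re_no_tiling : REPred fun c => ¬ ∃ T, IsTiling (protoset c) T := by
  have h : REPred fun c : ℕ => ∃ k, ¬ PatK c k :=
    re_exists (P := fun c k => ¬ PatK c k) pp_patK.not.computablePred
  refine h.of_eq fun c => ?_
  rw [exists_tiling_iffK]
  simp

end Pool.Agent.P8H87
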